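import Mathlib
import Pool.Agent.W189.NF.LSer

/-!
# The Euler product of the `L`-series to the right of the line `3/2`
-/

set_option autoImplicit false

namespace Pool.Agent.Y696

open IsDedekindDomain NumberField IsLocalRing ArithmeticFunction Pool.Agent.W189.NF
open Pool.Agent.H921R2.TatePole (nm two_le_nm nm_summable)

/-- the bound of Hasse for the coefficients of a local factor -/
def HBd (a e : ℤ) (q : ℕ) : Prop :=
  (a = 0 ∧ e = 0) ∨ ∃ x : ℂ, (a : ℂ) = x + (starRingEnd ℂ) x ∧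
    (e : ℂ) = x * (starRingEnd ℂ) x ∧ x * (starRingEnd ℂ) x = (q : ℂ)

lemma coeff_bd {a e : ℤ} {q : ℕ} (h : HBd a e q) {c : ℕ → ℤ} (h0 : c 0 = 1) (h1 : c 1 = a)
    (h2 : ∀ k, c (k + 2) = a * c (k + 1) - e * c k) (n : ℕ) :
    |(c n : ℝ)| ≤ (n + 1) * (Real.sqrt q) ^ n := by
  rcases h with ⟨rfl, rfl⟩ | ⟨x, ha, he, hq⟩
  · rcases n with _ | n
    · rw [h0]; simp
    · have : c (n + 1) = 0 := by
        rcases n with _ | n
        · exact h1
        · rw [h2]; ring
      rw [this, Int.cast_zero, abs_zero]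
      positivity
  · have hx : ‖x‖ = Real.sqrt q := by
      have h3 : ‖x‖ ^ 2 = q := by
        have := Complex.mul_conj x
        rw [hq] at this
        rw [← Complex.normSq_eq_norm_sq]
        exact_mod_cast this.symm
      rw [← h3, Real.sqrt_sq (norm_nonneg _)]
    have hd : ∀ k, (c (k + 1) : ℂ) - x * c k = ((starRingEnd ℂ) x) ^ (k + 1) := by
      intro k
      induction k with
      | zero =>
        rw [h0, h1, ha]
        push_cast
        ring
      | succ k ih =>
        rw [h2 k]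
        push_cast
        rw [ha, he, pow_succ _ (k + 1), ← ih]
        ring
    induction n with
    | zero => rw [h0]; simp
    | succ n ih =>
      have h4 : (c (n + 1) : ℂ) = x * c n + ((starRingEnd ℂ) x) ^ (n + 1) := by
        rw [← hd n]; ring
      have h5 : |((c (n + 1) : ℤ) : ℝ)| = ‖(c (n + 1) : ℂ)‖ := (Complex.norm_intCast _).symm
      rw [h5, h4]
      refine (norm_add_le _ _).trans ?_
      rw [norm_mul, norm_pow, RCLike.norm_conj, hx, Complex.norm_intCast]
      push_cast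
      calc Real.sqrt q * |(c n : ℝ)| + Real.sqrt q ^ (n + 1)
          ≤ Real.sqrt q * ((n + 1) * Real.sqrt q ^ n) + Real.sqrt q ^ (n + 1) := by gcongr
        _ = (n + 1 + 1) * Real.sqrt q ^ (n + 1) := by ring

variable {K : Type} [Field K] [NumberField K] (E : WeierstrassCurve K)

theorem fdata' (hE : ∀ v : HeightOneSpectrum (𝓞 K), HBd (aV E v) (eV E v) (nm v)) {σ : ℝ}
    (hσ : 3 / 2 < σ) : FData (fun v : HeightOneSpectrum (𝓞 K) => nm v) (locPS E) σ where
  two_le := two_le_nm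
  north := northcott_nm
  const := fun v => by
    rw [← PowerSeries.coeff_zero_eq_constantCoeff, locPS_eq]
    exact (inv_coeff (aV E v) (eV E v)).1
  sum := by
    have hg : Summable fun n : ℕ => ((n : ℝ) + 2) * (1 / 2 : ℝ) ^ n := by
      have g1 := summable_pow_mul_geometric_of_norm_lt_one (R := ℝ) 1 (r := 1 / 2)
        (by rw [Real.norm_eq_abs]; norm_num [abs_of_pos])
      have g2 := summable_geometric_of_lt_one (r := (1 / 2 : ℝ)) (by norm_num) (by norm_num)
      refine (g1.add (g2.mul_left 2)).congr fun n => ?_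
      ring
    have h1 := ((nm_summable (K := K) (x := σ - 1 / 2) (by linarith))).mul_of_nonneg hg
      (fun v => by positivity) (fun n => by positivity)
    refine Summable.of_nonneg_of_le (fun x => by positivity) (fun x => ?_) h1
    obtain ⟨v, n⟩ := x
    simp only
    have hq2 : (2 : ℝ) ≤ nm v := by exact_mod_cast two_le_nm v
    have hq0 : (0 : ℝ) < nm v := by linarith
    obtain ⟨e0, e1, e2⟩ := inv_coeff (aV E v) (eV E v)
    rw [← locPS_eq] at e0 e1 e2
    have h3 := coeff_bd (hE v) (c := fun k => (locPS E v).coeff k) e0 e1 e2 (n + 1)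
    have h4 : (nm v : ℝ) ^ (-(σ * (n + 1))) = ((nm v : ℝ) ^ (-σ)) ^ (n + 1) := by
      rw [← Real.rpow_natCast, ← Real.rpow_mul hq0.le]
      congr 1
      push_cast
      ring
    rw [h4]
    set y := (nm v : ℝ) ^ (-(σ - 1 / 2)) with hy
    have hy0 : 0 ≤ y := by positivity
    have h5 : Real.sqrt (nm v) * (nm v : ℝ) ^ (-σ) = y := by
      rw [hy, Real.sqrt_eq_rpow, ← Real.rpow_add hq0]
      congr 1
      ring
    have hy1 : y ≤ 1 / 2 := by
      calc y ≤ (nm v : ℝ) ^ (-1 : ℝ) :=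
            Real.rpow_le_rpow_of_exponent_le (by linarith) (by linarith)
        _ = (nm v : ℝ)⁻¹ := Real.rpow_neg_one _
        _ ≤ 2⁻¹ := inv_anti₀ (by norm_num) hq2
        _ = 1 / 2 := by norm_num
    calc |(((locPS E v).coeff (n + 1) : ℤ) : ℝ)| * ((nm v : ℝ) ^ (-σ)) ^ (n + 1) ≤
        (((n + 1 : ℕ) : ℝ) + 1) * Real.sqrt (nm v) ^ (n + 1) * ((nm v : ℝ) ^ (-σ)) ^ (n + 1) := by
          gcongr
      _ = ((n : ℝ) + 2) * (Real.sqrt (nm v) * (nm v : ℝ) ^ (-σ)) ^ (n + 1) := by
          rw [mul_pow]; push_cast; ring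
      _ = y * (((n : ℝ) + 2) * y ^ n) := by rw [h5, pow_succ]; ring
      _ ≤ y * (((n : ℝ) + 2) * (1 / 2) ^ n) := by gcongr

/-- **the Euler product of the `L`-series to the right of `3/2`** -/
theorem LSeries_hasProd' (hE : ∀ v : HeightOneSpectrum (𝓞 K), HBd (aV E v) (eV E v) (nm v))
    {s : ℂ} (hs : 3 / 2 < s.re) :
    LSeriesSummable ((fun n : ℤ => (n : ℂ)) ∘ E.LFunction) s ∧
    HasProd (fun v : HeightOneSpectrum (𝓞 K) =>
      (1 - (aV E v : ℂ) * (nm v : ℂ) ^ (-s) + (eV E v : ℂ) * ((nm v : ℂ) ^ (-s)) ^ 2)⁻¹)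
      (E.LSeries s) := by
  have h1 := (fdata' E hE hs).main (s := s) le_rfl
  rw [← LFunction_eq] at h1
  have h2 : (toC E.LFunction) = (fun n : ℤ => (n : ℂ)) ∘ E.LFunction := rfl
  have h3 : (fun v : HeightOneSpectrum (𝓞 K) =>
      (1 - (aV E v : ℂ) * (nm v : ℂ) ^ (-s) + (eV E v : ℂ) * ((nm v : ℂ) ^ (-s)) ^ 2)⁻¹) =
      fun v => ∑' k : ℕ, ((locPS E v).coeff k : ℂ) * ((nm v : ℂ) ^ (-s)) ^ k := by
    funext v
    obtain ⟨e0, e1, e2⟩ := inv_coeff (aV E v) (eV E v)
    rw [← locPS_eq] at e0 e1 e2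
    refine (rec_sum (c := fun k => (locPS E v).coeff k) e0 e1 e2 ?_).symm
    have h4 := (fdata' E hE hs).single v (τ := s.re) le_rfl
    refine Summable.of_norm_bounded h4 fun k => ?_
    have hq0 : (0 : ℝ) ≤ nm v := by positivity
    rw [norm_mul, norm_pow, Complex.norm_intCast,
      Complex.norm_natCast_cpow_of_pos (by have := two_le_nm v; omega)]
    apply le_of_eq
    congr 1
    rw [Complex.neg_re, ← Real.rpow_natCast, ← Real.rpow_mul hq0]
    congr 1
    ring
  rw [h3]
  exact ⟨by rw [← h2]; exact h1.1, h1.2⟩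

end Pool.Agent.Y696
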