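import Mathlib

/-!
# The ring `R[π]` with `π³ = 2`
-/

set_option autoImplicit false

namespace Pool.Agent.Y696

/-- the ring `R[π]` with `π³ = 2` -/
@[ext] structure Cb (R : Type) where
  /-- the coefficient of `1` -/
  a : R
  /-- the coefficient of `π` -/
  b : R
  /-- the coefficient of `π²` -/
  c : R

namespace Cb

section ring

variable {R : Type} [CommRing R]

instance : Zero (Cb R) := ⟨⟨0, 0, 0⟩⟩
instance : One (Cb R) := ⟨⟨1, 0, 0⟩⟩
instance : Add (Cb R) := ⟨fun x y => ⟨x.a + y.a, x.b + y.b, x.c + y.c⟩⟩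
instance : Neg (Cb R) := ⟨fun x => ⟨-x.a, -x.b, -x.c⟩⟩
instance : Sub (Cb R) := ⟨fun x y => ⟨x.a - y.a, x.b - y.b, x.c - y.c⟩⟩
instance : Mul (Cb R) := ⟨fun x y => ⟨x.a * y.a + 2 * (x.b * y.c + x.c * y.b),
  x.a * y.b + x.b * y.a + 2 * (x.c * y.c), x.a * y.c + x.b * y.b + x.c * y.a⟩⟩

@[simp] lemma zero_a : (0 : Cb R).a = 0 := rfl
@[simp] lemma zero_b : (0 : Cb R).b = 0 := rfl
@[simp] lemma zero_c : (0 : Cb R).c = 0 := rfl
@[simp] lemma one_a : (1 : Cb R).a = 1 := rfl
@[simp] lemma one_b : (1 : Cb R).b = 0 := rfl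
@[simp] lemma one_c : (1 : Cb R).c = 0 := rfl
@[simp] lemma add_a (x y : Cb R) : (x + y).a = x.a + y.a := rfl
@[simp] lemma add_b (x y : Cb R) : (x + y).b = x.b + y.b := rfl
@[simp] lemma add_c (x y : Cb R) : (x + y).c = x.c + y.c := rfl
@[simp] lemma neg_a (x : Cb R) : (-x).a = -x.a := rfl
@[simp] lemma neg_b (x : Cb R) : (-x).b = -x.b := rfl
@[simp] lemma neg_c (x : Cb R) : (-x).c = -x.c := rfl
@[simp] lemma sub_a (x y : Cb R) : (x - y).a = x.a - y.a := rfl
@[simp] lemma sub_b (x y : Cb R) : (x - y).b = x.b - y.b := rfl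
@[simp] lemma sub_c (x y : Cb R) : (x - y).c = x.c - y.c := rfl
@[simp] lemma mul_a (x y : Cb R) : (x * y).a = x.a * y.a + 2 * (x.b * y.c + x.c * y.b) := rfl
@[simp] lemma mul_b (x y : Cb R) : (x * y).b = x.a * y.b + x.b * y.a + 2 * (x.c * y.c) := rfl
@[simp] lemma mul_c (x y : Cb R) : (x * y).c = x.a * y.c + x.b * y.b + x.c * y.a := rfl

instance : CommRing (Cb R) where
  add_assoc x y z := by ext <;> simp <;> ring
  zero_add x := by ext <;> simp
  add_zero x := by ext <;> simp
  add_comm x y := by ext <;> simp <;> ring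
  left_distrib x y z := by ext <;> simp <;> ring
  right_distrib x y z := by ext <;> simp <;> ring
  zero_mul x := by ext <;> simp
  mul_zero x := by ext <;> simp
  mul_assoc x y z := by ext <;> simp <;> ring
  one_mul x := by ext <;> simp
  mul_one x := by ext <;> simp
  mul_comm x y := by ext <;> simp <;> ring
  neg_add_cancel x := by ext <;> simp
  sub_eq_add_neg x y := by ext <;> simp <;> ring
  nsmul := nsmulRec
  zsmul := zsmulRec

/-- the constants -/
def C : R →+* Cb R where
  toFun r := ⟨r, 0, 0⟩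
  map_one' := rfl
  map_zero' := rfl
  map_add' x y := by ext <;> simp
  map_mul' x y := by ext <;> simp

@[simp] lemma C_a (r : R) : (C r).a = r := rfl
@[simp] lemma C_b (r : R) : (C r).b = 0 := rfl
@[simp] lemma C_c (r : R) : (C r).c = 0 := rfl

lemma C_inj : Function.Injective (C : R → Cb R) := fun _ _ h => congrArg Cb.a h

/-- the cube root of two -/
def pi : Cb R := ⟨0, 1, 0⟩

@[simp] lemma pi_a : (pi : Cb R).a = 0 := rfl
@[simp] lemma pi_b : (pi : Cb R).b = 1 := rfl
@[simp] lemma pi_c : (pi : Cb R).c = 0 := rfl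

lemma two_eq : (2 : Cb R) = C 2 := (map_ofNat C 2).symm

@[simp] lemma two_a : (2 : Cb R).a = 2 := by rw [two_eq, C_a]
@[simp] lemma two_b : (2 : Cb R).b = 0 := by rw [two_eq, C_b]
@[simp] lemma two_c : (2 : Cb R).c = 0 := by rw [two_eq, C_c]

lemma pi_cube : (pi : Cb R) ^ 3 = 2 := by
  rw [pow_succ, pow_two]
  ext <;> simp

/-- the standard form -/
lemma form (x : Cb R) : x = C x.a + C x.b * pi + C x.c * pi ^ 2 := by
  rw [pow_two]
  ext <;> simp

/-- the norm -/
def N (x : Cb R) : R := x.a ^ 3 + 2 * x.b ^ 3 + 4 * x.c ^ 3 - 6 * x.a * x.b * x.c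

/-- the adjugate -/
def adj (x : Cb R) : Cb R := ⟨x.a ^ 2 - 2 * x.b * x.c, 2 * x.c ^ 2 - x.a * x.b, x.b ^ 2 - x.a * x.c⟩

lemma mul_adj (x : Cb R) : x * adj x = C (N x) := by
  ext
  · simp only [mul_a, C_a, adj, N]
    ring
  · simp only [mul_b, C_b, adj]
    ring
  · simp only [mul_c, C_c, adj]
    ring

lemma N_mul (x y : Cb R) : N (x * y) = N x * N y := by
  simp [N]
  ring

@[simp] lemma N_one : N (1 : Cb R) = 1 := by simp [N]

lemma N_neg (x : Cb R) : N (-x) = -N x := by
  simp [N]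
  ring

lemma N_C (r : R) : N (C r) = r ^ 3 := by simp [N]

lemma N_pi : N (pi : Cb R) = 2 := by simp [N]

/-- evaluation at `t` -/
def ev (x : Cb R) (t : R) : R := x.a + x.b * t + x.c * t ^ 2

/-- the evaluation is multiplicative modulo `t³ - 2` -/
lemma ev_mul (x y : Cb R) (t : R) : ev x t * ev y t - ev (x * y) t =
    (t ^ 3 - 2) * (x.b * y.c + x.c * y.b + x.c * y.c * t) := by
  simp [ev]
  ring

/-- the evaluation homomorphism at a root -/
def hom (S : Type) [CommRing S] (f : R →+* S) (ρ : S) (hρ : ρ ^ 3 = 2) : Cb R →+* S where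
  toFun x := f x.a + f x.b * ρ + f x.c * ρ ^ 2
  map_one' := by simp
  map_zero' := by simp
  map_add' x y := by simp; ring
  map_mul' x y := by
    simp only [mul_a, mul_b, mul_c, map_add, map_mul, map_ofNat]
    linear_combination -(f x.b * f y.c + f x.c * f y.b + f x.c * f y.c * ρ) * hρ

lemma hom_apply {S : Type} [CommRing S] (f : R →+* S) (ρ : S) (hρ : ρ ^ 3 = 2) (x : Cb R) :
    hom S f ρ hρ x = f x.a + f x.b * ρ + f x.c * ρ ^ 2 := rfl

/-- functoriality -/
def map {S : Type} [CommRing S] (f : R →+* S) : Cb R →+* Cb S where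
  toFun x := ⟨f x.a, f x.b, f x.c⟩
  map_one' := by ext <;> simp
  map_zero' := by ext <;> simp
  map_add' x y := by ext <;> simp
  map_mul' x y := by ext <;> simp [map_ofNat]

variable {S : Type} [CommRing S] (f : R →+* S)

@[simp] lemma map_a' (x : Cb R) : (map f x).a = f x.a := rfl
@[simp] lemma map_b' (x : Cb R) : (map f x).b = f x.b := rfl
@[simp] lemma map_c' (x : Cb R) : (map f x).c = f x.c := rfl

lemma N_map (x : Cb R) : N (map f x) = f (N x) := by simp [N, map_ofNat]

lemma map_pi : map f (pi : Cb R) = pi := by ext <;> simp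

lemma map_C (r : R) : map f (C r) = C (f r) := by ext <;> simp

lemma map_inj {f : R →+* S} (hf : Function.Injective f) : Function.Injective (map f) := by
  intro x y h
  ext
  · exact hf (congrArg Cb.a h)
  · exact hf (congrArg Cb.b h)
  · exact hf (congrArg Cb.c h)

lemma map_map {T : Type} [CommRing T] (g : S →+* T) (x : Cb R) :
    map g (map f x) = map (g.comp f) x := rfl

instance [Nontrivial R] : Nontrivial (Cb R) := ⟨⟨0, 1, fun h => zero_ne_one (congrArg Cb.a h)⟩⟩

end ring

section field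

variable {M : Type} [Field M]

/-- if two is not a cube the norm vanishes only at zero -/
lemma N_ne (h2 : ∀ x : M, x ^ 3 ≠ 2) {x : Cb M} (hx : x ≠ 0) : N x ≠ 0 := by
  -- x divides `N x`; use irreducibility by hand
  intro h
  obtain ⟨a, b, c⟩ := x
  have h' : a ^ 3 + 2 * b ^ 3 + 4 * c ^ 3 - 6 * a * b * c = 0 := h
  -- the adjugate `(A, B, C)` satisfies `A³ = 2 B³` type relations
  set A := a ^ 2 - 2 * b * c with hA
  set B := 2 * c ^ 2 - a * b with hB
  set D := b ^ 2 - a * c with hD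
  -- `A * D = B ^ 2`, `A * B = 2 D ^ 2`
  have e1 : A * D - B ^ 2 = -c * (a ^ 3 + 2 * b ^ 3 + 4 * c ^ 3 - 6 * a * b * c) := by
    rw [hA, hB, hD]; ring
  have e2 : A * B - 2 * D ^ 2 = -b * (a ^ 3 + 2 * b ^ 3 + 4 * c ^ 3 - 6 * a * b * c) := by
    rw [hA, hB, hD]; ring
  rw [h', mul_zero, sub_eq_zero] at e1 e2
  have hcube : ∀ u w : M, u ^ 3 = 2 * w ^ 3 → w = 0 := by
    intro u w huw
    by_contra hw
    exact h2 (u / w) (by rw [div_pow, huw]; field_simp)
  have hD0 : D = 0 := by
    refine hcube B D ?_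
    linear_combination (-B) * e1 + D * e2
  have hB0 : B = 0 := by
    rw [hD0, mul_zero] at e1
    exact pow_eq_zero_iff (two_ne_zero) |>.1 e1.symm
  have hc : c = 0 := by
    refine hcube b c ?_
    linear_combination b * hD0 + b * hD - c * hB0 - c * hB
  have hb : b = 0 := by
    have : b ^ 2 = 0 := by linear_combination hD0 + hD + a * hc
    exact pow_eq_zero_iff (two_ne_zero) |>.1 this
  have ha : a = 0 := by
    rw [hc, hb] at h'
    have : a ^ 3 = 0 := by linear_combination h'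
    exact pow_eq_zero_iff (three_ne_zero) |>.1 this
  exact hx (by rw [ha, hb, hc]; rfl)

/-- the field structure -/
@[reducible] noncomputable def fld (h2 : ∀ x : M, x ^ 3 ≠ 2) : Field (Cb M) :=
  { (inferInstance : CommRing (Cb M)), (inferInstance : Nontrivial (Cb M)) with
    inv := fun x => C (N x)⁻¹ * adj x
    mul_inv_cancel := fun x hx => by
      change x * (C (N x)⁻¹ * adj x) = 1
      rw [mul_left_comm, mul_adj, ← map_mul, inv_mul_cancel₀ (N_ne h2 hx), map_one]
    inv_zero := by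
      change C (N (0 : Cb M))⁻¹ * adj 0 = 0
      have : N (0 : Cb M) = 0 := by simp [N]
      rw [this, inv_zero, map_zero, zero_mul]
    nnqsmul := _
    qsmul := _ }

end field

end Cb

end Pool.Agent.Y696
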