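import Mathlib
import Pool.Agent.Y696.Cb

/-!
# Local conditions for elements of `M[π]`
-/

set_option autoImplicit false

namespace Pool.Agent.Y696

open IsDedekindDomain NumberField WithZero

section val
variable {M : Type} [Field M] (v : Valuation M ℤᵐ⁰)

lemma exp_bd (c : M) : ∃ k : ℕ, v c ≤ exp (k : ℤ) := by
  by_cases h : v c = 0
  · exact ⟨0, by rw [h]; exact zero_le⟩
  · obtain ⟨m, hm⟩ : ∃ m : ℤ, v c = exp m := ⟨log (v c), (exp_log h).symm⟩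
    refine ⟨m.toNat, ?_⟩
    rw [hm, exp_le_exp]
    exact Int.self_le_toNat m

lemma exp_lb {c : M} (hc : c ≠ 0) : ∃ k : ℕ, exp (-(k : ℤ)) ≤ v c := by
  obtain ⟨m, hm⟩ : ∃ m : ℤ, v c = exp m := ⟨log (v c), (exp_log ((v.ne_zero_iff).2 hc)).symm⟩
  refine ⟨(-m).toNat, ?_⟩
  rw [hm, exp_le_exp]
  have := Int.self_le_toNat (-m)
  omega

lemma v_two_le : v 2 ≤ 1 := by
  have := v.map_add 1 1
  rw [one_add_one_eq_two, map_one, max_self] at this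
  exact this

lemma le_of_near {a : M} (h : v (a ^ 3 - 2) ≤ 1) : v a ≤ 1 := by
  have h2 := v.map_add (a ^ 3 - 2) 2
  rw [sub_add_cancel, map_pow] at h2
  have h3 : v a ^ 3 ≤ 1 := h2.trans (max_le h (v_two_le v))
  exact (pow_le_one_iff (by norm_num)).1 h3

lemma ev_bd (x : Cb M) : ∃ k : ℕ, ∀ a, v a ≤ 1 → v (x.ev a) ≤ exp (k : ℤ) := by
  obtain ⟨k1, h1⟩ := exp_bd v x.a
  obtain ⟨k2, h2⟩ := exp_bd v x.b
  obtain ⟨k3, h3⟩ := exp_bd v x.c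
  refine ⟨k1 + k2 + k3, fun a ha => ?_⟩
  have e1 : exp (k1 : ℤ) ≤ exp ((k1 + k2 + k3 : ℕ) : ℤ) := by rw [exp_le_exp]; omega
  have e2 : exp (k2 : ℤ) ≤ exp ((k1 + k2 + k3 : ℕ) : ℤ) := by rw [exp_le_exp]; omega
  have e3 : exp (k3 : ℤ) ≤ exp ((k1 + k2 + k3 : ℕ) : ℤ) := by rw [exp_le_exp]; omega
  rw [Cb.ev]
  refine v.map_add_le (v.map_add_le (h1.trans e1) ?_) ?_
  · rw [map_mul]
    exact (mul_le_of_le_one_right' ha).trans (h2.trans e2)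
  · rw [map_mul, map_pow]
    exact (mul_le_of_le_one_right' (pow_le_one' ha 2)).trans (h3.trans e3)

lemma ev_lb (x : Cb M) (hN : x.N ≠ 0) : ∃ n k : ℕ, ∀ a, v (a ^ 3 - 2) ≤ exp (-(n : ℤ)) →
    exp (-(k : ℤ)) ≤ v (x.ev a) := by
  obtain ⟨k1, h1⟩ := exp_lb v hN
  obtain ⟨k2, h2⟩ := ev_bd v x.adj
  obtain ⟨k3, h3⟩ := ev_bd v ⟨x.b * x.adj.c + x.c * x.adj.b, x.c * x.adj.c, 0⟩
  refine ⟨k1 + k3 + 1, k1 + k2, fun a ha => ?_⟩
  have ha1 : v a ≤ 1 := le_of_near v (ha.trans (by rw [← exp_zero, exp_le_exp]; omega))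
  have e := Cb.ev_mul x x.adj a
  rw [Cb.mul_adj] at e
  have e1 : (Cb.C x.N).ev a = x.N := by simp [Cb.ev]
  rw [e1] at e
  have h3a := h3 a ha1
  have e2 : (⟨x.b * x.adj.c + x.c * x.adj.b, x.c * x.adj.c, 0⟩ : Cb M).ev a =
      x.b * x.adj.c + x.c * x.adj.b + x.c * x.adj.c * a := by simp [Cb.ev]
  rw [e2] at h3a
  have h4 : v (x.ev a * x.adj.ev a - x.N) < v x.N := by
    rw [e, map_mul]
    refine lt_of_le_of_lt (mul_le_mul' ha h3a) (lt_of_lt_of_le ?_ h1)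
    rw [← exp_add, exp_lt_exp]
    push_cast
    omega
  have h5 : v (x.ev a * x.adj.ev a) = v x.N := Valuation.map_eq_of_sub_lt v h4
  rw [map_mul] at h5
  by_contra hlt
  push Not at hlt
  have h6 : v (x.ev a) * v (x.adj.ev a) < exp (-(k1 : ℤ)) := by
    refine lt_of_le_of_lt (mul_le_mul' le_rfl (h2 a ha1)) ?_
    refine lt_of_lt_of_le (mul_lt_mul_of_pos_right hlt exp_pos) ?_
    rw [← exp_add, exp_le_exp]
    push_cast
    omega
  rw [h5] at h6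
  exact absurd h1 (not_le.2 h6)

lemma ev_mul_val {x y : Cb M} (hx : x.N ≠ 0) (hy : y.N ≠ 0) : ∃ n : ℕ, ∀ a,
    v (a ^ 3 - 2) ≤ exp (-(n : ℤ)) → v ((x * y).ev a) = v (x.ev a) * v (y.ev a) := by
  obtain ⟨n1, k1, h1⟩ := ev_lb v x hx
  obtain ⟨n2, k2, h2⟩ := ev_lb v y hy
  obtain ⟨k3, h3⟩ := ev_bd v ⟨x.b * y.c + x.c * y.b, x.c * y.c, 0⟩
  refine ⟨n1 + n2 + k1 + k2 + k3 + 1, fun a ha => ?_⟩
  have ha1 : v a ≤ 1 := le_of_near v (ha.trans (by rw [← exp_zero, exp_le_exp]; omega))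
  have e2 : (⟨x.b * y.c + x.c * y.b, x.c * y.c, 0⟩ : Cb M).ev a =
      x.b * y.c + x.c * y.b + x.c * y.c * a := by simp [Cb.ev]
  have h3a := h3 a ha1
  rw [e2] at h3a
  have h1a := h1 a (ha.trans (by rw [exp_le_exp]; push_cast; omega))
  have h2a := h2 a (ha.trans (by rw [exp_le_exp]; push_cast; omega))
  rw [← map_mul]
  refine (Valuation.map_eq_of_sub_lt v ?_)
  rw [Valuation.map_sub_swap, Cb.ev_mul, map_mul, map_mul]
  refine lt_of_lt_of_le (lt_of_le_of_lt (mul_le_mul' ha h3a) ?_) (mul_le_mul' h1a h2a)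
  rw [← exp_add, ← exp_add, exp_lt_exp]
  push_cast
  omega

lemma ev_ne {x : Cb M} (hx : x.N ≠ 0) : ∃ n : ℕ, ∀ a,
    v (a ^ 3 - 2) ≤ exp (-(n : ℤ)) → ∃ m : ℤ, v (x.ev a) = exp m := by
  obtain ⟨n, k, h⟩ := ev_lb v x hx
  refine ⟨n, fun a ha => ⟨log (v (x.ev a)), (exp_log ?_).symm⟩⟩
  exact ne_of_gt (lt_of_lt_of_le exp_pos (h a ha))

end val

section conds
variable {M : Type} [Field M]

/-- even valuations near the roots of `X³ - 2` -/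
def EvV (v : Valuation M ℤᵐ⁰) (x : Cb M) : Prop :=
  ∃ n : ℕ, ∀ a : M, v (a ^ 3 - 2) ≤ exp (-(n : ℤ)) → ∃ m : ℤ, v (x.ev a) = exp (2 * m)

lemma EvV.one (v : Valuation M ℤᵐ⁰) : EvV v 1 := ⟨0, fun a _ => ⟨0, by simp [Cb.ev]⟩⟩

lemma EvV.mul {v : Valuation M ℤᵐ⁰} {x y : Cb M} (hx : x.N ≠ 0) (hy : y.N ≠ 0)
    (h1 : EvV v x) (h2 : EvV v y) : EvV v (x * y) := by
  obtain ⟨n1, h1⟩ := h1
  obtain ⟨n2, h2⟩ := h2
  obtain ⟨n3, h3⟩ := ev_mul_val v hx hy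
  refine ⟨n1 + n2 + n3, fun a ha => ?_⟩
  obtain ⟨m1, e1⟩ := h1 a (ha.trans (by rw [exp_le_exp]; push_cast; omega))
  obtain ⟨m2, e2⟩ := h2 a (ha.trans (by rw [exp_le_exp]; push_cast; omega))
  refine ⟨m1 + m2, ?_⟩
  rw [h3 a (ha.trans (by rw [exp_le_exp]; push_cast; omega)), e1, e2, ← exp_add]
  congr 1
  ring

lemma EvV.sq (v : Valuation M ℤᵐ⁰) {x : Cb M} (hx : x.N ≠ 0) : EvV v (x ^ 2) := by
  obtain ⟨n1, h1⟩ := ev_mul_val v hx hx
  obtain ⟨n2, h2⟩ := ev_ne v hx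
  refine ⟨n1 + n2, fun a ha => ?_⟩
  obtain ⟨m, e⟩ := h2 a (ha.trans (by rw [exp_le_exp]; push_cast; omega))
  refine ⟨m, ?_⟩
  rw [pow_two, h1 a (ha.trans (by rw [exp_le_exp]; push_cast; omega)), e, ← exp_add]
  congr 1
  ring

lemma EvV.congr_iso {M' : Type} [Field M'] (σ : M ≃+* M') {v : Valuation M ℤᵐ⁰}
    {v' : Valuation M' ℤᵐ⁰} (hv : ∀ x, v' (σ x) = v x) {x : Cb M} (h : EvV v x) :
    EvV v' (Cb.map (σ : M →+* M') x) := by
  obtain ⟨n, h⟩ := h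
  refine ⟨n, fun a ha => ?_⟩
  have e1 : σ (σ.symm a ^ 3 - 2) = a ^ 3 - 2 := by simp [map_ofNat]
  rw [← e1, hv] at ha
  obtain ⟨m, hm⟩ := h _ ha
  refine ⟨m, ?_⟩
  rw [← hm, ← hv]
  congr 1
  simp [Cb.ev]

lemma EvV.desc {L : Type} [Field L] (f : L →+* M) {v : Valuation M ℤᵐ⁰} {v₀ : Valuation L ℤᵐ⁰}
    (hv : ∀ x, v (f x) = v₀ x) {x : Cb L} (h : EvV v (Cb.map f x)) : EvV v₀ x := by
  obtain ⟨n, h⟩ := h
  refine ⟨n, fun a ha => ?_⟩
  have e1 : f a ^ 3 - 2 = f (a ^ 3 - 2) := by simp [map_ofNat]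
  obtain ⟨m, hm⟩ := h (f a) (by rw [e1, hv]; exact ha)
  refine ⟨m, ?_⟩
  rw [← hm, ← hv]
  congr 1
  simp [Cb.ev]

/-- the unit form -/
def UV (v : Valuation M ℤᵐ⁰) (x : Cb M) : Prop := v x.a = 1 ∧ v x.b ≤ 1 ∧ v x.c ≤ 1

/-- a unit form which is a square modulo `π²` -/
def WV (v : Valuation M ℤᵐ⁰) (x : Cb M) : Prop := v x.a = 1 ∧ v x.b < 1 ∧ v x.c ≤ 1

/-- the condition at two -/
def LvV (v : Valuation M ℤᵐ⁰) (x : Cb M) : Prop := ∃ s : Cb M, s.N ≠ 0 ∧ WV v (x * s ^ 2)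

lemma WV.UV {v : Valuation M ℤᵐ⁰} {x : Cb M} (h : WV v x) : UV v x := ⟨h.1, h.2.1.le, h.2.2⟩

lemma WV.mul {v : Valuation M ℤᵐ⁰} (h2 : v 2 < 1) {x y : Cb M} (hx : WV v x) (hy : WV v y) :
    WV v (x * y) := by
  obtain ⟨xa, xb, xc⟩ := hx
  obtain ⟨ya, yb, yc⟩ := hy
  have hsm : ∀ z w : M, v z ≤ 1 → v w ≤ 1 → v (2 * (z + w)) < 1 := by
    intro z w hz hw
    rw [map_mul]
    exact mul_lt_one_of_nonneg_of_lt_one_left zero_le h2 (v.map_add_le hz hw)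
  have hm : ∀ z w : M, v z ≤ 1 → v w ≤ 1 → v (z * w) ≤ 1 := by
    intro z w hz hw
    rw [map_mul]
    exact mul_le_one' hz hw
  refine ⟨?_, ?_, ?_⟩
  · rw [Cb.mul_a, Valuation.map_add_eq_of_lt_left]
    · rw [map_mul, xa, ya, one_mul]
    · rw [map_mul v x.a, xa, ya, one_mul]
      exact hsm _ _ (hm _ _ xb.le yc) (hm _ _ xc yb.le)
  · rw [Cb.mul_b]
    refine v.map_add_lt (v.map_add_lt ?_ ?_) ?_
    · rw [map_mul, xa, one_mul]
      exact yb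
    · rw [map_mul, ya, mul_one]
      exact xb
    · rw [map_mul]
      exact mul_lt_one_of_nonneg_of_lt_one_left zero_le h2 (hm _ _ xc yc)
  · rw [Cb.mul_c]
    refine v.map_add_le (v.map_add_le ?_ ?_) ?_
    · exact hm _ _ xa.le yc
    · exact hm _ _ xb.le yb.le
    · exact hm _ _ xc ya.le

lemma UV.mul {v : Valuation M ℤᵐ⁰} (h2 : v 2 < 1) {x y : Cb M} (hx : UV v x) (hy : UV v y) :
    UV v (x * y) := by
  obtain ⟨xa, xb, xc⟩ := hx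
  obtain ⟨ya, yb, yc⟩ := hy
  have hsm : ∀ z w : M, v z ≤ 1 → v w ≤ 1 → v (2 * (z + w)) < 1 := by
    intro z w hz hw
    rw [map_mul]
    exact mul_lt_one_of_nonneg_of_lt_one_left zero_le h2 (v.map_add_le hz hw)
  have hm : ∀ z w : M, v z ≤ 1 → v w ≤ 1 → v (z * w) ≤ 1 := by
    intro z w hz hw
    rw [map_mul]
    exact mul_le_one' hz hw
  refine ⟨?_, ?_, ?_⟩
  · rw [Cb.mul_a, Valuation.map_add_eq_of_lt_left]
    · rw [map_mul, xa, ya, one_mul]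
    · rw [map_mul v x.a, xa, ya, one_mul]
      exact hsm _ _ (hm _ _ xb yc) (hm _ _ xc yb)
  · rw [Cb.mul_b]
    refine v.map_add_le (v.map_add_le ?_ ?_) ?_
    · exact hm _ _ xa.le yb
    · exact hm _ _ xb ya.le
    · rw [map_mul]
      exact mul_le_one' h2.le (hm _ _ xc yc)
  · rw [Cb.mul_c]
    refine v.map_add_le (v.map_add_le ?_ ?_) ?_
    · exact hm _ _ xa.le yc
    · exact hm _ _ xb yb
    · exact hm _ _ xc ya.le

lemma LvV.one (v : Valuation M ℤᵐ⁰) : LvV v 1 := by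
  refine ⟨1, by simp, ?_, ?_, ?_⟩ <;> simp

lemma LvV.mul {v : Valuation M ℤᵐ⁰} (h2 : v 2 < 1) {x y : Cb M} (hx : LvV v x) (hy : LvV v y) :
    LvV v (x * y) := by
  obtain ⟨s, hs, hx⟩ := hx
  obtain ⟨t, ht, hy⟩ := hy
  refine ⟨s * t, by rw [Cb.N_mul]; exact mul_ne_zero hs ht, ?_⟩
  rw [show x * y * (s * t) ^ 2 = x * s ^ 2 * (y * t ^ 2) by ring]
  exact hx.mul h2 hy

lemma Cb_inv {x : Cb M} (hx : x.N ≠ 0) : ∃ s : Cb M, s.N ≠ 0 ∧ x * s = 1 := by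
  have h1 : x * (Cb.C (x.N)⁻¹ * x.adj) = 1 := by
    rw [mul_left_comm, Cb.mul_adj, ← map_mul, inv_mul_cancel₀ hx, map_one]
  refine ⟨_, ?_, h1⟩
  intro h
  have := congrArg Cb.N h1
  rw [Cb.N_mul, h, mul_zero, Cb.N_one] at this
  exact zero_ne_one this

lemma LvV.sq (v : Valuation M ℤᵐ⁰) {x : Cb M} (hx : x.N ≠ 0) : LvV v (x ^ 2) := by
  obtain ⟨s, hs, h⟩ := Cb_inv hx
  refine ⟨s, hs, ?_⟩
  rw [← mul_pow, h, one_pow]
  refine ⟨?_, ?_, ?_⟩ <;> simp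

lemma LvV.congr_iso {M' : Type} [Field M'] (σ : M ≃+* M') {v : Valuation M ℤᵐ⁰}
    {v' : Valuation M' ℤᵐ⁰} (hv : ∀ x, v' (σ x) = v x) {x : Cb M} (h : LvV v x) :
    LvV v' (Cb.map (σ : M →+* M') x) := by
  obtain ⟨s, hs, h1, h2, h3⟩ := h
  refine ⟨Cb.map (σ : M →+* M') s, ?_, ?_⟩
  · rw [Cb.N_map]
    exact fun h => hs ((map_eq_zero _).1 h)
  · rw [← map_pow, ← map_mul]
    exact ⟨by rw [← h1]; exact hv _, by refine lt_of_eq_of_lt ?_ h2; exact hv _,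
      by refine le_of_eq_of_le ?_ h3; exact hv _⟩

/-- the unit `π` -/
noncomputable def piU (h2 : (2 : M) ≠ 0) : (Cb M)ˣ where
  val := Cb.pi
  inv := Cb.C 2⁻¹ * Cb.pi ^ 2
  val_inv := by
    rw [mul_left_comm, ← pow_succ', Cb.pi_cube, Cb.two_eq, ← map_mul, inv_mul_cancel₀ h2, map_one]
  inv_val := by
    rw [mul_assoc, ← pow_succ, Cb.pi_cube, Cb.two_eq, ← map_mul, inv_mul_cancel₀ h2, map_one]

/-- the unit `2` -/
noncomputable def CU : Mˣ →* (Cb M)ˣ := Units.map (Cb.C : M →+* Cb M)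

lemma piU_cube (h2 : (2 : M) ≠ 0) : piU h2 ^ 3 = CU (Units.mk0 2 h2) :=
  Units.ext (by
    change (Cb.pi : Cb M) ^ 3 = Cb.C 2
    rw [Cb.pi_cube, Cb.two_eq])

lemma piU_zpow (h2 : (2 : M) ≠ 0) (k : ℤ) (r : ℕ) :
    ((piU h2 ^ (3 * k + r) : (Cb M)ˣ) : Cb M) = Cb.C (2 ^ k) * Cb.pi ^ r := by
  rw [zpow_add, zpow_mul, zpow_natCast]
  have : (piU h2 ^ (3 : ℤ)) = CU (Units.mk0 2 h2) := by
    rw [← piU_cube]; rfl
  rw [this, ← map_zpow, Units.val_mul, Units.val_pow_eq_pow_val]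
  congr 2
  change Cb.C ((Units.mk0 2 h2 ^ k : Mˣ) : M) = _
  rw [Units.val_zpow_eq_zpow_val, Units.val_mk0]

variable {v : Valuation M ℤᵐ⁰} (hv : v 2 = exp (-1 : ℤ))

include hv

lemma two_ne_of : (2 : M) ≠ 0 := by
  intro h
  rw [h, map_zero] at hv
  exact exp_ne_zero hv.symm

lemma v_two_zpow (k : ℤ) : v (2 ^ k) = exp (-k) := by
  rw [map_zpow₀, hv, ← exp_zsmul]
  congr 1
  simp

lemma piU_zero {x y : Cb M} {i : ℤ} (hx : UV v x) (hy : UV v y)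
    (h : ((piU (two_ne_of hv) ^ i : (Cb M)ˣ) : Cb M) * x = y) : i = 0 := by
  obtain ⟨k, r, hr, rfl⟩ : ∃ (k : ℤ) (r : ℕ), r < 3 ∧ i = 3 * k + r :=
    ⟨i / 3, (i % 3).toNat, by omega, by omega⟩
  rw [piU_zpow] at h
  obtain ⟨xa, xb, xc⟩ := hx
  obtain ⟨ya, yb, yc⟩ := hy
  have e1 : v (2 ^ k * x.a) = exp (-k) := by rw [map_mul, xa, mul_one, v_two_zpow hv]
  have e2 : ∀ z, v z ≤ 1 → v (2 ^ k * (2 * z)) ≤ exp (-k - 1) := by
    intro z hz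
    rw [map_mul, map_mul, v_two_zpow hv, hv, ← mul_assoc, ← exp_add, ← sub_eq_add_neg]
    exact mul_le_of_le_one_right' hz
  have hr3 : r = 0 ∨ r = 1 ∨ r = 2 := by omega
  rcases hr3 with rfl | rfl | rfl
  · have h1 := congrArg Cb.a h
    rw [pow_zero, mul_one, Cb.mul_a, Cb.C_a, Cb.C_b, Cb.C_c, zero_mul, zero_mul, add_zero, mul_zero,
      add_zero] at h1
    rw [h1, ya, ← exp_zero] at e1
    have := exp_injective e1
    omega
  · exfalso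
    have h1 := congrArg Cb.a h
    have h2 := congrArg Cb.b h
    have h3 : (Cb.C (2 ^ k) * Cb.pi ^ 1 * x).a = 2 ^ k * (2 * x.c) := by simp; ring
    have h4 : (Cb.C (2 ^ k) * Cb.pi ^ 1 * x).b = 2 ^ k * x.a := by simp
    rw [h3] at h1
    rw [h4] at h2
    rw [h2] at e1
    have e3 := e2 _ xc
    rw [h1, ya, ← exp_zero, exp_le_exp] at e3
    rw [e1, ← exp_zero, exp_le_exp] at yb
    omega
  · exfalso
    have h1 := congrArg Cb.a h
    have h2 := congrArg Cb.c h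
    have h3 : (Cb.C (2 ^ k) * Cb.pi ^ 2 * x).a = 2 ^ k * (2 * x.b) := by simp [pow_two]; ring
    have h4 : (Cb.C (2 ^ k) * Cb.pi ^ 2 * x).c = 2 ^ k * x.a := by simp [pow_two]
    rw [h3] at h1
    rw [h4] at h2
    rw [h2] at e1
    have e3 := e2 _ xb
    rw [h1, ya, ← exp_zero, exp_le_exp] at e3
    rw [e1, ← exp_zero, exp_le_exp] at yc
    omega

lemma half_le {z : M} (hz : v z < 1) : v (2⁻¹ * z) ≤ 1 := by
  by_cases h0 : z = 0
  · rw [h0, mul_zero, map_zero]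
    exact zero_le
  · obtain ⟨m, hm⟩ : ∃ m : ℤ, v z = exp m := ⟨log (v z), (exp_log ((v.ne_zero_iff).2 h0)).symm⟩
    rw [hm, ← exp_zero, exp_lt_exp] at hz
    rw [map_mul, map_inv₀, hv, hm, ← exp_neg, ← exp_add, ← exp_zero, exp_le_exp]
    omega

lemma piU_dec {x : Cb M} (hx : x ≠ 0) : ∃ (i : ℤ) (u : Cb M), UV v u ∧
    x = ((piU (two_ne_of hv) ^ i : (Cb M)ˣ) : Cb M) * u := by
  obtain ⟨a, b, c⟩ := x
  have h2 := two_ne_of hv
  -- the normalised case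
  have key : ∀ a b c : M, v a ≤ 1 → v b ≤ 1 → v c ≤ 1 → (v a = 1 ∨ v b = 1 ∨ v c = 1) →
      ∃ (r : ℕ) (u : Cb M), UV v u ∧ (⟨a, b, c⟩ : Cb M) = Cb.pi ^ r * u := by
    intro a b c ha hb hc h
    by_cases h1 : v a = 1
    · exact ⟨0, ⟨a, b, c⟩, ⟨h1, hb, hc⟩, by rw [pow_zero, one_mul]⟩
    · have ha' := lt_of_le_of_ne ha h1
      by_cases h3 : v b = 1
      · refine ⟨1, ⟨b, c, 2⁻¹ * a⟩, ⟨h3, hc, half_le hv ha'⟩, ?_⟩
        ext
        · simp [mul_inv_cancel_left₀ h2]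
        · simp
        · simp
      · have hb' := lt_of_le_of_ne hb h3
        have h4 : v c = 1 := by tauto
        refine ⟨2, ⟨c, 2⁻¹ * a, 2⁻¹ * b⟩, ⟨h4, half_le hv ha', half_le hv hb'⟩, ?_⟩
        ext
        · simp [pow_two, mul_inv_cancel_left₀ h2]
        · simp [pow_two, mul_inv_cancel_left₀ h2]
        · simp [pow_two]
  have hmax : ∃ k : ℤ, v a ≤ exp k ∧ v b ≤ exp k ∧ v c ≤ exp k ∧
      (v a = exp k ∨ v b = exp k ∨ v c = exp k) := by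
    have h3 : max (v a) (max (v b) (v c)) ≠ 0 := by
      intro h
      apply hx
      have ha : v a ≤ 0 := (le_max_left _ _).trans h.le
      have hb : v b ≤ 0 := ((le_max_left _ _).trans (le_max_right _ _)).trans h.le
      have hc : v c ≤ 0 := ((le_max_right _ _).trans (le_max_right _ _)).trans h.le
      rw [le_zero_iff, map_eq_zero] at ha hb hc
      rw [ha, hb, hc]
      rfl
    refine ⟨log (max (v a) (max (v b) (v c))), ?_⟩
    rw [exp_log h3]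
    refine ⟨le_max_left _ _, (le_max_left _ _).trans (le_max_right _ _),
      (le_max_right _ _).trans (le_max_right _ _), ?_⟩
    rcases max_choice (v a) (max (v b) (v c)) with h | h
    · exact Or.inl h.symm
    · rcases max_choice (v b) (v c) with h' | h'
      · exact Or.inr (Or.inl (by rw [h, h']))
      · exact Or.inr (Or.inr (by rw [h, h']))
  obtain ⟨k, ka, kb, kc, kk⟩ := hmax
  have hsc : ∀ z : M, v (2 ^ k * z) = exp (-k) * v z := fun z => by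
    rw [map_mul, v_two_zpow hv]
  have hle : ∀ z : M, v z ≤ exp k → v (2 ^ k * z) ≤ 1 := by
    intro z hz
    rw [hsc]
    refine (mul_le_mul' le_rfl hz).trans ?_
    rw [← exp_add, neg_add_cancel, exp_zero]
  have heq : ∀ z : M, v z = exp k → v (2 ^ k * z) = 1 := by
    intro z hz
    rw [hsc, hz, ← exp_add, neg_add_cancel, exp_zero]
  obtain ⟨r, u, hu, he⟩ := key (2 ^ k * a) (2 ^ k * b) (2 ^ k * c) (hle a ka) (hle b kb) (hle c kc)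
    (kk.imp (heq a) (Or.imp (heq b) (heq c)))
  refine ⟨3 * (-k) + r, u, hu, ?_⟩
  rw [piU_zpow, mul_assoc, ← he]
  have h5 : (2 : M) ^ (-k) * 2 ^ k = 1 := by rw [← zpow_add₀ h2, neg_add_cancel, zpow_zero]
  ext
  · simp only [Cb.mul_a, Cb.C_a, Cb.C_b, Cb.C_c]
    linear_combination -a * h5
  · simp only [Cb.mul_b, Cb.C_a, Cb.C_b, Cb.C_c]
    linear_combination -b * h5
  · simp only [Cb.mul_c, Cb.C_a, Cb.C_b, Cb.C_c]
    linear_combination -c * h5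

lemma WV_b {u q : Cb M} (hu : UV v u) (hq : UV v q) (h : WV v (u * q ^ 2)) : v u.b < 1 := by
  have h2 : v 2 < 1 := by rw [hv, ← exp_zero, exp_lt_exp]; omega
  obtain ⟨ua, ub, uc⟩ := hu
  obtain ⟨qa, qb, qc⟩ := hq
  have hb := h.2.1
  have e : u.b * q.a ^ 2 = (u * q ^ 2).b - 2 * (u.a * (q.a * q.b + q.c ^ 2) +
      2 * u.b * (q.b * q.c) + u.c * (q.b ^ 2 + 2 * q.a * q.c)) := by
    rw [pow_two q]
    simp only [Cb.mul_a, Cb.mul_b, Cb.mul_c]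
    ring
  have hm : ∀ z w : M, v z ≤ 1 → v w ≤ 1 → v (z * w) ≤ 1 := by
    intro z w hz hw
    rw [map_mul]
    exact mul_le_one' hz hw
  have h3 : v (u.b * q.a ^ 2) < 1 := by
    rw [e]
    refine v.map_sub_lt hb ?_
    rw [map_mul]
    refine mul_lt_one_of_nonneg_of_lt_one_left zero_le h2 ?_
    refine v.map_add_le (v.map_add_le ?_ ?_) ?_
    · refine hm _ _ ua.le (v.map_add_le (hm _ _ qa.le qb) ?_)
      rw [pow_two]
      exact hm _ _ qc qc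
    · exact hm _ _ (hm _ _ h2.le ub) (hm _ _ qb qc)
    · refine hm _ _ uc (v.map_add_le ?_ (hm _ _ (hm _ _ h2.le qa.le) qc))
      rw [pow_two]
      exact hm _ _ qb qb
  rw [map_mul, map_pow, qa, one_pow, mul_one] at h3
  exact h3

lemma LvV.b_lt {u : Cb M} (hu : UV v u) (h : LvV v u) : v u.b < 1 := by
  obtain ⟨s, hs, hw⟩ := h
  have h2 : v 2 < 1 := by rw [hv, ← exp_zero, exp_lt_exp]; omega
  have hs0 : s ≠ 0 := by
    rintro rfl
    exact hs (by simp [Cb.N])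
  obtain ⟨j, q, hq, rfl⟩ := piU_dec hv hs0
  have e : u * (((piU (two_ne_of hv) ^ j : (Cb M)ˣ) : Cb M) * q) ^ 2 =
      ((piU (two_ne_of hv) ^ (j * 2) : (Cb M)ˣ) : Cb M) * (u * q ^ 2) := by
    rw [zpow_mul, mul_pow]
    have : ((((piU (two_ne_of hv) ^ j) ^ (2 : ℤ) : (Cb M)ˣ)) : Cb M) =
      ((piU (two_ne_of hv) ^ j : (Cb M)ˣ) : Cb M) ^ 2 := by
      rw [← Units.val_pow_eq_pow_val]; rfl
    rw [this]
    ring
  have hq2 : UV v (u * q ^ 2) := by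
    rw [pow_two]
    exact hu.mul h2 (hq.mul h2 hq)
  rw [e] at hw
  have hj := piU_zero hv hq2 hw.UV rfl
  rw [hj, zpow_zero, Units.val_one, one_mul] at hw
  exact WV_b hv hu hq hw

lemma LvV.desc {L : Type} [Field L] (f : L →+* M) {v₀ : Valuation L ℤᵐ⁰}
    (hf : ∀ x, v (f x) = v₀ x) {x : Cb L} (hx : x ≠ 0) (h : LvV v (Cb.map f x)) : LvV v₀ x := by
  have hv₀ : v₀ 2 = exp (-1 : ℤ) := by rw [← hv, ← hf, map_ofNat]
  have h2 : v 2 < 1 := by rw [hv, ← exp_zero, exp_lt_exp]; omega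
  obtain ⟨i, u, hu, hxu⟩ := piU_dec hv₀ hx
  obtain ⟨s, hs, hw⟩ := h
  have hs0 : s ≠ 0 := by
    rintro rfl
    exact hs (by simp [Cb.N])
  obtain ⟨j, q, hq, hsq⟩ := piU_dec hv hs0
  have hmu : UV v (Cb.map f u) := ⟨by rw [Cb.map_a', hf]; exact hu.1,
    by rw [Cb.map_b', hf]; exact hu.2.1, by rw [Cb.map_c', hf]; exact hu.2.2⟩
  have hq2 : UV v (Cb.map f u * q ^ 2) := by
    rw [pow_two]
    exact hmu.mul h2 (hq.mul h2 hq)
  have hpi : Units.map (Cb.map f : Cb L →* Cb M) (piU (two_ne_of hv₀)) = piU (two_ne_of hv) :=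
    Units.ext (Cb.map_pi f)
  have e1 : Cb.map f ((piU (two_ne_of hv₀) ^ i : (Cb L)ˣ) : Cb L) =
      ((piU (two_ne_of hv) ^ i : (Cb M)ˣ) : Cb M) := by
    rw [← hpi, ← map_zpow]
    rfl
  have e : Cb.map f x * s ^ 2 =
      ((piU (two_ne_of hv) ^ (i + j * 2) : (Cb M)ˣ) : Cb M) * (Cb.map f u * q ^ 2) := by
    rw [zpow_add, zpow_mul, hsq, mul_pow, hxu, map_mul, e1]
    have : ((((piU (two_ne_of hv) ^ j) ^ (2 : ℤ) : (Cb M)ˣ)) : Cb M) =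
      ((piU (two_ne_of hv) ^ j : (Cb M)ˣ) : Cb M) ^ 2 := by
      rw [← Units.val_pow_eq_pow_val]; rfl
    rw [Units.val_mul, this]
    ring
  rw [e] at hw
  have hj := piU_zero hv hq2 hw.UV rfl
  rw [hj, zpow_zero, Units.val_one, one_mul] at hw
  have hb := WV_b hv hmu hq hw
  rw [Cb.map_b', hf] at hb
  refine ⟨((piU (two_ne_of hv₀) ^ j : (Cb L)ˣ) : Cb L), ?_, ?_⟩
  · intro h0
    have h3 : ((piU (two_ne_of hv₀) ^ j : (Cb L)ˣ) : Cb L) *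
      ((piU (two_ne_of hv₀) ^ j : (Cb L)ˣ)⁻¹ : (Cb L)ˣ) = 1 := Units.mul_inv _
    have h4 := congrArg Cb.N h3
    rw [Cb.N_mul, h0, zero_mul, Cb.N_one] at h4
    exact zero_ne_one h4
  · have e2 : x * ((piU (two_ne_of hv₀) ^ j : (Cb L)ˣ) : Cb L) ^ 2 = u := by
      rw [hxu]
      have : ((((piU (two_ne_of hv₀) ^ j) ^ (2 : ℤ) : (Cb L)ˣ)) : Cb L) =
        ((piU (two_ne_of hv₀) ^ j : (Cb L)ˣ) : Cb L) ^ 2 := by
        rw [← Units.val_pow_eq_pow_val]; rfl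
      rw [← this, ← zpow_mul, mul_right_comm, ← Units.val_mul, ← zpow_add, hj, zpow_zero,
        Units.val_one, one_mul]
    rw [e2]
    exact ⟨hu.1, hb, hu.2.2⟩

/-- `π - 1` does not satisfy the condition at two -/
lemma not_LvV_eps : ¬ LvV v (Cb.pi - 1) := by
  intro h
  have h1 := LvV.b_lt hv (u := Cb.pi - 1) ⟨by simp, by simp, by simp⟩ h
  simp at h1

end conds

end Pool.Agent.Y696
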