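import Mathlib

/-!
# Facts on number fields used in the descent
-/

set_option autoImplicit false

namespace Pool.Agent.Y696

open IsDedekindDomain NumberField WithZero Polynomial

lemma no_cube_two_rat (x : ℚ) : x ^ 3 ≠ 2 := by
  intro h
  have hx : x ≠ 0 := by
    rintro rfl
    norm_num at h
  have : Fact (Nat.Prime 2) := ⟨Nat.prime_two⟩
  have h1 := congrArg (padicValRat 2) h
  rw [padicValRat.pow] at h1
  have h2 : padicValRat 2 (2 : ℚ) = 1 := by
    have := padicValRat.self (p := 2) (by norm_num)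
    exact_mod_cast this
  rw [h2] at h1
  push_cast at h1
  omega

lemma no_cube_two {K : Type} [Field K] [NumberField K] {m : ℕ}
    (hK : Module.finrank ℚ K = 2 ^ m) (x : K) : x ^ 3 ≠ 2 := by
  intro h
  have hi : Irreducible (X ^ 3 - C (2 : ℚ)) :=
    X_pow_sub_C_irreducible_of_prime Nat.prime_three no_cube_two_rat
  have hm : (X ^ 3 - C (2 : ℚ)).Monic := monic_X_pow_sub_C _ (by norm_num)
  have hr : aeval x (X ^ 3 - C (2 : ℚ)) = 0 := by simp [h]
  have hmin : X ^ 3 - C (2 : ℚ) = minpoly ℚ x := minpoly.eq_of_irreducible_of_monic hi hr hm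
  have hd := minpoly.degree_dvd (Algebra.IsIntegral.isIntegral (R := ℚ) x)
  rw [← hmin, natDegree_X_pow_sub_C, hK] at hd
  have := Nat.Prime.dvd_of_dvd_pow Nat.prime_three hd
  omega

lemma fr_rat : Module.finrank ℚ ℚ = 2 ^ 0 := by simp

section aut
variable {K : Type} [Field K] [NumberField K]

lemma val_eq_of {v v' : Valuation K ℤᵐ⁰}
    (h : ∀ x : 𝓞 K, v (x : K) = v' (x : K)) (x : K) : v x = v' x := by
  obtain ⟨a, b, hb, rfl⟩ := IsFractionRing.div_surjective (A := 𝓞 K) x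
  rw [map_div₀, map_div₀]
  have h1 := h a
  have h2 := h b
  rw [show algebraMap (𝓞 K) K a = (a : K) from rfl, show algebraMap (𝓞 K) K b = (b : K) from rfl,
    h1, h2]

/-- transport of a valuation by an automorphism -/
lemma val_aut (σ : K ≃+* K) (v : HeightOneSpectrum (𝓞 K)) :
    ∃ v' : HeightOneSpectrum (𝓞 K), ∀ x, v.valuation K (σ x) = v'.valuation K x := by
  set s : 𝓞 K ≃+* 𝓞 K := RingOfIntegers.mapRingEquiv σ with hs
  have hbot : v.asIdeal.comap (s : 𝓞 K →+* 𝓞 K) ≠ ⊥ := by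
    intro h
    obtain ⟨z, hz, hz0⟩ := Submodule.exists_mem_ne_zero_of_ne_bot v.ne_bot
    have h1 : s.symm z ∈ v.asIdeal.comap (s : 𝓞 K →+* 𝓞 K) := by
      rw [Ideal.mem_comap]
      simpa using hz
    rw [h, Ideal.mem_bot] at h1
    exact hz0 ((map_eq_zero_iff _ s.symm.injective).1 h1)
  let v' : HeightOneSpectrum (𝓞 K) := ⟨v.asIdeal.comap (s : 𝓞 K →+* 𝓞 K), inferInstance, hbot⟩
  have hpow : ∀ (n : ℕ) (x : 𝓞 K), s x ∈ v.asIdeal ^ n ↔ x ∈ v'.asIdeal ^ n := by
    intro n x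
    have h1 : v'.asIdeal = v.asIdeal.map (s.symm : 𝓞 K →+* 𝓞 K) :=
      (Ideal.map_comap_of_equiv s.symm (I := v.asIdeal)).symm ▸ rfl
    rw [h1, ← Ideal.map_pow]
    have h2 : (v.asIdeal ^ n).map (s.symm : 𝓞 K →+* 𝓞 K) =
        (v.asIdeal ^ n).comap (s : 𝓞 K →+* 𝓞 K) :=
      (Ideal.map_comap_of_equiv s.symm (I := v.asIdeal ^ n))
    rw [h2, Ideal.mem_comap]
    rfl
  have hint : ∀ x : 𝓞 K, v.intValuation (s x) = v'.intValuation x := by
    intro x
    by_cases hx : x = 0
    · rw [hx, map_zero, map_zero, map_zero]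
    have hsx : s x ≠ 0 := fun h => hx ((map_eq_zero_iff _ s.injective).1 h)
    have e1 := v.intValuation_eq_exp_neg_multiplicity hsx
    have e2 := v'.intValuation_eq_exp_neg_multiplicity hx
    refine le_antisymm ?_ ?_
    · rw [e2, HeightOneSpectrum.intValuation_le_pow_iff_mem, hpow,
        ← HeightOneSpectrum.intValuation_le_pow_iff_mem, e2]
    · rw [e1, HeightOneSpectrum.intValuation_le_pow_iff_mem, ← hpow,
        ← HeightOneSpectrum.intValuation_le_pow_iff_mem, e1]
  refine ⟨v', fun x => ?_⟩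
  refine val_eq_of (v := (v.valuation K).comap (σ : K →+* K)) (v' := v'.valuation K) ?_ x
  intro y
  rw [Valuation.comap_apply]
  have h1 : (σ : K →+* K) (y : K) = ((s y : 𝓞 K) : K) := rfl
  rw [h1]
  change v.valuation K (algebraMap (𝓞 K) K (s y)) = v'.valuation K (algebraMap (𝓞 K) K y)
  rw [HeightOneSpectrum.valuation_of_algebraMap, HeightOneSpectrum.valuation_of_algebraMap, hint]

lemma nat_mem_iff (v : HeightOneSpectrum (𝓞 K)) (n : ℕ) :
    ((n : 𝓞 K) ∈ v.asIdeal) ↔ v.valuation K (n : K) < 1 := by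
  rw [← map_natCast (algebraMap (𝓞 K) K) n]
  exact (HeightOneSpectrum.valuation_lt_one_iff_mem (K := K) v (n : 𝓞 K)).symm

end aut

section cyc
variable {F : Type} [Field F] [NumberField F] [IsCyclotomicExtension {3} ℚ F]

lemma val_prime_F {p : ℕ} (hp : p.Prime) (h3 : p ≠ 3) (v : HeightOneSpectrum (𝓞 F))
    (hv : (p : 𝓞 F) ∈ v.asIdeal) : v.valuation F (p : F) = exp (-1 : ℤ) := by
  have : Fact p.Prime := ⟨hp⟩
  let P : HeightOneSpectrum ℤ := ⟨Ideal.span {(p : ℤ)},
    (Ideal.span_singleton_prime (by exact_mod_cast hp.ne_zero)).2 (Nat.prime_iff_prime_int.1 hp), by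
      rw [Ne, Ideal.span_singleton_eq_bot]
      exact_mod_cast hp.ne_zero⟩
  have hmax : P.asIdeal.IsMaximal := P.isPrime.isMaximal P.ne_bot
  have hlo : v.asIdeal.LiesOver P.asIdeal := by
    constructor
    refine (hmax.eq_of_le ?_ ?_)
    · exact Ideal.IsPrime.ne_top inferInstance
    · rw [Ideal.span_singleton_le_iff_mem, Ideal.under_def, Ideal.mem_comap]
      simpa using hv
  have : v.asIdeal.LiesOver (Ideal.span {(p : ℤ)}) := hlo
  have h1 := HeightOneSpectrum.valuation_liesOver (K := ℚ) F P v (p : ℚ)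
  have hram : P.asIdeal.ramificationIdx' v.asIdeal = 1 := by
    rw [Ideal.ramificationIdx'_eq_ramificationIdx _ _ P.ne_bot]
    refine IsCyclotomicExtension.Rat.ramificationIdx_eq_of_not_dvd (m := 3) p F v.asIdeal ?_
    intro h
    exact h3 ((Nat.prime_dvd_prime_iff_eq hp Nat.prime_three).1 h)
  rw [hram, pow_one] at h1
  have h2 : P.valuation ℚ (p : ℚ) = exp (-1 : ℤ) := by
    have := HeightOneSpectrum.intValuation_singleton P (r := (p : ℤ))
      (by exact_mod_cast hp.ne_zero) rfl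
    rw [← this, ← HeightOneSpectrum.valuation_of_algebraMap (K := ℚ)]
    simp
  rw [h2] at h1
  rw [h1]
  simp

end cyc

end Pool.Agent.Y696
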