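import Mathlib

/-!
# Descent of square classes along extensions of two power degree
-/

set_option autoImplicit false

namespace Pool.Agent.Y696

/-- a 2-group acting on an elementary abelian 2-group has a nontrivial fixed vector in the span of
every nontrivial orbit -/
lemma exists_fixed {G V : Type} [Group G] [Finite G] [CommGroup V] (hG : IsPGroup 2 G)
    (φ : G → V →* V) (h1 : ∀ v, φ 1 v = v) (hm : ∀ g h v, φ (g * h) v = φ g (φ h v))
    (hV : ∀ v : V, v ^ 2 = 1) {v : V} (hv : v ≠ 1) :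
    ∃ w ∈ Subgroup.closure (Set.range fun g => φ g v), w ≠ 1 ∧ ∀ g, φ g w = w := by
  set H := Subgroup.closure (Set.range fun g => φ g v) with hH
  have hst : ∀ g, ∀ w ∈ H, φ g w ∈ H := by
    intro g w hw
    refine Subgroup.closure_induction (p := fun w _ => φ g w ∈ H) ?_ ?_ ?_ ?_ hw
    · rintro _ ⟨h, rfl⟩
      refine Subgroup.subset_closure ⟨g * h, ?_⟩
      simp only [hm]
    · rw [map_one]
      exact one_mem H
    · intro x y _ _ hx hy
      rw [map_mul]
      exact mul_mem hx hy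
    · intro x _ hx
      rw [map_inv]
      exact inv_mem hx
  let act : MulAction G H :=
    { smul := fun g w => ⟨φ g w.1, hst g w.1 w.2⟩
      one_smul := fun w => Subtype.ext (h1 w.1)
      mul_smul := fun g h w => Subtype.ext (hm g h w.1) }
  have hfg : Group.FG H := by
    rw [Group.fg_iff_subgroup_fg]
    exact ⟨(Set.finite_range _).toFinset, by rw [Set.Finite.coe_toFinset]⟩
  have hfin : Finite H := by
    refine CommGroup.finite_of_fg_isMulTorsion _ ?_
    intro x
    rw [isOfFinOrder_iff_pow_eq_one]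
    exact ⟨2, by norm_num, Subtype.ext (hV x.1)⟩
  have hp : IsPGroup 2 H := fun x => ⟨1, Subtype.ext (by rw [pow_one]; exact hV x.1)⟩
  have hvH : v ∈ H := Subgroup.subset_closure ⟨1, h1 v⟩
  have hd : 2 ∣ Nat.card H := by
    rcases hp.card_eq_or_dvd with h | h
    · have := (Nat.card_eq_one_iff_unique.1 h).1
      exact absurd (congrArg Subtype.val (Subsingleton.elim (⟨v, hvH⟩ : H) 1)) hv
    · exact h
  have h1f : (1 : H) ∈ MulAction.fixedPoints G H := by
    intro g
    exact Subtype.ext (map_one (φ g))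
  obtain ⟨b, hb, hne⟩ := hG.exists_fixed_point_of_prime_dvd_card_of_fixed_point H hd h1f
  refine ⟨b.1, b.2, fun h => hne (Subtype.ext h.symm), fun g => ?_⟩
  exact congrArg Subtype.val (hb g)

section
variable {A : Type} [Field A] {G : Type} [Group G] [Finite G] [MulSemiringAction G A]

/-- the square classes -/
abbrev SqC (A : Type) [Field A] : Type := Aˣ ⧸ (powMonoidHom 2 : Aˣ →* Aˣ).range

lemma sqc_eq (x y : Aˣ) : ((x : SqC A) = y) ↔ ∃ s : Aˣ, y = x * s ^ 2 := by
  rw [QuotientGroup.eq]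
  constructor
  · rintro ⟨s, hs⟩
    refine ⟨s, ?_⟩
    have h : s ^ 2 = x⁻¹ * y := hs
    rw [h, mul_inv_cancel_left]
  · rintro ⟨s, hs⟩
    refine ⟨s, ?_⟩
    change s ^ 2 = _
    rw [hs, inv_mul_cancel_left]

/-- a fixed square class -/
theorem fixed_class (hG : IsPGroup 2 G) (P : A → Prop) (h1 : P 1)
    (hm : ∀ x y, P x → P y → P (x * y)) (hg : ∀ (g : G) x, P x → P (g • x)) {δ : A}
    (h0 : δ ≠ 0) (hn : ¬ IsSquare δ) (hP : P δ) :
    ∃ D : A, D ≠ 0 ∧ ¬ IsSquare D ∧ P D ∧ ∀ g : G, ∃ s, s ≠ 0 ∧ g • D = D * s ^ 2 := by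
  let ψ : G → Aˣ →* Aˣ := fun g => Units.map (MulSemiringAction.toRingHom G A g : A →* A)
  have hψ : ∀ g (x : Aˣ), ((ψ g x : Aˣ) : A) = g • (x : A) := fun g x => rfl
  let φ : G → SqC A →* SqC A := fun g => QuotientGroup.map _ _ (ψ g) (by
    rintro _ ⟨s, rfl⟩
    refine ⟨ψ g s, ?_⟩
    change ψ g s ^ 2 = ψ g (s ^ 2)
    rw [map_pow])
  have hφ : ∀ g (x : Aˣ), φ g (x : SqC A) = (ψ g x : Aˣ) := fun g x => rfl
  have hψ1 : ∀ x, ψ 1 x = x := fun x => Units.ext (by rw [hψ, one_smul])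
  have hψm : ∀ g h x, ψ (g * h) x = ψ g (ψ h x) := fun g h x =>
    Units.ext (by rw [hψ, hψ, hψ, mul_smul])
  obtain ⟨w, hw, hw1, hwf⟩ := exists_fixed (V := SqC A) hG φ
    (by
      intro v
      obtain ⟨x, rfl⟩ := QuotientGroup.mk_surjective v
      rw [hφ, hψ1])
    (by
      intro g h v
      obtain ⟨x, rfl⟩ := QuotientGroup.mk_surjective v
      rw [hφ, hφ, hφ, hψm])
    (by
      intro v
      obtain ⟨x, rfl⟩ := QuotientGroup.mk_surjective v
      rw [← QuotientGroup.mk_pow, QuotientGroup.eq_one_iff]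
      exact ⟨x, rfl⟩)
    (v := (Units.mk0 δ h0 : Aˣ)) (by
      intro h
      rw [QuotientGroup.eq_one_iff] at h
      obtain ⟨s, hs⟩ := h
      refine hn ⟨s, ?_⟩
      have h2 := congrArg Units.val hs
      change (s : A) ^ 2 = δ at h2
      rw [← h2, pow_two])
  have key : ∀ u ∈ Subgroup.closure (Set.range fun g => φ g (Units.mk0 δ h0 : Aˣ)),
      ∃ D : Aˣ, P D ∧ (D : SqC A) = u := by
    intro u hu
    refine Subgroup.closure_induction (p := fun u _ => ∃ D : Aˣ, P D ∧ (D : SqC A) = u)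
      ?_ ?_ ?_ ?_ hu
    · rintro _ ⟨g, rfl⟩
      refine ⟨ψ g (Units.mk0 δ h0), ?_, (hφ _ _).symm⟩
      rw [hψ]
      exact hg g _ hP
    · exact ⟨1, h1, rfl⟩
    · rintro _ _ _ _ ⟨x, hx, rfl⟩ ⟨y, hy, rfl⟩
      exact ⟨x * y, hm _ _ hx hy, rfl⟩
    · rintro _ _ ⟨x, hx, rfl⟩
      refine ⟨x, hx, ?_⟩
      have h : ((x : SqC A)) * x = 1 := by
        rw [← pow_two, ← QuotientGroup.mk_pow, QuotientGroup.eq_one_iff]
        exact ⟨x, rfl⟩
      exact eq_inv_of_mul_eq_one_left h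
  obtain ⟨D, hPD, hD⟩ := key w hw
  refine ⟨D, D.ne_zero, ?_, hPD, fun g => ?_⟩
  · rintro ⟨r, hr⟩
    apply hw1
    rw [← hD, QuotientGroup.eq_one_iff]
    have hr0 : r ≠ 0 := by
      rintro rfl
      exact D.ne_zero (by rw [hr, mul_zero])
    exact ⟨Units.mk0 r hr0, Units.ext (by rw [hr, ← pow_two]; rfl)⟩
  · have h := hwf g
    rw [← hD, hφ] at h
    obtain ⟨s, hs⟩ := (sqc_eq _ _).1 h.symm
    exact ⟨s, s.ne_zero, by rw [← hψ, hs]; rfl⟩

/-- a fixed square class with a square norm descends -/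
theorem descend {M : Type} [Field M] (h2 : (2 : M) ≠ 0) [MulSemiringAction G M]
    (hf : ∀ g : G, (∀ x : A, g • x = x) → g = 1)
    (N : A →* M) (hneg : ∀ x, N (-x) = -N x) (hN0 : ∀ x, x ≠ 0 → N x ≠ 0)
    (hNg : ∀ (g : G) x, N (g • x) = g • N x) {D : A} (hD : D ≠ 0)
    (hs : ∀ g : G, ∃ s, s ≠ 0 ∧ g • D = D * s ^ 2) (hN : ∃ r, N D = r ^ 2) :
    ∃ t, t ≠ 0 ∧ (∀ g : G, g • (D * t ^ 2) = D * t ^ 2) ∧
      ∃ r, (∀ g : G, g • r = r) ∧ N (D * t ^ 2) = r ^ 2 := by
  classical
  have := Fintype.ofFinite G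
  obtain ⟨r, hr⟩ := hN
  have hr0 : r ≠ 0 := by
    rintro rfl
    exact hN0 D hD (by rw [hr]; ring)
  have hs' : ∀ g : G, ∃ s, s ≠ 0 ∧ g • D = D * s ^ 2 ∧ N s * r = g • r := by
    intro g
    obtain ⟨s, hs0, hs1⟩ := hs g
    have h1 : (N s * r) ^ 2 = (g • r) ^ 2 := by
      have h3 := congrArg N hs1
      rw [hNg, map_mul, map_pow, hr, smul_pow'] at h3
      rw [h3]
      ring
    rcases sq_eq_sq_iff_eq_or_eq_neg.1 h1 with h | h
    · exact ⟨s, hs0, hs1, h⟩
    · exact ⟨-s, neg_ne_zero.2 hs0, by rw [hs1]; ring, by rw [hneg, neg_mul, h, neg_neg]⟩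
  choose s hs0 hs1 hsr using hs'
  have hcoc : ∀ g h : G, s (g * h) = s g * g • s h := by
    intro g h
    have h1 : s (g * h) ^ 2 = (s g * g • s h) ^ 2 := by
      have h3 : D * s (g * h) ^ 2 = D * (s g * g • s h) ^ 2 := by
        rw [← hs1, mul_smul, hs1 h, smul_mul', hs1 g, smul_pow']
        ring
      exact mul_left_cancel₀ hD h3
    rcases sq_eq_sq_iff_eq_or_eq_neg.1 h1 with h3 | h3
    · exact h3
    · exfalso
      have h4 := hsr (g * h)
      rw [h3, hneg, map_mul, hNg, mul_smul, ← hsr h, smul_mul', ← hsr g] at h4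
      have h5 : 2 * (N (s g) * g • N (s h) * r) = 0 := by linear_combination -h4
      rcases mul_eq_zero.1 h5 with h6 | h6
      · exact h2 h6
      · rcases mul_eq_zero.1 h6 with h7 | h7
        · rw [← hNg, ← map_mul] at h7
          refine hN0 _ (mul_ne_zero (hs0 g) ?_) h7
          intro h8
          apply hs0 h
          have := congrArg (fun z => g⁻¹ • z) h8
          simpa using this
        · exact hr0 h7
  obtain ⟨x, hx⟩ : ∃ x : A, ∑ h : G, s h * (h • x) ≠ 0 := by
    by_contra hcon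
    push Not at hcon
    have hinj : Function.Injective
        (fun g : G => ((MulSemiringAction.toRingHom G A g : A →+* A) : A →* A)) := by
      intro g h hgh
      have h1 : ∀ x : A, g • x = h • x := fun x => DFunLike.congr_fun hgh x
      have h2 : h⁻¹ * g = 1 := hf _ fun x => by rw [mul_smul, h1, inv_smul_smul]
      exact (inv_mul_eq_one.1 h2).symm
    have hli := (linearIndependent_monoidHom A A).comp _ hinj
    rw [Fintype.linearIndependent_iff] at hli
    have h1 := hli s (by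
      funext x
      rw [Finset.sum_apply]
      exact hcon x) 1
    exact hs0 1 h1
  set t : A := ∑ h : G, s h * (h • x) with ht
  have htg : ∀ g : G, s g * g • t = t := by
    intro g
    rw [ht, Finset.smul_sum, Finset.mul_sum]
    refine Fintype.sum_equiv (Equiv.mulLeft g) _ _ fun h => ?_
    simp only [Equiv.coe_mulLeft]
    rw [hcoc, smul_mul', mul_smul]
    ring
  refine ⟨t, hx, fun g => ?_, r * N t, fun g => ?_, ?_⟩
  · rw [smul_mul', smul_pow', hs1]
    conv_rhs => rw [← htg g]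
    ring
  · rw [smul_mul', ← hNg, ← hsr]
    conv_rhs => rw [← htg g, map_mul]
    ring
  · rw [map_mul, map_pow, hr]
    ring

end

end Pool.Agent.Y696
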