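import Mathlib
import Pool.Agent.Y696.Cb
import Pool.Agent.Y696.Dsc

/-!
# Descent of square classes of `M[π]` along Galois extensions of two power degree
-/

set_option autoImplicit false

namespace Pool.Agent.Y696

section act
variable {G M : Type} [Group G] [CommRing M] [MulSemiringAction G M]

instance Cb.act : MulSemiringAction G (Cb M) where
  smul g x := ⟨g • x.a, g • x.b, g • x.c⟩
  one_smul x := by
    ext
    · exact one_smul _ _
    · exact one_smul _ _
    · exact one_smul _ _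
  mul_smul g h x := by
    ext
    · exact mul_smul _ _ _
    · exact mul_smul _ _ _
    · exact mul_smul _ _ _
  smul_zero g := by
    ext
    · exact smul_zero _
    · exact smul_zero _
    · exact smul_zero _
  smul_one g := by
    ext
    · exact smul_one _
    · exact smul_zero _
    · exact smul_zero _
  smul_add g x y := by
    ext
    · exact smul_add _ _ _
    · exact smul_add _ _ _
    · exact smul_add _ _ _
  smul_mul g x y := (Cb.map (MulSemiringAction.toRingHom G M g)).map_mul x y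

lemma Cb.smul_eq (g : G) (x : Cb M) : g • x = Cb.map (MulSemiringAction.toRingHom G M g) x := rfl

/-- the norm as a homomorphism -/
def Cb.Nh (M : Type) [CommRing M] : Cb M →* M where
  toFun := Cb.N
  map_one' := Cb.N_one
  map_mul' := Cb.N_mul

end act

lemma Cb.ne_of_N {M : Type} [Field M] {x : Cb M} (h : x.N ≠ 0) : x ≠ 0 := by
  rintro rfl
  exact h (by simp [Cb.N])

/-- one step of the descent -/
theorem step {L M : Type} [Field L] [Field M] [Algebra L M] [FiniteDimensional L M] [IsGalois L M]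
    {n : ℕ} (hn : Module.finrank L M = 2 ^ n) (h2 : (2 : M) ≠ 0) (h3 : ∀ x : M, x ^ 3 ≠ 2)
    (P : Cb M → Prop) (hP1 : P 1) (hPm : ∀ x y, P x → P y → P (x * y))
    (hPg : ∀ (g : Gal(M/L)) x, P x → P (Cb.map ((g : M ≃+* M) : M →+* M) x))
    (hPN : ∀ x, P x → ∃ r, x.N = r ^ 2)
    {δ : Cb M} (h0 : δ ≠ 0) (hsq : ¬ IsSquare δ) (hδ : P δ) :
    ∃ (δ₀ : Cb L) (D t : Cb M), P D ∧ D ≠ 0 ∧ t ≠ 0 ∧ Cb.map (algebraMap L M) δ₀ = D * t ^ 2 ∧
      ¬ IsSquare (Cb.map (algebraMap L M) δ₀) ∧ ∃ r, δ₀.N = r ^ 2 := by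
  let _ : Field (Cb M) := Cb.fld h3
  have hG : IsPGroup 2 Gal(M/L) := by
    refine IsPGroup.of_card (n := n) ?_
    rw [IsGalois.card_aut_eq_finrank, hn]
  obtain ⟨D, hD0, hDs, hDP, hDg⟩ := fixed_class (A := Cb M) hG P hP1 hPm
    (fun g x hx => hPg g x hx) h0 hsq hδ
  obtain ⟨t, ht0, htf, r, hrf, hr⟩ := descend (A := Cb M) h2
    (fun g hg => AlgEquiv.ext fun x => by
      have := congrArg Cb.a (hg (Cb.C x))
      exact this)
    (Cb.Nh M) Cb.N_neg (fun x hx => Cb.N_ne h3 hx) (fun g x => Cb.N_map (MulSemiringAction.toRingHom Gal(M/L) M g) x) hD0 hDg (hPN D hDP)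
  have hfix : ∀ z : M, (∀ g : Gal(M/L), g • z = z) → ∃ y : L, algebraMap L M y = z := by
    intro z hz
    exact (IsGalois.mem_range_algebraMap_iff_fixed z).2 hz
  obtain ⟨a, ha⟩ := hfix (D * t ^ 2).a fun g => congrArg Cb.a (htf g)
  obtain ⟨b, hb⟩ := hfix (D * t ^ 2).b fun g => congrArg Cb.b (htf g)
  obtain ⟨c, hc⟩ := hfix (D * t ^ 2).c fun g => congrArg Cb.c (htf g)
  have hmap : Cb.map (algebraMap L M) ⟨a, b, c⟩ = D * t ^ 2 := by
    ext
    · exact ha
    · exact hb
    · exact hc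
  obtain ⟨r₀, hr₀⟩ := hfix r hrf
  refine ⟨⟨a, b, c⟩, D, t, hDP, hD0, ht0, hmap, ?_, r₀, ?_⟩
  · rw [hmap]
    rintro ⟨s, hs⟩
    apply hDs
    refine ⟨s * t⁻¹, ?_⟩
    have h5 : t * t⁻¹ = 1 := mul_inv_cancel₀ ht0
    calc D = D * t ^ 2 * t⁻¹ ^ 2 := by
          rw [mul_assoc, ← mul_pow, h5, one_pow, mul_one]
      _ = _ := by rw [hs]; ring
  · apply (algebraMap L M).injective
    rw [← Cb.N_map, hmap, map_pow, hr₀]
    exact hr

end Pool.Agent.Y696
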