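import Mathlib
import Pool.Agent.Y696.EvL
import Pool.Agent.Y696.Stp
import Pool.Agent.Y696.Fac

/-!
# Descent of the Selmer condition from `K` to `F` and to `ℚ`
-/

set_option autoImplicit false

namespace Pool.Agent.Y696

open IsDedekindDomain NumberField WithZero

section defs
variable {M : Type} [Field M] [NumberField M]

/-- even valuations away from six -/
def EvA (x : Cb M) : Prop :=
  ∀ v : HeightOneSpectrum (𝓞 M), ((6 : ℕ) : 𝓞 M) ∉ v.asIdeal → EvV (v.valuation M) x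

/-- the condition at two -/
def LvA (x : Cb M) : Prop :=
  ∀ v : HeightOneSpectrum (𝓞 M), ((2 : ℕ) : 𝓞 M) ∈ v.asIdeal → LvV (v.valuation M) x

/-- the Selmer condition -/
def PA (x : Cb M) : Prop := x.N ≠ 0 ∧ (∃ r, x.N = r ^ 2) ∧ EvA x ∧ LvA x

lemma PA.one : PA (1 : Cb M) := ⟨by simp, ⟨1, by simp⟩, fun _ _ => EvV.one _, fun _ _ => LvV.one _⟩

lemma PA.mul {x y : Cb M} (hx : PA x) (hy : PA y) : PA (x * y) := by
  obtain ⟨x0, ⟨r, hr⟩, x1, x2⟩ := hx
  obtain ⟨y0, ⟨s, hs⟩, y1, y2⟩ := hy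
  refine ⟨by rw [Cb.N_mul]; exact mul_ne_zero x0 y0, ⟨r * s, by rw [Cb.N_mul, hr, hs]; ring⟩,
    fun v hv => (x1 v hv).mul x0 y0 (y1 v hv), fun v hv => (x2 v hv).mul ?_ (y2 v hv)⟩
  have := (nat_mem_iff v 2).1 hv
  exact_mod_cast this

lemma PA.sq {x : Cb M} (hx : x.N ≠ 0) : PA (x ^ 2) := by
  refine ⟨?_, ⟨x.N, ?_⟩, fun v _ => EvV.sq _ hx, fun v _ => LvV.sq _ hx⟩
  · rw [pow_two, Cb.N_mul]
    exact mul_ne_zero hx hx
  · rw [pow_two, Cb.N_mul, pow_two]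

lemma PA.aut {x : Cb M} (hx : PA x) (σ : M ≃+* M) : PA (Cb.map (σ : M →+* M) x) := by
  obtain ⟨x0, ⟨r, hr⟩, x1, x2⟩ := hx
  refine ⟨?_, ⟨σ r, ?_⟩, fun v hv => ?_, fun v hv => ?_⟩
  · rw [Cb.N_map]
    exact fun h => x0 ((map_eq_zero _).1 h)
  · rw [Cb.N_map, hr, map_pow]
    rfl
  · obtain ⟨v', hv'⟩ := val_aut σ v
    refine EvV.congr_iso σ hv' (x1 v' ?_)
    rw [nat_mem_iff, ← hv', map_natCast, ← nat_mem_iff]
    exact hv
  · obtain ⟨v', hv'⟩ := val_aut σ v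
    refine LvV.congr_iso σ hv' (x2 v' ?_)
    rw [nat_mem_iff, ← hv', map_natCast, ← nat_mem_iff]
    exact hv

end defs

section KF
variable {F K : Type} [Field F] [NumberField F] [IsCyclotomicExtension {3} ℚ F] [Field K]
  [NumberField K] [Algebra F K]

/-- the extension is unramified wherever two is a cube -/
def Unr (F K : Type) [Field F] [NumberField F] [Field K] [NumberField K] [Algebra F K] : Prop :=
  ∀ (v₀ : HeightOneSpectrum (𝓞 F)) (v : HeightOneSpectrum (𝓞 K)), v.asIdeal.LiesOver v₀.asIdeal →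
    (∃ x : 𝓞 F, x ^ 3 - 2 ∈ v₀.asIdeal) → v₀.asIdeal.ramificationIdx' v.asIdeal = 1

omit [IsCyclotomicExtension {3} ℚ F] in
lemma val_of_unr {v₀ : HeightOneSpectrum (𝓞 F)} {v : HeightOneSpectrum (𝓞 K)}
    (hlo : v.asIdeal.LiesOver v₀.asIdeal) (he : v₀.asIdeal.ramificationIdx' v.asIdeal = 1) (x : F) :
    v.valuation K (algebraMap F K x) = v₀.valuation F x := by
  have := HeightOneSpectrum.valuation_liesOver K v₀ v x
  rw [he, pow_one] at this
  exact this.symm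

omit [IsCyclotomicExtension {3} ℚ F] [NumberField K] in
lemma exists_above (v₀ : HeightOneSpectrum (𝓞 F)) :
    ∃ v : HeightOneSpectrum (𝓞 K), v.asIdeal.LiesOver v₀.asIdeal := by
  have : v₀.asIdeal.IsMaximal := v₀.isPrime.isMaximal v₀.ne_bot
  obtain ⟨P, hP, hlo⟩ := Ideal.exists_maximal_ideal_liesOver_of_isIntegral v₀.asIdeal (S := 𝓞 K)
  refine ⟨⟨P, hP.isPrime, ?_⟩, hlo⟩
  exact Ideal.ne_bot_of_liesOver_of_ne_bot v₀.ne_bot P

lemma val_two_K (hun : Unr F K) {v : HeightOneSpectrum (𝓞 K)}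
    (hv : ((2 : ℕ) : 𝓞 K) ∈ v.asIdeal) : v.valuation K 2 = exp (-1 : ℤ) := by
  let v₀ : HeightOneSpectrum (𝓞 F) := ⟨v.asIdeal.under (𝓞 F), inferInstance, by
    intro h
    exact v.ne_bot (Ideal.eq_bot_of_comap_eq_bot h)⟩
  have hlo : v.asIdeal.LiesOver v₀.asIdeal := ⟨rfl⟩
  have h2 : ((2 : ℕ) : 𝓞 F) ∈ v₀.asIdeal := by
    change _ ∈ v.asIdeal.comap _
    rw [Ideal.mem_comap, map_natCast]
    exact hv
  have he := hun v₀ v hlo ⟨0, by
    have : (0 : 𝓞 F) ^ 3 - 2 = -((2 : ℕ) : 𝓞 F) := by push_cast; ring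
    rw [this]
    exact neg_mem h2⟩
  have h3 := val_of_unr hlo he 2
  have h4 := val_prime_F Nat.prime_two (by norm_num) v₀ h2
  rw [map_ofNat] at h3
  rw [h3, ← h4]
  norm_cast

variable [IsGalois F K]

theorem desc_KF {n : ℕ} (hn : Module.finrank F K = 2 ^ n) (hun : Unr F K) {δ : Cb K}
    (hsq : ¬ IsSquare δ) (hP : PA δ) : ∃ δ₀ : Cb F, ¬ IsSquare δ₀ ∧ PA δ₀ := by
  have hF2 : Module.finrank ℚ F = 2 := by
    rw [IsCyclotomicExtension.finrank (n := 3) F (Polynomial.cyclotomic.irreducible_rat (by norm_num))]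
    rfl
  have hK : Module.finrank ℚ K = 2 ^ (n + 1) := by
    rw [← Module.finrank_mul_finrank ℚ F K, hF2, hn]
    ring
  obtain ⟨δ₀, D, t, hD, hD0, ht0, hmap, hns, r, hr⟩ := step (L := F) (M := K) hn two_ne_zero
    (no_cube_two hK) PA PA.one (fun x y hx hy => hx.mul hy)
    (fun g x hx => hx.aut (g : K ≃+* K)) (fun x hx => hx.2.1) (Cb.ne_of_N hP.1) hsq hP
  have h3 := no_cube_two hK
  have htN : t.N ≠ 0 := Cb.N_ne h3 ht0
  have hm : PA (Cb.map (algebraMap F K) δ₀) := by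
    rw [hmap]
    exact hD.mul (PA.sq htN)
  have h0N : δ₀.N ≠ 0 := by
    intro h
    apply hm.1
    rw [Cb.N_map, h, map_zero]
  refine ⟨δ₀, ?_, h0N, ⟨r, hr⟩, fun v₀ hv₀ => ?_, fun v₀ hv₀ => ?_⟩
  · rintro ⟨s, hs⟩
    exact hns ⟨Cb.map (algebraMap F K) s, by rw [hs, map_mul]⟩
  · by_cases hx : ∃ x : 𝓞 F, x ^ 3 - 2 ∈ v₀.asIdeal
    · obtain ⟨v, hlo⟩ := exists_above (K := K) v₀
      have he := hun v₀ v hlo hx
      refine EvV.desc (algebraMap F K) (val_of_unr hlo he) (hm.2.2.1 v ?_)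
      rw [nat_mem_iff, ← map_natCast (algebraMap F K), val_of_unr hlo he, ← nat_mem_iff]
      exact hv₀
    · refine ⟨1, fun a ha => ?_⟩
      exfalso
      apply hx
      have ha1 : v₀.valuation F a ≤ 1 :=
        le_of_near _ (ha.trans (by rw [← exp_zero, exp_le_exp]; norm_num))
      obtain ⟨x, hx⟩ := HeightOneSpectrum.exists_valuation_sub_lt_of_integer (K := F) v₀ ha1 1
      refine ⟨x, ?_⟩
      rw [← HeightOneSpectrum.valuation_lt_one_iff_mem (K := F)]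
      change v₀.valuation F (algebraMap (𝓞 F) F (x ^ 3 - 2)) < 1
      have hx' : v₀.valuation F (algebraMap (𝓞 F) F x - a) < 1 := hx
      have ha' : v₀.valuation F (a ^ 3 - 2) < 1 :=
        lt_of_le_of_lt ha (by rw [← exp_zero, exp_lt_exp]; norm_num)
      have e : algebraMap (𝓞 F) F (x ^ 3 - 2) = (algebraMap (𝓞 F) F x - a) *
          (algebraMap (𝓞 F) F x ^ 2 + algebraMap (𝓞 F) F x * a + a ^ 2) + (a ^ 3 - 2) := by
        rw [map_sub, map_pow, map_ofNat]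
        ring
      rw [e]
      refine Valuation.map_add_lt _ ?_ ha'
      rw [map_mul]
      have hxx := v₀.valuation_le_one (K := F) x
      refine mul_lt_one_of_nonneg_of_lt_one_left zero_le hx' ?_
      refine Valuation.map_add_le _ (Valuation.map_add_le _ ?_ ?_) ?_
      · rw [map_pow]; exact pow_le_one' hxx 2
      · rw [map_mul]; exact mul_le_one' hxx ha1
      · rw [map_pow]; exact pow_le_one' ha1 2
  · obtain ⟨v, hlo⟩ := exists_above (K := K) v₀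
    have hx : ∃ x : 𝓞 F, x ^ 3 - 2 ∈ v₀.asIdeal := ⟨0, by
      have : (0 : 𝓞 F) ^ 3 - 2 = -((2 : ℕ) : 𝓞 F) := by push_cast; ring
      rw [this]
      exact neg_mem hv₀⟩
    have he := hun v₀ v hlo hx
    have hv2 : ((2 : ℕ) : 𝓞 K) ∈ v.asIdeal := by
      rw [nat_mem_iff, ← map_natCast (algebraMap F K), val_of_unr hlo he, ← nat_mem_iff]
      exact hv₀
    exact LvV.desc (val_two_K hun hv2) (algebraMap F K) (val_of_unr hlo he) (Cb.ne_of_N h0N)
      (hm.2.2.2 v hv2)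

end KF

section FQ
variable {F : Type} [Field F] [NumberField F] [IsCyclotomicExtension {3} ℚ F]

theorem desc_FQ {δ : Cb F} (hsq : ¬ IsSquare δ) (hP : PA δ) :
    ∃ δ₀ : Cb ℚ, ¬ IsSquare (Cb.map (algebraMap ℚ F) δ₀) ∧ PA (Cb.map (algebraMap ℚ F) δ₀) ∧
      ∃ r, δ₀.N = r ^ 2 := by
  have hF2 : Module.finrank ℚ F = 2 := by
    rw [IsCyclotomicExtension.finrank (n := 3) F (Polynomial.cyclotomic.irreducible_rat (by norm_num))]
    rfl
  have hF : Module.finrank ℚ F = 2 ^ 1 := by rw [hF2, pow_one]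
  have : IsGalois ℚ F := IsCyclotomicExtension.isGalois {3} ℚ F
  obtain ⟨δ₀, D, t, hD, hD0, ht0, hmap, hns, r, hr⟩ := step (L := ℚ) (M := F) hF two_ne_zero
    (no_cube_two hF) PA PA.one (fun x y hx hy => hx.mul hy)
    (fun g x hx => hx.aut (g : F ≃+* F)) (fun x hx => hx.2.1) (Cb.ne_of_N hP.1) hsq hP
  have htN : t.N ≠ 0 := Cb.N_ne (no_cube_two hF) ht0
  refine ⟨δ₀, hns, ?_, r, hr⟩
  rw [hmap]
  exact hD.mul (PA.sq htN)

end FQ

end Pool.Agent.Y696
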