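import Mathlib
import Pool.Agent.Y696.Eis
import Pool.Agent.W192.CM.Defs

/-!
# The Hecke character of conductor three
-/

set_option autoImplicit false

open Complex

namespace Pool.Agent.Y696

open Pool.Agent.W192.HK
open Pool.Agent.W192.CM (nu)

lemma normSq_three : Complex.normSq 3 = 9 := by norm_num [Complex.normSq_apply]

lemma coe_inj' {a b : eis} (h : (a : ℂ) = b) : a = b := Subtype.ext h

/-- the norm form -/
lemma norm_int (z : eis) : ∃ n : ℕ, Complex.normSq (z : ℂ) = n := by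
  obtain ⟨x, y, h⟩ := z.2
  rw [h, norm_rep]
  have h0 : (0 : ℤ) ≤ x ^ 2 - x * y + y ^ 2 := by nlinarith [sq_nonneg (2 * x - y), sq_nonneg y]
  exact ⟨(x ^ 2 - x * y + y ^ 2).toNat, by
    rw [← Int.cast_natCast, Int.toNat_of_nonneg h0]⟩

/-- conjugation on the Eisenstein integers -/
noncomputable def cj (z : eis) : eis := ⟨(starRingEnd ℂ) z, conj_mem z.2⟩

lemma cj_coe (z : eis) : ((cj z : eis) : ℂ) = (starRingEnd ℂ) z := rfl

lemma cj_mul_coe (z : eis) : ((z * cj z : eis) : ℂ) = Complex.normSq (z : ℂ) := by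
  push_cast
  rw [cj_coe, Complex.mul_conj]

lemma isUnit_iff' (u : eis) : IsUnit u ↔ Complex.normSq (u : ℂ) = 1 := by
  constructor
  · intro h
    obtain ⟨w, hw⟩ := h.exists_right_inv
    have h1 : Complex.normSq (u : ℂ) * Complex.normSq (w : ℂ) = 1 := by
      rw [← Complex.normSq_mul]
      have : ((u * w : eis) : ℂ) = 1 := by rw [hw]; rfl
      push_cast at this
      rw [this, Complex.normSq_one]
    obtain ⟨a, ha⟩ := norm_int u
    obtain ⟨b, hb⟩ := norm_int w
    rw [ha, hb] at h1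
    have h2 : a * b = 1 := by exact_mod_cast h1
    rw [ha]
    have h3 := Nat.eq_one_of_mul_eq_one_right h2
    rw [h3]
    simp
  · intro h
    refine IsUnit.of_mul_eq_one (cj u) ?_
    apply coe_inj'
    rw [cj_mul_coe, h]
    simp

lemma six (x y : ℤ) (h : x ^ 2 - x * y + y ^ 2 = 1) :
    (x = 1 ∧ y = 0) ∨ (x = -1 ∧ y = 0) ∨ (x = 0 ∧ y = 1) ∨ (x = 0 ∧ y = -1) ∨
      (x = 1 ∧ y = 1) ∨ (x = -1 ∧ y = -1) := by
  have h1 : -1 ≤ x ∧ x ≤ 1 := by constructor <;> nlinarith [sq_nonneg (2 * y - x), sq_nonneg x]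
  have h2 : -1 ≤ y ∧ y ≤ 1 := by constructor <;> nlinarith [sq_nonneg (2 * x - y), sq_nonneg y]
  obtain ⟨h3, h4⟩ := h1
  obtain ⟨h5, h6⟩ := h2
  interval_cases x <;> interval_cases y <;> simp_all

lemma unit_list (u : eis) : IsUnit u ↔ u ∈ ({1, -1, omr, -omr, omr ^ 2, -omr ^ 2} : Set eis) := by
  rw [isUnit_iff']
  constructor
  · intro h
    obtain ⟨x, y, hu⟩ := u.2
    rw [hu, norm_rep] at h
    have h1 : x ^ 2 - x * y + y ^ 2 = 1 := by exact_mod_cast h
    have e : ∀ a : eis, (u : ℂ) = a → u = a := fun a => coe_inj'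
    simp only [Set.mem_insert_iff, Set.mem_singleton_iff]
    rcases six x y h1 with ⟨rfl, rfl⟩ | ⟨rfl, rfl⟩ | ⟨rfl, rfl⟩ | ⟨rfl, rfl⟩ | ⟨rfl, rfl⟩ | ⟨rfl, rfl⟩
    · left; apply e; rw [hu]; push_cast; ring
    · right; left; apply e; rw [hu]; push_cast; ring
    · right; right; left; apply e; rw [hu]; push_cast [omr_coe]; ring
    · right; right; right; left; apply e; rw [hu]; push_cast [omr_coe]; ring
    · right; right; right; right; right; apply e; rw [hu]; push_cast [omr_coe]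
      linear_combination om_sq
    · right; right; right; right; left; apply e; rw [hu]; push_cast [omr_coe]
      linear_combination -om_sq
  · have h1 : Complex.normSq om = 1 := by
      have := norm_rep 0 1
      simpa using this
    intro h
    simp only [Set.mem_insert_iff, Set.mem_singleton_iff] at h
    rcases h with rfl | rfl | rfl | rfl | rfl | rfl <;> push_cast [omr_coe] <;>
      simp [h1, Complex.normSq_neg]

lemma unit_six {u : eis} (hu : IsUnit u) : u ^ 6 = 1 := by
  have h3 : omr ^ 6 = 1 := by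
    have := omr_cube
    calc omr ^ 6 = (omr ^ 3) ^ 2 := by ring
      _ = 1 := by rw [this, one_pow]
  rw [unit_list] at hu
  simp only [Set.mem_insert_iff, Set.mem_singleton_iff] at hu
  rcases hu with rfl | rfl | rfl | rfl | rfl | rfl
  · simp
  · norm_num
  · exact h3
  · rw [Even.neg_pow (by decide)]; exact h3
  · rw [← pow_mul, mul_comm, pow_mul, h3, one_pow]
  · rw [Even.neg_pow (by decide), ← pow_mul, mul_comm, pow_mul, h3, one_pow]

/-- residue classes modulo three -/
lemma mod_three (x y : ℤ) (h : ¬ (3 : ℤ) ∣ x + y) :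
    ∃ u : eis, IsUnit u ∧ ((x : eis) + y * omr) - u ∈ (sp 3 : Ideal eis) := by
  have hu : ∀ v ∈ ({1, -1, omr, -omr, omr ^ 2, -omr ^ 2} : Set eis), IsUnit v := fun v hv =>
    (unit_list v).2 hv
  simp only [Set.mem_insert_iff, Set.mem_singleton_iff] at hu
  have hc := omr_sq
  obtain ⟨a, i, hi, rfl⟩ : ∃ a i : ℤ, (i = 0 ∨ i = 1 ∨ i = 2) ∧ x = 3 * a + i :=
    ⟨x / 3, x % 3, by omega, by omega⟩
  obtain ⟨b, j, hj, rfl⟩ : ∃ a i : ℤ, (i = 0 ∨ i = 1 ∨ i = 2) ∧ y = 3 * a + i :=
    ⟨y / 3, y % 3, by omega, by omega⟩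
  rcases hi with rfl | rfl | rfl <;> rcases hj with rfl | rfl | rfl
  · exfalso; apply h; omega
  · refine ⟨omr, hu _ (by simp), ?_⟩
    rw [Ideal.mem_span_singleton']
    exact ⟨a + b * omr, by push_cast; ring⟩
  · refine ⟨-omr, hu _ (by simp), ?_⟩
    rw [Ideal.mem_span_singleton']
    exact ⟨a + b * omr + omr, by push_cast; ring⟩
  · refine ⟨1, hu _ (by simp), ?_⟩
    rw [Ideal.mem_span_singleton']
    exact ⟨a + b * omr, by push_cast; ring⟩
  · refine ⟨-omr ^ 2, hu _ (by simp), ?_⟩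
    rw [Ideal.mem_span_singleton']
    exact ⟨a + b * omr, by push_cast; linear_combination -hc⟩
  · exfalso; apply h; omega
  · refine ⟨-1, hu _ (by simp), ?_⟩
    rw [Ideal.mem_span_singleton']
    exact ⟨a + b * omr + 1, by push_cast; ring⟩
  · exfalso; apply h; omega
  · refine ⟨omr ^ 2, hu _ (by simp), ?_⟩
    rw [Ideal.mem_span_singleton']
    exact ⟨a + b * omr + 1 + omr, by push_cast; linear_combination hc⟩

lemma norm_mul_int (z w : eis) (a b c d : ℤ) (hz : z = (a : eis) + b * omr)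
    (hw : w = (c : eis) + d * omr) (e f : ℤ) (h : z * w = (e : eis) + f * omr) :
    (a ^ 2 - a * b + b ^ 2) * (c ^ 2 - c * d + d ^ 2) = e ^ 2 - e * f + f ^ 2 := by
  have h1 := congrArg (fun t : eis => Complex.normSq (t : ℂ)) h
  rw [hz, hw] at h1
  push_cast [omr_coe] at h1
  rw [Complex.normSq_mul, norm_rep, norm_rep, norm_rep] at h1
  exact_mod_cast h1

/-- units are distinct modulo three -/
lemma unit_mod {u v : eis} (hu : IsUnit u) (hv : IsUnit v) (h : u - v ∈ (sp 3 : Ideal eis)) :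
    u = v := by
  rw [Ideal.mem_span_singleton'] at h
  obtain ⟨t, ht⟩ := h
  by_contra hne
  have h1 : Complex.normSq ((u - v : eis) : ℂ) = 9 * Complex.normSq (t : ℂ) := by
    rw [← ht]
    push_cast
    rw [Complex.normSq_mul]
    rw [show Complex.normSq ((3 : eis) : ℂ) = 9 from normSq_three]
    ring
  have h2 : Complex.normSq (u : ℂ) = 1 := (isUnit_iff' u).1 hu
  have h3 : Complex.normSq (v : ℂ) = 1 := (isUnit_iff' v).1 hv
  have h4 : Complex.normSq ((u - v : eis) : ℂ) ≤ 4 := by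
    push_cast
    have h5 : ‖(u : ℂ) - v‖ ≤ 2 := by
      refine (norm_sub_le _ _).trans ?_
      rw [Complex.normSq_eq_norm_sq] at h2 h3
      have h6 : ‖(u : ℂ)‖ = 1 := by
        have := norm_nonneg (u : ℂ)
        nlinarith
      have h7 : ‖(v : ℂ)‖ = 1 := by
        have := norm_nonneg (v : ℂ)
        nlinarith
      rw [h6, h7]
      norm_num
    rw [Complex.normSq_eq_norm_sq]
    have := norm_nonneg ((u : ℂ) - v)
    nlinarith
  obtain ⟨n, hn⟩ := norm_int t
  rw [hn] at h1
  have h5 : (9 * n : ℝ) ≤ 4 := by linarith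
  have h6 : n = 0 := by
    have : 9 * n ≤ 4 := by exact_mod_cast h5
    omega
  rw [h6] at hn
  have h7 : t = 0 := by
    apply coe_inj'
    simpa using hn
  rw [h7, zero_mul] at ht
  exact hne (sub_eq_zero.1 ht.symm)

lemma cop_three {α : eis} (h : IsCoprime α 3) :
    ∃ u : eis, IsUnit u ∧ α - u ∈ (sp 3 : Ideal eis) := by
  obtain ⟨x, y, hα⟩ := eis_rep α
  rw [hα]
  apply mod_three
  intro h3
  obtain ⟨a, b, hab⟩ := h
  obtain ⟨c, d, hc⟩ := eis_rep a
  obtain ⟨e, f, he⟩ := eis_rep b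
  have h1 : a * α = ((1 - 3 * e : ℤ) : eis) + ((-3 * f : ℤ) : eis) * omr := by
    push_cast
    rw [he] at hab
    linear_combination hab
  have h2 := norm_mul_int a α c d x y hc hα _ _ h1
  obtain ⟨k, hk⟩ := h3
  have hy : y = 3 * k - x := by omega
  subst hy
  have h3 : (3 : ℤ) ∣ 1 := by
    have h4 : (c ^ 2 - c * d + d ^ 2) * (x ^ 2 - x * (3 * k - x) + (3 * k - x) ^ 2) =
      3 * ((c ^ 2 - c * d + d ^ 2) * (x ^ 2 - 3 * k * x + 3 * k ^ 2)) := by ring
    rw [h4] at h2
    have h5 : (1 - 3 * e) ^ 2 - (1 - 3 * e) * (-3 * f) + (-3 * f) ^ 2 =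
      1 + 3 * (-2 * e + 3 * e ^ 2 + f * (1 - 3 * e) + 3 * f ^ 2) := by ring
    rw [h5] at h2
    exact ⟨(c ^ 2 - c * d + d ^ 2) * (x ^ 2 - 3 * k * x + 3 * k ^ 2) -
      (-2 * e + 3 * e ^ 2 + f * (1 - 3 * e) + 3 * f ^ 2), by linear_combination -h2⟩
  norm_num at h3

lemma cop_of_unit {α u : eis} (hu : IsUnit u) (h : α - u ∈ (sp 3 : Ideal eis)) :
    IsCoprime α 3 := by
  obtain ⟨w, hw⟩ := hu.exists_right_inv
  rw [Ideal.mem_span_singleton'] at h
  obtain ⟨t, ht⟩ := h
  exact ⟨w, -t * w, by linear_combination -w * ht + hw⟩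

/-- primary generators -/
lemma exists_prim {I : Ideal eis} (h : IsCoprime I (sp 3)) :
    ∃ α : eis, I = sp α ∧ α - 1 ∈ (sp 3 : Ideal eis) := by
  obtain ⟨β, rfl⟩ : ∃ β : eis, I = sp β :=
    ⟨_, (Submodule.IsPrincipal.span_singleton_generator I).symm⟩
  rw [Ideal.isCoprime_span_singleton_iff] at h
  obtain ⟨u, hu, hu'⟩ := cop_three h
  obtain ⟨w, hw⟩ := hu.exists_right_inv
  refine ⟨w * β, ?_, ?_⟩
  · have hwu : IsUnit w := IsUnit.of_mul_eq_one u (by rw [mul_comm]; exact hw)
    exact (Ideal.span_singleton_mul_left_unit hwu β).symm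
  · have := (sp 3 : Ideal eis).mul_mem_left w hu'
    rwa [mul_sub, mul_comm w u, hw] at this

lemma prim_unique {α β : eis} (hα : α - 1 ∈ (sp 3 : Ideal eis)) (hβ : β - 1 ∈ (sp 3 : Ideal eis))
    (h : sp α = sp β) : α = β := by
  obtain ⟨u, hu⟩ := Ideal.span_singleton_eq_span_singleton.1 h
  have h1 : (u : eis) - 1 ∈ (sp 3 : Ideal eis) := by
    rw [← hu] at hβ
    have h2 := (sp 3 : Ideal eis).mul_mem_right (u : eis) hα
    have h3 := (sp 3 : Ideal eis).sub_mem hβ h2
    convert h3 using 1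
    ring
  have h2 := unit_mod u.isUnit isUnit_one h1
  rw [h2, mul_one] at hu
  exact hu

open Classical in
/-- the Hecke character of conductor three: the generator congruent to one modulo three -/
noncomputable def psi (I : Ideal eis) : ℂ :=
  if h : ∃ α : eis, I = sp α ∧ α - 1 ∈ (sp 3 : Ideal eis) then ((Classical.choose h : eis) : ℂ)
  else 0

lemma psi_prim {α : eis} (hα : α - 1 ∈ (sp 3 : Ideal eis)) : psi (sp α) = α := by
  have h : ∃ β : eis, sp α = sp β ∧ β - 1 ∈ (sp 3 : Ideal eis) := ⟨α, rfl, hα⟩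
  unfold psi
  rw [dif_pos h]
  obtain ⟨h1, h2⟩ := Classical.choose_spec h
  rw [← prim_unique hα h2 h1]

lemma three_ne : (3 : eis) ≠ 0 := by
  intro h
  have := congrArg (fun t : eis => (t : ℂ)) h
  push_cast at this
  norm_num at this

lemma prim_ne {α : eis} (hα : α - 1 ∈ (sp 3 : Ideal eis)) : α ≠ 0 := by
  rintro rfl
  have h1 : IsCoprime (0 : eis) 3 := cop_of_unit isUnit_one hα
  rw [isCoprime_zero_left] at h1
  rw [isUnit_iff'] at h1
  have : Complex.normSq ((3 : eis) : ℂ) = 9 := normSq_three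
  rw [this] at h1
  norm_num at h1

lemma psi_zero_iff (I : Ideal eis) : psi I = 0 ↔ ¬ IsCoprime I (sp 3) := by
  constructor
  · intro h hc
    obtain ⟨α, rfl, hα⟩ := exists_prim hc
    rw [psi_prim hα] at h
    exact prim_ne hα (coe_inj' h)
  · intro h
    unfold psi
    rw [dif_neg]
    rintro ⟨α, rfl, hα⟩
    apply h
    rw [Ideal.isCoprime_span_singleton_iff]
    exact cop_of_unit isUnit_one hα

lemma not_cop_bot : ¬ IsCoprime (⊥ : Ideal eis) (sp 3) := by
  intro h
  have e : (⊥ : Ideal eis) = sp 0 := by simp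
  rw [e, Ideal.isCoprime_span_singleton_iff] at h
  obtain ⟨u, hu, hu'⟩ := cop_three h
  obtain ⟨w, hw⟩ := hu.exists_right_inv
  have h2 := (sp 3 : Ideal eis).mul_mem_left (-w) hu'
  have h3 : -w * (0 - u) = 1 := by linear_combination hw
  rw [h3, ← Ideal.eq_top_iff_one, Ideal.span_singleton_eq_top, isUnit_iff'] at h2
  have : Complex.normSq ((3 : eis) : ℂ) = 9 := normSq_three
  rw [this] at h2
  norm_num at h2

lemma om_sub_one_of_dvd {d : eis} (h : d ∣ 3) (hn : ¬ (3 : eis) ∣ d) : d ∣ omr - 1 := by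
  obtain ⟨e, he⟩ := h
  obtain ⟨x, y, hd⟩ := eis_rep d
  obtain ⟨z, w, hw⟩ := eis_rep e
  have h1 : d * e = ((3 : ℤ) : eis) + ((0 : ℤ) : eis) * omr := by
    rw [← he]; push_cast; ring
  have h2 := norm_mul_int d e x y z w hd hw _ _ h1
  norm_num at h2
  have hp1 : 0 ≤ x ^ 2 - x * y + y ^ 2 := by nlinarith [sq_nonneg (2 * x - y), sq_nonneg y]
  have hp2 : 0 ≤ z ^ 2 - z * w + w ^ 2 := by nlinarith [sq_nonneg (2 * z - w), sq_nonneg w]
  -- the norm of `e` is not one
  have h3 : z ^ 2 - z * w + w ^ 2 ≠ 1 := by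
    intro h3
    apply hn
    have hu : IsUnit e := by
      rw [isUnit_iff', hw]
      push_cast [omr_coe]
      rw [norm_rep, h3]
      simp
    obtain ⟨t, ht⟩ := hu.exists_right_inv
    exact ⟨t, by rw [he, mul_assoc, ht, mul_one]⟩
  have h4 : x ^ 2 - x * y + y ^ 2 ≤ 9 := Int.le_of_dvd (by norm_num) ⟨_, h2.symm⟩
  have h5 : z ^ 2 - z * w + w ^ 2 ≤ 9 := Int.le_of_dvd (by norm_num) ⟨_, by rw [mul_comm]; exact h2.symm⟩
  have h6 : x ^ 2 - x * y + y ^ 2 = 1 ∨ x ^ 2 - x * y + y ^ 2 = 3 := by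
    generalize x ^ 2 - x * y + y ^ 2 = A at *
    generalize z ^ 2 - z * w + w ^ 2 = B at *
    interval_cases A <;> omega
  rcases h6 with h6 | h6
  · have hu : IsUnit d := by
      rw [isUnit_iff', hd]
      push_cast [omr_coe]
      rw [norm_rep, h6]
      simp
    exact hu.dvd
  · have hx : -2 ≤ x ∧ x ≤ 2 := by
      constructor <;> nlinarith [sq_nonneg (2 * y - x), sq_nonneg x]
    have hy : -2 ≤ y ∧ y ≤ 2 := by
      constructor <;> nlinarith [sq_nonneg (2 * x - y), sq_nonneg y]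
    obtain ⟨hx1, hx2⟩ := hx
    obtain ⟨hy1, hy2⟩ := hy
    have hc := omr_sq
    have key : ∀ t : eis, (x : eis) + y * omr = t → t ∣ omr - 1 → d ∣ omr - 1 := by
      intro t ht htd
      rw [hd, ht]
      exact htd
    interval_cases x <;> interval_cases y <;> (try (exfalso; revert h6; norm_num; done))
    · refine ⟨-omr, ?_⟩; rw [hd]; push_cast; linear_combination -hc
    · refine ⟨-omr - 1, ?_⟩; rw [hd]; push_cast; linear_combination -2 * hc
    · refine ⟨1, ?_⟩; rw [hd]; push_cast; ring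
    · refine ⟨-1, ?_⟩; rw [hd]; push_cast; ring
    · refine ⟨omr + 1, ?_⟩; rw [hd]; push_cast; linear_combination -2 * hc
    · refine ⟨omr, ?_⟩; rw [hd]; push_cast; linear_combination -hc

theorem hc_psi : HC 1 (sp (3 : eis)) psi := by
  refine ⟨?_, ?_, ?_, ?_, ?_⟩
  · rw [Ne, Ideal.span_singleton_eq_bot]
    exact three_ne
  · intro I J
    by_cases hI : IsCoprime I (sp (3 : eis))
    · by_cases hJ : IsCoprime J (sp (3 : eis))
      · obtain ⟨α, rfl, hα⟩ := exists_prim hI
        obtain ⟨β, rfl, hβ⟩ := exists_prim hJ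
        have e : sp α * sp β = sp (α * β) := Ideal.span_singleton_mul_span_singleton α β
        have h : α * β - 1 ∈ (sp 3 : Ideal eis) := by
          have h1 := (sp 3 : Ideal eis).add_mem ((sp 3 : Ideal eis).mul_mem_right β hα) hβ
          convert h1 using 1
          ring
        rw [e, psi_prim hα, psi_prim hβ, psi_prim h]
        push_cast
        rfl
      · rw [(psi_zero_iff J).2 hJ, mul_zero, psi_zero_iff]
        intro h
        exact hJ (IsCoprime.of_mul_left_right h)
    · rw [(psi_zero_iff I).2 hI, zero_mul, psi_zero_iff]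
      intro h
      exact hI (IsCoprime.of_mul_left_left h)
  · intro I
    rw [psi_zero_iff]
    constructor
    · intro h
      exact Or.inr h
    · rintro (rfl | h)
      · exact not_cop_bot
      · exact h
  · intro α _ hα
    rw [psi_prim hα, pow_one]
  · intro q' hq'
    obtain ⟨d, rfl⟩ : ∃ d : eis, q' = sp d :=
      ⟨_, (Submodule.IsPrincipal.span_singleton_generator q').symm⟩
    have h1 : d ∣ 3 := Ideal.span_singleton_le_span_singleton.1 hq'.le
    have h2 : ¬ (3 : eis) ∣ d := fun h => by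
      have := Ideal.span_singleton_le_span_singleton.2 h
      exact absurd (le_antisymm hq'.le this) hq'.ne
    refine ⟨omr, ?_, ?_, ?_, ?_⟩
    · intro h
      have := congrArg (fun t : eis => (t : ℂ)) h
      exact om_ne this
    · rw [Ideal.mem_span_singleton]
      exact om_sub_one_of_dvd h1 h2
    · rw [Ideal.isCoprime_span_singleton_iff]
      exact cop_of_unit (u := omr) ((unit_list _).2 (by simp))
        (by rw [sub_self]; exact Submodule.zero_mem _)
    · have e : sp omr = sp 1 := by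
        rw [Ideal.span_singleton_eq_span_singleton]
        exact associated_one_iff_isUnit.2 ((unit_list _).2 (by simp))
      rw [e, psi_prim (by rw [sub_self]; exact Submodule.zero_mem _), pow_one, omr_coe]
      intro h
      have := congrArg Complex.im h
      push_cast at this
      simp at this
      exact om_im.ne this

end Pool.Agent.Y696
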