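import Mathlib
import Pool.Agent.Y696.Psi
import Pool.Agent.W287.HK.Basic

/-!
# The primitive character attached to a character modulo `c`
-/

set_option autoImplicit false

open Complex IsDedekindDomain

namespace Pool.Agent.Y696

open Pool.Agent.W192.HK

section gen

/-- a generator of a prime ideal -/
noncomputable def gP (P : HeightOneSpectrum eis) : eis := Submodule.IsPrincipal.generator P.asIdeal

lemma gP_span (P : HeightOneSpectrum eis) : P.asIdeal = sp (gP P) :=
  (Submodule.IsPrincipal.span_singleton_generator P.asIdeal).symm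

lemma gP_ne (P : HeightOneSpectrum eis) : gP P ≠ 0 := by
  intro h
  apply P.ne_bot
  rw [gP_span, h]
  simp

lemma finite_dvd {c : eis} (hc : c ≠ 0) : {P : HeightOneSpectrum eis | c ∈ P.asIdeal}.Finite := by
  have h1 : sp c ≠ ⊥ := by rwa [Ne, Ideal.span_singleton_eq_bot]
  refine (Ideal.finite_factors h1).subset fun P hP => ?_
  have h2 : c ∈ P.asIdeal := hP
  show P.asIdeal ∣ sp c
  rw [Ideal.dvd_span_singleton]
  exact h2

/-- the primes dividing `c` -/
noncomputable def Sc {c : eis} (hc : c ≠ 0) : Finset (HeightOneSpectrum eis) :=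
  (finite_dvd hc).toFinset

lemma mem_Sc {c : eis} (hc : c ≠ 0) {P : HeightOneSpectrum eis} : P ∈ Sc hc ↔ c ∈ P.asIdeal := by
  unfold Sc
  rw [Set.Finite.mem_toFinset]
  rfl

lemma cop_iff {c : eis} (hc : c ≠ 0) (x : eis) : IsCoprime x c ↔ ∀ P ∈ Sc hc, x ∉ P.asIdeal := by
  constructor
  · rintro ⟨a, b, hab⟩ P hP hx
    apply P.isPrime.ne_top
    rw [Ideal.eq_top_iff_one, ← hab]
    exact P.asIdeal.add_mem (P.asIdeal.mul_mem_left _ hx)
      (P.asIdeal.mul_mem_left _ ((mem_Sc hc).1 hP))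
  · intro h
    by_contra hn
    have h1 : sp x ⊔ sp c ≠ ⊤ := by
      intro h2
      apply hn
      rw [← Ideal.isCoprime_span_singleton_iff, Ideal.isCoprime_iff_sup_eq]
      exact h2
    obtain ⟨M, hM, hle⟩ := Ideal.exists_le_maximal _ h1
    have hx : x ∈ M := hle (Ideal.mem_sup_left (Ideal.mem_span_singleton_self x))
    have hcM : c ∈ M := hle (Ideal.mem_sup_right (Ideal.mem_span_singleton_self c))
    have hM0 : M ≠ ⊥ := by
      rintro rfl
      exact hc (by simpa using hcM)
    exact h ⟨M, hM.isPrime, hM0⟩ ((mem_Sc hc).2 hcM) hx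

lemma lift_cop {c cs α : eis} (hc : c ≠ 0) (hα : IsCoprime α cs) :
    ∃ t : eis, IsCoprime (α + cs * t) c := by
  classical
  set T := (Sc hc).filter (fun P => α ∉ P.asIdeal ∧ cs ∉ P.asIdeal) with hT
  refine ⟨∏ P ∈ T, gP P, ?_⟩
  rw [cop_iff hc]
  intro P hP hx
  by_cases h1 : α ∈ P.asIdeal
  · have h2 : cs ∉ P.asIdeal := by
      intro h2
      obtain ⟨a, b, hab⟩ := hα
      apply P.isPrime.ne_top
      rw [Ideal.eq_top_iff_one, ← hab]
      exact P.asIdeal.add_mem (P.asIdeal.mul_mem_left _ h1) (P.asIdeal.mul_mem_left _ h2)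
    have h3 : cs * ∏ P ∈ T, gP P ∈ P.asIdeal := by
      have := P.asIdeal.sub_mem hx h1
      rwa [add_sub_cancel_left] at this
    rcases P.isPrime.mem_or_mem h3 with h4 | h4
    · exact h2 h4
    · obtain ⟨Q, hQ, hQP⟩ := (P.isPrime.prod_mem_iff).1 h4
      have h5 : Q.asIdeal ≤ P.asIdeal := by
        rw [gP_span Q, Ideal.span_singleton_le_iff_mem]
        exact hQP
      have h6 : Q.asIdeal = P.asIdeal :=
        (Q.isPrime.isMaximal Q.ne_bot).eq_of_le P.isPrime.ne_top h5
      rw [hT, Finset.mem_filter] at hQ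
      exact hQ.2.1 (h6 ▸ h1)
  · by_cases h2 : cs ∈ P.asIdeal
    · apply h1
      have := P.asIdeal.sub_mem hx (P.asIdeal.mul_mem_right (∏ P ∈ T, gP P) h2)
      rwa [add_sub_cancel_right] at this
    · have hPT : P ∈ T := by
        rw [hT, Finset.mem_filter]
        exact ⟨hP, h1, h2⟩
      have h3 : ∏ P ∈ T, gP P ∈ P.asIdeal := by
        rw [P.isPrime.prod_mem_iff]
        exact ⟨P, hPT, by
          have := Ideal.mem_span_singleton_self (gP P)
          rwa [← sp, ← gP_span] at this⟩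
      apply h1
      have := P.asIdeal.sub_mem hx (P.asIdeal.mul_mem_left cs h3)
      rwa [add_sub_cancel_right] at this

end gen

variable {c : eis}

/-- the values of a character modulo `c` -/
noncomputable def et (η : MulChar (eis ⧸ (sp c : Ideal eis)) ℂ) (α : eis) : ℂ :=
  η (Ideal.Quotient.mk _ α)

variable {η : MulChar (eis ⧸ (sp c : Ideal eis)) ℂ}

lemma et_mul (a b : eis) : et η (a * b) = et η a * et η b := by
  unfold et
  rw [map_mul, map_mul]

lemma et_one : et η 1 = 1 := by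
  unfold et
  rw [map_one, map_one]

lemma et_per {a b : eis} (h : a - b ∈ (sp c : Ideal eis)) : et η a = et η b := by
  unfold et
  rw [Ideal.Quotient.mk_eq_mk_iff_sub_mem a b |>.2 h]

lemma unit_iff (a : eis) : IsUnit (Ideal.Quotient.mk (sp c : Ideal eis) a) ↔ IsCoprime a c := by
  constructor
  · intro h
    obtain ⟨b, hb⟩ := h.exists_right_inv
    obtain ⟨b, rfl⟩ := Ideal.Quotient.mk_surjective b
    rw [← map_mul, ← map_one (Ideal.Quotient.mk (sp c : Ideal eis)),
      Ideal.Quotient.mk_eq_mk_iff_sub_mem, Ideal.mem_span_singleton'] at hb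
    obtain ⟨t, ht⟩ := hb
    exact ⟨b, -t, by linear_combination -ht⟩
  · rintro ⟨s, t, hst⟩
    refine IsUnit.of_mul_eq_one (Ideal.Quotient.mk (sp c) s) ?_
    rw [← map_mul, ← map_one (Ideal.Quotient.mk (sp c)), Ideal.Quotient.mk_eq_mk_iff_sub_mem,
      Ideal.mem_span_singleton']
    exact ⟨-t, by linear_combination -hst⟩

lemma et_zero_iff (a : eis) : et η a = 0 ↔ ¬ IsCoprime a c := by
  rw [← unit_iff]
  constructor
  · intro h hu
    have := hu.map η
    rw [show η (Ideal.Quotient.mk _ a) = et η a from rfl, h] at this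
    exact not_isUnit_zero this
  · intro h
    exact η.map_nonunit h

lemma finite_q (hc : c ≠ 0) : Finite (eis ⧸ (sp c : Ideal eis)) := by
  have h : (sp c : Ideal eis) ≠ ⊥ := by rwa [Ne, Ideal.span_singleton_eq_bot]
  exact (Pool.Agent.W287.HK.h_basic eis om qr).1 _ h

lemma et_norm (hc : c ≠ 0) {a : eis} (ha : IsCoprime a c) : ‖et η a‖ = 1 := by
  have := finite_q hc
  obtain ⟨u, hu⟩ := (unit_iff a).2 ha
  have h1 : u ^ Nat.card (eis ⧸ (sp c : Ideal eis))ˣ = 1 := pow_card_eq_one'
  have h2 : (et η a) ^ Nat.card (eis ⧸ (sp c : Ideal eis))ˣ = 1 := by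
    unfold et
    rw [← hu, ← map_pow, ← Units.val_pow_eq_pow_val, h1, Units.val_one, map_one]
  exact Complex.norm_eq_one_of_pow_eq_one h2 Nat.card_pos.ne'

lemma et_bd (hc : c ≠ 0) (a : eis) : ‖et η a‖ ≤ 1 := by
  by_cases h : IsCoprime a c
  · exact (et_norm hc h).le
  · rw [(et_zero_iff a).2 h, norm_zero]
    exact zero_le_one

/-- `η` is trivial on the classes congruent to one modulo `q'` -/
def Pr (η : MulChar (eis ⧸ (sp c : Ideal eis)) ℂ) (q' : Ideal eis) : Prop :=
  sp c ≤ q' ∧ ∀ α : eis, IsCoprime α c → α - 1 ∈ q' → et η α = 1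

lemma exists_max (η : MulChar (eis ⧸ (sp c : Ideal eis)) ℂ) :
    ∃ q : Ideal eis, Pr η q ∧ ∀ q', q < q' → ¬ Pr η q' := by
  have hne : {q : Ideal eis | Pr η q}.Nonempty := by
    refine ⟨sp c, le_rfl, fun α _ hα => ?_⟩
    rw [et_per (b := 1) hα, et_one]
  obtain ⟨q, hq, hmax⟩ := (wellFounded_gt (α := Ideal eis)).has_min _ hne
  exact ⟨q, hq, fun q' h1 h2 => hmax q' h2 h1⟩

/-- the relation between an ideal and the elements used to define the character -/
def DD (c cs : eis) (I : Ideal eis) (β : eis) : Prop :=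
  IsCoprime β c ∧ ∃ α, α ≠ 0 ∧ I = sp α ∧ α - β ∈ (sp cs : Ideal eis)

lemma DD_wd {cs : eis} (hPr : Pr η (sp cs)) (hη : ∀ u : eis, IsUnit u → et η u = 1)
    {I : Ideal eis} {β β' : eis} (h : DD c cs I β) (h' : DD c cs I β') : et η β = et η β' := by
  obtain ⟨h1, α, hα0, rfl, hα⟩ := h
  obtain ⟨h2, α', hα'0, hI, hα'⟩ := h'
  obtain ⟨u, hu⟩ := Ideal.span_singleton_eq_span_singleton.1 hI
  obtain ⟨a, b, hab⟩ := h1
  obtain ⟨v, huv⟩ := u.isUnit.exists_right_inv
  have hv : IsUnit v := IsUnit.of_mul_eq_one (u : eis) (by rw [mul_comm]; exact huv)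
  have hac : IsCoprime a c := ⟨β, b, by rw [mul_comm β a]; exact hab⟩
  have hx : IsCoprime (β' * v * a) c := by
    refine IsCoprime.mul_left (IsCoprime.mul_left h2 ?_) hac
    exact ⟨u, 0, by linear_combination huv⟩
  have hcs : (sp c : Ideal eis) ≤ sp cs := hPr.1
  have hx1 : β' * v * a - 1 ∈ (sp cs : Ideal eis) := by
    have e1 : a * β - 1 ∈ (sp cs : Ideal eis) := by
      apply hcs
      rw [Ideal.mem_span_singleton']
      exact ⟨-b, by linear_combination -hab⟩
    have e2 : β' - β * u ∈ (sp cs : Ideal eis) := by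
      have h5 := (sp cs : Ideal eis).mul_mem_right (u : eis) hα
      have h6 := (sp cs : Ideal eis).sub_mem h5 hα'
      have h7 : (α - β) * u - (α' - β') = β' - β * u := by
        linear_combination hu
      rwa [h7] at h6
    have h5 := (sp cs : Ideal eis).mul_mem_right (v * a) e2
    have h6 := (sp cs : Ideal eis).add_mem h5 e1
    convert h6 using 1
    linear_combination (β * a) * huv
  have h3 := hPr.2 _ hx hx1
  rw [et_mul, et_mul, hη v hv, mul_one] at h3
  have h4 : et η β * et η a = 1 := by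
    rw [← et_mul, ← et_one (η := η)]
    apply et_per
    rw [Ideal.mem_span_singleton']
    exact ⟨-b, by linear_combination -hab⟩
  have h5 : et η a ≠ 0 := right_ne_zero_of_mul (a := et η β) (by rw [h4]; exact one_ne_zero)
  exact mul_right_cancel₀ h5 (h4.trans h3.symm)

lemma DD_exists (hc : c ≠ 0) {cs : eis} (hcs : cs ∣ c) (I : Ideal eis) :
    (∃ β, DD c cs I β) ↔ I ≠ ⊥ ∧ IsCoprime I (sp cs) := by
  constructor
  · rintro ⟨β, h1, α, h2, rfl, h3⟩
    refine ⟨by rwa [Ne, Ideal.span_singleton_eq_bot], ?_⟩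
    rw [Ideal.isCoprime_span_singleton_iff]
    obtain ⟨a, b, hab⟩ := h1.of_isCoprime_of_dvd_right hcs
    rw [Ideal.mem_span_singleton'] at h3
    obtain ⟨t, ht⟩ := h3
    exact ⟨a, b - a * t, by linear_combination hab - a * ht⟩
  · rintro ⟨h1, h2⟩
    obtain ⟨α, rfl⟩ : ∃ α : eis, I = sp α :=
      ⟨_, (Submodule.IsPrincipal.span_singleton_generator I).symm⟩
    rw [Ideal.isCoprime_span_singleton_iff] at h2
    obtain ⟨t, ht⟩ := lift_cop hc h2
    refine ⟨_, ht, α, ?_, rfl, ?_⟩
    · rintro rfl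
      exact h1 (by simp)
    · rw [Ideal.mem_span_singleton']
      exact ⟨-t, by ring⟩

/-- the primitive character that induces `η` -/
theorem exists_prim_char (hc : c ≠ 0) (hη : ∀ u : eis, IsUnit u → et η u = 1) :
    ∃ (cs : eis) (χ : Ideal eis → ℂ), cs ∣ c ∧ HC 0 (sp cs) χ ∧
      ∀ α : eis, α ≠ 0 → IsCoprime α c → χ (sp α) = et η α := by
  classical
  obtain ⟨q, hq, hmax⟩ := exists_max η
  obtain ⟨cs, rfl⟩ : ∃ α : eis, q = sp α :=
    ⟨_, (Submodule.IsPrincipal.span_singleton_generator q).symm⟩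
  have hcs : cs ∣ c := Ideal.span_singleton_le_span_singleton.1 hq.1
  set χ : Ideal eis → ℂ := fun I => if h : ∃ β, DD c cs I β then et η (Classical.choose h) else 0
    with hχ
  have hval : ∀ (I : Ideal eis) (β : eis), DD c cs I β → χ I = et η β := by
    intro I β h
    have h' : ∃ β, DD c cs I β := ⟨β, h⟩
    rw [hχ]
    simp only
    rw [dif_pos h']
    exact DD_wd hq hη (Classical.choose_spec h') h
  have hz : ∀ I : Ideal eis, (¬ ∃ β, DD c cs I β) → χ I = 0 := by
    intro I h
    rw [hχ]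
    simp only
    rw [dif_neg h]
  have hself : ∀ α : eis, α ≠ 0 → IsCoprime α c → DD c cs (sp α) α := fun α h0 hα =>
    ⟨hα, α, h0, rfl, by rw [sub_self]; exact Submodule.zero_mem _⟩
  refine ⟨cs, χ, hcs, ⟨?_, ?_, ?_, ?_, ?_⟩, fun α h0 hα => hval _ _ (hself α h0 hα)⟩
  · intro h
    rw [Ideal.span_singleton_eq_bot] at h
    rw [h] at hcs
    exact hc (zero_dvd_iff.1 hcs)
  · intro I J
    by_cases hI : ∃ β, DD c cs I β
    · by_cases hJ : ∃ β, DD c cs J β
      · obtain ⟨β, hβ⟩ := hI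
        obtain ⟨γ, hγ⟩ := hJ
        rw [hval _ _ hβ, hval _ _ hγ, ← et_mul]
        apply hval
        obtain ⟨h1, α, h2, h3, h4⟩ := hβ
        obtain ⟨h5, α', h6, h7, h8⟩ := hγ
        refine ⟨IsCoprime.mul_left h1 h5, α * α', mul_ne_zero h2 h6, ?_, ?_⟩
        · rw [h3, h7]
          exact Ideal.span_singleton_mul_span_singleton α α'
        · have h9 := (sp cs : Ideal eis).mul_mem_right α' h4
          have h10 := (sp cs : Ideal eis).mul_mem_left β h8
          have h11 := (sp cs : Ideal eis).add_mem h9 h10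
          convert h11 using 1
          ring
      · rw [hz J hJ, mul_zero]
        apply hz
        rw [DD_exists hc hcs] at hJ ⊢
        rintro ⟨h1, h2⟩
        apply hJ
        refine ⟨?_, IsCoprime.of_mul_left_right h2⟩
        rintro rfl
        exact h1 (by simp)
    · rw [hz I hI, zero_mul]
      apply hz
      rw [DD_exists hc hcs] at hI ⊢
      rintro ⟨h1, h2⟩
      apply hI
      refine ⟨?_, IsCoprime.of_mul_left_left h2⟩
      rintro rfl
      exact h1 (by simp)
  · intro I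
    have h1 : χ I = 0 ↔ ¬ ∃ β, DD c cs I β := by
      constructor
      · rintro h ⟨β, hβ⟩
        rw [hval _ _ hβ, et_zero_iff] at h
        exact h hβ.1
      · exact hz I
    rw [h1, DD_exists hc hcs]
    tauto
  · intro α h0 hα
    rw [pow_zero, ← et_one (η := η)]
    exact hval _ _ ⟨isCoprime_one_left, α, h0, rfl, hα⟩
  · intro q' hq'
    have h1 := hmax q' hq'
    have h2 : sp c ≤ q' := hq.1.trans hq'.le
    have h3 : ∃ α : eis, IsCoprime α c ∧ α - 1 ∈ q' ∧ et η α ≠ 1 := by
      by_contra h3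
      apply h1
      refine ⟨h2, fun α h4 h5 => ?_⟩
      by_contra h6
      exact h3 ⟨α, h4, h5, h6⟩
    obtain ⟨α, h4, h5, h6⟩ := h3
    have h0 : α ≠ 0 := by
      rintro rfl
      rw [isCoprime_zero_left] at h4
      have h7 : sp c = ⊤ := Ideal.span_singleton_eq_top.2 h4
      have h8 := hq.1
      rw [h7, top_le_iff] at h8
      rw [h8] at hq'
      exact absurd hq' (not_top_lt)
    refine ⟨α, h0, h5, ?_, ?_⟩
    · rw [Ideal.isCoprime_span_singleton_iff]
      exact h4.of_isCoprime_of_dvd_right hcs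
    · rw [hval _ _ (hself α h0 h4), pow_zero]
      exact h6

end Pool.Agent.Y696
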