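import Pool.Agent.TH936.PU.Val
import Pool.Agent.W287.HK.Basic
import Pool.Agent.W571.HK.Cls
import Pool.Agent.W53.HK.Fp
import Pool.Agent.W366.HK.Fpr
import Pool.Agent.W585.HK.LAT
import Pool.Agent.W692.HK.Ker
import Pool.Agent.W584.HK.CNT
import Pool.Agent.W856.HK.Dec
import Pool.Agent.W636.HK.Gauss
import Pool.Agent.W348.HK.Pois
import Pool.Agent.W29.HK.Prod

/-!
# The parts of the library on Hecke characters
-/

set_option autoImplicit false

namespace Pool.Agent.Y696

open Pool.Agent.W192.HK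

theorem lbasic : H_BASIC := Pool.Agent.W287.HK.h_basic

theorem lfp : H_FP := Pool.Agent.W53.HK.h_fp lbasic (Pool.Agent.W571.HK.h_cls lbasic)

theorem lcnt : H_CNT := by
  have hcls := Pool.Agent.W571.HK.h_cls lbasic
  have hfpr := Pool.Agent.W366.HK.h_fpr lbasic hcls
  have hlat := Pool.Agent.W585.HK.h_lat lbasic
  have hker := Pool.Agent.W692.HK.h_ker lbasic hcls hfpr
  exact Pool.Agent.W584.HK.h_cnt lbasic hcls hfpr hlat hker

theorem ldec : H_DEC := Pool.Agent.W856.HK.h_dec lbasic

theorem lafe : H_AFE := by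
  have hgauss := Pool.Agent.W636.HK.h_gauss lbasic lfp
  have hpois := Pool.Agent.W348.HK.h_pois lbasic
  have htheta := Pool.Agent.TH936.HK.h_theta lbasic lfp ldec hgauss hpois lcnt
  exact Pool.Agent.TH936.HK.h_afe lbasic lfp lcnt hgauss htheta

theorem lprod : H_PROD := Pool.Agent.W29.HK.h_prod lbasic lfp

end Pool.Agent.Y696
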