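import Mathlib
import Pool.Agent.Y696.Psi
import Pool.Agent.TH936.PU.Lim

/-!
# Removing finitely many Euler factors
-/

set_option autoImplicit false

open Complex Filter Topology IsDedekindDomain

namespace Pool.Agent.Y696

open Pool.Agent.W192.HK Pool.Agent.TH936.CM Pool.Agent.TH936.PU

/-- completely multiplicative functions bounded by one -/
structure CM (e : eis → ℂ) : Prop where
  mul : ∀ x y, e (x * y) = e x * e y
  bd : ∀ x, ‖e x‖ ≤ 1

lemma summ_e {L : PeriodPair} {Ω : ℂ} (hL : IsLat L eis Ω) {e : eis → ℂ} (he : ∀ x, ‖e x‖ ≤ 1)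
    {δ : ℝ} (hδ : 0 < δ) : Summable (fun α : eis => e α * fd δ (α : ℂ)) := by
  have hΩ := hL.ne
  have h1 : Summable (fun α : eis => δ⁻¹ * (‖0 + Ω * (α : ℂ)‖ ^ 3)⁻¹ * ‖Ω‖ ^ 3) :=
    ((summ3 hL 0).mul_left δ⁻¹).mul_right _
  refine Summable.of_norm_bounded h1 fun α => ?_
  rw [norm_mul]
  refine (mul_le_mul (he α) (fd_bound δ hδ _) (norm_nonneg _) zero_le_one).trans ?_
  rw [one_mul, zero_add, norm_mul, mul_pow, mul_inv]
  have h5 : (‖Ω‖ ^ 3)⁻¹ * ‖Ω‖ ^ 3 = 1 := inv_mul_cancel₀ (pow_ne_zero 3 (norm_ne_zero_iff.2 hΩ))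
  refine le_of_eq ?_
  calc δ⁻¹ * (‖(α : ℂ)‖ ^ 3)⁻¹ = δ⁻¹ * (‖(α : ℂ)‖ ^ 3)⁻¹ * ((‖Ω‖ ^ 3)⁻¹ * ‖Ω‖ ^ 3) := by
        rw [h5, mul_one]
    _ = _ := by ring

open Classical in
/-- removal of the multiples of one element -/
lemma SS_rm {L : PeriodPair} {Ω : ℂ} (hL : IsLat L eis Ω) {e : eis → ℂ} (he : CM e)
    {π : eis} (hπ : π ≠ 0) {δ : ℝ} (hδ : 0 < δ) :
    SS (fun α => if α ∈ (sp π : Ideal eis) then 0 else e α) δ =
      SS e δ - e π / π * SS e (δ * Complex.normSq (π : ℂ)) := by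
  have hπ0 := coe_ne hπ
  have hn : 0 < Complex.normSq (π : ℂ) := Complex.normSq_pos.2 hπ0
  have hs := summ_e hL he.bd hδ
  have hinj : Function.Injective (fun β : eis => π * β) := mul_right_injective₀ hπ
  set h1 : eis → ℂ := fun α => if α ∈ (sp π : Ideal eis) then e α * fd δ (α : ℂ) else 0 with hh1
  have e1 : ∀ α : eis, (if α ∈ (sp π : Ideal eis) then 0 else e α) * fd δ (α : ℂ) =
      e α * fd δ (α : ℂ) - h1 α := by
    intro α
    rw [hh1]
    simp only
    split_ifs <;> ring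
  have e2 : ∀ β : eis, h1 (π * β) = e π / π * (e β * fd (δ * Complex.normSq (π : ℂ)) (β : ℂ)) := by
    intro β
    rw [hh1]
    simp only
    rw [if_pos (Ideal.mul_mem_right _ _ (Ideal.mem_span_singleton_self π)), he.mul]
    push_cast
    rw [fd_mul]
    field_simp
  have hsupp : Function.support h1 ⊆ Set.range (fun β : eis => π * β) := by
    intro α hα
    rw [Function.mem_support, hh1] at hα
    simp only at hα
    by_contra h
    apply hα
    rw [if_neg]
    intro h2
    rw [Ideal.mem_span_singleton'] at h2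
    obtain ⟨b, hb⟩ := h2
    exact h ⟨b, by simp only; rw [mul_comm]; exact hb⟩
  have hs2 : Summable (fun β : eis => h1 (π * β)) := by
    simp only [e2]
    exact (summ_e hL he.bd (δ := δ * Complex.normSq (π : ℂ)) (by positivity)).mul_left _
  have hs1 : Summable h1 := by
    rw [← hinj.summable_iff (f := h1)]
    · exact hs2
    · intro x hx
      by_contra h
      exact hx (hsupp h)
  have e3 : ∑' α, h1 α = e π / π * SS e (δ * Complex.normSq (π : ℂ)) := by
    rw [← hinj.tsum_eq hsupp]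
    simp only [e2]
    rw [tsum_mul_left]
    rfl
  unfold SS at e3 ⊢
  rw [tsum_congr e1, hs.tsum_sub hs1, e3]

open Classical in
lemma lim_rm {L : PeriodPair} {Ω : ℂ} (hL : IsLat L eis Ω) {e : eis → ℂ} (he : CM e)
    {π : eis} (hπ : π ≠ 0) {l : ℂ} (hl : Tendsto (SS e) (𝓝[>] 0) (𝓝 l)) :
    Tendsto (SS (fun α => if α ∈ (sp π : Ideal eis) then 0 else e α)) (𝓝[>] 0)
      (𝓝 ((1 - e π / π) * l)) := by
  have hn : 0 < Complex.normSq (π : ℂ) := Complex.normSq_pos.2 (coe_ne hπ)
  have h1 : Tendsto (fun δ : ℝ => δ * Complex.normSq (π : ℂ)) (𝓝[>] 0) (𝓝[>] 0) := by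
    rw [tendsto_nhdsWithin_iff]
    constructor
    · have h7 : Continuous (fun δ : ℝ => δ * Complex.normSq (π : ℂ)) := by fun_prop
      have h8 := (h7.tendsto 0).mono_left (nhdsWithin_le_nhds (s := Set.Ioi 0))
      simpa using h8
    · filter_upwards [self_mem_nhdsWithin] with δ (hδ : 0 < δ)
      show 0 < δ * Complex.normSq (π : ℂ)
      positivity
  have h2 := hl.sub ((hl.comp h1).const_mul (e π / π))
  have e1 : l - e π / π * l = (1 - e π / π) * l := by ring
  rw [e1] at h2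
  refine h2.congr' ?_
  filter_upwards [self_mem_nhdsWithin] with δ (hδ : 0 < δ)
  exact (SS_rm hL he hπ hδ).symm

open Classical in
/-- removal of the multiples of the primes in `S` -/
noncomputable def rmv (S : Finset (HeightOneSpectrum eis)) (e : eis → ℂ) (α : eis) : ℂ :=
  if ∃ P ∈ S, α ∈ P.asIdeal then 0 else e α

lemma rmv_cm {S : Finset (HeightOneSpectrum eis)} {e : eis → ℂ} (he : CM e) : CM (rmv S e) := by
  classical
  constructor
  · intro x y
    unfold rmv
    by_cases hx : ∃ P ∈ S, x ∈ P.asIdeal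
    · obtain ⟨P, hP, hxP⟩ := hx
      rw [if_pos ⟨P, hP, P.asIdeal.mul_mem_right y hxP⟩, if_pos ⟨P, hP, hxP⟩, zero_mul]
    · by_cases hy : ∃ P ∈ S, y ∈ P.asIdeal
      · obtain ⟨P, hP, hyP⟩ := hy
        rw [if_pos ⟨P, hP, P.asIdeal.mul_mem_left x hyP⟩, if_neg hx, if_pos ⟨P, hP, hyP⟩, mul_zero]
      · rw [if_neg hx, if_neg hy, if_neg, he.mul]
        rintro ⟨P, hP, hxy⟩
        rcases P.isPrime.mem_or_mem hxy with h | h
        · exact hx ⟨P, hP, h⟩
        · exact hy ⟨P, hP, h⟩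
  · intro x
    unfold rmv
    split_ifs
    · simp
    · exact he.bd x

lemma rmv_insert {S : Finset (HeightOneSpectrum eis)} [DecidableEq (HeightOneSpectrum eis)]
    {P : HeightOneSpectrum eis} {e : eis → ℂ} {π : eis} (hP : P.asIdeal = sp π) :
    rmv (insert P S) e = fun α => @ite _ (α ∈ (sp π : Ideal eis)) (Classical.propDecidable _) 0
      (rmv S e α) := by
  classical
  funext α
  unfold rmv
  by_cases h : α ∈ (sp π : Ideal eis)
  · rw [if_pos h, if_pos ⟨P, Finset.mem_insert_self _ _, hP ▸ h⟩]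
  · rw [if_neg h]
    congr 1
    rw [eq_iff_iff]
    constructor
    · rintro ⟨Q, hQ, hα⟩
      rcases Finset.mem_insert.1 hQ with rfl | hQ
      · exact absurd (hP ▸ hα) h
      · exact ⟨Q, hQ, hα⟩
    · rintro ⟨Q, hQ, hα⟩
      exact ⟨Q, Finset.mem_insert_of_mem hQ, hα⟩

lemma rmv_gen {S : Finset (HeightOneSpectrum eis)} {P : HeightOneSpectrum eis} (hP : P ∉ S)
    {e : eis → ℂ} {π : eis} (hπ : P.asIdeal = sp π) : rmv S e π = e π := by
  unfold rmv
  rw [if_neg]
  rintro ⟨Q, hQ, h⟩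
  apply hP
  have h1 : P.asIdeal ≤ Q.asIdeal := by
    rw [hπ, Ideal.span_singleton_le_iff_mem]
    exact h
  have h2 : P.asIdeal = Q.asIdeal :=
    (P.isPrime.isMaximal P.ne_bot).eq_of_le Q.isPrime.ne_top h1
  rwa [HeightOneSpectrum.ext h2]

/-- the limit after removal of the primes in `S` -/
theorem lim_rmv {L : PeriodPair} {Ω : ℂ} (hL : IsLat L eis Ω) {e : eis → ℂ} (he : CM e)
    (g : HeightOneSpectrum eis → eis) (hg : ∀ P, P.asIdeal = sp (g P)) {l : ℂ}
    (hl : Tendsto (SS e) (𝓝[>] 0) (𝓝 l)) (S : Finset (HeightOneSpectrum eis)) :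
    Tendsto (SS (rmv S e)) (𝓝[>] 0) (𝓝 (l * ∏ P ∈ S, (1 - e (g P) / g P))) := by
  classical
  induction S using Finset.induction_on with
  | empty =>
    have : rmv ∅ e = e := by
      funext α
      unfold rmv
      simp
    rw [this]
    simpa using hl
  | insert P S hP ih =>
    rw [rmv_insert (hg P), Finset.prod_insert hP]
    have hg0 : g P ≠ 0 := by
      intro h
      apply P.ne_bot
      rw [hg P, h]
      simp
    have h1 := lim_rm hL (rmv_cm (S := S) he) hg0 ih
    rw [rmv_gen hP (hg P)] at h1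
    convert h1 using 2
    ring

/-! ### the same for functions on ideals -/

open Classical in
/-- removal of the multiples of the primes in `S` -/
noncomputable def rmI (S : Finset (HeightOneSpectrum eis)) (f : Ideal eis → ℂ) (I : Ideal eis) : ℂ :=
  if ∃ P ∈ S, P.asIdeal ∣ I then 0 else f I

lemma rmI_mul {S : Finset (HeightOneSpectrum eis)} {f : Ideal eis → ℂ}
    (hm : ∀ I J, f (I * J) = f I * f J) (I J : Ideal eis) :
    rmI S f (I * J) = rmI S f I * rmI S f J := by
  unfold rmI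
  by_cases hx : ∃ P ∈ S, P.asIdeal ∣ I
  · obtain ⟨P, hP, hxP⟩ := hx
    rw [if_pos ⟨P, hP, hxP.mul_right J⟩, if_pos ⟨P, hP, hxP⟩, zero_mul]
  · by_cases hy : ∃ P ∈ S, P.asIdeal ∣ J
    · obtain ⟨P, hP, hyP⟩ := hy
      rw [if_pos ⟨P, hP, hyP.mul_left I⟩, if_neg hx, if_pos ⟨P, hP, hyP⟩, mul_zero]
    · rw [if_neg hx, if_neg hy, if_neg, hm]
      rintro ⟨P, hP, hxy⟩
      rcases P.prime.dvd_or_dvd hxy with h | h
      · exact hx ⟨P, hP, h⟩
      · exact hy ⟨P, hP, h⟩

theorem hasSum_rmI {f : Ideal eis → ℂ} (hm : ∀ I J, f (I * J) = f I * f J) {a : ℂ}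
    (hf : HasSum f a) (S : Finset (HeightOneSpectrum eis)) :
    HasSum (rmI S f) (a * ∏ P ∈ S, (1 - f P.asIdeal)) := by
  classical
  induction S using Finset.induction_on with
  | empty =>
    have : rmI ∅ f = f := by
      funext α
      unfold rmI
      simp
    rw [this]
    simpa using hf
  | insert P S hP ih =>
    rw [Finset.prod_insert hP]
    have hinj : Function.Injective (fun J : Ideal eis => P.asIdeal * J) := fun a b h =>
      mul_left_cancel₀ P.ne_bot h
    have hPS : rmI S f P.asIdeal = f P.asIdeal := by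
      unfold rmI
      rw [if_neg]
      rintro ⟨Q, hQ, h⟩
      apply hP
      have h2 : P.asIdeal = Q.asIdeal :=
        (P.isPrime.isMaximal P.ne_bot).eq_of_le Q.isPrime.ne_top (Ideal.le_of_dvd h)
      rwa [HeightOneSpectrum.ext h2]
    set h1 : Ideal eis → ℂ := fun I => if P.asIdeal ∣ I then rmI S f I else 0 with hh1
    have h2 : HasSum (fun J => h1 (P.asIdeal * J))
        (f P.asIdeal * (a * ∏ P ∈ S, (1 - f P.asIdeal))) := by
      have h3 := ih.mul_left (f P.asIdeal)
      refine h3.congr_fun fun J => ?_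
      rw [hh1]
      simp only
      rw [if_pos (dvd_mul_right _ _), rmI_mul hm, hPS]
    have h3 : HasSum h1 (f P.asIdeal * (a * ∏ P ∈ S, (1 - f P.asIdeal))) := by
      rw [← hinj.hasSum_iff (f := h1)]
      · exact h2
      · intro I hI
        rw [hh1]
        simp only
        rw [if_neg]
        rintro ⟨J, rfl⟩
        exact hI ⟨J, rfl⟩
    have h4 := ih.sub h3
    have e1 : rmI (insert P S) f = fun b => rmI S f b - h1 b := by
      funext I
      rw [hh1]
      simp only
      unfold rmI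
      by_cases h : P.asIdeal ∣ I
      · rw [if_pos ⟨P, Finset.mem_insert_self _ _, h⟩, if_pos h, sub_self]
      · rw [if_neg h, sub_zero]
        congr 1
        rw [eq_iff_iff]
        constructor
        · rintro ⟨Q, hQ, hα⟩
          rcases Finset.mem_insert.1 hQ with rfl | hQ
          · exact absurd hα h
          · exact ⟨Q, hQ, hα⟩
        · rintro ⟨Q, hQ, hα⟩
          exact ⟨Q, Finset.mem_insert_of_mem hQ, hα⟩
    have e2 : a * ((1 - f P.asIdeal) * ∏ x ∈ S, (1 - f x.asIdeal)) =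
        a * ∏ P ∈ S, (1 - f P.asIdeal) - f P.asIdeal * (a * ∏ P ∈ S, (1 - f P.asIdeal)) := by
      ring
    rw [e1, e2]
    exact h4

end Pool.Agent.Y696
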