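import Mathlib
import Pool.Agent.Y696.Rmv
import Pool.Agent.Y696.Cond
import Pool.Agent.Y696.Lib

/-!
# The Hecke L-functions attached to the characters modulo `c`
-/

set_option autoImplicit false

open Complex Filter Topology IsDedekindDomain

namespace Pool.Agent.Y696

open Pool.Agent.W192.HK Pool.Agent.TH936.CM Pool.Agent.TH936.PU
open Pool.Agent.W192.CM (nu)

variable {c : eis} {η : MulChar (eis ⧸ (sp c : Ideal eis)) ℂ}

/-- the coefficient function -/
noncomputable def ec (η : MulChar (eis ⧸ (sp c : Ideal eis)) ℂ) (α : eis) : ℂ :=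
  ee psi α * (starRingEnd ℂ) (et η α)

/-- the character on ideals -/
noncomputable def eI (η : MulChar (eis ⧸ (sp c : Ideal eis)) ℂ) (I : Ideal eis) : ℂ :=
  et η (Submodule.IsPrincipal.generator I)

lemma eI_sp (hη : ∀ u : eis, IsUnit u → et η u = 1) (α : eis) : eI η (sp α) = et η α := by
  unfold eI
  have h : sp (Submodule.IsPrincipal.generator (sp α : Ideal eis)) = (sp α : Ideal eis) :=
    Submodule.IsPrincipal.span_singleton_generator _
  obtain ⟨u, hu⟩ := Ideal.span_singleton_eq_span_singleton.1 h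
  have h2 : et η α = et η (Submodule.IsPrincipal.generator (sp α : Ideal eis) * u) := by rw [hu]
  rw [h2, et_mul, hη _ u.isUnit, mul_one]

lemma nm_sp (α : eis) : nm (sp α : Ideal eis) = Complex.normSq (α : ℂ) :=
  (lbasic eis om qr).2.2.2.2.1 α

lemma nm_nonneg (I : Ideal eis) : 0 ≤ nm I := by
  unfold nm
  exact Nat.cast_nonneg _

lemma hecke_three : HC (2 * 1 - 1) (sp (3 : eis)) psi := hc_psi

lemma three_top : (sp (3 : eis) : Ideal eis) ≠ ⊤ := hecke_three.ne_top le_rfl

theorem hecke (hc : c ≠ 0) (hc3 : IsCoprime c 3) (hη : ∀ u : eis, IsUnit u → et η u = 1) :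
    ∃ F : ℂ → ℂ, Differentiable ℂ F ∧
      (∀ z : ℂ, 3 / 2 < z.re →
        HasSum (fun I : Ideal eis => psi I * eI η I * (nm I : ℂ) ^ (-z)) (F z)) ∧
      ∀ (L : PeriodPair) (Ω : ℂ), IsLat L eis Ω →
        Tendsto (SS (ec η)) (𝓝[>] 0) (𝓝 ((nu eis : ℂ) * (starRingEnd ℂ) (F 1))) := by
  classical
  obtain ⟨cs, χ, hcs, hχ, hval⟩ := exists_prim_char hc hη
  have hcop : IsCoprime (sp 3 : Ideal eis) (sp cs) := by
    rw [Ideal.isCoprime_span_singleton_iff]
    exact (hc3.symm).of_isCoprime_of_dvd_right hcs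
  have hθ := lprod eis om qr 1 (sp 3) (sp cs) psi χ hc_psi hχ hcop
  have hq : (sp 3 : Ideal eis) * sp cs = sp (3 * cs) := Ideal.span_singleton_mul_span_singleton 3 cs
  rw [hq] at hθ
  have hne : (sp (3 * cs) : Ideal eis) ≠ ⊥ := hθ.ne
  have hfin := (lbasic eis om qr).1 _ hne
  obtain ⟨F, g1, g2, g3⟩ := lim_L lbasic lfp lcnt ldec lafe qr hθ (sys_pid hfin)
  set θ : Ideal eis → ℂ := fun I => psi I * χ I with hθd
  have hθ' : HC (2 * 1 - 1) (sp (3 * cs)) θ := hθ
  have hqt : (sp (3 * cs) : Ideal eis) ≠ ⊤ := hθ'.ne_top le_rfl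
  obtain ⟨-, f2, f3, f4, -⟩ := lfp eis om qr 1 (sp (3 * cs)) θ hθ hqt
  have hθm : ∀ I J, θ (I * J) = θ I * θ J := hθ.mul
  have b4 := (lbasic eis om qr).2.2.2.1
  -- the limit for the primitive character
  set e : eis → ℂ := cb θ ⊤ with he
  have heα : ∀ α : eis, e α = (starRingEnd ℂ) (fp 1 θ α) := by
    intro α
    rw [he]
    unfold cb
    rw [if_pos Submodule.mem_top]
  have hcm : CM e := by
    constructor
    · intro x y
      rw [heα, heα, heα, f2, map_mul]
    · intro x
      rw [heα, RCLike.norm_conj]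
      by_cases h : IsCoprime (sp x : Ideal eis) (sp (3 * cs))
      · exact (f4 x h).le
      · rw [(f3 x).2 h, norm_zero]
        exact zero_le_one
  have t1 : θ ⊤ = 1 := by
    have e1 : (⊤ : Ideal eis) = sp 1 := by
      rw [eq_comm, Ideal.span_singleton_eq_top]
      exact isUnit_one
    rw [hθd]
    simp only
    rw [e1, hc_psi.princ 1 one_ne_zero (by rw [sub_self]; exact Submodule.zero_mem _),
      hχ.princ 1 one_ne_zero (by rw [sub_self]; exact Submodule.zero_mem _)]
    simp
  have t2 : nm (⊤ : Ideal eis) = 1 := ((lbasic eis om qr).2.2.2.2.2.2.1 ⊤).2 rfl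
  have hl : Tendsto (SS e) (𝓝[>] 0) (𝓝 ((nu eis : ℂ) * (starRingEnd ℂ) (F 1))) := by
    refine g3.congr fun δ => ?_
    rw [Finset.sum_singleton]
    change θ ⊤ * SS (cb θ ⊤) (δ / nm (⊤ : Ideal eis)) = SS e δ
    rw [t1, one_mul, t2, div_one]
  have hgP : ∀ P : HeightOneSpectrum eis, e (gP P) / (gP P : ℂ) =
      (starRingEnd ℂ) (θ P.asIdeal * (nm P.asIdeal : ℂ) ^ (-(1 : ℂ))) := by
    intro P
    have hg0 := coe_ne (gP_ne P)
    rw [heα, map_mul, Complex.cpow_neg_one, map_inv₀, Complex.conj_ofReal]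
    unfold fp
    rw [← gP_span, pow_one, map_div₀, gP_span P, nm_sp, ← Complex.mul_conj]
    have h9 : (starRingEnd ℂ) (gP P : ℂ) ≠ 0 := (map_ne_zero _).2 hg0
    field_simp
  refine ⟨fun z => F z * ∏ P ∈ Sc hc, (1 - θ P.asIdeal * (nm P.asIdeal : ℂ) ^ (-z)), ?_, ?_, ?_⟩
  · refine g1.mul ?_
    refine Differentiable.fun_finsetProd fun P _ => ?_
    have hn : (nm P.asIdeal : ℂ) ≠ 0 := by
      rw [gP_span P, nm_sp]
      have := Complex.normSq_pos.2 (coe_ne (gP_ne P))
      exact_mod_cast this.ne'
    refine (differentiable_const _).sub ((differentiable_const _).mul ?_)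
    intro z
    exact (differentiableAt_id.neg).const_cpow (Or.inl hn)
  · intro z hz
    have h1 := hasSum_rmI (f := fun I => θ I * (nm I : ℂ) ^ (-z)) (by
      intro I J
      rw [hθm, b4]
      push_cast
      rw [Complex.mul_cpow_ofReal_nonneg (nm_nonneg I) (nm_nonneg J)]
      ring) (g2 z hz) (Sc hc)
    have e1 : (fun I : Ideal eis => psi I * eI η I * (nm I : ℂ) ^ (-z)) =
        rmI (Sc hc) (fun I => θ I * (nm I : ℂ) ^ (-z)) := by
      funext I
      obtain ⟨α, rfl⟩ : ∃ α : eis, I = sp α :=
        ⟨_, (Submodule.IsPrincipal.span_singleton_generator I).symm⟩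
      rw [eI_sp hη]
      unfold rmI
      by_cases h : ∃ P ∈ Sc hc, P.asIdeal ∣ sp α
      · rw [if_pos h]
        obtain ⟨P, hP, hPα⟩ := h
        rw [Ideal.dvd_span_singleton] at hPα
        have h2 : et η α = 0 := by
          rw [et_zero_iff, cop_iff hc]
          exact fun h3 => h3 P hP hPα
        rw [h2]
        ring
      · rw [if_neg h]
        by_cases h0 : α = 0
        · subst h0
          have h2 : psi (sp 0) = 0 := by
            rw [psi_zero_iff]
            have e2 : (sp 0 : Ideal eis) = ⊥ := by simp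
            rw [e2]
            exact not_cop_bot
          rw [hθd]
          simp only
          rw [h2]
          ring
        · have h2 : IsCoprime α c := by
            rw [cop_iff hc]
            intro P hP hα
            exact h ⟨P, hP, by rw [Ideal.dvd_span_singleton]; exact hα⟩
          rw [hθd]
          simp only
          rw [hval α h0 h2]
    rw [e1]
    exact h1
  · intro L Ω hL
    have h1 := lim_rmv hL hcm gP gP_span hl (Sc hc)
    have e1 : rmv (Sc hc) e = ec η := by
      funext α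
      unfold rmv ec
      by_cases h : ∃ P ∈ Sc hc, α ∈ P.asIdeal
      · rw [if_pos h]
        obtain ⟨P, hP, hPα⟩ := h
        have h2 : et η α = 0 := by
          rw [et_zero_iff, cop_iff hc]
          exact fun h3 => h3 P hP hPα
        rw [h2, map_zero, mul_zero]
      · rw [if_neg h, heα]
        unfold ee fp
        rw [← map_mul]
        congr 1
        by_cases h0 : α = 0
        · subst h0
          simp
        · have h2 : IsCoprime α c := by
            rw [cop_iff hc]
            intro P hP hα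
            exact h ⟨P, hP, hα⟩
          rw [hθd]
          simp only
          rw [hval α h0 h2]
          ring
    rw [e1] at h1
    convert h1 using 2
    rw [map_mul, map_prod, mul_assoc]
    congr 2
    refine Finset.prod_congr rfl fun P _ => ?_
    rw [map_sub, map_one, hgP]

end Pool.Agent.Y696
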