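import Mathlib
import Pool.Agent.Y696.Hecke
import Pool.Agent.TH936.PU.Mul

/-!
# The lattice of `y² = 4 x³ + 1`
-/

set_option autoImplicit false

open Complex Filter Topology
open scoped PeriodPair

namespace Pool.Agent.Y696

open H667R3 Pool.Agent.W192.HK Pool.Agent.TH936.CM Pool.Agent.TH936.PU
open Pool.Agent.W192.CM (nu)

variable {L : PeriodPair} {Ω : ℂ}

lemma lat_unit (hL : IsLat L eis Ω) {u : eis} (hu : IsUnit u) (z : ℂ) :
    (u : ℂ) * z ∈ L.lattice ↔ z ∈ L.lattice := by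
  constructor
  · intro h
    obtain ⟨v, hv⟩ := hu.exists_left_inv
    have h1 := hL.mul v _ h
    have h2 : (v : ℂ) * (u * z) = z := by
      have h3 : ((v * u : eis) : ℂ) = 1 := by rw [hv]; rfl
      push_cast at h3
      rw [← mul_assoc, h3, one_mul]
    rwa [h2] at h1
  · intro h
    exact hL.mul u _ h

/-- multiplication by a unit on the lattice -/
noncomputable def lmul (hL : IsLat L eis Ω) {u : eis} (hu : IsUnit u) : L.lattice ≃ L.lattice where
  toFun l := ⟨(u : ℂ) * l, (lat_unit hL hu _).2 l.2⟩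
  invFun l := ⟨(u : ℂ)⁻¹ * l, by
    have hu0 : (u : ℂ) ≠ 0 := coe_ne hu.ne_zero
    rw [← lat_unit hL hu, mul_inv_cancel_left₀ hu0]
    exact l.2⟩
  left_inv l := by
    have hu0 : (u : ℂ) ≠ 0 := coe_ne hu.ne_zero
    exact Subtype.ext (inv_mul_cancel_left₀ hu0 _)
  right_inv l := by
    have hu0 : (u : ℂ) ≠ 0 := coe_ne hu.ne_zero
    exact Subtype.ext (mul_inv_cancel_left₀ hu0 _)

lemma wp_unit (hL : IsLat L eis Ω) {u : eis} (hu : IsUnit u) (z : ℂ) :
    ℘[L] (u * z) = ((u : ℂ) ^ 2)⁻¹ * ℘[L] z := by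
  have hu0 : (u : ℂ) ≠ 0 := coe_ne hu.ne_zero
  unfold PeriodPair.weierstrassP
  rw [← (lmul hL hu).tsum_eq, ← tsum_mul_left]
  refine tsum_congr fun l => ?_
  have e : (((lmul hL hu) l : L.lattice) : ℂ) = u * l := rfl
  rw [e]
  have e1 : (u : ℂ) * z - u * l = u * (z - l) := by ring
  rw [e1, mul_pow, mul_pow, one_div, one_div, one_div, one_div, mul_inv, mul_inv]
  ring

lemma dwp_unit (hL : IsLat L eis Ω) {u : eis} (hu : IsUnit u) (z : ℂ) :
    ℘'[L] (u * z) = ((u : ℂ) ^ 3)⁻¹ * ℘'[L] z := by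
  have hu0 : (u : ℂ) ≠ 0 := coe_ne hu.ne_zero
  unfold PeriodPair.derivWeierstrassP
  rw [← (lmul hL hu).tsum_eq, mul_neg, ← tsum_mul_left]
  congr 1
  refine tsum_congr fun l => ?_
  have e : (((lmul hL hu) l : L.lattice) : ℂ) = u * l := rfl
  rw [e]
  have e1 : (u : ℂ) * z - u * l = u * (z - l) := by ring
  rw [e1, mul_pow, div_eq_mul_inv, div_eq_mul_inv, mul_inv]
  ring

/-- the lattice of the curve -/
structure Cur (L : PeriodPair) (Ω : ℂ) : Prop where
  lat : IsLat L eis Ω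
  g2 : L.g₂ = 0
  g3 : L.g₃ = -1

variable (hC : Cur L Ω)

include hC

lemma Cur.ode {z : ℂ} (hz : z ∉ L.lattice) : ℘'[L] z ^ 2 = 4 * ℘[L] z ^ 3 + 1 := by
  rw [L.derivWeierstrassP_sq z hz, hC.g2, hC.g3]
  ring

lemma Cur.dup {z : ℂ} (hz : 2 * z ∉ L.lattice) :
    ℘[L] (2 * z) * (4 * ℘[L] z ^ 3 + 1) = ℘[L] z ^ 4 - 2 * ℘[L] z := by
  have hz0 := two_mul_notMem_of L hz
  have h := wp_dupl hz
  rw [hC.ode hz0, hC.g2, hC.g3] at h
  rw [h]
  ring

lemma Cur.div_iff {a : eis} (ha : a ≠ 0) (r : eis) : Ω * r / a ∈ L.lattice ↔ r ∈ (sp a : Ideal eis) :=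
  div_mem_iff hC.lat ha r

lemma Cur.third : Ω / 3 ∉ L.lattice := by
  have h := hC.div_iff three_ne 1
  have e : Ω * ((1 : eis) : ℂ) / ((3 : eis) : ℂ) = Ω / 3 := by
    push_cast
    rw [mul_one]
    rfl
  rw [e] at h
  rw [h]
  intro h1
  have h2 : IsCoprime (0 : eis) 3 := by
    refine cop_of_unit isUnit_one ?_
    rw [zero_sub]
    exact neg_mem h1
  rw [isCoprime_zero_left, isUnit_iff'] at h2
  have : Complex.normSq ((3 : eis) : ℂ) = 9 := normSq_three
  rw [this] at h2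
  norm_num at h2

lemma Cur.mem_third {a : ℂ} {r : eis} (ha : a = Ω * r / 3) :
    a ∈ L.lattice ↔ r ∈ (sp 3 : Ideal eis) := by
  rw [ha, ← hC.div_iff three_ne]
  rfl

omit hC in
lemma omr_unit : IsUnit omr := (unit_list _).2 (by simp)

lemma Cur.third_two : 2 * (Ω / 3) ∉ L.lattice := by
  intro h
  apply hC.third
  have h1 : Ω ∈ L.lattice := (hC.lat.mem Ω).2 ⟨1, by push_cast; ring⟩
  have h2 := sub_mem h1 h
  have e : Ω - 2 * (Ω / 3) = Ω / 3 := by ring
  rwa [e] at h2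

lemma Cur.x0 : ℘[L] (Ω / 3) ^ 3 = -1 := by
  have h1 := hC.dup hC.third_two
  have e1 : ℘[L] (2 * (Ω / 3)) = ℘[L] (Ω / 3) := by
    rw [wp_eq_iff L hC.third_two hC.third]
    left
    have e : 2 * (Ω / 3) + Ω / 3 = Ω := by ring
    rw [e]
    exact (hC.lat.mem Ω).2 ⟨1, by push_cast; ring⟩
  rw [e1] at h1
  set x := ℘[L] (Ω / 3) with hx
  have h2 : x * (x ^ 3 + 1) = 0 := by linear_combination (1 / 3 : ℂ) * h1
  rcases mul_eq_zero.1 h2 with h3 | h3
  · exfalso
    have h4 : ℘[L] (omr * (Ω / 3)) = ℘[L] (Ω / 3) := by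
      rw [wp_unit hC.lat omr_unit, ← hx, h3, mul_zero]
    have h5 : (omr : ℂ) * (Ω / 3) ∉ L.lattice := by
      rw [lat_unit hC.lat omr_unit]
      exact hC.third
    rw [wp_eq_iff L h5 hC.third] at h4
    rcases h4 with h4 | h4
    · rw [hC.mem_third (r := omr + 1) (by push_cast; ring)] at h4
      have h6 := unit_mod omr_unit (isUnit_one.neg) (by simpa using h4)
      have h7 := congrArg (fun t : eis => (t : ℂ).im) h6
      simp [omr_coe] at h7
      exact om_im.ne' h7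
    · rw [hC.mem_third (r := omr - 1) (by push_cast; ring)] at h4
      have h6 := unit_mod omr_unit isUnit_one h4
      have h7 := congrArg (fun t : eis => (t : ℂ).im) h6
      simp [omr_coe] at h7
      exact om_im.ne' h7
  · linear_combination h3

lemma Cur.y0 : ℘'[L] (Ω / 3) ^ 2 = -3 := by
  rw [hC.ode hC.third, hC.x0]
  norm_num

omit hC in
lemma six_sum (F : eis → ℂ) (hF0 : ∀ x, ¬ IsCoprime x 3 → F x = 0)
    (hper : ∀ x y : eis, x - y ∈ (sp 3 : Ideal eis) → F x = F y) [Fintype (eis ⧸ (sp 3 : Ideal eis))] :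
    ∑ y : eis ⧸ (sp 3 : Ideal eis), F y.out =
      F 1 + F (-1) + F omr + F (-omr) + F (omr ^ 2) + F (-omr ^ 2) := by
  classical
  set U : Finset eis := {1, -1, omr, -omr, omr ^ 2, -omr ^ 2} with hU
  have hUu : ∀ u ∈ U, IsUnit u := by
    intro u hu
    rw [unit_list]
    simpa [hU] using hu
  have him : ∀ z : ℂ, z = om → z.im ≠ 0 := by rintro z rfl; exact om_im.ne'
  have hne : ∀ x y : ℤ, y ≠ 0 → ∀ a b : ℤ, b = 0 → (x : ℂ) + y * om ≠ a + b * om := by
    intro x y hy a b hb h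
    have := congrArg Complex.im h
    simp [hb] at this
    rcases this with h1 | h1
    · exact hy h1
    · exact om_im.ne' h1
  have hinj : ∀ x y a b : ℤ, (x : ℂ) + y * om = a + b * om → x = a ∧ y = b := by
    intro x y a b h
    have h1 := congrArg Complex.im h
    simp at h1
    have h2 : y = b := by
      rcases h1 with h1 | h1
      · exact h1
      · exact absurd h1 om_im.ne'
    subst h2
    have h3 : (x : ℂ) = a := add_right_cancel h
    exact ⟨by exact_mod_cast h3, rfl⟩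
  have e1 : ((1 : eis) : ℂ) = ((1 : ℤ) : ℂ) + ((0 : ℤ) : ℂ) * om := by push_cast; ring
  have e2 : ((-1 : eis) : ℂ) = ((-1 : ℤ) : ℂ) + ((0 : ℤ) : ℂ) * om := by push_cast; ring
  have e3 : ((omr : eis) : ℂ) = ((0 : ℤ) : ℂ) + ((1 : ℤ) : ℂ) * om := by
    push_cast [omr_coe]; ring
  have e4 : ((-omr : eis) : ℂ) = ((0 : ℤ) : ℂ) + ((-1 : ℤ) : ℂ) * om := by
    push_cast [omr_coe]; ring
  have e5 : ((omr ^ 2 : eis) : ℂ) = ((-1 : ℤ) : ℂ) + ((-1 : ℤ) : ℂ) * om := by
    push_cast [omr_coe]; linear_combination om_sq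
  have e6 : ((-omr ^ 2 : eis) : ℂ) = ((1 : ℤ) : ℂ) + ((1 : ℤ) : ℂ) * om := by
    push_cast [omr_coe]; linear_combination -om_sq
  have hd : ∀ {s t : eis} {x y a b : ℤ}, (s : ℂ) = (x : ℂ) + y * om → (t : ℂ) = (a : ℂ) + b * om →
      ¬ (x = a ∧ y = b) → s ≠ t := by
    intro s t x y a b hs ht h hst
    apply h
    apply hinj
    rw [← hs, ← ht, hst]
  have hsum : ∑ u ∈ U, F u = F 1 + F (-1) + F omr + F (-omr) + F (omr ^ 2) + F (-omr ^ 2) := by
    rw [hU, Finset.sum_insert, Finset.sum_insert, Finset.sum_insert, Finset.sum_insert,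
      Finset.sum_insert, Finset.sum_singleton]
    · ring
    all_goals
      simp only [Finset.mem_insert, Finset.mem_singleton, not_or]
    · exact hd e5 e6 (by norm_num)
    · exact ⟨hd e4 e5 (by norm_num), hd e4 e6 (by norm_num)⟩
    · exact ⟨hd e3 e4 (by norm_num), hd e3 e5 (by norm_num), hd e3 e6 (by norm_num)⟩
    · exact ⟨hd e2 e3 (by norm_num), hd e2 e4 (by norm_num), hd e2 e5 (by norm_num),
        hd e2 e6 (by norm_num)⟩
    · exact ⟨hd e1 e2 (by norm_num), hd e1 e3 (by norm_num), hd e1 e4 (by norm_num),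
        hd e1 e5 (by norm_num), hd e1 e6 (by norm_num)⟩
  rw [← hsum]
  set g : eis → eis ⧸ (sp 3 : Ideal eis) := fun x => Ideal.Quotient.mk _ x with hg
  have hginj : Set.InjOn g U := by
    intro u hu v hv huv
    refine unit_mod (hUu u hu) (hUu v hv) ?_
    rw [← Ideal.Quotient.mk_eq_mk_iff_sub_mem]
    exact huv
  have h1 : ∑ u ∈ U, F u = ∑ y ∈ U.image g, F y.out := by
    rw [Finset.sum_image hginj]
    refine Finset.sum_congr rfl fun u _ => hper _ _ ?_
    exact out_mk _ u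
  rw [h1]
  symm
  refine Finset.sum_subset (Finset.subset_univ _) fun y _ hy => hF0 _ ?_
  intro hcop
  obtain ⟨u, hu, hu'⟩ := cop_three hcop
  apply hy
  rw [Finset.mem_image]
  refine ⟨u, ?_, ?_⟩
  · rw [unit_list] at hu
    simpa [hU] using hu
  · rw [hg]
    simp only
    rw [← Ideal.Quotient.mk_out y, eq_comm, Ideal.Quotient.mk_eq_mk_iff_sub_mem]
    exact hu'

end Pool.Agent.Y696
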