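import Mathlib
import Pool.Agent.Y696.Ell
import Pool.Agent.H667R3.W6

/-!
# The period lattice of `y² + y = x³`
-/

set_option autoImplicit false

open Complex Filter Topology
open scoped PeriodPair

namespace Pool.Agent.Y696

open H667R3 Pool.Agent.W192.HK Pool.Agent.TH936.CM Pool.Agent.TH936.PU

/-- the hexagonal pair -/
noncomputable def hex (Ω : ℂ) (hΩ : Ω ≠ 0) : PeriodPair where
  ω₁ := Ω
  ω₂ := om * Ω
  indep := by
    rw [LinearIndependent.pair_iff]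
    intro s t h
    have h1 : ((s : ℂ) + t * om) * Ω = 0 := by
      simp only [Complex.real_smul] at h
      linear_combination h
    have h2 : (s : ℂ) + t * om = 0 := (mul_eq_zero.1 h1).resolve_right hΩ
    have h3 := congrArg Complex.im h2
    simp at h3
    have h4 : t = 0 := h3.resolve_right om_im.ne'
    refine ⟨?_, h4⟩
    rw [h4] at h2
    simpa using h2

lemma hex_lat (Ω : ℂ) (hΩ : Ω ≠ 0) : IsLat (hex Ω hΩ) eis Ω := by
  refine ⟨hΩ, fun z => ?_⟩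
  rw [PeriodPair.mem_lattice]
  constructor
  · rintro ⟨m, n, h⟩
    refine ⟨⟨m + n * om, ⟨m, n, rfl⟩⟩, ?_⟩
    rw [← h]
    show _ = Ω * (m + n * om)
    simp only [hex]
    ring
  · rintro ⟨⟨r, m, n, hr⟩, h⟩
    refine ⟨m, n, ?_⟩
    rw [h]
    show _ = Ω * r
    rw [hr]
    simp only [hex]
    ring

lemma hex_g2 (Ω : ℂ) (hΩ : Ω ≠ 0) : (hex Ω hΩ).g₂ = 0 := by
  have hL := hex_lat Ω hΩ
  have h : (hex Ω hΩ).G 4 = om⁻¹ * (hex Ω hΩ).G 4 := by
    conv_lhs => rw [PeriodPair.G, ← (lmul hL omr_unit).tsum_eq]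
    rw [PeriodPair.G, ← tsum_mul_left]
    refine tsum_congr fun l => ?_
    have e : ((lmul hL omr_unit l : (hex Ω hΩ).lattice) : ℂ) = om * l := rfl
    rw [e, mul_pow, mul_inv]
    congr 1
    rw [show (4 : ℕ) = 3 + 1 from rfl, pow_add, om_cube, pow_one, one_mul]
  have h1 : om ≠ 1 := by
    intro h
    have := om_im
    rw [h] at this
    simp at this
  have h2 : (hex Ω hΩ).G 4 = 0 := by
    have h3 : (1 - om⁻¹) * (hex Ω hΩ).G 4 = 0 := by linear_combination h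
    refine (mul_eq_zero.1 h3).resolve_left ?_
    intro h4
    apply h1
    have h5 : om⁻¹ = 1 := by linear_combination -h4
    rw [← inv_inv om, h5, inv_one]
  rw [PeriodPair.g₂, h2, mul_zero]

lemma hex_g3 (Ω : ℂ) (hΩ : Ω ≠ 0) : (hex Ω hΩ).g₃ ≠ 0 := by
  intro h3
  set L := hex Ω hΩ
  have h2 : L.g₂ = 0 := hex_g2 Ω hΩ
  have a1 := L.derivWeierstrassP_sq _ L.ω₁_div_two_notMem_lattice
  have a2 := L.derivWeierstrassP_sq _ L.ω₂_div_two_notMem_lattice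
  rw [wp'_half_eq_zero L L.ω₁_mem_lattice, h2, h3] at a1
  rw [wp'_half_eq_zero L L.ω₂_mem_lattice, h2, h3] at a2
  have b1 : ℘[L] (L.ω₁ / 2) = 0 := by
    have : ℘[L] (L.ω₁ / 2) ^ 3 = 0 := by linear_combination (-1/4) * a1
    exact pow_eq_zero_iff (by norm_num) |>.mp this
  have b2 : ℘[L] (L.ω₂ / 2) = 0 := by
    have : ℘[L] (L.ω₂ / 2) ^ 3 = 0 := by linear_combination (-1/4) * a2
    exact pow_eq_zero_iff (by norm_num) |>.mp this
  have h := (wp_eq_iff L L.ω₁_div_two_notMem_lattice L.ω₂_div_two_notMem_lattice).mp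
    (by rw [b1, b2])
  rcases h with h | h
  · exact half_add_half_notMem L h
  · exact half_sub_half_notMem L h

/-- scaling -/
noncomputable def hexScale {Ω : ℂ} (hΩ : Ω ≠ 0) : (hex 1 one_ne_zero).lattice ≃ (hex Ω hΩ).lattice where
  toFun l := ⟨Ω * l, by
    obtain ⟨r, hr⟩ := ((hex_lat 1 one_ne_zero).mem _).1 l.2
    exact ((hex_lat Ω hΩ).mem _).2 ⟨r, by rw [hr]; ring⟩⟩
  invFun l := ⟨Ω⁻¹ * l, by
    obtain ⟨r, hr⟩ := ((hex_lat Ω hΩ).mem _).1 l.2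
    exact ((hex_lat 1 one_ne_zero).mem _).2 ⟨r, by rw [hr]; field_simp⟩⟩
  left_inv l := by ext; simp [hΩ]
  right_inv l := by ext; simp [hΩ]

lemma hex_g3_scale {Ω : ℂ} (hΩ : Ω ≠ 0) : (hex Ω hΩ).g₃ = (hex 1 one_ne_zero).g₃ / Ω ^ 6 := by
  rw [PeriodPair.g₃, PeriodPair.g₃, PeriodPair.G, PeriodPair.G, ← (hexScale hΩ).tsum_eq]
  have : ∀ l : (hex 1 one_ne_zero).lattice, (((hexScale hΩ l : (hex Ω hΩ).lattice) : ℂ) ^ 6)⁻¹
      = (Ω ^ 6)⁻¹ * ((l : ℂ) ^ 6)⁻¹ := by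
    intro l
    have : ((hexScale hΩ l : (hex Ω hΩ).lattice) : ℂ) = Ω * l := rfl
    rw [this, mul_pow, mul_inv]
  simp only [this]
  rw [tsum_mul_left]
  field_simp

/-- existence of the period lattice -/
theorem exists_cur : ∃ (Ω : ℂ) (hΩ : Ω ≠ 0), Cur (hex Ω hΩ) Ω := by
  have h0 := hex_g3 1 one_ne_zero
  obtain ⟨Ω, hΩ⟩ := IsAlgClosed.exists_pow_nat_eq (-(hex 1 one_ne_zero).g₃) (n := 6) (by norm_num)
  have hΩ0 : Ω ≠ 0 := by
    rintro rfl
    apply h0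
    rw [zero_pow (by norm_num)] at hΩ
    linear_combination hΩ
  refine ⟨Ω, hΩ0, hex_lat Ω hΩ0, hex_g2 Ω hΩ0, ?_⟩
  rw [hex_g3_scale hΩ0, hΩ]
  field_simp

/-- there is a place over two -/
lemma exists_over_two : ∃ V : ValuationSubring ℂ, V.valuation (2 : ℂ) < 1 := by
  have h1 : (2 : ℂ)⁻¹ ∉ (integralClosure ℤ ℂ).toSubring := by
    intro h
    have h2 : IsIntegral ℤ ((2 : ℂ)⁻¹) := h
    have h5 : IsIntegral ℤ ((2 : ℚ)⁻¹) := by
      rw [← isIntegral_algebraMap_iff (algebraMap ℚ ℂ).injective]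
      simpa using h2
    obtain ⟨y, hy⟩ := IsIntegrallyClosed.isIntegral_iff.mp h5
    have h6 : (y : ℚ) * 2 = 1 := by
      have : (y : ℚ) = (2 : ℚ)⁻¹ := hy
      rw [this, inv_mul_cancel₀ (by norm_num)]
    have h7 : y * 2 = 1 := by exact_mod_cast h6
    omega
  obtain ⟨V, -, hV⟩ := Subring.exists_le_valuationSubring_of_isIntegrallyClosedIn h1
  refine ⟨V, ?_⟩
  rw [← ValuationSubring.valuation_le_one_iff, not_le, map_inv₀] at hV
  exact (one_lt_inv₀ (zero_lt_iff.mpr ((Valuation.ne_zero_iff _).mpr (by norm_num)))).mp hV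

end Pool.Agent.Y696
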