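import Mathlib

/-!
# Euler products over the prime ideals of a Dedekind domain
-/

set_option autoImplicit false

open Filter Topology IsDedekindDomain

namespace Pool.Agent.Y696

variable {R : Type*} [CommRing R] [IsDedekindDomain R]

/-- the non-zero ideals with prime divisors in `S` -/
def AS (S : Finset (HeightOneSpectrum R)) : Set (Ideal R) :=
  {I | I ≠ ⊥ ∧ ∀ P : HeightOneSpectrum R, P.asIdeal ∣ I → P ∈ S}

lemma AS_empty : AS (∅ : Finset (HeightOneSpectrum R)) = {⊤} := by
  ext I
  constructor
  · rintro ⟨h1, h2⟩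
    rw [Set.mem_singleton_iff]
    by_contra hne
    obtain ⟨M, hM, hIM⟩ := Ideal.exists_le_maximal I hne
    have hM0 : M ≠ ⊥ := by
      rintro rfl
      exact h1 (le_bot_iff.1 hIM)
    exact Finset.notMem_empty _ (h2 ⟨M, hM.isPrime, hM0⟩ (Ideal.dvd_iff_le.2 hIM))
  · rintro rfl
    refine ⟨top_ne_bot, fun P hP => ?_⟩
    exfalso
    have h1 := Ideal.le_of_dvd hP
    exact P.isPrime.ne_top (top_le_iff.1 h1)

lemma mem_AS_mul {S : Finset (HeightOneSpectrum R)} {P : HeightOneSpectrum R} (hP : P ∈ S)
    {J : Ideal R} : P.asIdeal * J ∈ AS S ↔ J ∈ AS S := by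
  constructor
  · rintro ⟨h1, h2⟩
    refine ⟨?_, fun Q hQ => h2 Q (hQ.mul_left _)⟩
    rintro rfl
    exact h1 (by simp)
  · rintro ⟨h1, h2⟩
    refine ⟨mul_ne_zero P.ne_bot h1, fun Q hQ => ?_⟩
    have hQp : Prime Q.asIdeal := Q.prime
    rcases hQp.dvd_or_dvd hQ with h | h
    · have h3 := Ideal.le_of_dvd h
      have h4 : P.asIdeal = Q.asIdeal :=
        (P.isPrime.isMaximal P.ne_bot).eq_of_le Q.isPrime.ne_top h3
      have h5 : P = Q := HeightOneSpectrum.ext h4
      rwa [← h5]
    · exact h2 Q h

open Classical in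
lemma AS_insert {S : Finset (HeightOneSpectrum R)} {P : HeightOneSpectrum R} (hP : P ∉ S)
    (I : Ideal R) : I ∈ AS (insert P S) ↔ I ∈ AS S ∨
      ∃ J, J ∈ AS (insert P S) ∧ P.asIdeal * J = I := by
  constructor
  · intro h
    by_cases hd : P.asIdeal ∣ I
    · obtain ⟨J, rfl⟩ := hd
      exact Or.inr ⟨J, (mem_AS_mul (Finset.mem_insert_self P S)).1 h, rfl⟩
    · left
      refine ⟨h.1, fun Q hQ => ?_⟩
      rcases Finset.mem_insert.1 (h.2 Q hQ) with rfl | h1
      · exact absurd hQ hd
      · exact h1
  · rintro (h | ⟨J, hJ, rfl⟩)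
    · exact ⟨h.1, fun Q hQ => Finset.mem_insert_of_mem (h.2 Q hQ)⟩
    · exact (mem_AS_mul (Finset.mem_insert_self P S)).2 hJ

omit [IsDedekindDomain R] in
lemma AS_disj {S : Finset (HeightOneSpectrum R)} {P : HeightOneSpectrum R} (hP : P ∉ S)
    {J : Ideal R} : P.asIdeal * J ∉ AS S := fun h => hP (h.2 P (dvd_mul_right _ _))

/-- the sum over the ideals with prime divisors in `S` -/
noncomputable def gS (f : Ideal R → ℂ) (S : Finset (HeightOneSpectrum R)) : ℂ :=
  ∑' I : Ideal R, (AS S).indicator f I

open Classical in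
lemma gS_insert {f : Ideal R → ℂ} (hm : ∀ I J, f (I * J) = f I * f J) (hs : Summable f)
    {S : Finset (HeightOneSpectrum R)} {P : HeightOneSpectrum R} (hP : P ∉ S) :
    gS f (insert P S) = gS f S + f P.asIdeal * gS f (insert P S) := by
  have hinj : Function.Injective (fun J : Ideal R => P.asIdeal * J) := fun a b h =>
    mul_left_cancel₀ P.ne_bot h
  set h1 : Ideal R → ℂ := fun I => if ∃ J, J ∈ AS (insert P S) ∧ P.asIdeal * J = I then f I else 0
    with hh1
  have e1 : ∀ I, (AS (insert P S)).indicator f I = (AS S).indicator f I + h1 I := by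
    intro I
    by_cases h2 : I ∈ AS S
    · rw [Set.indicator_of_mem ((AS_insert hP I).2 (Or.inl h2)), Set.indicator_of_mem h2, hh1]
      simp only
      rw [if_neg, add_zero]
      rintro ⟨J, -, rfl⟩
      exact AS_disj hP h2
    · rw [Set.indicator_of_notMem h2, zero_add, hh1]
      simp only
      by_cases h3 : ∃ J, J ∈ AS (insert P S) ∧ P.asIdeal * J = I
      · rw [if_pos h3, Set.indicator_of_mem ((AS_insert hP I).2 (Or.inr h3))]
      · rw [if_neg h3, Set.indicator_of_notMem]
        intro h4
        rcases (AS_insert hP I).1 h4 with h5 | h5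
        · exact h2 h5
        · exact h3 h5
  have hs1 : Summable ((AS S).indicator f) := hs.indicator _
  have hs2 : Summable ((AS (insert P S)).indicator f) := hs.indicator _
  have hs3 : Summable h1 := by
    have : h1 = fun I => (AS (insert P S)).indicator f I - (AS S).indicator f I := by
      funext I
      rw [e1]
      ring
    rw [this]
    exact hs2.sub hs1
  have e2 : ∑' I, h1 I = f P.asIdeal * gS f (insert P S) := by
    have hsupp : Function.support h1 ⊆ Set.range (fun J : Ideal R => P.asIdeal * J) := by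
      intro I hI
      rw [Function.mem_support, hh1] at hI
      simp only at hI
      by_contra h
      apply hI
      rw [if_neg]
      rintro ⟨J, -, hJ⟩
      exact h ⟨J, hJ⟩
    rw [← hinj.tsum_eq hsupp]
    unfold gS
    rw [← tsum_mul_left]
    refine tsum_congr fun J => ?_
    rw [hh1]
    simp only
    by_cases h2 : J ∈ AS (insert P S)
    · rw [if_pos ⟨J, h2, rfl⟩, Set.indicator_of_mem h2, hm]
    · rw [if_neg, Set.indicator_of_notMem h2, mul_zero]
      rintro ⟨J', hJ', h3⟩
      exact h2 (hinj h3 ▸ hJ')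
  unfold gS at e2 ⊢
  rw [← e2, ← hs1.tsum_add hs3]
  exact tsum_congr e1

open Classical in
lemma gS_prod {f : Ideal R → ℂ} (h1 : f ⊤ = 1) (hm : ∀ I J, f (I * J) = f I * f J)
    (hs : Summable f) (S : Finset (HeightOneSpectrum R)) :
    (∏ P ∈ S, (1 - f P.asIdeal)) * gS f S = 1 := by
  induction S using Finset.induction_on with
  | empty =>
    rw [Finset.prod_empty, one_mul]
    unfold gS
    rw [AS_empty, tsum_eq_single (⊤ : Ideal R)]
    · rw [Set.indicator_of_mem (Set.mem_singleton _), h1]
    · intro I hI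
      rw [Set.indicator_of_notMem]
      simpa using hI
  | insert P S hP ih =>
    have h2 := gS_insert hm hs hP
    rw [Finset.prod_insert hP]
    have h3 : (1 - f P.asIdeal) * gS f (insert P S) = gS f S := by linear_combination h2
    calc _ = (∏ P ∈ S, (1 - f P.asIdeal)) * ((1 - f P.asIdeal) * gS f (insert P S)) := by ring
      _ = 1 := by rw [h3, ih]

open Classical in
lemma gS_tendsto {f : Ideal R → ℂ} (h0 : f ⊥ = 0) (hs : Summable f) :
    Tendsto (gS f) atTop (𝓝 (∑' I, f I)) := by
  unfold gS
  refine tendsto_tsum_of_dominated_convergence (bound := fun I => ‖f I‖) hs.norm ?_ ?_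
  · intro I
    by_cases hI : I = ⊥
    · subst hI
      have : ∀ S : Finset (HeightOneSpectrum R), (AS S).indicator f ⊥ = f ⊥ := by
        intro S
        rw [h0, Set.indicator_apply]
        simp [h0]
      simp only [this]
      exact tendsto_const_nhds
    · have hfin : {P : HeightOneSpectrum R | P.asIdeal ∣ I}.Finite :=
        Ideal.finite_factors hI
      refine tendsto_const_nhds.congr' ?_
      filter_upwards [eventually_ge_atTop hfin.toFinset] with S hS
      rw [Set.indicator_of_mem]
      exact ⟨hI, fun P hP => hS (by simpa using hP)⟩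
  · filter_upwards with S I
    exact norm_indicator_le_norm_self f I

/-- the Euler product of a completely multiplicative function on the ideals -/
theorem hasProd_ideal (f : Ideal R → ℂ) (h0 : f ⊥ = 0) (h1 : f ⊤ = 1)
    (hm : ∀ I J, f (I * J) = f I * f J) (hs : Summable f) :
    HasProd (fun P : HeightOneSpectrum R => (1 - f P.asIdeal)⁻¹) (∑' I, f I) := by
  classical
  have h2 := gS_tendsto h0 hs
  rw [HasProd, SummationFilter.unconditional_filter]
  refine h2.congr fun S => ?_
  have h3 := gS_prod h1 hm hs S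
  rw [Finset.prod_inv_distrib]
  exact eq_inv_of_mul_eq_one_right h3

end Pool.Agent.Y696
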