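import Mathlib
import Pool.Agent.TH936.PU.Fou

/-!
Products over the characters of a finite commutative group.
-/

set_option autoImplicit false

open Complex

namespace Pool.Agent.Y696

open Pool.Agent.TH936.PU

/-- a product from the power sums -/
theorem prod_pow {X : Type} [Fintype X] (z : X → ℂ) (f N : ℕ) (hf0 : 0 < f)
    (hz : ∀ x, ‖z x‖ ≤ 1) (hs : ∀ k : ℕ, ∑ x, z x ^ k = if f ∣ k then (N : ℂ) * f else 0)
    (Y : ℂ) (hY : ‖Y‖ < 1) : ∏ x, (1 - z x * Y) = (1 - Y ^ f) ^ N := by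
  classical
  have hYf : ‖Y ^ f‖ < 1 := by
    rw [norm_pow]
    exact pow_lt_one₀ (norm_nonneg _) hY hf0.ne'
  have hχ : ∀ x, ‖z x * Y‖ < 1 := by
    intro x
    rw [norm_mul]
    calc ‖z x‖ * ‖Y‖ ≤ 1 * ‖Y‖ := by gcongr; exact hz x
      _ < 1 := by rw [one_mul]; exact hY
  have h1 : HasSum (fun k : ℕ => ∑ x, (z x * Y) ^ k / k) (∑ x, -Complex.log (1 - z x * Y)) :=
    hasSum_sum fun x _ => Complex.hasSum_taylorSeries_neg_log (hχ x)
  have h2' : ∀ k : ℕ, ∑ x, (z x * Y) ^ k / k =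
      if f ∣ k then ((N : ℂ) * f) * (Y ^ k / k) else 0 := by
    intro k
    have e1 : ∀ x, (z x * Y) ^ k / k = z x ^ k * (Y ^ k / k) := by
      intro x
      rw [mul_pow, mul_div_assoc]
    simp_rw [e1]
    rw [← Finset.sum_mul, hs]
    split_ifs with hk
    · rfl
    · rw [zero_mul]
  have h3 : HasSum (fun j : ℕ => ((N : ℂ) * f) * (Y ^ (f * j) / ((f * j : ℕ) : ℂ)))
      (∑ x, -Complex.log (1 - z x * Y)) := by
    have hinj : Function.Injective (fun j : ℕ => f * j) :=
      fun i j h => Nat.eq_of_mul_eq_mul_left hf0 h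
    have := (hinj.hasSum_iff (f := fun k : ℕ => ∑ x, (z x * Y) ^ k / k)
      (a := ∑ x, -Complex.log (1 - z x * Y)) (by
        intro k hk
        rw [h2', if_neg]
        rintro ⟨j, rfl⟩
        exact hk ⟨j, rfl⟩)).2 h1
    refine this.congr_fun fun j => ?_
    show _ = ∑ x, (z x * Y) ^ (f * j) / ((f * j : ℕ) : ℂ)
    rw [h2', if_pos (dvd_mul_right f j)]
  have h4 : HasSum (fun j : ℕ => ((N : ℂ) * f) * (Y ^ (f * j) / ((f * j : ℕ) : ℂ)))
      ((N : ℂ) * -Complex.log (1 - Y ^ f)) := by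
    have := (Complex.hasSum_taylorSeries_neg_log hYf).mul_left (N : ℂ)
    refine this.congr_fun fun j => ?_
    have hf0' : (f : ℂ) ≠ 0 := by exact_mod_cast hf0.ne'
    rw [pow_mul]
    push_cast
    rcases eq_or_ne (j : ℂ) 0 with hj | hj
    · rw [hj]; simp
    · field_simp
  have h5 := h3.unique h4
  have h6 : Complex.exp (∑ x, Complex.log (1 - z x * Y)) =
      Complex.exp (N * Complex.log (1 - Y ^ f)) := by
    congr 1
    rw [Finset.sum_neg_distrib] at h5
    linear_combination -h5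
  have hne : ∀ w : ℂ, ‖w‖ < 1 → 1 - w ≠ 0 := by
    intro w hw h
    have : w = 1 := by linear_combination -h
    rw [this] at hw
    simp at hw
  rw [Complex.exp_sum, Complex.exp_nat_mul, Complex.exp_log (hne _ hYf)] at h6
  rw [← h6]
  apply Finset.prod_congr rfl
  intro x _
  rw [Complex.exp_log (hne _ (hχ x))]

section grp

variable {G : Type} [CommGroup G] [Finite G]

lemma mc_norm (χ : MulChar G ℂ) (g : G) : ‖χ g‖ = 1 := by
  have h1 : (χ g) ^ Nat.card G = 1 := by
    rw [← map_pow, pow_card_eq_one', map_one]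
  exact Complex.norm_eq_one_of_pow_eq_one h1 Nat.card_pos.ne'

lemma sum_mcG [Fintype (MulChar G ℂ)] (a : G) [Decidable (a = 1)] :
    ∑ χ : MulChar G ℂ, χ a = if a = 1 then (Nat.card G : ℂ) else 0 := by
  have h2 : Nat.card Gˣ = Nat.card G := Nat.card_congr toUnits.symm.toEquiv
  split_ifs with h
  · subst h
    simp only [map_one, Finset.sum_const, Finset.card_univ, nsmul_eq_mul, mul_one]
    rw [← Nat.card_eq_fintype_card, MulChar.card_eq_card_units_of_hasEnoughRootsOfUnity, h2]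
  · obtain ⟨χ0, h0⟩ := MulChar.exists_apply_ne_one_of_hasEnoughRootsOfUnity G ℂ h
    have h1 : ∑ χ : MulChar G ℂ, χ a = χ0 a * ∑ χ : MulChar G ℂ, χ a := by
      rw [Finset.mul_sum, ← Equiv.sum_comp (Equiv.mulLeft χ0) (fun χ : MulChar G ℂ => χ a)]
      exact Finset.sum_congr rfl fun χ _ => MulChar.mul_apply _ _ _
    have h2 : (χ0 a - 1) * ∑ χ : MulChar G ℂ, χ a = 0 := by linear_combination -h1
    exact (mul_eq_zero.1 h2).resolve_left (sub_ne_zero.2 h0)

theorem prod_mc [Fintype (MulChar G ℂ)] (g : G) (Y : ℂ) (hY : ‖Y‖ < 1) :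
    ∏ χ : MulChar G ℂ, (1 - χ g * Y) = (1 - Y ^ orderOf g) ^ (Nat.card G / orderOf g) := by
  classical
  have hf := orderOf_pos g
  refine prod_pow (fun χ : MulChar G ℂ => χ g) (orderOf g) (Nat.card G / orderOf g) hf
    (fun χ => (mc_norm χ g).le) (fun k => ?_) Y hY
  simp_rw [← map_pow]
  rw [sum_mcG]
  have h3 : g ^ k = 1 ↔ orderOf g ∣ k := orderOf_dvd_iff_pow_eq_one.symm
  simp only [h3]
  split_ifs with h
  · have h4 : Nat.card G / orderOf g * orderOf g = Nat.card G :=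
      Nat.div_mul_cancel (orderOf_dvd_natCard g)
    exact_mod_cast h4.symm
  · rfl

end grp

end Pool.Agent.Y696
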