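import Mathlib
import Pool.Agent.Y696.Psi

/-!
# The number of points of `y² + y = x³` over a finite field of the Eisenstein integers
-/

set_option autoImplicit false

open Complex

namespace Pool.Agent.Y696

open Pool.Agent.W192.HK

/-- conjugation as a ring homomorphism -/
noncomputable def cjh : eis →+* eis where
  toFun := cj
  map_one' := Subtype.ext (by rw [cj_coe]; exact map_one _)
  map_mul' a b := Subtype.ext (by rw [cj_coe]; exact map_mul _ _ _)
  map_zero' := Subtype.ext (by rw [cj_coe]; exact map_zero _)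
  map_add' a b := Subtype.ext (by rw [cj_coe]; exact map_add _ _ _)

lemma cjh_apply (a : eis) : cjh a = cj a := rfl

section field

variable {k : Type} [Field k] [Fintype k] (ρ : eis →+* k)

omit [Fintype k] in
lemma rho_om (h3 : (3 : k) ≠ 0) : ρ omr ^ 2 + ρ omr + 1 = 0 ∧ ρ omr ≠ 1 := by
  have h1 : ρ omr ^ 2 + ρ omr + 1 = 0 := by
    have := congrArg ρ omr_sq
    simpa using this
  refine ⟨h1, fun h => h3 ?_⟩
  rw [h] at h1
  linear_combination h1

include ρ in
lemma three_dvd (h3 : (3 : k) ≠ 0) : 3 ∣ Fintype.card k - 1 := by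
  classical
  obtain ⟨h1, h2⟩ := rho_om ρ h3
  have h4 : ρ omr ^ 3 = 1 := by linear_combination (ρ omr - 1) * h1
  have h0 : ρ omr ≠ 0 := by
    intro h
    rw [h] at h1
    simp at h1
  have h5 : (Units.mk0 _ h0) ^ 3 = 1 := by
    ext
    push_cast
    exact h4
  have h6 : orderOf (Units.mk0 _ h0) = 3 := by
    have := Nat.prime_three
    have : Fact (Nat.Prime 3) := ⟨this⟩
    refine orderOf_eq_prime h5 ?_
    intro h
    apply h2
    have := congrArg Units.val h
    simpa using this
  rw [← h6, ← Fintype.card_units]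
  exact orderOf_dvd_card

lemma prim_root_om : IsPrimitiveRoot (omr : eis) 3 := by
  have : Fact (Nat.Prime 3) := ⟨Nat.prime_three⟩
  refine IsPrimitiveRoot.iff_orderOf.2 (orderOf_eq_prime omr_cube ?_)
  intro h
  have h1 := congrArg (fun t : eis => (t : ℂ).im) h
  simp [omr_coe] at h1
  exact om_im.ne' h1

/-- the cubic character compatible with reduction -/
theorem exists_chi (h3 : (3 : k) ≠ 0) : ∃ χ : MulChar k eis, χ ^ 3 = 1 ∧ χ ≠ 1 ∧
    ∀ x : k, x ≠ 0 → ρ (χ x) = x ^ ((Fintype.card k - 1) / 3) := by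
  classical
  have hd := three_dvd ρ h3
  have hq : 1 < Fintype.card k := Fintype.one_lt_card
  obtain ⟨χ, hχ⟩ := MulChar.exists_mulChar_orderOf k hd prim_root_om
  obtain ⟨m, hm⟩ := hd
  have hm' : (Fintype.card k - 1) / 3 = m := by omega
  rw [hm']
  obtain ⟨g, hg⟩ := IsCyclic.exists_generator (α := kˣ)
  have hg1 : orderOf g = 3 * m := by
    rw [orderOf_eq_card_of_forall_mem_zpowers hg, Nat.card_eq_fintype_card, Fintype.card_units, hm]
  have hm0 : 0 < m := by omega
  set b : k := (g : k) ^ m with hb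
  have hb3 : b ^ 3 = 1 := by
    rw [hb, ← pow_mul, mul_comm, ← hg1]
    rw [← Units.val_pow_eq_pow_val, pow_orderOf_eq_one, Units.val_one]
  have hb1 : b ≠ 1 := by
    intro h
    have h1 : g ^ m = 1 := by
      ext
      push_cast
      exact h
    have h2 := orderOf_dvd_of_pow_eq_one h1
    rw [hg1] at h2
    have := Nat.le_of_dvd hm0 h2
    omega
  have hb2 : b ^ 2 + b + 1 = 0 := by
    have h1 : (b - 1) * (b ^ 2 + b + 1) = 0 := by linear_combination hb3
    exact (mul_eq_zero.1 h1).resolve_left (sub_ne_zero.2 hb1)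
  have key : ∀ φ : MulChar k eis, ρ (φ g) = b → ∀ x : k, x ≠ 0 → ρ (φ x) = x ^ m := by
    intro φ hφ x hx
    obtain ⟨j, hj⟩ := (mem_powers_iff_mem_zpowers.2 (hg (Units.mk0 x hx)))
    have hx' : x = (g : k) ^ j := by
      have := congrArg Units.val hj
      simpa using this.symm
    rw [hx', map_pow, map_pow, hφ, hb, ← pow_mul, ← pow_mul, mul_comm]
  have hχ3 : χ ^ 3 = 1 := by rw [← hχ]; exact pow_orderOf_eq_one χ
  have hχ1 : χ ≠ 1 := by
    rintro rfl
    simp at hχ
  have ha3 : χ g ^ 3 = 1 := by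
    have := congrArg (fun φ : MulChar k eis => φ g) hχ3
    simp only [MulChar.pow_apply_coe, MulChar.one_apply_coe] at this
    exact this
  have ha1 : χ g ≠ 1 := by
    intro h
    apply hχ1
    ext x
    obtain ⟨j, hj⟩ := (mem_powers_iff_mem_zpowers.2 (hg x))
    have hx' : (x : k) = (g : k) ^ j := by
      have := congrArg Units.val hj
      simpa using this.symm
    rw [hx', map_pow, h, one_pow, ← hx', MulChar.one_apply_coe]
  have ha2 : χ g ^ 2 + χ g + 1 = 0 := by
    have h1 : (χ g - 1) * (χ g ^ 2 + χ g + 1) = 0 := by linear_combination ha3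
    exact (mul_eq_zero.1 h1).resolve_left (sub_ne_zero.2 ha1)
  have hr : ρ (χ g) ^ 2 + ρ (χ g) + 1 = 0 := by
    have := congrArg ρ ha2
    simpa using this
  have hr2 : (ρ (χ g) - b) * (ρ (χ g) - b ^ 2) = 0 := by
    linear_combination hr - ρ (χ g) * hb2 + hb3
  rcases mul_eq_zero.1 hr2 with h | h
  · exact ⟨χ, hχ3, hχ1, key χ (sub_eq_zero.1 h)⟩
  · refine ⟨χ ^ 2, ?_, ?_, key (χ ^ 2) ?_⟩
    · rw [← pow_mul, mul_comm, pow_mul, hχ3, one_pow]
    · intro h2
      apply hχ1
      have h4 : χ ^ 3 = χ ^ 2 * χ := pow_succ χ 2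
      rw [hχ3, h2, one_mul] at h4
      exact h4.symm
    · rw [MulChar.pow_apply_coe, map_pow, sub_eq_zero.1 h]
      linear_combination b * hb3

omit [Fintype k] in
lemma chi_one {χ : MulChar k eis} (h : χ ^ 3 = 1) {x : k} (hx : x ≠ 0) : χ x ^ 3 = 1 := by
  have h1 : (χ ^ 3) ((Units.mk0 x hx : kˣ) : k) = (1 : MulChar k eis) (Units.mk0 x hx : kˣ) := by
    rw [h]
  rw [MulChar.pow_apply_coe, MulChar.one_apply_coe, Units.val_mk0] at h1
  exact h1

omit [Fintype k] in
lemma chi_neg {χ : MulChar k eis} (h : χ ^ 3 = 1) : χ (-1) = 1 := by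
  have h1 := chi_one h (x := -1) (neg_ne_zero.2 one_ne_zero)
  have h2 : χ (-1) ^ 2 = 1 := by
    rw [← map_pow]
    simp
  rwa [pow_succ, h2, one_mul] at h1

omit [Fintype k] in
lemma chi_eq {χ : MulChar k eis} (h : χ ^ 3 = 1) {x : k} (hx : x ≠ 0) (h1 : χ x ≠ 1) :
    χ x ^ 2 + χ x + 1 = 0 := by
  have h2 := chi_one h hx
  have h3 : (χ x - 1) * (χ x ^ 2 + χ x + 1) = 0 := by linear_combination h2
  exact (mul_eq_zero.1 h3).resolve_left (sub_ne_zero.2 h1)

/-- the number of cube roots -/
lemma card_cube {χ : MulChar k eis} (h : χ ^ 3 = 1) (h3 : (3 : k) ≠ 0)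
    (hρ : ∀ x : k, x ≠ 0 → ρ (χ x) = x ^ ((Fintype.card k - 1) / 3)) (a : k) :
    ((Nat.card {x : k // x ^ 3 = a} : ℕ) : eis) = 1 + χ a + χ a ^ 2 := by
  classical
  obtain ⟨m, hm⟩ := three_dvd ρ h3
  have hq : 1 < Fintype.card k := Fintype.one_lt_card
  have hm0 : 0 < m := by omega
  have hm' : (Fintype.card k - 1) / 3 = m := by omega
  rw [hm'] at hρ
  obtain ⟨r1, r2⟩ := rho_om ρ h3
  set w := ρ omr with hw
  have hw3 : w ^ 3 = 1 := by linear_combination (w - 1) * r1
  have hw0 : w ≠ 0 := by
    intro h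
    rw [h] at r1
    simp at r1
  by_cases ha : a = 0
  · subst ha
    rw [MulChar.map_zero]
    have e : Nat.card {x : k // x ^ 3 = 0} = 1 := by
      rw [Nat.card_eq_one_iff_unique]
      refine ⟨⟨fun x y => Subtype.ext ?_⟩, ⟨⟨0, by simp⟩⟩⟩
      have hx := pow_eq_zero_iff (three_ne_zero) |>.1 x.2
      have hy := pow_eq_zero_iff (three_ne_zero) |>.1 y.2
      rw [hx, hy]
    rw [e]
    simp
  · by_cases hc : ∃ x0 : k, x0 ^ 3 = a
    · obtain ⟨x0, hx0⟩ := hc
      have hx0' : x0 ≠ 0 := by
        rintro rfl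
        apply ha
        rw [← hx0]
        simp
      have e1 : χ a = 1 := by
        rw [← hx0, map_pow]
        exact chi_one h hx0'
      have hset : {x : k | x ^ 3 = a} = ({x0, x0 * w, x0 * w ^ 2} : Finset k) := by
        ext x
        simp only [Set.mem_ofPred_eq, Finset.coe_insert, Finset.coe_singleton, Set.mem_insert_iff,
          Set.mem_singleton_iff]
        constructor
        · intro hx
          have h5 : (x - x0) * ((x - x0 * w) * (x - x0 * w ^ 2)) = 0 := by
            linear_combination hx - hx0 + (-x ^ 2 * x0 + x * x0 ^ 2 * w ^ 1 + x * x0 ^ 2 * 0 -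
              x0 ^ 3 * (w - 1) ) * r1 - x * x0 ^ 2 * 0 * hw3
          rcases mul_eq_zero.1 h5 with h6 | h6
          · exact Or.inl (sub_eq_zero.1 h6)
          · rcases mul_eq_zero.1 h6 with h6 | h6
            · exact Or.inr (Or.inl (sub_eq_zero.1 h6))
            · exact Or.inr (Or.inr (sub_eq_zero.1 h6))
        · rintro (rfl | rfl | rfl)
          · exact hx0
          · rw [mul_pow, hw3, mul_one]; exact hx0
          · rw [mul_pow, ← pow_mul, mul_comm 2 3, pow_mul, hw3, one_pow, mul_one]; exact hx0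
      have e : Nat.card {x : k // x ^ 3 = a} = 3 := by
        have : Nat.card {x : k // x ^ 3 = a} = Nat.card ({x : k | x ^ 3 = a} : Set k) := rfl
        rw [this, Nat.card_coe_set_eq, hset, Set.ncard_coe_finset]
        rw [Finset.card_eq_three]
        refine ⟨_, _, _, ?_, ?_, ?_, rfl⟩
        · intro h5
          apply r2
          have : x0 * w = x0 * 1 := by rw [mul_one]; exact h5.symm
          exact mul_left_cancel₀ hx0' this
        · intro h5
          have h6 : w ^ 2 = 1 := by
            have : x0 * w ^ 2 = x0 * 1 := by rw [mul_one]; exact h5.symm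
            exact mul_left_cancel₀ hx0' this
          apply r2
          linear_combination hw3 - w * h6
        · intro h5
          have h6 : w = w ^ 2 := mul_left_cancel₀ hx0' h5
          apply r2
          have h7 : w * 1 = w * w := by rw [mul_one, ← pow_two]; exact h6
          exact (mul_left_cancel₀ hw0 h7).symm
      rw [e, e1]
      norm_num
    · have e : Nat.card {x : k // x ^ 3 = a} = 0 := by
        rw [Nat.card_eq_zero]
        left
        exact ⟨fun x => hc ⟨x.1, x.2⟩⟩
      rw [e]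
      have h5 : χ a ≠ 1 := by
        intro h5
        apply hc
        obtain ⟨g, hg⟩ := IsCyclic.exists_generator (α := kˣ)
        have hg1 : orderOf g = 3 * m := by
          rw [orderOf_eq_card_of_forall_mem_zpowers hg, Nat.card_eq_fintype_card,
            Fintype.card_units, hm]
        obtain ⟨j, hj⟩ := (mem_powers_iff_mem_zpowers.2 (hg (Units.mk0 a ha)))
        have h6 := hρ a ha
        rw [h5, map_one] at h6
        have h7 : g ^ (j * m) = 1 := by
          have h8 : (Units.mk0 a ha) ^ m = 1 := by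
            ext
            push_cast
            exact h6.symm
          rw [← hj] at h8
          simp only at h8
          rw [pow_mul]
          exact h8
        have h8 := orderOf_dvd_of_pow_eq_one h7
        rw [hg1] at h8
        have h9 : 3 ∣ j := Nat.dvd_of_mul_dvd_mul_right hm0 h8
        obtain ⟨i, hi⟩ := h9
        refine ⟨(g : k) ^ i, ?_⟩
        rw [← pow_mul, mul_comm, ← hi]
        have := congrArg Units.val hj
        simpa using this
      have h6 := chi_eq h ha h5
      push_cast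
      linear_combination -h6

/-- the Jacobi sum and the number of points -/
theorem card_points {χ : MulChar k eis} (h : χ ^ 3 = 1) (h3 : (3 : k) ≠ 0)
    (hρ : ∀ x : k, x ≠ 0 → ρ (χ x) = x ^ ((Fintype.card k - 1) / 3)) :
    ((Nat.card {p : k × k // p.2 ^ 2 + p.2 = p.1 ^ 3} : ℕ) : eis) =
      Fintype.card k + jacobiSum χ χ + jacobiSum χ⁻¹ χ⁻¹ := by
  classical
  have e1 : Nat.card {p : k × k // p.2 ^ 2 + p.2 = p.1 ^ 3} =
      ∑ y : k, Nat.card {x : k // x ^ 3 = y ^ 2 + y} := by
    rw [← Nat.card_sigma]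
    refine Nat.card_congr
      { toFun := fun p => ⟨p.1.2, p.1.1, p.2.symm⟩
        invFun := fun p => ⟨(p.2.1, p.1), p.2.2.symm⟩
        left_inv := fun p => rfl
        right_inv := fun p => rfl }
  have hinv : ∀ x : k, χ⁻¹ x = χ x ^ 2 := by
    intro x
    have : χ⁻¹ = χ ^ 2 := by
      rw [inv_eq_iff_mul_eq_one, ← pow_succ', h]
    rw [this, MulChar.pow_apply' _ two_ne_zero]
  rw [e1]
  push_cast
  simp only [card_cube ρ h h3 hρ]
  rw [Finset.sum_add_distrib, Finset.sum_add_distrib]
  congr 1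
  · congr 1
    · simp
    · unfold jacobiSum
      rw [← Equiv.sum_comp (Equiv.neg k)]
      refine Finset.sum_congr rfl fun y _ => ?_
      rw [Equiv.neg_apply, ← map_mul]
      have e2 : y * (1 - y) = -1 * ((-y) ^ 2 + -y) := by ring
      rw [e2, map_mul, chi_neg h, one_mul]
  · unfold jacobiSum
    rw [← Equiv.sum_comp (Equiv.neg k)]
    refine Finset.sum_congr rfl fun y _ => ?_
    rw [Equiv.neg_apply, hinv, hinv, ← mul_pow, ← map_mul]
    have e2 : y * (1 - y) = -1 * ((-y) ^ 2 + -y) := by ring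
    rw [e2, map_mul χ (-1), chi_neg h, one_mul]

end field

end Pool.Agent.Y696
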