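import Mathlib
import Pool.Agent.Y696.Jac

/-!
# The value of the cubic Jacobi sum
-/

set_option autoImplicit false

open Complex

namespace Pool.Agent.Y696

open Pool.Agent.W192.HK

lemma lucas_cube (p : ℕ) (hp : p.Prime) (h1 : p % 3 = 1) (n : ℕ) :
    ¬ p ∣ Nat.choose (2 * ((p ^ n - 1) / 3)) ((p ^ n - 1) / 3) := by
  have : Fact p.Prime := ⟨hp⟩
  obtain ⟨t, ht⟩ : ∃ t, p = 3 * t + 1 := ⟨p / 3, by omega⟩
  have hpow : ∀ n : ℕ, ∃ s, p ^ n = 3 * s + 1 := by
    intro n
    induction n with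
    | zero => exact ⟨0, by simp⟩
    | succ n ih =>
      obtain ⟨s, hs⟩ := ih
      refine ⟨3 * s * t + s + t, ?_⟩
      rw [pow_succ, hs]
      conv_lhs => rw [ht]
      ring
  induction n with
  | zero =>
    simp
    exact hp.one_lt.ne'
  | succ n ih =>
    obtain ⟨s, hs⟩ := hpow n
    have e1 : (p ^ n - 1) / 3 = s := by omega
    have e2 : (p ^ (n + 1) - 1) / 3 = p * s + t := by
      have : p ^ (n + 1) = 3 * (p * s + t) + 1 := by
        rw [pow_succ, hs]
        conv_rhs => rw [mul_add]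
        conv_lhs => rw [mul_comm]
        calc p * (3 * s + 1) = 3 * (p * s) + p := by ring
          _ = _ := by omega
      omega
    rw [e1] at ih
    rw [e2]
    intro hd
    have h2 : 2 * (p * s + t) = p * (2 * s) + 2 * t := by ring
    have h3 := Choose.choose_modEq_choose_mod_mul_choose_div_nat (n := 2 * (p * s + t))
      (k := p * s + t) (p := p)
    have m1 : (p * s + t) % p = t := by
      rw [Nat.mul_add_mod]; exact Nat.mod_eq_of_lt (by omega)
    have m2 : (p * s + t) / p = s := by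
      rw [Nat.mul_add_div hp.pos, Nat.div_eq_of_lt (by omega : t < p), add_zero]
    have m3 : (2 * (p * s + t)) % p = 2 * t := by
      rw [h2, Nat.mul_add_mod]; exact Nat.mod_eq_of_lt (by omega)
    have m4 : (2 * (p * s + t)) / p = 2 * s := by
      rw [h2, Nat.mul_add_div hp.pos, Nat.div_eq_of_lt (by omega : 2 * t < p), add_zero]
    rw [m1, m2, m3, m4] at h3
    have h4 : p ∣ (2 * t).choose t * (2 * s).choose s := (Nat.modEq_zero_iff_dvd.1
      (h3.symm.trans (Nat.modEq_zero_iff_dvd.2 hd)))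
    rcases (Nat.Prime.dvd_mul hp).1 h4 with h5 | h5
    · have h6 : p ∣ (2 * t).factorial := by
        have h7 := Nat.choose_mul_factorial_mul_factorial (n := 2 * t) (k := t) (by omega)
        rw [← h7, mul_assoc]
        exact Dvd.dvd.mul_right h5 _
      rw [hp.dvd_factorial] at h6
      omega
    · exact ih h5

section field

variable {k : Type} [Field k] [Fintype k] (ρ : eis →+* k)

lemma sum_pow_ne {i : ℕ} (hi : 0 < i) :
    ∑ x : k, x ^ i = if Fintype.card k - 1 ∣ i then -1 else 0 := by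
  classical
  have h := FiniteField.sum_pow_units k i
  rw [← h]
  rw [← Finset.sum_erase_add _ _ (Finset.mem_univ (0 : k)), zero_pow hi.ne', add_zero]
  symm
  refine Finset.sum_bij (fun (u : kˣ) _ => (u : k)) ?_ ?_ ?_ ?_
  · intro u _
    simp
  · intro u _ v _ huv
    exact Units.ext huv
  · intro x hx
    rw [Finset.mem_erase] at hx
    exact ⟨Units.mk0 x hx.1, Finset.mem_univ _, rfl⟩
  · intro u _
    simp

lemma rho_jac {χ : MulChar k eis} (h3 : (3 : k) ≠ 0)
    (hρ : ∀ x : k, x ≠ 0 → ρ (χ x) = x ^ ((Fintype.card k - 1) / 3)) :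
    ρ (jacobiSum χ χ) = 0 := by
  obtain ⟨m, hm⟩ := three_dvd ρ h3
  have hq : 1 < Fintype.card k := Fintype.one_lt_card
  have hm0 : 0 < m := by omega
  have hm' : (Fintype.card k - 1) / 3 = m := by omega
  rw [hm'] at hρ
  have hρ' : ∀ x : k, ρ (χ x) = x ^ m := by
    intro x
    by_cases hx : x = 0
    · rw [hx, MulChar.map_zero, map_zero, zero_pow hm0.ne']
    · exact hρ x hx
  unfold jacobiSum
  rw [map_sum]
  have e : ∀ x : k, ρ (χ x * χ (1 - x)) =
      ∑ j ∈ Finset.range (m + 1), ((m.choose j : k) * (-1) ^ j) * x ^ (m + j) := by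
    intro x
    rw [map_mul, hρ', hρ']
    have e1 : (1 - x) ^ m = (-x + 1) ^ m := by ring
    rw [e1, add_pow, Finset.mul_sum]
    refine Finset.sum_congr rfl fun j _ => ?_
    rw [one_pow, mul_one, neg_pow, pow_add]
    ring
  simp only [e]
  rw [Finset.sum_comm]
  refine Finset.sum_eq_zero fun j hj => ?_
  rw [← Finset.mul_sum, sum_pow_ne (by omega), if_neg, mul_zero]
  intro hd
  rw [Finset.mem_range] at hj
  have := Nat.le_of_dvd (by omega) hd
  omega

lemma rho_jac' {χ : MulChar k eis} (h : χ ^ 3 = 1) (h3 : (3 : k) ≠ 0)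
    (hρ : ∀ x : k, x ≠ 0 → ρ (χ x) = x ^ ((Fintype.card k - 1) / 3)) (p : ℕ) [CharP k p]
    (hp : p.Prime) (hp1 : p % 3 = 1) :
    ρ (jacobiSum χ⁻¹ χ⁻¹) ≠ 0 := by
  obtain ⟨m, hm⟩ := three_dvd ρ h3
  have hq : 1 < Fintype.card k := Fintype.one_lt_card
  have hm0 : 0 < m := by omega
  have hm' : (Fintype.card k - 1) / 3 = m := by omega
  rw [hm'] at hρ
  have hinv : ∀ x : k, χ⁻¹ x = χ x ^ 2 := by
    intro x
    have : χ⁻¹ = χ ^ 2 := by
      rw [inv_eq_iff_mul_eq_one, ← pow_succ', h]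
    rw [this, MulChar.pow_apply' _ two_ne_zero]
  have hρ' : ∀ x : k, ρ (χ⁻¹ x) = x ^ (2 * m) := by
    intro x
    rw [hinv]
    by_cases hx : x = 0
    · rw [hx, MulChar.map_zero, zero_pow two_ne_zero, map_zero, zero_pow (by omega)]
    · rw [map_pow, hρ x hx, ← pow_mul, mul_comm]
  have e : ∀ x : k, ρ (χ⁻¹ x * χ⁻¹ (1 - x)) =
      ∑ j ∈ Finset.range (2 * m + 1), (((2 * m).choose j : k) * (-1) ^ j) * x ^ (2 * m + j) := by
    intro x
    rw [map_mul, hρ', hρ']
    have e1 : (1 - x) ^ (2 * m) = (-x + 1) ^ (2 * m) := by ring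
    rw [e1, add_pow, Finset.mul_sum]
    refine Finset.sum_congr rfl fun j _ => ?_
    rw [one_pow, mul_one, neg_pow, pow_add]
    ring
  unfold jacobiSum
  rw [map_sum]
  simp only [e]
  rw [Finset.sum_comm, Finset.sum_eq_single m]
  · rw [← Finset.mul_sum, sum_pow_ne (by omega), if_pos (by rw [hm]; exact ⟨1, by ring⟩)]
    refine mul_ne_zero (mul_ne_zero ?_ (pow_ne_zero _ (neg_ne_zero.2 one_ne_zero)))
      (neg_ne_zero.2 one_ne_zero)
    rw [Ne, CharP.cast_eq_zero_iff k p]
    obtain ⟨n, -, hn⟩ := FiniteField.card k p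
    have h4 := lucas_cube p hp hp1 n
    have h5 : (p ^ (n : ℕ) - 1) / 3 = m := by rw [← hn]; exact hm'
    rwa [h5] at h4
  · intro j hj hjm
    rw [← Finset.mul_sum, sum_pow_ne (by omega), if_neg, mul_zero]
    intro hd
    rw [Finset.mem_range] at hj
    rw [hm] at hd
    obtain ⟨c, hc⟩ := hd
    have hc1 : c = 0 ∨ c = 1 ∨ 2 ≤ c := by omega
    rcases hc1 with rfl | rfl | hc1
    · omega
    · omega
    · have : 3 * m * 2 ≤ 3 * m * c := Nat.mul_le_mul_left _ hc1
      omega
  · intro hm1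
    rw [Finset.mem_range] at hm1
    omega

omit [Fintype k] in
lemma cj_chi {χ : MulChar k eis} (h : χ ^ 3 = 1) : χ.ringHomComp cjh = χ⁻¹ := by
  ext x
  have hinv : χ⁻¹ (x : k) = χ x ^ 2 := by
    have : χ⁻¹ = χ ^ 2 := by
      rw [inv_eq_iff_mul_eq_one, ← pow_succ', h]
    rw [this, MulChar.pow_apply' _ two_ne_zero]
  rw [hinv, MulChar.ringHomComp_apply, cjh_apply]
  have h1 := chi_one h x.ne_zero
  have hu : IsUnit (χ (x : k)) := IsUnit.of_mul_eq_one (χ x ^ 2) (by rw [← pow_succ']; exact h1)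
  have h2 : χ (x : k) * cj (χ x) = 1 := by
    apply coe_inj'
    rw [cj_mul_coe, (isUnit_iff' _).1 hu]
    simp
  have h3 : cj (χ (x : k)) = χ (x : k) ^ 2 * (χ (x : k) * cj (χ x)) := by
    rw [← mul_assoc, ← pow_succ, h1, one_mul]
  rw [h3, h2, mul_one]

lemma jac_cj {χ : MulChar k eis} (h : χ ^ 3 = 1) : jacobiSum χ⁻¹ χ⁻¹ = cj (jacobiSum χ χ) := by
  rw [← cj_chi h, jacobiSum_ringHomComp, cjh_apply]

lemma jac_mul {χ : MulChar k eis} (h : χ ^ 3 = 1) (h1 : χ ≠ 1) :
    jacobiSum χ χ * jacobiSum χ⁻¹ χ⁻¹ = Fintype.card k := by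
  have hinj : Function.Injective (eis.subtype) := Subtype.val_injective
  have hc1 : χ.ringHomComp eis.subtype ≠ 1 := (MulChar.ringHomComp_ne_one_iff hinj).2 h1
  have h2 : χ * χ ≠ 1 := by
    intro h2
    apply h1
    have h3 : χ ^ 3 = χ * χ * χ := by rw [pow_succ, pow_two]
    rw [h, h2, one_mul] at h3
    exact h3.symm
  have hc2 : χ.ringHomComp eis.subtype * χ.ringHomComp eis.subtype ≠ 1 := by
    rw [← MulChar.ringHomComp_mul]
    exact (MulChar.ringHomComp_ne_one_iff hinj).2 h2
  have hr : ringChar ℂ ≠ ringChar k := by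
    rw [ringChar.eq_zero]
    intro h3
    have : CharP k 0 := by
      rw [h3]; exact ringChar.charP k
    have h4 := CharP.charP_to_charZero k
    have h5 : Infinite k := Infinite.of_injective (fun n : ℕ => (n : k)) Nat.cast_injective
    exact not_finite k
  have h3 := jacobiSum_mul_jacobiSum_inv hr hc1 hc1 hc2
  rw [MulChar.ringHomComp_inv, jacobiSum_ringHomComp, jacobiSum_ringHomComp] at h3
  apply coe_inj'
  push_cast
  exact h3

/-- the value of the Jacobi sum -/
theorem jac_eq (h3 : (3 : k) ≠ 0) {χ : MulChar k eis} (h : χ ^ 3 = 1) (h1 : χ ≠ 1)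
    (hρ : ∀ x : k, x ≠ 0 → ρ (χ x) = x ^ ((Fintype.card k - 1) / 3))
    {π : eis} (hπ : Prime π) (hπ1 : π - 1 ∈ (sp 3 : Ideal eis)) (hker : ∀ x, ρ x = 0 ↔ π ∣ x)
    {f : ℕ} (hq : ((Fintype.card k : ℕ) : eis) = (π * cj π) ^ f) :
    jacobiSum χ χ = -π ^ f ∧ jacobiSum χ⁻¹ χ⁻¹ = -(cj π) ^ f := by
  obtain ⟨p, hp⟩ := CharP.exists k
  have hpp : p.Prime := CharP.char_is_prime k p
  set J := jacobiSum χ χ with hJ
  have hJJ := jac_mul h h1
  have hJc := jac_cj h
  rw [← hJ] at hJJ hJc
  have hp3 : p ≠ 3 := by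
    rintro rfl
    apply h3
    have := CharP.cast_eq_zero k 3
    exact_mod_cast this
  have hnorm : Complex.normSq (J : ℂ) = Complex.normSq (π : ℂ) ^ f := by
    have h4 : ((J * cj J : eis) : ℂ) = (((π * cj π) ^ f : eis) : ℂ) := by
      rw [← hJc, hJJ, hq]
    rw [cj_mul_coe] at h4
    push_cast at h4
    have h5 : ((π : ℂ) * (cj π : eis)) = (Complex.normSq (π : ℂ) : ℂ) := by
      have := cj_mul_coe π
      push_cast at this
      exact this
    rw [h5] at h4
    exact_mod_cast h4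
  have hN1 : 1 < Complex.normSq (π : ℂ) := by
    obtain ⟨n, hn⟩ := norm_int π
    rw [hn]
    have h4 : n ≠ 0 := by
      rintro rfl
      apply hπ.ne_zero
      apply coe_inj'
      simpa using hn
    have h5 : n ≠ 1 := by
      rintro rfl
      apply hπ.not_isUnit
      rw [isUnit_iff', hn]
      simp
    have : 1 < n := by omega
    exact_mod_cast this
  -- `π ^ f` divides `J`
  have hdvd : π ^ f ∣ J := by
    have h31 : p % 3 = 1 ∨ p % 3 = 2 := by
      have h4 : ¬ 3 ∣ p := by
        intro h4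
        exact hp3 ((Nat.prime_dvd_prime_iff_eq Nat.prime_three hpp).1 h4).symm
      omega
    rcases h31 with h31 | h31
    · have h4 := rho_jac' ρ h h3 hρ p hpp h31
      rw [Ne, hker] at h4
      have h5 : π ^ f ∣ jacobiSum χ⁻¹ χ⁻¹ * J := by
        rw [mul_comm, hJJ, hq, mul_pow]
        exact dvd_mul_right _ _
      exact hπ.pow_dvd_of_dvd_mul_left f h4 h5
    · -- `π` is associated to `p`
      have h4 : π ∣ (p : eis) := by
        rw [← hker, map_natCast, CharP.cast_eq_zero]
      obtain ⟨t, ht⟩ := h4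
      obtain ⟨a, ha⟩ := norm_int π
      obtain ⟨b, hb⟩ := norm_int t
      have h5 : a * b = p ^ 2 := by
        have h6 : Complex.normSq (((p : eis)) : ℂ) = a * b := by
          rw [ht]
          push_cast
          rw [Complex.normSq_mul, ha, hb]
        push_cast at h6
        rw [Complex.normSq_natCast] at h6
        have h7 : ((a * b : ℕ) : ℝ) = ((p ^ 2 : ℕ) : ℝ) := by
          push_cast
          rw [pow_two]
          exact h6.symm
        exact_mod_cast h7
      have ha1 : a ≠ 1 := by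
        rintro rfl
        rw [ha] at hN1
        norm_num at hN1
      have hap : a ≠ p := by
        rintro rfl
        obtain ⟨x, y, hxy⟩ := π.2
        rw [hxy, norm_rep] at ha
        have h6 : x ^ 2 - x * y + y ^ 2 = (a : ℤ) := by exact_mod_cast ha
        have h7 : ((x ^ 2 - x * y + y ^ 2 : ℤ) : ZMod 3) = 2 := by
          rw [h6]
          have : (a : ℤ) % 3 = 2 := by omega
          have h8 : ((a : ℤ) : ZMod 3) = ((2 : ℤ) : ZMod 3) := by
            rw [ZMod.intCast_eq_intCast_iff]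
            exact this
          rw [h8]
          norm_num
        push_cast at h7
        generalize (x : ZMod 3) = X at h7
        generalize (y : ZMod 3) = Y at h7
        revert X Y
        decide
      have h6 : a ∣ p ^ 2 := ⟨b, h5.symm⟩
      obtain ⟨i, hi, hi'⟩ := (Nat.dvd_prime_pow hpp).1 h6
      have h7 : i = 2 := by
        interval_cases i
        · exact absurd hi' (by simpa using ha1)
        · exact absurd hi' (by simpa using hap)
        · rfl
      subst h7
      have hb1 : b = 1 := by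
        rw [hi'] at h5
        have h8 : 0 < p ^ 2 := pow_pos hpp.pos 2
        exact Nat.eq_of_mul_eq_mul_left h8 (by rw [h5, mul_one])
      have htu : IsUnit t := by
        rw [isUnit_iff', hb, hb1]
        simp
      have h8 : J ∣ π ^ (2 * f) := by
        have h9 : π * cj π = (p : eis) ^ 2 := by
          apply coe_inj'
          rw [cj_mul_coe, ha, hi']
          push_cast
          rfl
        have h10 : (p : eis) ^ (2 * f) = J * jacobiSum χ⁻¹ χ⁻¹ := by
          rw [hJJ, hq, h9, ← pow_mul]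
        have h11 : J ∣ (π * t) ^ (2 * f) := by
          rw [← ht, h10]
          exact dvd_mul_right _ _
        rw [mul_pow] at h11
        exact (htu.pow _).dvd_mul_right.1 h11
      obtain ⟨j, hj, hj'⟩ := (dvd_prime_pow hπ _).1 h8
      have h12 : Complex.normSq (J : ℂ) = Complex.normSq (π : ℂ) ^ j := by
        obtain ⟨u, hu⟩ := hj'
        have h13 := congrArg (fun t : eis => Complex.normSq (t : ℂ)) hu
        push_cast at h13
        rw [Complex.normSq_mul, (isUnit_iff' _).1 u.isUnit, mul_one, map_pow] at h13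
        exact h13
      have h13 : j = f := by
        rw [h12] at hnorm
        exact (pow_right_injective₀ (by linarith) hN1.ne') hnorm
      rw [← h13]
      exact hj'.symm.dvd
  -- conclusion
  have hprim : ∀ n : ℕ, π ^ n - 1 ∈ (sp 3 : Ideal eis) := by
    intro n
    obtain ⟨c, hc⟩ := sub_dvd_pow_sub_pow π 1 n
    rw [one_pow] at hc
    rw [hc]
    exact Ideal.mul_mem_right _ _ hπ1
  have hJ1 : -J - 1 ∈ (sp 3 : Ideal eis) := by
    obtain ⟨z, -, hz⟩ := exists_jacobiSum_eq_neg_one_add (n := 3) (by norm_num) h h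
      (three_dvd ρ h3) prim_root_om
    rw [hJ, hz, Ideal.mem_span_singleton']
    refine ⟨z * omr, ?_⟩
    linear_combination z * omr_sq
  have hJf : -J = π ^ f := by
    refine prim_unique hJ1 (hprim f) ?_
    obtain ⟨t, ht⟩ := hdvd
    have htu : IsUnit t := by
      rw [isUnit_iff']
      have h4 := congrArg (fun t : eis => Complex.normSq (t : ℂ)) ht
      push_cast at h4
      rw [Complex.normSq_mul, hnorm, map_pow] at h4
      have h5 : Complex.normSq (π : ℂ) ^ f ≠ 0 := pow_ne_zero _ (by linarith)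
      exact mul_left_cancel₀ h5 (by rw [mul_one]; exact h4.symm)
    rw [sp, Ideal.span_singleton_neg, ht]
    rw [mul_comm]
    exact Ideal.span_singleton_mul_left_unit htu _
  have hJ2 : J = -π ^ f := by rw [← hJf, neg_neg]
  refine ⟨hJ2, ?_⟩
  rw [hJc, hJ2]
  change cjh (-π ^ f) = _
  rw [map_neg, map_pow]
  rfl

/-- the number of solutions of `y² + y = x³` -/
theorem card_aff (h3 : (3 : k) ≠ 0) {π : eis} (hπ : Prime π) (hπ1 : π - 1 ∈ (sp 3 : Ideal eis))
    (hker : ∀ x, ρ x = 0 ↔ π ∣ x) {f : ℕ} (hq : ((Fintype.card k : ℕ) : eis) = (π * cj π) ^ f) :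
    ((Nat.card {p : k × k // p.2 ^ 2 + p.2 = p.1 ^ 3} : ℕ) : ℂ) =
      Fintype.card k - (π : ℂ) ^ f - ((starRingEnd ℂ) (π : ℂ)) ^ f := by
  obtain ⟨χ, h, h1, hρ⟩ := exists_chi ρ h3
  have h4 := card_points ρ h h3 hρ
  obtain ⟨h5, h6⟩ := jac_eq ρ h3 h h1 hρ hπ hπ1 hker hq
  rw [h5, h6] at h4
  have h7 := congrArg (fun t : eis => (t : ℂ)) h4
  push_cast at h7
  rw [h7, cj_coe]
  ring

end field

end Pool.Agent.Y696
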