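import Mathlib
import Pool.Agent.W189.NF.LocalPoly

/-!
# The local factors of `y² + y = x³`
-/

set_option autoImplicit false

namespace Pool.Agent.Y696

open Polynomial IsDiscreteValuationRing IsLocalRing IsDedekindDomain.HeightOneSpectrum
open Pool.Agent.W189.NF

/-- the curve `y² + y = x³` -/
def E0 (R : Type) [CommRing R] : WeierstrassCurve R := ⟨0, 0, 1, 0, 0⟩

lemma E0_map {R S : Type} [CommRing R] [CommRing S] (f : R →+* S) : (E0 R).map f = E0 S := by
  ext <;> simp [E0]

lemma E0_Δ (R : Type) [CommRing R] : (E0 R).Δ = -27 := by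
  simp only [E0, WeierstrassCurve.Δ, WeierstrassCurve.b₂, WeierstrassCurve.b₄,
    WeierstrassCurve.b₆, WeierstrassCurve.b₈]
  ring

lemma E0_c₄ (R : Type) [CommRing R] : (E0 R).c₄ = 0 := by
  simp only [E0, WeierstrassCurve.c₄, WeierstrassCurve.b₂, WeierstrassCurve.b₄]
  ring

section Local

variable (R : Type) [CommRing R] [IsDomain R] [IsDiscreteValuationRing R] {L : Type}
  [Field L] [Algebra R L] [IsFractionRing R L]

variable {R} in
lemma int4 {x : L} {a : R} (h : x ^ 4 + x = algebraMap R L a) : ∃ r, algebraMap R L r = x := by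
  have h1 : IsIntegral R x := by
    refine ⟨X ^ 4 + X - C a, ?_, ?_⟩
    · monicity!
    · simp [h]
  exact IsIntegrallyClosed.isIntegral_iff.1 h1

variable {R} in
lemma int2 {x : L} {a b : R} (h : x ^ 2 + algebraMap R L b * x = algebraMap R L a) :
    ∃ r, algebraMap R L r = x := by
  have h1 : IsIntegral R x := by
    refine ⟨X ^ 2 + C b * X - C a, ?_, ?_⟩
    · monicity!
    · simp [h]
  exact IsIntegrallyClosed.isIntegral_iff.1 h1

instance E0_integral : WeierstrassCurve.IsIntegral R (E0 L) :=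
  ⟨⟨E0 R, (E0_map (algebraMap R L)).symm⟩⟩

lemma val_unit {r : R} (h : IsUnit r) : valuation L (maximalIdeal R) (algebraMap R L r) = 1 := by
  rw [valuation_eq_one_iff_notMem]
  intro hr
  exact (IsLocalRing.notMem_maximalIdeal.2 h) hr

lemma val_le (r : R) : valuation L (maximalIdeal R) (algebraMap R L r) ≤ 1 :=
  valuation_le_one _ _

/-- the discriminant of a minimal model -/
lemma minimal_good (h3 : IsUnit (3 : R)) :
    valuation L (maximalIdeal R) ((E0 L).minimal R).Δ = 1 := by
  set C := ((E0 L).exists_isMinimal R).choose with hC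
  have hm : (E0 L).minimal R = C • E0 L := rfl
  have h1 := (inferInstance : WeierstrassCurve.IsMinimal R ((E0 L).minimal R)).val_Δ_maximal
  have h27 : valuation L (maximalIdeal R) (E0 L).Δ = 1 := by
    rw [E0_Δ]
    have h4 : IsUnit (-27 : R) := by
      have : (-27 : R) = -(3 ^ 3) := by norm_num
      rw [this]
      exact (h3.pow 3).neg
    have h5 : (-27 : L) = algebraMap R L (-27) := by rw [map_neg, map_ofNat]
    rw [h5]
    exact val_unit R h4
  have e1 : C⁻¹ • (E0 L).minimal R = E0 L := by rw [hm, inv_smul_smul]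
  have hint : WeierstrassCurve.IsIntegral R (C⁻¹ • (E0 L).minimal R) := by
    rw [e1]
    infer_instance
  have hle : valuation L (maximalIdeal R) ((E0 L).minimal R).Δ ≤ 1 := by
    rw [← WeierstrassCurve.integralModel_Δ_eq R]
    exact val_le R _
  have v1 : ((WeierstrassCurve.valuation_Δ_aux R ((E0 L).minimal R)).1 : WithZero (Multiplicative ℤ)) =
      valuation L (maximalIdeal R) ((E0 L).minimal R).Δ :=
    WeierstrassCurve.valuation_Δ_aux_eq_of_isIntegral R _
  have v2 : ((WeierstrassCurve.valuation_Δ_aux R (E0 L)).1 : WithZero (Multiplicative ℤ)) = 1 :=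
    (WeierstrassCurve.valuation_Δ_aux_eq_of_isIntegral R _).trans h27
  have h2 := h1.2 (j := C⁻¹) hint
  simp only [one_smul, e1] at h2
  refine le_antisymm hle ?_
  have h3 : WeierstrassCurve.valuation_Δ_aux R ((E0 L).minimal R) ≤
      WeierstrassCurve.valuation_Δ_aux R (E0 L) := by
    rw [← Subtype.coe_le_coe, v2]
    exact (WeierstrassCurve.valuation_Δ_aux R ((E0 L).minimal R)).2
  have h4 := h2 h3
  rw [← Subtype.coe_le_coe, v2, v1] at h4
  exact h4

lemma good_red (h3 : IsUnit (3 : R)) : ((E0 L).minimal R).HasGoodReduction R :=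
  { goodReduction := minimal_good R h3 }

/-- the integral model is a change of variables of `E0` -/
lemma exists_change (h3 : IsUnit (3 : R)) :
    ∃ C₀ : WeierstrassCurve.VariableChange R,
      WeierstrassCurve.integralModel R ((E0 L).minimal R) = C₀ • E0 R := by
  set C := ((E0 L).exists_isMinimal R).choose with hC
  have hm : (E0 L).minimal R = C • E0 L := rfl
  set M := WeierstrassCurve.integralModel R ((E0 L).minimal R) with hM
  have hinj : Function.Injective (algebraMap R L) := IsFractionRing.injective R L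
  -- the unit
  have hΔ : ((C.u⁻¹ : Lˣ) : L) ^ 12 * (-27) = ((E0 L).minimal R).Δ := by
    rw [hm, WeierstrassCurve.variableChange_Δ, E0_Δ]
  have hg := minimal_good (L := L) R h3
  rw [← hΔ] at hg
  have h27 : valuation L (maximalIdeal R) (-27 : L) = 1 := by
    have h4 : IsUnit (-27 : R) := by
      have : (-27 : R) = -(3 ^ 3) := by norm_num
      rw [this]
      exact (h3.pow 3).neg
    have h5 : (-27 : L) = algebraMap R L (-27) := by rw [map_neg, map_ofNat]
    rw [h5]
    exact val_unit R h4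
  rw [map_mul, h27, mul_one, map_pow] at hg
  have hui : valuation L (maximalIdeal R) ((C.u⁻¹ : Lˣ) : L) = 1 := by
    refine le_antisymm ?_ ?_
    · by_contra hlt
      rw [not_le] at hlt
      exact absurd hg (one_lt_pow₀ hlt (by norm_num)).ne'
    · by_contra hlt
      rw [not_le] at hlt
      exact absurd hg (pow_lt_one₀ zero_le hlt (by norm_num)).ne
  obtain ⟨w, hw⟩ := exists_lift_of_le_one (A := R) (K := L) hui.le
  have hu0 : ((C.u : Lˣ) : L) ≠ 0 := C.u.ne_zero
  have huv : ((C.u⁻¹ : Lˣ) : L) * ((C.u : Lˣ) : L) = 1 := by simp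
  have hui' : valuation L (maximalIdeal R) ((C.u : Lˣ) : L) = 1 := by
    have h4 := congrArg (valuation L (maximalIdeal R)) huv
    rwa [map_mul, hui, one_mul, map_one] at h4
  obtain ⟨w', hw'⟩ := exists_lift_of_le_one (A := R) (K := L) hui'.le
  have hww : w' * w = 1 := by
    apply hinj
    rw [map_mul, map_one, hw, hw', mul_comm]
    exact huv
  obtain ⟨i3, hi3⟩ := h3.exists_left_inv
  have hi3' : algebraMap R L i3 * 3 = 1 := by
    have h4 := congrArg (algebraMap R L) hi3
    rwa [map_mul, map_one, map_ofNat] at h4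
  -- integrality of `r`
  have hb8 : algebraMap R L M.b₈ = ((C.u⁻¹ : Lˣ) : L) ^ 8 * (3 * C.r + 3 * C.r ^ 4) := by
    rw [hM, WeierstrassCurve.integralModel_b₈_eq, hm, WeierstrassCurve.variableChange_b₈]
    simp only [E0, WeierstrassCurve.b₂, WeierstrassCurve.b₄, WeierstrassCurve.b₆,
      WeierstrassCurve.b₈]
    ring
  obtain ⟨r, hr⟩ : ∃ r, algebraMap R L r = C.r := by
    refine int4 (a := i3 * w' ^ 8 * M.b₈) ?_
    rw [map_mul, map_mul, map_pow, hb8, hw']
    have h5 : ((C.u : Lˣ) : L) ^ 8 * ((C.u⁻¹ : Lˣ) : L) ^ 8 = 1 := by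
      rw [← mul_pow, mul_comm, huv, one_pow]
    linear_combination (-(C.r + C.r ^ 4) * 3 * algebraMap R L i3) * h5 - (C.r + C.r ^ 4) * hi3'
  -- integrality of `s`
  have ha2 : algebraMap R L M.a₂ = ((C.u⁻¹ : Lˣ) : L) ^ 2 * (3 * C.r - C.s ^ 2) := by
    rw [hM, WeierstrassCurve.integralModel_a₂_eq, hm, WeierstrassCurve.variableChange_a₂]
    simp only [E0]
    ring
  obtain ⟨s, hs⟩ : ∃ s, algebraMap R L s = C.s := by
    refine int2 (a := 3 * r - w' ^ 2 * M.a₂) (b := 0) ?_
    rw [map_sub, map_mul, map_mul, map_pow, ha2, hw', hr, map_zero, map_ofNat]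
    have h5 : ((C.u : Lˣ) : L) ^ 2 * ((C.u⁻¹ : Lˣ) : L) ^ 2 = 1 := by
      rw [← mul_pow, mul_comm, huv, one_pow]
    linear_combination (3 * C.r - C.s ^ 2) * h5
  -- integrality of `t`
  have ha6 : algebraMap R L M.a₆ = ((C.u⁻¹ : Lˣ) : L) ^ 6 * (C.r ^ 3 - C.t - C.t ^ 2) := by
    rw [hM, WeierstrassCurve.integralModel_a₆_eq, hm, WeierstrassCurve.variableChange_a₆]
    simp only [E0]
    ring
  obtain ⟨t, ht⟩ : ∃ t, algebraMap R L t = C.t := by
    refine int2 (a := r ^ 3 - w' ^ 6 * M.a₆) (b := 1) ?_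
    rw [map_sub, map_mul, map_pow, map_pow, ha6, hw', hr, map_one]
    have h5 : ((C.u : Lˣ) : L) ^ 6 * ((C.u⁻¹ : Lˣ) : L) ^ 6 = 1 := by
      rw [← mul_pow, mul_comm, huv, one_pow]
    linear_combination (C.r ^ 3 - C.t - C.t ^ 2) * h5
  refine ⟨⟨⟨w', w, hww, by rw [mul_comm]; exact hww⟩, r, s, t⟩, ?_⟩
  apply WeierstrassCurve.map_injective hinj
  have h6 : M.map (algebraMap R L) = (E0 L).minimal R :=
    WeierstrassCurve.baseChange_integralModel_eq R _
  show M.map (algebraMap R L) = ((⟨⟨w', w, hww, by rw [mul_comm]; exact hww⟩, r, s, t⟩ :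
    WeierstrassCurve.VariableChange R) • E0 R).map (algebraMap R L)
  rw [h6, hm, ← WeierstrassCurve.map_variableChange, E0_map]
  congr 1
  ext
  · simp [WeierstrassCurve.VariableChange.map, hw']
  · simp [WeierstrassCurve.VariableChange.map, hr]
  · simp [WeierstrassCurve.VariableChange.map, hs]
  · simp [WeierstrassCurve.VariableChange.map, ht]

/-- counting points after a change of variables -/
lemma card_change {k : Type} [Field k] [Finite k] (C : WeierstrassCurve.VariableChange k)
    (h : (C • E0 k).IsElliptic) :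
    Nat.card (C • E0 k).toAffine.Point = Nat.card {p : k × k // p.2 ^ 2 + p.2 = p.1 ^ 3} + 1 := by
  have hu0 : ((C.u : kˣ) : k) ≠ 0 := C.u.ne_zero
  have hui : ((C.u⁻¹ : kˣ) : k) = ((C.u : kˣ) : k)⁻¹ := by simp
  have e1 : (C • E0 k).toAffine.Point ≃
      Option {Q : k × k // (C • E0 k).toAffine.Equation Q.1 Q.2} :=
    { toFun := ptMap (C • E0 k)
      invFun := fun o => match o with
        | none => .zero
        | some Q => .some Q.1.1 Q.1.2 (WeierstrassCurve.Affine.equation_iff_nonsingular.1 Q.2)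
      left_inv := by
        intro P
        cases P <;> rfl
      right_inv := by
        intro o
        cases o <;> rfl }
  have heq : ∀ x y : k, (C • E0 k).toAffine.Equation x y ↔
      (C.u ^ 3 * y + C.u ^ 2 * C.s * x + C.t) ^ 2 + (C.u ^ 3 * y + C.u ^ 2 * C.s * x + C.t) =
        ((C.u : k) ^ 2 * x + C.r) ^ 3 := by
    intro x y
    rw [WeierstrassCurve.Affine.equation_iff]
    have a1 : (C • E0 k).toAffine.a₁ = ((C.u : kˣ) : k)⁻¹ * (2 * C.s) := by
      rw [← hui]
      show (C • E0 k).a₁ = _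
      rw [WeierstrassCurve.variableChange_a₁]
      simp [E0]
    have a2 : (C • E0 k).toAffine.a₂ = ((C.u : kˣ) : k)⁻¹ ^ 2 * (3 * C.r - C.s ^ 2) := by
      rw [← hui]
      show (C • E0 k).a₂ = _
      rw [WeierstrassCurve.variableChange_a₂]
      simp [E0]
    have a3 : (C • E0 k).toAffine.a₃ = ((C.u : kˣ) : k)⁻¹ ^ 3 * (1 + 2 * C.t) := by
      rw [← hui]
      show (C • E0 k).a₃ = _
      rw [WeierstrassCurve.variableChange_a₃]
      simp [E0]
    have a4 : (C • E0 k).toAffine.a₄ = ((C.u : kˣ) : k)⁻¹ ^ 4 * (-C.s + 3 * C.r ^ 2 - 2 * C.s * C.t) := by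
      rw [← hui]
      show (C • E0 k).a₄ = _
      rw [WeierstrassCurve.variableChange_a₄]
      simp [E0]
    have a6 : (C • E0 k).toAffine.a₆ = ((C.u : kˣ) : k)⁻¹ ^ 6 * (C.r ^ 3 - C.t - C.t ^ 2) := by
      rw [← hui]
      show (C • E0 k).a₆ = _
      rw [WeierstrassCurve.variableChange_a₆]
      simp [E0]
    rw [a1, a2, a3, a4, a6]
    have h6 : ((C.u : kˣ) : k) ^ 6 ≠ 0 := pow_ne_zero 6 hu0
    rw [← sub_eq_zero, ← sub_eq_zero (b := ((C.u : k) ^ 2 * x + C.r) ^ 3)]
    have h7 : (C.u ^ 3 * y + C.u ^ 2 * C.s * x + C.t) ^ 2 + (C.u ^ 3 * y + C.u ^ 2 * C.s * x + C.t) -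
        ((C.u : k) ^ 2 * x + C.r) ^ 3 = (C.u : k) ^ 6 * (y ^ 2 + (C.u : k)⁻¹ * (2 * C.s) * x * y +
        (C.u : k)⁻¹ ^ 3 * (1 + 2 * C.t) * y - (x ^ 3 + (C.u : k)⁻¹ ^ 2 * (3 * C.r - C.s ^ 2) * x ^ 2 +
        (C.u : k)⁻¹ ^ 4 * (-C.s + 3 * C.r ^ 2 - 2 * C.s * C.t) * x +
        (C.u : k)⁻¹ ^ 6 * (C.r ^ 3 - C.t - C.t ^ 2))) := by
      field_simp
      ring
    rw [h7]
    constructor
    · intro h
      rw [h, mul_zero]
    · intro h
      exact (mul_eq_zero.1 h).resolve_left h6
  have e2 : {Q : k × k // (C • E0 k).toAffine.Equation Q.1 Q.2} ≃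
      {p : k × k // p.2 ^ 2 + p.2 = p.1 ^ 3} :=
    { toFun := fun Q => ⟨((C.u : k) ^ 2 * Q.1.1 + C.r,
        C.u ^ 3 * Q.1.2 + C.u ^ 2 * C.s * Q.1.1 + C.t), (heq _ _).1 Q.2⟩
      invFun := fun p => ⟨((p.1.1 - C.r) / (C.u : k) ^ 2,
        (p.1.2 - C.s * (p.1.1 - C.r) - C.t) / (C.u : k) ^ 3), (heq _ _).2 (by
          have h1 : (C.u : k) ^ 3 * ((p.1.2 - C.s * (p.1.1 - C.r) - C.t) / (C.u : k) ^ 3) +
              C.u ^ 2 * C.s * ((p.1.1 - C.r) / (C.u : k) ^ 2) + C.t = p.1.2 := by
            field_simp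
            ring
          have h2 : (C.u : k) ^ 2 * ((p.1.1 - C.r) / (C.u : k) ^ 2) + C.r = p.1.1 := by
            field_simp
            ring
          rw [h1, h2]
          exact p.2)⟩
      left_inv := by
        rintro ⟨⟨x, y⟩, h⟩
        simp only [Subtype.mk.injEq, Prod.mk.injEq]
        constructor
        · field_simp
          ring
        · field_simp
          ring
      right_inv := by
        rintro ⟨⟨x, y⟩, h⟩
        simp only [Subtype.mk.injEq, Prod.mk.injEq]
        constructor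
        · field_simp
          ring
        · field_simp
          ring }
  rw [Nat.card_congr e1, Finite.card_option, Nat.card_congr e2]

theorem aLoc_good [Finite (ResidueField R)] (h3 : IsUnit (3 : R)) :
    aLoc R (E0 L) = (Nat.card (ResidueField R) : ℤ) -
      Nat.card {p : ResidueField R × ResidueField R // p.2 ^ 2 + p.2 = p.1 ^ 3} ∧
    eLoc R (E0 L) = (Nat.card (ResidueField R) : ℤ) := by
  have hg := good_red (L := L) R h3
  obtain ⟨C₀, hC₀⟩ := exists_change (L := L) R h3
  have h1 : ((E0 L).minimal R).reduction R = C₀.map (residue R) • E0 (ResidueField R) := by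
    unfold WeierstrassCurve.reduction
    rw [hC₀, ← WeierstrassCurve.map_variableChange, E0_map]
  have h2 : (((E0 L).minimal R).reduction R).IsElliptic :=
    (WeierstrassCurve.hasGoodReduction_iff_isElliptic_reduction R).1 hg
  unfold aLoc eLoc
  rw [if_pos hg, if_pos hg]
  refine ⟨?_, rfl⟩
  rw [h1] at h2 ⊢
  rw [card_change _ h2]
  push_cast
  ring

theorem aLoc_bad (h3 : ∀ u : L, valuation L (maximalIdeal R) u ^ 12 ≠
    valuation L (maximalIdeal R) 27) : aLoc R (E0 L) = 0 ∧ eLoc R (E0 L) = 0 := by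
  set C := ((E0 L).exists_isMinimal R).choose with hC
  have hm : (E0 L).minimal R = C • E0 L := rfl
  have hng : ¬ ((E0 L).minimal R).HasGoodReduction R := by
    intro hg
    have h4 := hg.goodReduction
    rw [hm, WeierstrassCurve.variableChange_Δ, E0_Δ, map_mul, map_pow, Valuation.map_neg] at h4
    apply h3 ((C.u : Lˣ) : L)
    have h5 : valuation L (maximalIdeal R) ((C.u : Lˣ) : L) *
        valuation L (maximalIdeal R) ((C.u⁻¹ : Lˣ) : L) = 1 := by
      rw [← map_mul]
      simp
    calc valuation L (maximalIdeal R) ((C.u : Lˣ) : L) ^ 12 =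
        valuation L (maximalIdeal R) ((C.u : Lˣ) : L) ^ 12 *
        (valuation L (maximalIdeal R) ((C.u⁻¹ : Lˣ) : L) ^ 12 *
          valuation L (maximalIdeal R) 27) := by rw [h4, mul_one]
      _ = (valuation L (maximalIdeal R) ((C.u : Lˣ) : L) *
        valuation L (maximalIdeal R) ((C.u⁻¹ : Lˣ) : L)) ^ 12 *
          valuation L (maximalIdeal R) 27 := by rw [mul_pow, mul_assoc]
      _ = _ := by rw [h5, one_pow, one_mul]
  have hnm : ¬ ((E0 L).minimal R).HasMultiplicativeReduction R := by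
    intro hg
    have h4 := hg.multiplicativeReduction
    rw [hm, WeierstrassCurve.variableChange_c₄, E0_c₄, mul_zero, map_zero] at h4
    exact zero_ne_one h4
  have hns : ¬ ((E0 L).minimal R).HasSplitMultiplicativeReduction R := fun h =>
    hnm h.toHasMultiplicativeReduction
  unfold aLoc eLoc
  rw [if_neg hng, if_neg hng, if_neg hns, if_neg hnm]
  exact ⟨rfl, rfl⟩

end Local

end Pool.Agent.Y696
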