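import Mathlib
import Pool.Agent.Y696.Loc
import Pool.Agent.Y696.Chr
import Pool.Agent.Y696.Cond
import Pool.Agent.Y696.Jac2
import Pool.Agent.Y696.Lib
import Pool.Agent.W164.RC.Split
import Pool.Agent.W189.NF.LSer

/-!
# Primes of an abelian extension of the field of cube roots of unity
-/

set_option autoImplicit false

namespace Pool.Agent.Y696

open NumberField IsDedekindDomain IsLocalRing
open Pool.Agent.W192.HK
open Pool.Agent.H921R2.TatePole (two_le_nm)
open Pool.Agent.W189.NF (aV eV redMap)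
open scoped Pointwise

/-- an abelian extension of `ℚ(ω)` with its Artin map -/
structure Dat {K : Type} [Field K] [NumberField K] (ι : eis →+* 𝓞 K) (G : Type) [CommGroup G]
    [MulSemiringAction G (𝓞 K)] (c : eis) (art : (eis ⧸ (sp c : Ideal eis))ˣ →* G) : Prop where
  c_ne : c ≠ 0
  cop2 : IsCoprime c 2
  cop3 : IsCoprime c 3
  cube : ∀ P : HeightOneSpectrum eis, c ∈ P.asIdeal → ∀ x : eis, x ^ 3 - 2 ∉ P.asIdeal
  pgrp : ∃ n, Nat.card G = 2 ^ n
  inv : ∀ b : 𝓞 K, (∀ g : G, g • b = b) → ∃ a, ι a = b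
  fix : ∀ (g : G) (a : eis), g • ι a = ι a
  surj : Function.Surjective art
  unr : ∀ v : HeightOneSpectrum (𝓞 K), ι c ∉ v.asIdeal →
    ∀ g : G, (∀ x : 𝓞 K, g • x - x ∈ v.asIdeal) → g = 1
  frob : ∀ π : eis, Prime π → ∀ u : (eis ⧸ (sp c : Ideal eis))ˣ,
    (u : eis ⧸ (sp c : Ideal eis)) = Ideal.Quotient.mk _ π →
    ∀ v : HeightOneSpectrum (𝓞 K), ι π ∈ v.asIdeal →
    ∀ x : 𝓞 K, art u • x - x ^ Nat.card (eis ⧸ (sp π : Ideal eis)) ∈ v.asIdeal
  ram3 : ∀ v : HeightOneSpectrum (𝓞 K), ι 3 ∈ v.asIdeal → ι (2 * omr + 1) ∉ v.asIdeal ^ 2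

section
variable {K : Type} [Field K] [NumberField K] (ι : eis →+* 𝓞 K)

/-- the norm of a prime of `K` -/
noncomputable abbrev nK (v : HeightOneSpectrum (𝓞 K)) : ℕ := Pool.Agent.H921R2.TatePole.nm v

/-- the prime below -/
noncomputable def bel (v : HeightOneSpectrum (𝓞 K)) : HeightOneSpectrum eis where
  asIdeal := v.asIdeal.comap ι
  isPrime := inferInstance
  ne_bot := by
    intro h
    have h1 : ((Ideal.absNorm v.asIdeal : ℕ) : eis) ∈ v.asIdeal.comap ι := by
      rw [Ideal.mem_comap, map_natCast]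
      exact Ideal.absNorm_mem v.asIdeal
    rw [h, Ideal.mem_bot, Nat.cast_eq_zero, Ideal.absNorm_eq_zero_iff] at h1
    exact v.ne_bot h1

lemma mem_bel (v : HeightOneSpectrum (𝓞 K)) (x : eis) : x ∈ (bel ι v).asIdeal ↔ ι x ∈ v.asIdeal :=
  Iff.rfl

lemma bel_eq_of {v : HeightOneSpectrum (𝓞 K)} {P : HeightOneSpectrum eis}
    (h : ι (gP P) ∈ v.asIdeal) : bel ι v = P := by
  apply HeightOneSpectrum.ext
  symm
  refine (P.isPrime.isMaximal P.ne_bot).eq_of_le (bel ι v).isPrime.ne_top ?_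
  rw [gP_span, Ideal.span_singleton_le_iff_mem, mem_bel]
  exact h

lemma bel_iff {v : HeightOneSpectrum (𝓞 K)} {P : HeightOneSpectrum eis} :
    bel ι v = P ↔ ι (gP P) ∈ v.asIdeal := by
  constructor
  · rintro rfl
    rw [← mem_bel, gP_span]
    exact Ideal.mem_span_singleton_self _
  · exact bel_eq_of ι

lemma ι_inj : Function.Injective ι := by
  rw [injective_iff_map_eq_zero]
  intro a ha
  by_contra h0
  have h1 : ((Nat.card (eis ⧸ (sp a : Ideal eis)) : ℕ) : eis) ∈ (sp a : Ideal eis) := by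
    have := finite_q h0
    rw [← Ideal.Quotient.eq_zero_iff_mem, map_natCast]
    have h2 := card_nsmul_eq_zero' (x := (1 : eis ⧸ (sp a : Ideal eis)))
    rwa [nsmul_eq_mul, mul_one] at h2
  rw [Ideal.mem_span_singleton'] at h1
  obtain ⟨t, ht⟩ := h1
  have h2 := congrArg ι ht
  rw [map_mul, ha, mul_zero, map_natCast] at h2
  have h3 : Nat.card (eis ⧸ (sp a : Ideal eis)) = 0 := by exact_mod_cast h2.symm
  have := finite_q h0
  exact Nat.card_pos.ne' h3

instance fib_finite (P : HeightOneSpectrum eis) :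
    Finite {v : HeightOneSpectrum (𝓞 K) // bel ι v = P} := by
  have h1 : ι (gP P) ≠ 0 := fun h => gP_ne P (ι_inj ι (by rw [h, map_zero]))
  have h2 : (Ideal.span {ι (gP P)} : Ideal (𝓞 K)) ≠ ⊥ := by
    rwa [Ne, Ideal.span_singleton_eq_bot]
  have h3 : {v : HeightOneSpectrum (𝓞 K) | bel ι v = P}.Finite := by
    refine (Ideal.finite_factors h2).subset fun v hv => ?_
    have h4 : bel ι v = P := hv
    show v.asIdeal ∣ Ideal.span {ι (gP P)}
    rw [Ideal.dvd_span_singleton]
    exact (bel_iff ι).1 h4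
  exact h3

noncomputable instance fib_fintype (P : HeightOneSpectrum eis) :
    Fintype {v : HeightOneSpectrum (𝓞 K) // bel ι v = P} := Fintype.ofFinite _

variable {ι} {G : Type} [CommGroup G] [Finite G] [MulSemiringAction G (𝓞 K)] {c : eis}
  {art : (eis ⧸ (sp c : Ideal eis))ˣ →* G}

lemma card_nm (v : HeightOneSpectrum (𝓞 K)) : Nat.card (𝓞 K ⧸ v.asIdeal) = nK v := by
  unfold nK Pool.Agent.H921R2.TatePole.nm
  rw [Ideal.absNorm_apply, Submodule.cardQuot_apply]

/-- the residue degree -/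
theorem exists_deg (D : Dat ι G c art) (v : HeightOneSpectrum (𝓞 K)) :
    ∃ f : ℕ, 0 < f ∧ f ∣ Nat.card G ∧
      nK v = Nat.card (eis ⧸ (bel ι v).asIdeal) ^ f := by
  classical
  let _ : Algebra eis (𝓞 K) := ι.toAlgebra
  have halg : ∀ a : eis, algebraMap eis (𝓞 K) a = ι a := fun _ => rfl
  have hcomm : SMulCommClass G eis (𝓞 K) := by
    constructor
    intro g a x
    rw [Algebra.smul_def, Algebra.smul_def, halg, smul_mul', D.fix]
  have hinv : Algebra.IsInvariant eis (𝓞 K) G := ⟨fun b hb => D.inv b hb⟩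
  have hpmax : (bel ι v).asIdeal.IsMaximal := (bel ι v).isPrime.isMaximal (bel ι v).ne_bot
  have hvmax : v.asIdeal.IsMaximal := v.isPrime.isMaximal v.ne_bot
  have hover : v.asIdeal.LiesOver (bel ι v).asIdeal := ⟨rfl⟩
  have hfv : Finite (𝓞 K ⧸ v.asIdeal) := Ideal.finiteQuotientOfFreeOfNeBot v.asIdeal v.ne_bot
  have hfp : Finite (eis ⧸ (bel ι v).asIdeal) := by
    rw [gP_span]
    exact finite_q (gP_ne _)
  let _ : Field (eis ⧸ (bel ι v).asIdeal) := Ideal.Quotient.field _
  let _ : Field (𝓞 K ⧸ v.asIdeal) := Ideal.Quotient.field _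
  let _ : Fintype (eis ⧸ (bel ι v).asIdeal) := Fintype.ofFinite _
  let _ : Fintype (𝓞 K ⧸ v.asIdeal) := Fintype.ofFinite _
  refine ⟨Module.finrank (eis ⧸ (bel ι v).asIdeal) (𝓞 K ⧸ v.asIdeal), Module.finrank_pos, ?_, ?_⟩
  · have h1 := Ideal.Quotient.stabilizerHom_surjective G (bel ι v).asIdeal v.asIdeal
    have h2 : Nat.card ((𝓞 K ⧸ v.asIdeal) ≃ₐ[eis ⧸ (bel ι v).asIdeal] (𝓞 K ⧸ v.asIdeal)) ∣
        Nat.card (MulAction.stabilizer G v.asIdeal) := Subgroup.card_dvd_of_surjective _ h1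
    have h3 : Nat.card (MulAction.stabilizer G v.asIdeal) ∣ Nat.card G :=
      Subgroup.card_subgroup_dvd_card _
    have h4 := IsGalois.card_aut_eq_finrank (eis ⧸ (bel ι v).asIdeal) (𝓞 K ⧸ v.asIdeal)
    rw [h4] at h2
    exact h2.trans h3
  · have h := Module.card_eq_pow_finrank (K := eis ⧸ (bel ι v).asIdeal) (V := 𝓞 K ⧸ v.asIdeal)
    rw [← card_nm, Nat.card_eq_fintype_card, h, Nat.card_eq_fintype_card]

theorem exists_over (D : Dat ι G c art) (P : HeightOneSpectrum eis) :
    ∃ v : HeightOneSpectrum (𝓞 K), bel ι v = P := by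
  have hprime : Prime (gP P) := by
    rw [← Ideal.span_singleton_prime (gP_ne P)]
    have := P.isPrime
    rwa [gP_span] at this
  have hnu : ¬ IsUnit (ι (gP P)) := by
    intro hun
    obtain ⟨w, hw⟩ := hun.exists_right_inv
    obtain ⟨b, hb⟩ := D.inv w (by
      intro g
      have h4 : ι (gP P) * (g • w) = 1 := by
        rw [← D.fix g (gP P), ← smul_mul', hw, smul_one]
      exact hun.mul_left_cancel (h4.trans hw.symm))
    apply hprime.not_isUnit
    refine IsUnit.of_mul_eq_one b ?_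
    apply ι_inj ι
    rw [map_mul, map_one, hb]
    exact hw
  obtain ⟨M, hM, hzM⟩ := exists_max_ideal_of_mem_nonunits (mem_nonunits_iff.2 hnu)
  refine ⟨⟨M, hM.isPrime, ?_⟩, bel_eq_of ι hzM⟩
  intro hbot
  rw [hbot, Ideal.mem_bot] at hzM
  exact gP_ne P (ι_inj ι (by rw [hzM, map_zero]))

/-- the primes that are not ramified -/
theorem split (D : Dat ι G c art) {P : HeightOneSpectrum eis} (hP : c ∉ P.asIdeal)
    {u : (eis ⧸ (sp c : Ideal eis))ˣ} (hu : (u : eis ⧸ (sp c : Ideal eis)) = Ideal.Quotient.mk _ (gP P)) :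
    (∀ v : HeightOneSpectrum (𝓞 K), bel ι v = P →
      nK v = Nat.card (eis ⧸ P.asIdeal) ^ orderOf (art u)) ∧
    Fintype.card {v : HeightOneSpectrum (𝓞 K) // bel ι v = P} = Nat.card G / orderOf (art u) := by
  classical
  let _ : Algebra eis (𝓞 K) := ι.toAlgebra
  have halg : ∀ a : eis, algebraMap eis (𝓞 K) a = ι a := fun _ => rfl
  have hcomm : SMulCommClass G eis (𝓞 K) := by
    constructor
    intro g a x
    rw [Algebra.smul_def, Algebra.smul_def, halg, smul_mul', D.fix]
  have hinv : Algebra.IsInvariant eis (𝓞 K) G := ⟨fun b hb => D.inv b hb⟩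
  have hpmax : P.asIdeal.IsMaximal := P.isPrime.isMaximal P.ne_bot
  have hfp : Finite (eis ⧸ P.asIdeal) := by
    rw [gP_span]
    exact finite_q (gP_ne _)
  have hprime : Prime (gP P) := by
    rw [← Ideal.span_singleton_prime (gP_ne P)]
    have := P.isPrime
    rwa [gP_span] at this
  have key : ∀ v : HeightOneSpectrum (𝓞 K), bel ι v = P →
      nK v = Nat.card (eis ⧸ P.asIdeal) ^ orderOf (art u) ∧
      (P.asIdeal.primesOver (𝓞 K)).ncard * orderOf (art u) = Nat.card G := by
    intro v hv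
    have hvmax : v.asIdeal.IsMaximal := v.isPrime.isMaximal v.ne_bot
    have hfv : Finite (𝓞 K ⧸ v.asIdeal) := Ideal.finiteQuotientOfFreeOfNeBot v.asIdeal v.ne_bot
    have hover : v.asIdeal.LiesOver P.asIdeal := ⟨by rw [← hv]; rfl⟩
    have hcv : ι c ∉ v.asIdeal := by
      rw [← mem_bel, hv]
      exact hP
    have h5 := Pool.Agent.W164.RC.split_abs G P.asIdeal v.asIdeal (D.unr v hcv) (art u) (by
      intro x
      have h6 := D.frob (gP P) hprime u hu v ((bel_iff ι).1 hv) x
      rw [gP_span P]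
      exact h6)
    refine ⟨?_, h5.2⟩
    rw [← card_nm]
    exact h5.1
  refine ⟨fun v hv => (key v hv).1, ?_⟩
  obtain ⟨v0, hv0⟩ := exists_over D P
  have h6 := (key v0 hv0).2
  have h7 : Fintype.card {v : HeightOneSpectrum (𝓞 K) // bel ι v = P} =
      (P.asIdeal.primesOver (𝓞 K)).ncard := by
    rw [← Nat.card_eq_fintype_card, ← Nat.card_coe_set_eq]
    refine Nat.card_congr
      { toFun := fun v => ⟨v.1.asIdeal, v.1.isPrime,
          ⟨(congrArg HeightOneSpectrum.asIdeal v.2).symm⟩⟩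
        invFun := fun Q => ⟨⟨Q.1, Q.2.1, ?_⟩, ?_⟩
        left_inv := fun v => rfl
        right_inv := fun Q => rfl }
    · have h8 := Q.2.2.over
      intro hbot
      apply P.ne_bot
      rw [h8, hbot, eq_bot_iff]
      intro x hx
      rw [Ideal.mem_comap, Ideal.mem_bot, halg] at hx
      rw [Ideal.mem_bot]
      exact ι_inj ι (by rw [hx, map_zero])
    · apply HeightOneSpectrum.ext
      exact Q.2.2.over.symm
  rw [h7, ← h6, Nat.mul_div_cancel _ (orderOf_pos _)]

/-- the coefficients at the primes that do not divide three -/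
theorem aV_val (v : HeightOneSpectrum (𝓞 K)) (h3 : ι 3 ∉ v.asIdeal)
    {f : ℕ} (hf : nK v = Nat.card (eis ⧸ (bel ι v).asIdeal) ^ f) :
    ((aV (E0 K) v : ℤ) : ℂ) = psi (bel ι v).asIdeal ^ f +
      ((starRingEnd ℂ) (psi (bel ι v).asIdeal)) ^ f ∧
    ((eV (E0 K) v : ℤ) : ℂ) = (nK v : ℂ) ∧
    psi (bel ι v).asIdeal * (starRingEnd ℂ) (psi (bel ι v).asIdeal) =
      (Nat.card (eis ⧸ (bel ι v).asIdeal) : ℂ) := by
  classical
  have hfin := Pool.Agent.W189.NF.finite_res v
  set P := bel ι v with hP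
  have h3P : (3 : eis) ∉ P.asIdeal := h3
  have hcop : IsCoprime P.asIdeal (sp 3) := by
    have hpmax : P.asIdeal.IsMaximal := P.isPrime.isMaximal P.ne_bot
    rw [Ideal.isCoprime_iff_sup_eq]
    by_contra hne
    obtain ⟨M, hM, hle⟩ := Ideal.exists_le_maximal _ hne
    have h4 : P.asIdeal = M := hpmax.eq_of_le hM.ne_top (le_sup_left.trans hle)
    apply h3P
    rw [h4]
    exact hle (Ideal.mem_sup_right (Ideal.mem_span_singleton_self 3))
  obtain ⟨π, hπ1, hπ2⟩ := exists_prim hcop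
  have hpsi : psi P.asIdeal = π := by rw [hπ1]; exact psi_prim hπ2
  set ρ : eis →+* ResidueField (Pool.Agent.W189.NF.Ov v) := (redMap v).comp ι with hρ
  have hker : ∀ x, ρ x = 0 ↔ π ∣ x := by
    intro x
    rw [hρ, RingHom.comp_apply, Pool.Agent.W189.NF.redMap_eq_zero, ← mem_bel, ← hP, hπ1,
      Ideal.mem_span_singleton]
  have hprime : Prime π := by
    rw [← Ideal.span_singleton_prime (prim_ne hπ2)]
    have := P.isPrime
    rwa [hπ1] at this
  have hk3 : (3 : ResidueField (Pool.Agent.W189.NF.Ov v)) ≠ 0 := by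
    intro h
    apply h3P
    have h4 : ρ 3 = 0 := by rw [map_ofNat]; exact h
    rw [hker] at h4
    rw [hπ1, Ideal.mem_span_singleton]
    exact h4
  have hu3 : IsUnit (3 : Pool.Agent.W189.NF.Ov v) := by
    rw [← residue_ne_zero_iff_isUnit, map_ofNat]
    exact hk3
  have hcardP : (Nat.card (eis ⧸ P.asIdeal) : ℂ) = (π : ℂ) * (starRingEnd ℂ) (π : ℂ) := by
    rw [Complex.mul_conj]
    have h4 : ((Nat.card (eis ⧸ P.asIdeal) : ℕ) : ℝ) = Complex.normSq (π : ℂ) := by
      rw [hπ1]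
      exact (lbasic eis om qr).2.2.2.2.1 π
    rw [← h4]
    push_cast
    rfl
  let _ : Fintype (ResidueField (Pool.Agent.W189.NF.Ov v)) := Fintype.ofFinite _
  have hcardk : Fintype.card (ResidueField (Pool.Agent.W189.NF.Ov v)) = nK v := by
    rw [← Nat.card_eq_fintype_card]
    exact Pool.Agent.W189.NF.card_res v
  have hq : ((Fintype.card (ResidueField (Pool.Agent.W189.NF.Ov v)) : ℕ) : eis) =
      (π * cj π) ^ f := by
    apply coe_inj'
    rw [hcardk, hf]
    push_cast
    rw [hcardP, cj_coe]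
  have h5 := card_aff ρ hk3 hprime hπ2 hker hq
  obtain ⟨h6, h7⟩ := aLoc_good (L := v.adicCompletion K) (Pool.Agent.W189.NF.Ov v) hu3
  have hbc : (E0 K).baseChange (v.adicCompletion K) = E0 (v.adicCompletion K) := E0_map _
  have h8 : aV (E0 K) v = Pool.Agent.W189.NF.aLoc (Pool.Agent.W189.NF.Ov v)
      (E0 (v.adicCompletion K)) := by
    unfold aV
    rw [hbc]
  have h9 : eV (E0 K) v = Pool.Agent.W189.NF.eLoc (Pool.Agent.W189.NF.Ov v)
      (E0 (v.adicCompletion K)) := by
    unfold eV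
    rw [hbc]
  rw [h6] at h8
  rw [h7] at h9
  refine ⟨?_, ?_, ?_⟩
  · rw [h8, hpsi, Nat.card_eq_fintype_card (α := ResidueField _)]
    push_cast
    rw [h5]
    ring
  · rw [h9]
    have h10 : Nat.card (ResidueField (Pool.Agent.W189.NF.Ov v)) = nK v :=
      Pool.Agent.W189.NF.card_res v
    rw [h10]
    push_cast
    rfl
  · rw [hpsi, hcardP]

lemma exp_rep {x : WithZero (Multiplicative ℤ)} (h : x ≠ 0) : ∃ n : ℤ, x = WithZero.exp n :=
  ⟨WithZero.log x, (WithZero.exp_log h).symm⟩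

lemma exp_one {x : WithZero (Multiplicative ℤ)} (h1 : x ≤ WithZero.exp (-1 : ℤ))
    (h2 : WithZero.exp (-2 : ℤ) < x) : x = WithZero.exp (-1 : ℤ) := by
  obtain ⟨n, rfl⟩ := exp_rep (ne_of_gt (lt_of_le_of_lt zero_le h2))
  rw [WithZero.exp_le_exp] at h1
  rw [WithZero.exp_lt_exp] at h2
  have : n = -1 := by omega
  rw [this]

lemma exp_lt {x : WithZero (Multiplicative ℤ)} (h1 : x < 1) : x ≤ WithZero.exp (-1 : ℤ) := by
  by_cases h : x = 0
  · rw [h]
    exact zero_le
  · obtain ⟨n, rfl⟩ := exp_rep h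
    rw [← WithZero.exp_zero, WithZero.exp_lt_exp] at h1
    rw [WithZero.exp_le_exp]
    omega

/-- the coefficients at the primes above three -/
theorem aV_three (D : Dat ι G c art) (v : HeightOneSpectrum (𝓞 K)) (h3 : ι 3 ∈ v.asIdeal) :
    aV (E0 K) v = 0 ∧ eV (E0 K) v = 0 := by
  have hbc : (E0 K).baseChange (v.adicCompletion K) = E0 (v.adicCompletion K) := E0_map _
  have hr := D.ram3 v h3
  set θ : 𝓞 K := ι (2 * omr + 1) with hθ
  have hθ2 : θ ^ 2 = -3 := by
    rw [hθ, ← map_pow]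
    have h4 : (2 * omr + 1 : eis) ^ 2 = -3 := by linear_combination 4 * omr_sq
    rw [h4, map_neg, map_ofNat]
  have hθv : θ ∈ v.asIdeal := by
    apply v.isPrime.mem_of_pow_mem 2
    rw [hθ2]
    apply v.asIdeal.neg_mem
    rw [map_ofNat] at h3
    exact h3
  have hval : v.intValuation θ = WithZero.exp (-1 : ℤ) := by
    refine exp_one ?_ ?_
    · have h4 := (v.intValuation_le_pow_iff_mem θ 1).2 (by rwa [pow_one])
      exact h4
    · have h4 : ¬ v.intValuation θ ≤ WithZero.exp (-((2 : ℕ) : ℤ)) := by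
        rw [v.intValuation_le_pow_iff_mem]
        exact hr
      exact not_le.1 h4
  -- the uniformizer of the completion
  set R := Pool.Agent.W189.NF.Ov v with hR
  set θ' : R := algebraMap (𝓞 K) R θ with hθ'
  have hθc : ((θ' : R) : v.adicCompletion K) = algebraMap K (v.adicCompletion K) (θ : K) := by
    rw [HeightOneSpectrum.algebraMap_adicCompletion]
    rfl
  have hv1 : Valued.v ((θ' : R) : v.adicCompletion K) = WithZero.exp (-1 : ℤ) := by
    rw [hθc, Pool.Agent.H723R3.valued_algebraMap]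
    have h5 := HeightOneSpectrum.valuation_of_algebraMap (K := K) v θ
    rw [← hval, ← h5]
  have hθ0 : ((θ' : R) : v.adicCompletion K) ≠ 0 := by
    intro h
    rw [h, map_zero] at hv1
    exact WithZero.exp_ne_zero hv1.symm
  have hmax : (IsDiscreteValuationRing.maximalIdeal R).asIdeal = Ideal.span {θ'} := by
    show IsLocalRing.maximalIdeal R = Ideal.span {θ'}
    refine le_antisymm ?_ ?_
    · intro x hx
      rw [Pool.Agent.W189.NF.mem_max_iff] at hx
      have h6 := exp_lt hx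
      rw [Ideal.mem_span_singleton']
      have h7 : Valued.v ((x : v.adicCompletion K) / ((θ' : R) : v.adicCompletion K)) ≤ 1 := by
        rw [map_div₀, hv1]
        exact div_le_one_of_le₀ h6 zero_le
      refine ⟨⟨_, h7⟩, ?_⟩
      apply Subtype.ext
      show (x : v.adicCompletion K) / ((θ' : R) : v.adicCompletion K) *
        ((θ' : R) : v.adicCompletion K) = x
      field_simp
    · rw [Ideal.span_singleton_le_iff_mem, Pool.Agent.W189.NF.mem_max_iff, hv1,
        ← WithZero.exp_zero, WithZero.exp_lt_exp]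
      norm_num
  have hθ'0 : θ' ≠ 0 := by
    intro h
    rw [h] at hθ0
    exact hθ0 rfl
  have hw : (IsDiscreteValuationRing.maximalIdeal R).valuation (v.adicCompletion K)
      (algebraMap R (v.adicCompletion K) θ') = WithZero.exp (-1 : ℤ) := by
    rw [HeightOneSpectrum.valuation_of_algebraMap]
    exact (IsDiscreteValuationRing.maximalIdeal R).intValuation_singleton hθ'0 hmax
  have h27 : (27 : v.adicCompletion K) = -(algebraMap R (v.adicCompletion K) θ') ^ 6 := by
    have h8 : θ' ^ 2 = -3 := by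
      rw [hθ', ← map_pow, hθ2, map_neg, map_ofNat]
    have h9 : (algebraMap R (v.adicCompletion K) θ') ^ 2 = -3 := by
      rw [← map_pow, h8, map_neg, map_ofNat]
    linear_combination ((algebraMap R (v.adicCompletion K) θ') ^ 4 -
      3 * (algebraMap R (v.adicCompletion K) θ') ^ 2 + 9) * h9
  have key := aLoc_bad (L := v.adicCompletion K) R (by
    intro u hu
    rw [h27, Valuation.map_neg, map_pow, hw] at hu
    have hu0 : (IsDiscreteValuationRing.maximalIdeal R).valuation (v.adicCompletion K) u ≠ 0 := by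
      intro h0
      rw [h0, zero_pow (by norm_num)] at hu
      exact pow_ne_zero 6 WithZero.exp_ne_zero hu.symm
    obtain ⟨n, hn⟩ := exp_rep hu0
    rw [hn, ← WithZero.exp_nsmul, ← WithZero.exp_nsmul, WithZero.exp_inj] at hu
    simp only [nsmul_eq_mul] at hu
    push_cast at hu
    omega)
  unfold aV eV
  rw [hbc]
  exact key

end

end Pool.Agent.Y696
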