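import Mathlib
import Pool.Agent.Y696.Ell

/-!
# The second differences for the curve `y² = 4 x³ + 1`
-/

set_option autoImplicit false

open Complex Filter Topology
open scoped PeriodPair

namespace Pool.Agent.Y696

open H667R3 Pool.Agent.W192.HK Pool.Agent.TH936.CM Pool.Agent.TH936.PU
open Pool.Agent.W192.CM (nu)

variable {L : PeriodPair} {Ω : ℂ}

lemma nr : ∀ r : eis, r ≠ 0 → 1 ≤ Complex.normSq (r : ℂ) := by
  intro r hr
  obtain ⟨n, hn⟩ := norm_int r
  rw [hn]
  have : n ≠ 0 := by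
    rintro rfl
    apply hr
    apply coe_inj'
    simpa using hn
  have : 1 ≤ n := Nat.one_le_iff_ne_zero.2 this
  exact_mod_cast this

lemma eo : Eo (3 : eis) (ee psi) := ee_eo lfp qr hc_psi

lemma ee_u {u : eis} (hu : IsUnit u) : ee psi u = u := ee_unit hc_psi nr hu

lemma ee_ncop {x : eis} (hx : ¬ IsCoprime x 3) : ee psi x = 0 := by
  unfold ee fp
  have : psi (sp x) = 0 := by
    rw [psi_zero_iff, Ideal.isCoprime_span_singleton_iff]
    exact hx
  rw [this, zero_div, map_zero]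

lemma unit_vals (x Y X : ℂ) (u : eis) (v w : ℂ) (h3 : (u : ℂ) * ((u : ℂ) ^ 3)⁻¹ = v)
    (h2 : ((u : ℂ) ^ 2)⁻¹ = w) :
    (u : ℂ) * ((((u : ℂ) ^ 3)⁻¹ * Y) / (((u : ℂ) ^ 2)⁻¹ * x - X)) = v * Y / (w * x - X) := by
  rw [h2, ← h3]
  ring

/-- the combination of second differences, conductor three -/
theorem Cur.hh (hC : Cur L Ω) [Fintype (eis ⧸ (sp 3 : Ideal eis))] {w : ℂ}
    (hw : 1 + ℘[L] w ^ 3 ≠ 0) :
    HH L Ω 3 (ee psi) w = -3 * ℘'[L] (Ω / 3) * ℘[L] (Ω / 3) ^ 2 / (1 + ℘[L] w ^ 3) := by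
  have hper : ∀ x y : eis, x - y ∈ (sp 3 : Ideal eis) →
      ee psi x * Dd L (Ω * x / ((3 : eis) : ℂ)) w = ee psi y * Dd L (Ω * y / ((3 : eis) : ℂ)) w := by
    intro x y hxy
    rw [eo.per x y hxy]
    congr 1
    apply Pool.Agent.TH936.PU.Dd_per
    have := (hC.div_iff three_ne (x - y)).2 hxy
    convert this using 1
    push_cast
    ring
  unfold HH
  rw [six_sum (fun y => ee psi y * Dd L (Ω * y / ((3 : eis) : ℂ)) w)
    (fun x hx => by rw [ee_ncop hx, zero_mul]) hper]
  have hterm : ∀ u : eis, IsUnit u → ee psi u * Dd L (Ω * u / ((3 : eis) : ℂ)) w =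
      (u : ℂ) * ((((u : ℂ) ^ 3)⁻¹ * ℘'[L] (Ω / 3)) / (((u : ℂ) ^ 2)⁻¹ * ℘[L] (Ω / 3) - ℘[L] w)) := by
    intro u hu
    rw [ee_u hu]
    unfold Dd
    have e : Ω * (u : ℂ) / ((3 : eis) : ℂ) = u * (Ω / 3) := by
      have : ((3 : eis) : ℂ) = 3 := rfl
      rw [this]
      ring
    rw [e, wp_unit hC.lat hu, dwp_unit hC.lat hu]
  have hu : ∀ v ∈ ({1, -1, omr, -omr, omr ^ 2, -omr ^ 2} : Set eis), IsUnit v := fun v hv =>
    (unit_list v).2 hv
  rw [hterm 1 (hu _ (by simp)), hterm (-1) (hu _ (by simp)), hterm omr (hu _ (by simp)),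
    hterm (-omr) (hu _ (by simp)), hterm (omr ^ 2) (hu _ (by simp)),
    hterm (-omr ^ 2) (hu _ (by simp))]
  have hx := hC.x0
  set x := ℘[L] (Ω / 3)
  set Y := ℘'[L] (Ω / 3)
  set X := ℘[L] w
  have hom : om ≠ 0 := om_ne
  have h3 := om_cube
  have i1 : om⁻¹ = om ^ 2 := by
    exact (eq_inv_of_mul_eq_one_left (by linear_combination h3)).symm
  have h6 : (om ^ 2) ^ 3 = 1 := by linear_combination (om ^ 3 + 1) * h3
  have i2 : (om ^ 2)⁻¹ = om := by
    rw [← i1, inv_inv]
  rw [unit_vals x Y X 1 1 1 (by simp) (by simp),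
    unit_vals x Y X (-1) 1 1 (by push_cast; norm_num) (by push_cast; norm_num),
    unit_vals x Y X omr om om (by rw [omr_coe, h3]; simp) (by rw [omr_coe, i2]),
    unit_vals x Y X (-omr) om om (by
      push_cast [omr_coe]
      rw [Odd.neg_pow (by decide), h3]; norm_num) (by
      push_cast [omr_coe]
      rw [Even.neg_pow (by decide), i2]),
    unit_vals x Y X (omr ^ 2) (om ^ 2) (om ^ 2) (by
      push_cast [omr_coe]
      rw [h6]; simp) (by
      push_cast [omr_coe]
      rw [← pow_mul, mul_comm, ← i1]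
      have : om ^ (2 * 2) = om := by linear_combination om * h3
      rw [this]),
    unit_vals x Y X (-omr ^ 2) (om ^ 2) (om ^ 2) (by
      push_cast [omr_coe]
      rw [Odd.neg_pow (by decide), h6]; norm_num) (by
      push_cast [omr_coe]
      rw [Even.neg_pow (by decide), ← pow_mul, ← i1]
      have : om ^ (2 * 2) = om := by linear_combination om * h3
      rw [this])]
  have n1 : 1 * x - X ≠ 0 := by
    intro h
    apply hw
    have : X = x := by linear_combination -h
    rw [this, hx]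
    ring
  have n2 : om * x - X ≠ 0 := by
    intro h
    apply hw
    have : X = om * x := by linear_combination -h
    rw [this, mul_pow, hx, h3]
    ring
  have n3 : om ^ 2 * x - X ≠ 0 := by
    intro h
    apply hw
    have : X = om ^ 2 * x := by linear_combination -h
    rw [this, mul_pow, hx, h6]
    ring
  have key : 1 * Y / (1 * x - X) + om * Y / (om * x - X) + om ^ 2 * Y / (om ^ 2 * x - X) =
      -3 * Y * x ^ 2 / (1 + X ^ 3) := by
    rw [div_add_div _ _ n1 n2, div_add_div _ _ (mul_ne_zero n1 n2) n3,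
      div_eq_div_iff (mul_ne_zero (mul_ne_zero n1 n2) n3) hw]
    have hs := om_sq
    have h4 : (1 * x - X) * (om * x - X) * (om ^ 2 * x - X) = -(1 + X ^ 3) := by
      linear_combination (om ^ 3) * hx + (X ^ 2 * x - x ^ 2 * X * om) * hs + (-1) * h3
    rw [h4]
    have h5 : (1 * Y * (om * x - X) + (1 * x - X) * (om * Y)) * (om ^ 2 * x - X) +
        (1 * x - X) * (om * x - X) * (om ^ 2 * Y) = 3 * Y * x ^ 2 := by
      linear_combination (3 * Y * x ^ 2) * h3 + (Y * X ^ 2 - 2 * om * x * X * Y) * hs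
    rw [h5]
    ring
  linear_combination key

end Pool.Agent.Y696
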