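import Mathlib
import Pool.Agent.Y696.Ell2

/-!
# Regularized sums with characters of any sum
-/

set_option autoImplicit false

open Complex Filter Topology
open scoped PeriodPair

namespace Pool.Agent.Y696

open H667R3 Pool.Agent.W192.HK Pool.Agent.TH936.CM Pool.Agent.TH936.PU
open Pool.Agent.W192.CM (nu)

variable {L : PeriodPair} {Ω : ℂ}

/-- multiplicative functions modulo `c` -/
structure Xg (c : eis) (χ : eis → ℂ) : Prop where
  per : ∀ x y : eis, x - y ∈ (sp c : Ideal eis) → χ x = χ y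
  mul : ∀ x y : eis, χ (x * y) = χ x * χ y
  bd : ∀ x : eis, ‖χ x‖ ≤ 1

/-- the sum over the primitive three-division points -/
noncomputable def WW (Ω : ℂ) [Fintype (eis ⧸ (sp 3 : Ideal eis))] (δ : ℝ) : ℂ :=
  ∑ y : eis ⧸ (sp 3 : Ideal eis), ee psi y.out * EE eis Ω δ (Ω * y.out / ((3 : eis) : ℂ))

/-- the formula for positive `δ` -/
theorem key_SS (hL : IsLat L eis Ω) {c : eis} (hc : c ≠ 0) (hfc : IsCoprime 3 c)
    [Fintype (eis ⧸ (sp 3 : Ideal eis))] [Fintype (eis ⧸ (sp c : Ideal eis))] {χ : eis → ℂ}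
    (hχ : Xg c χ) {δ : ℝ} (hδ : 0 < δ) :
    SS (fun α => ee psi α * χ α) δ =
      Ω / (((3 : eis) : ℂ) * c) * (ee psi c * χ 3) * (∑ x : eis ⧸ (sp c : Ideal eis), χ x.out * ((1 / 2) *
        ∑ y : eis ⧸ (sp 3 : Ideal eis), ee psi y.out *
          (EE eis Ω (δ * Complex.normSq ((3 * c : eis) : ℂ) / Complex.normSq Ω)
            (Ω * y.out / ((3 : eis) : ℂ) + Ω * x.out / c) +
          EE eis Ω (δ * Complex.normSq ((3 * c : eis) : ℂ) / Complex.normSq Ω)
            (Ω * y.out / ((3 : eis) : ℂ) - Ω * x.out / c) -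
            2 * EE eis Ω (δ * Complex.normSq ((3 * c : eis) : ℂ) / Complex.normSq Ω)
              (Ω * y.out / ((3 : eis) : ℂ)))) +
        (∑ x : eis ⧸ (sp c : Ideal eis), χ x.out) *
          WW Ω (δ * Complex.normSq ((3 * c : eis) : ℂ) / Complex.normSq Ω)) := by
  have hf0 := coe_ne three_ne
  have hc0 := coe_ne hc
  have hfc0 : (3 : eis) * c ≠ 0 := mul_ne_zero three_ne hc
  have hΩ := hL.ne
  set δ' : ℝ := δ * Complex.normSq ((3 * c : eis) : ℂ) / Complex.normSq Ω with hδ'
  have he := eo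
  have hfin3c : Finite (eis ⧸ (sp (3 * c) : Ideal eis)) := finite_q hfc0
  have : Fintype (eis ⧸ (sp (3 * c) : Ideal eis)) := Fintype.ofFinite _
  have hb : ∀ α : eis, ‖ee psi α * χ α‖ ≤ 1 := fun α => by
    rw [norm_mul]
    exact mul_le_one₀ (he.bd α) (norm_nonneg _) (hχ.bd α)
  have hperf : ∀ x y : eis, x - y ∈ (sp (3 * c) : Ideal eis) → ee psi x = ee psi y := fun x y h =>
    he.per x y (by
      rw [Ideal.mem_span_singleton'] at h ⊢
      obtain ⟨b, hb⟩ := h
      exact ⟨b * c, by linear_combination hb⟩)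
  have hperc : ∀ x y : eis, x - y ∈ (sp (3 * c) : Ideal eis) → χ x = χ y := fun x y h =>
    hχ.per x y (by
      rw [Ideal.mem_span_singleton'] at h ⊢
      obtain ⟨b, hb⟩ := h
      exact ⟨b * 3, by linear_combination hb⟩)
  have hs : Summable (fun α : eis => (ee psi α * χ α) * fd δ (α : ℂ)) := summ_e hL hb hδ
  have h1 := sum_EEA hL (3 * c) hfc0 (fun α => ee psi α * χ α)
    (fun x y h => by rw [hperf x y h, hperc x y h]) hs
  unfold SS
  rw [h1, sum_rep _ (bij_crt hfc) (fun r : eis => ee psi r * χ r *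
    EE eis Ω (δ * Complex.normSq ((3 * c : eis) : ℂ) / Complex.normSq Ω)
      (Ω * r / ((3 * c : eis) : ℂ)))]
  · rw [Fintype.sum_prod_type]
    have e1 : ∀ x : eis ⧸ (sp c : Ideal eis), ∀ y : eis ⧸ (sp 3 : Ideal eis),
        ee psi (x.out * 3 + y.out * c) * χ (x.out * 3 + y.out * c) *
          EE eis Ω (δ * Complex.normSq ((3 * c : eis) : ℂ) / Complex.normSq Ω)
            (Ω * ((x.out * 3 + y.out * c : eis) : ℂ) / ((3 * c : eis) : ℂ)) =
        (ee psi c * χ 3) * (χ x.out * (ee psi y.out *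
          EE eis Ω δ' (Ω * y.out / ((3 : eis) : ℂ) + Ω * x.out / c))) := by
      intro x y
      have a1 : ee psi (x.out * 3 + y.out * c) = ee psi y.out * ee psi c := by
        rw [← he.mul]
        refine he.per _ _ ?_
        rw [add_sub_cancel_right, Ideal.mem_span_singleton']
        exact ⟨x.out, rfl⟩
      have a2 : χ (x.out * 3 + y.out * c) = χ x.out * χ 3 := by
        rw [← hχ.mul]
        refine hχ.per _ _ ?_
        rw [add_sub_cancel_left, Ideal.mem_span_singleton']
        exact ⟨y.out, rfl⟩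
      have a3 : Ω * ((x.out * 3 + y.out * c : eis) : ℂ) / ((3 * c : eis) : ℂ) =
          Ω * y.out / ((3 : eis) : ℂ) + Ω * x.out / c := by
        push_cast
        field_simp
        ring
      rw [a1, a2, a3]
      ring
    simp only [e1]
    simp only [← Finset.mul_sum]
    have e2 : ∀ x : eis ⧸ (sp c : Ideal eis), ∑ y : eis ⧸ (sp 3 : Ideal eis), ee psi y.out *
        EE eis Ω δ' (Ω * y.out / ((3 : eis) : ℂ) + Ω * x.out / c) = _ :=
      fun x => inner_eq hL three_ne he δ' (Ω * x.out / c)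
    simp only [e2, mul_add, Finset.sum_add_distrib]
    rw [← Finset.sum_mul]
    unfold WW
    push_cast
    ring
  · intro x y hxy
    rw [hperf x y hxy, hperc x y hxy]
    congr 1
    apply EE_per hL
    have := (div_mem_iff hL hfc0 (x - y)).2 hxy
    convert this using 1
    push_cast
    ring

lemma SS_psi (hL : IsLat L eis Ω) [Fintype (eis ⧸ (sp 3 : Ideal eis))] {δ : ℝ} (hδ : 0 < δ) :
    SS (ee psi) δ = Ω / ((3 : eis) : ℂ) *
      WW Ω (δ * Complex.normSq ((3 : eis) : ℂ) / Complex.normSq Ω) := by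
  have hs : Summable (fun α : eis => ee psi α * fd δ (α : ℂ)) := summ_e hL eo.bd hδ
  exact sum_EEA hL 3 three_ne (ee psi) eo.per hs

lemma tend_scale {a : ℝ} (ha : 0 < a) : Tendsto (fun δ : ℝ => δ * a) (𝓝[>] 0) (𝓝[>] 0) := by
  rw [tendsto_nhdsWithin_iff]
  constructor
  · have h7 : Continuous (fun δ : ℝ => δ * a) := by fun_prop
    have h8 := (h7.tendsto 0).mono_left (nhdsWithin_le_nhds (s := Set.Ioi 0))
    simpa using h8
  · filter_upwards [self_mem_nhdsWithin] with δ (hδ : 0 < δ)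
    show 0 < δ * a
    positivity

/-- the sum `WW` has a limit -/
lemma WW_lim (hL : IsLat L eis Ω) [Fintype (eis ⧸ (sp 3 : Ideal eis))] :
    ∃ w : ℂ, Tendsto (WW Ω) (𝓝[>] 0) (𝓝 w) := by
  have hΩ := hL.ne
  -- use the trivial character modulo one
  have hη : ∀ u : eis, IsUnit u → et (1 : MulChar (eis ⧸ (sp (1 : eis) : Ideal eis)) ℂ) u = 1 := by
    intro u _
    unfold et
    have h1 : IsUnit (Ideal.Quotient.mk (sp (1 : eis)) u) := by
      rw [unit_iff]
      exact isCoprime_one_right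
    rw [MulChar.one_apply h1]
  obtain ⟨F, -, -, hF⟩ := hecke (c := 1) (η := 1) one_ne_zero isCoprime_one_left hη
  have h1 := hF L Ω hL
  have e1 : ec (1 : MulChar (eis ⧸ (sp (1 : eis) : Ideal eis)) ℂ) = ee psi := by
    funext α
    unfold ec et
    have h1 : IsUnit (Ideal.Quotient.mk (sp (1 : eis)) α) := by
      rw [unit_iff]
      exact isCoprime_one_right
    rw [MulChar.one_apply h1, map_one, mul_one]
  rw [e1] at h1
  have h3 : (0 : ℝ) < Complex.normSq ((3 : eis) : ℂ) := Complex.normSq_pos.2 (coe_ne three_ne)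
  have h4 : 0 < Complex.normSq Ω := Complex.normSq_pos.2 hΩ
  refine ⟨((3 : eis) : ℂ) / Ω * ((nu eis : ℂ) * (starRingEnd ℂ) (F 1)), ?_⟩
  have h5 := (h1.comp (tend_scale (a := Complex.normSq Ω / Complex.normSq ((3 : eis) : ℂ))
    (by positivity))).const_mul (((3 : eis) : ℂ) / Ω)
  refine h5.congr' ?_
  filter_upwards [self_mem_nhdsWithin] with δ (hδ : 0 < δ)
  have h6 := SS_psi hL (δ := δ * (Complex.normSq Ω / Complex.normSq ((3 : eis) : ℂ)))
    (by positivity)
  simp only [Function.comp_apply]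
  rw [h6]
  have h7 := coe_ne three_ne
  have e2 : δ * (Complex.normSq Ω / Complex.normSq ((3 : eis) : ℂ)) *
      Complex.normSq ((3 : eis) : ℂ) / Complex.normSq Ω = δ := by
    field_simp
  rw [e2]
  field_simp

end Pool.Agent.Y696
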