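import Mathlib
import Pool.Agent.Y696.Sum

/-!
# The limits of the regularized sums
-/

set_option autoImplicit false

open Complex Filter Topology
open scoped PeriodPair

namespace Pool.Agent.Y696

open H667R3 Pool.Agent.W192.HK Pool.Agent.TH936.CM Pool.Agent.TH936.PU
open Pool.Agent.W192.CM (nu)

variable {L : PeriodPair} {Ω : ℂ}

/-- the limit of the regularized sum -/
theorem lim_gen (hL : IsLat L eis Ω) {c : eis} (hc : c ≠ 0) (hfc : IsCoprime 3 c)
    [Fintype (eis ⧸ (sp 3 : Ideal eis))] [Fintype (eis ⧸ (sp c : Ideal eis))] {χ : eis → ℂ}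
    (hχ : Xg c χ) (hχ0 : ∀ x ∈ (sp c : Ideal eis), χ x = 0) {w : ℂ}
    (hw : Tendsto (WW Ω) (𝓝[>] 0) (𝓝 w)) :
    Tendsto (SS (fun α => ee psi α * χ α)) (𝓝[>] 0)
      (𝓝 (Ω / (((3 : eis) : ℂ) * c) * (ee psi c * χ 3) *
        (∑ x : eis ⧸ (sp c : Ideal eis), χ x.out * HH L Ω 3 (ee psi) (Ω * x.out / c) +
        (∑ x : eis ⧸ (sp c : Ideal eis), χ x.out) * w))) := by
  have hΩ := hL.ne
  have hfc0 : (3 : eis) * c ≠ 0 := mul_ne_zero three_ne hc
  have hΩn : 0 < Complex.normSq Ω := Complex.normSq_pos.2 hΩ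
  have hqn : 0 < Complex.normSq ((3 * c : eis) : ℂ) := Complex.normSq_pos.2 (coe_ne hfc0)
  have hδt := tend_scale (a := Complex.normSq ((3 * c : eis) : ℂ) / Complex.normSq Ω)
    (by positivity)
  have e0 : ∀ δ : ℝ, δ * (Complex.normSq ((3 * c : eis) : ℂ) / Complex.normSq Ω) =
      δ * Complex.normSq ((3 * c : eis) : ℂ) / Complex.normSq Ω := fun δ => by ring
  simp only [e0] at hδt
  refine Tendsto.congr' (f₁ := fun δ => Ω / (((3 : eis) : ℂ) * c) * (ee psi c * χ 3) *
    (∑ x : eis ⧸ (sp c : Ideal eis), χ x.out * ((1 / 2) *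
        ∑ y : eis ⧸ (sp 3 : Ideal eis), ee psi y.out *
          (EE eis Ω (δ * Complex.normSq ((3 * c : eis) : ℂ) / Complex.normSq Ω)
            (Ω * y.out / ((3 : eis) : ℂ) + Ω * x.out / c) +
          EE eis Ω (δ * Complex.normSq ((3 * c : eis) : ℂ) / Complex.normSq Ω)
            (Ω * y.out / ((3 : eis) : ℂ) - Ω * x.out / c) -
            2 * EE eis Ω (δ * Complex.normSq ((3 * c : eis) : ℂ) / Complex.normSq Ω)
              (Ω * y.out / ((3 : eis) : ℂ)))) +
        (∑ x : eis ⧸ (sp c : Ideal eis), χ x.out) *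
          WW Ω (δ * Complex.normSq ((3 * c : eis) : ℂ) / Complex.normSq Ω))) ?_ ?_
  · filter_upwards [self_mem_nhdsWithin] with δ (hδ : 0 < δ)
    exact (key_SS hL hc hfc hχ hδ).symm
  refine Tendsto.const_mul _ (Tendsto.add (tendsto_finsetSum _ fun x _ => ?_)
    (Tendsto.const_mul _ (hw.comp hδt)))
  by_cases hx : x.out ∈ (sp c : Ideal eis)
  · simp only [hχ0 _ hx, zero_mul]
    exact tendsto_const_nhds
  · refine Tendsto.const_mul _ ?_
    unfold HH
    refine Tendsto.const_mul _ (tendsto_finsetSum _ fun y _ => ?_)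
    by_cases hy : y.out ∈ (sp 3 : Ideal eis)
    · simp only [eo.zero hy, zero_mul]
      exact tendsto_const_nhds
    · refine Tendsto.const_mul _ ?_
      have hw' : Ω * y.out / ((3 : eis) : ℂ) ∉ L.lattice := by rwa [div_mem_iff hL three_ne]
      have hu : Ω * x.out / c ∉ L.lattice := by rwa [div_mem_iff hL hc]
      have hcop : ∀ r : eis, y.out * c + r * 3 ∉ (sp (3 * c) : Ideal eis) := by
        intro r h
        obtain ⟨a, b, hab⟩ := hfc
        rw [Ideal.mem_span_singleton'] at h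
        obtain ⟨t, ht⟩ := h
        apply hy
        rw [Ideal.mem_span_singleton']
        exact ⟨a * y.out + b * (t * c - r), by linear_combination b * ht + y.out * hab⟩
      have hf0 := coe_ne three_ne
      have hc0 := coe_ne hc
      have h1 : Ω * y.out / ((3 : eis) : ℂ) + Ω * x.out / c ∉ L.lattice := by
        have h3 := hcop x.out
        rw [← div_mem_iff hL hfc0] at h3
        convert h3 using 2
        push_cast
        field_simp
      have h2 : Ω * y.out / ((3 : eis) : ℂ) - Ω * x.out / c ∉ L.lattice := by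
        have h3 := hcop (-x.out)
        rw [← div_mem_iff hL hfc0] at h3
        convert h3 using 2
        push_cast
        field_simp
        ring
      exact (lim_Dd hL hw' hu h1 h2).comp hδt

lemma psi_lim (hL : IsLat L eis Ω) [Fintype (eis ⧸ (sp 3 : Ideal eis))] {w : ℂ}
    (hw : Tendsto (WW Ω) (𝓝[>] 0) (𝓝 w)) :
    Tendsto (SS (ee psi)) (𝓝[>] 0) (𝓝 (Ω / ((3 : eis) : ℂ) * w)) := by
  have h3 : (0 : ℝ) < Complex.normSq ((3 : eis) : ℂ) := Complex.normSq_pos.2 (coe_ne three_ne)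
  have h4 : 0 < Complex.normSq Ω := Complex.normSq_pos.2 hL.ne
  have h5 := (hw.comp (tend_scale (a := Complex.normSq ((3 : eis) : ℂ) / Complex.normSq Ω)
    (by positivity))).const_mul (Ω / ((3 : eis) : ℂ))
  refine h5.congr' ?_
  filter_upwards [self_mem_nhdsWithin] with δ (hδ : 0 < δ)
  rw [SS_psi hL hδ]
  simp only [Function.comp_apply]
  congr 2
  ring

lemma coef_inj {x y a b : ℤ} (h : (x : ℂ) + y * om = a + b * om) : x = a ∧ y = b := by
  have h1 := congrArg Complex.im h
  simp at h1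
  have h2 : y = b := by
    rcases h1 with h1 | h1
    · exact h1
    · exact absurd h1 om_im.ne'
  subst h2
  have h3 : (x : ℂ) = a := add_right_cancel h
  exact ⟨by exact_mod_cast h3, rfl⟩

lemma mem_two (x y : ℤ) : (x : eis) + y * omr ∈ (sp 2 : Ideal eis) ↔ 2 ∣ x ∧ 2 ∣ y := by
  rw [Ideal.mem_span_singleton']
  constructor
  · rintro ⟨t, ht⟩
    obtain ⟨a, b, hab⟩ := eis_rep t
    rw [hab] at ht
    have h1 : ((2 * a : ℤ) : eis) + ((2 * b : ℤ) : eis) * omr = (x : eis) + y * omr := by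
      rw [← ht]; push_cast; ring
    have h2 := congrArg (fun t : eis => (t : ℂ)) h1
    obtain ⟨h3, h4⟩ := coef_inj (x := 2 * a) (y := 2 * b) (a := x) (b := y) (by
      push_cast at h2 ⊢
      exact h2)
    exact ⟨⟨a, h3.symm⟩, ⟨b, h4.symm⟩⟩
  · rintro ⟨⟨a, rfl⟩, ⟨b, rfl⟩⟩
    exact ⟨a + b * omr, by push_cast; ring⟩

lemma two_prime {a b : eis} (h : a * b ∈ (sp 2 : Ideal eis)) :
    a ∈ (sp 2 : Ideal eis) ∨ b ∈ (sp 2 : Ideal eis) := by
  obtain ⟨x, y, ha⟩ := eis_rep a
  obtain ⟨z, w, hb⟩ := eis_rep b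
  have e : a * b = ((x * z - y * w : ℤ) : eis) + ((x * w + y * z - y * w : ℤ) : eis) * omr := by
    rw [ha, hb]
    push_cast
    linear_combination (y * w : eis) * omr_sq
  rw [e, mem_two] at h
  rw [ha, hb, mem_two, mem_two]
  have hz : ∀ n : ℤ, 2 ∣ n ↔ (n : ZMod 2) = 0 := fun n => (ZMod.intCast_zmod_eq_zero_iff_dvd n 2).symm
  rw [hz, hz] at h
  rw [hz, hz, hz, hz]
  push_cast at h
  generalize (x : ZMod 2) = x at *
  generalize (y : ZMod 2) = y at *
  generalize (z : ZMod 2) = z at *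
  generalize (w : ZMod 2) = w at *
  revert x y z w
  decide

lemma two_ne : (2 : eis) ≠ 0 := by
  intro h
  have := congrArg (fun t : eis => (t : ℂ)) h
  push_cast at this
  norm_num at this

lemma card_quot {c : eis} [Fintype (eis ⧸ (sp c : Ideal eis))] :
    (Fintype.card (eis ⧸ (sp c : Ideal eis)) : ℝ) = Complex.normSq (c : ℂ) := by
  rw [← nm_sp]
  unfold nm
  rw [Nat.card_eq_fintype_card]

lemma card_two [Fintype (eis ⧸ (sp 2 : Ideal eis))] :
    Fintype.card (eis ⧸ (sp 2 : Ideal eis)) = 4 := by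
  have h := card_quot (c := 2)
  have h2 : Complex.normSq ((2 : eis) : ℂ) = 4 := by
    have : ((2 : eis) : ℂ) = 2 := rfl
    rw [this]
    norm_num [Complex.normSq_apply]
  rw [h2] at h
  exact_mod_cast h

/-- the value of the limit of `WW` -/
theorem Cur.w_val (hC : Cur L Ω) [Fintype (eis ⧸ (sp 3 : Ideal eis))] {w : ℂ}
    (hw : Tendsto (WW Ω) (𝓝[>] 0) (𝓝 w)) : w = 2 * ℘'[L] (Ω / 3) * ℘[L] (Ω / 3) ^ 2 := by
  classical
  have hL := hC.lat
  have hΩ := hL.ne
  have : Finite (eis ⧸ (sp 2 : Ideal eis)) := finite_q two_ne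
  have : Fintype (eis ⧸ (sp 2 : Ideal eis)) := Fintype.ofFinite _
  set χ : eis → ℂ := fun α => if α ∈ (sp 2 : Ideal eis) then 0 else 1 with hχd
  have hχ : Xg 2 χ := by
    refine ⟨fun x y hxy => ?_, fun x y => ?_, fun x => ?_⟩
    · have : x ∈ (sp 2 : Ideal eis) ↔ y ∈ (sp 2 : Ideal eis) := by
        constructor
        · intro h
          have := (sp 2 : Ideal eis).sub_mem h hxy
          rwa [sub_sub_cancel] at this
        · intro h
          have := (sp 2 : Ideal eis).add_mem hxy h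
          rwa [sub_add_cancel] at this
      simp only [hχd, this]
    · simp only [hχd]
      by_cases hx : x ∈ (sp 2 : Ideal eis)
      · rw [if_pos hx, if_pos ((sp 2 : Ideal eis).mul_mem_right y hx), zero_mul]
      · by_cases hy : y ∈ (sp 2 : Ideal eis)
        · rw [if_pos hy, if_pos ((sp 2 : Ideal eis).mul_mem_left x hy), mul_zero]
        · rw [if_neg hx, if_neg hy, if_neg, one_mul]
          intro h
          rcases two_prime h with h | h
          · exact hx h
          · exact hy h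
    · simp only [hχd]
      split_ifs <;> simp
  have hcop : IsCoprime (3 : eis) 2 := ⟨1, -1, by norm_num⟩
  have h1 := lim_gen hL two_ne hcop hχ (fun x hx => by simp only [hχd]; rw [if_pos hx]) hw
  have hcm : CM (ee psi) := ⟨eo.mul, eo.bd⟩
  have h2 := lim_rm hL hcm two_ne (psi_lim hL hw)
  have e1 : (fun α : eis => ee psi α * χ α) =
      fun α => if α ∈ (sp 2 : Ideal eis) then 0 else ee psi α := by
    funext α
    simp only [hχd]
    split_ifs <;> simp
  rw [e1] at h1
  have h3 := tendsto_nhds_unique h1 h2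
  have e2 : ee psi 2 = -1 := by
    have h4 : ee psi 2 = ee psi (-1) := eo.per _ _ (by
      rw [Ideal.mem_span_singleton']
      exact ⟨1, by norm_num⟩)
    rw [h4, ee_u isUnit_one.neg]
    push_cast
    rfl
  have e3 : χ 3 = 1 := by
    simp only [hχd]
    rw [if_neg]
    intro h
    have h4 : (1 : eis) ∈ (sp 2 : Ideal eis) := by
      have h5 := (sp 2 : Ideal eis).sub_mem h (Ideal.mem_span_singleton_self (2 : eis))
      norm_num at h5
      exact h5
    have h5 := (mem_two 1 0).1 (by push_cast; simpa using h4)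
    omega
  have hX : ∀ x : eis, x ∉ (sp 2 : Ideal eis) →
      HH L Ω 3 (ee psi) (Ω * x / ((2 : eis) : ℂ)) = -4 * ℘'[L] (Ω / 3) * ℘[L] (Ω / 3) ^ 2 := by
    intro x hx
    have h4 : Ω * x / ((2 : eis) : ℂ) ∉ L.lattice := by rwa [hC.div_iff two_ne]
    have h5 : 2 * (Ω * x / ((2 : eis) : ℂ)) ∈ L.lattice := by
      have e : 2 * (Ω * x / ((2 : eis) : ℂ)) = Ω * x := by
        have : ((2 : eis) : ℂ) = 2 := rfl
        rw [this]
        ring
      rw [e]
      exact hL.mem_mul x
    have h6 := (two_mem_iff h4).1 h5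
    have h7 := hC.ode h4
    rw [h6] at h7
    have h8 : ℘[L] (Ω * x / ((2 : eis) : ℂ)) ^ 3 = -1 / 4 := by linear_combination (-1 / 4 : ℂ) * h7
    rw [hC.hh (by rw [h8]; norm_num), h8]
    ring
  have hs1 : ∑ x : eis ⧸ (sp 2 : Ideal eis), χ x.out = 3 := by
    have h4 : ∀ x : eis ⧸ (sp 2 : Ideal eis), χ x.out = 1 - if x = 0 then 1 else 0 := by
      intro x
      simp only [hχd]
      have h5 : x.out ∈ (sp 2 : Ideal eis) ↔ x = 0 := by
        rw [← Ideal.Quotient.eq_zero_iff_mem, Ideal.Quotient.mk_out]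
      by_cases h6 : x = 0
      · rw [if_pos (h5.2 h6), if_pos h6, sub_self]
      · rw [if_neg (fun h => h6 (h5.1 h)), if_neg h6, sub_zero]
    simp only [h4]
    rw [Finset.sum_sub_distrib, Finset.sum_ite_eq']
    simp only [Finset.sum_const, Finset.card_univ, Finset.mem_univ, if_true, card_two]
    norm_num
  have hs2 : ∑ x : eis ⧸ (sp 2 : Ideal eis), χ x.out *
      HH L Ω 3 (ee psi) (Ω * x.out / ((2 : eis) : ℂ)) =
      (∑ x : eis ⧸ (sp 2 : Ideal eis), χ x.out) * (-4 * ℘'[L] (Ω / 3) * ℘[L] (Ω / 3) ^ 2) := by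
    rw [Finset.sum_mul]
    refine Finset.sum_congr rfl fun x _ => ?_
    by_cases hx : x.out ∈ (sp 2 : Ideal eis)
    · simp only [hχd]
      rw [if_pos hx, zero_mul, zero_mul]
    · rw [hX _ hx]
  rw [hs2, hs1, e2, e3] at h3
  have c2 : ((2 : eis) : ℂ) = 2 := rfl
  have c3 : ((3 : eis) : ℂ) = 3 := rfl
  rw [c2, c3] at h3
  field_simp at h3
  linear_combination (-1 / 6 : ℂ) * h3

end Pool.Agent.Y696
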