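import Mathlib
import Pool.Agent.Y696.Sum2

/-!
# Integrality at the primes above two
-/

set_option autoImplicit false

open Complex Filter Topology
open scoped PeriodPair

namespace Pool.Agent.Y696

open H667R3 Pool.Agent.W192.HK Pool.Agent.TH936.CM Pool.Agent.TH936.PU
open Pool.Agent.W192.CM (nu)

variable {L : PeriodPair} {Ω : ℂ} {Γ : Type*} [LinearOrderedCommGroupWithZero Γ]
  {v : Valuation ℂ Γ}

lemma v_one_of_pow {x : ℂ} {n : ℕ} (hn : n ≠ 0) (h : v (x ^ n) = 1) : v x = 1 := by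
  rw [map_pow] at h
  refine le_antisymm ?_ ?_
  · by_contra hlt
    rw [not_le] at hlt
    exact absurd h (one_lt_pow₀ hlt hn).ne'
  · by_contra hlt
    rw [not_le] at hlt
    exact absurd h (pow_lt_one₀ zero_le hlt hn).ne

lemma v_om : v om = 1 := v_one_of_pow (n := 3) (by norm_num) (by rw [om_cube, map_one])

lemma v_eis (r : eis) : v (r : ℂ) ≤ 1 := by
  obtain ⟨x, y, h⟩ := r.2
  rw [h]
  refine v_add_le (v_int x) ?_
  rw [map_mul, v_om, mul_one]
  exact v_int y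

lemma v_cop (hv : v 2 < 1) {r : eis} (h : IsCoprime r 2) : v (r : ℂ) = 1 := by
  obtain ⟨a, b, hab⟩ := h
  refine le_antisymm (v_eis r) ?_
  by_contra hlt
  rw [not_le] at hlt
  have h1 : (a : ℂ) * r + b * 2 = 1 := by
    have := congrArg (fun t : eis => (t : ℂ)) hab
    push_cast at this
    exact this
  have h2 : v ((a : ℂ) * r + b * 2) < 1 := v_add_lt (v_mul_lt (v_eis a) hlt) (v_mul_lt (v_eis b) hv)
  rw [h1, map_one] at h2
  exact lt_irrefl _ h2

lemma v_three (hv : v 2 < 1) : v 3 = 1 := by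
  have h : IsCoprime (3 : eis) 2 := ⟨1, -1, by norm_num⟩
  exact v_cop hv h

/-- doubling increases large values -/
lemma v_double (hC : Cur L Ω) (hv : v 2 < 1) {z : ℂ} (hz : 2 * z ∉ L.lattice)
    (h : 1 < v (℘[L] z)) : v (℘[L] z) < v (℘[L] (2 * z)) := by
  have hd := hC.dup hz
  set x := ℘[L] z with hx
  set X := ℘[L] (2 * z) with hX
  have hx0 : v x ≠ 0 := (zero_lt_one.trans h).ne'
  have h4 : v 4 < 1 := by
    have : (4 : ℂ) = 2 * 2 := by norm_num
    rw [this]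
    exact v_mul_lt hv.le hv
  -- the numerator
  have h1 : v (x ^ 4 - 2 * x) = v x ^ 4 := by
    rw [Valuation.map_sub_eq_of_lt_left, map_pow]
    rw [map_mul, map_pow]
    calc v 2 * v x < 1 * v x := by
          exact mul_lt_mul_of_pos_right hv (zero_lt_iff.2 hx0)
      _ = v x ^ 1 := by rw [one_mul, pow_one]
      _ ≤ v x ^ 4 := pow_le_pow_right₀ h.le (by norm_num)
  -- the denominator
  have h2 : v (4 * x ^ 3 + 1) < v x ^ 3 := by
    refine v_add_lt ?_ ?_
    · rw [map_mul, map_pow]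
      calc v 4 * v x ^ 3 < 1 * v x ^ 3 :=
            mul_lt_mul_of_pos_right h4 (pow_pos (zero_lt_iff.2 hx0) 3)
        _ = v x ^ 3 := one_mul _
    · rw [map_one]
      exact one_lt_pow₀ h (by norm_num)
  have h3 := congrArg v hd
  rw [map_mul, h1] at h3
  by_contra hle
  rw [not_lt] at hle
  have h5 : v X * v (4 * x ^ 3 + 1) < v x * v x ^ 3 := by
    rcases eq_or_ne (v X) 0 with h6 | h6
    · rw [h6, zero_mul]
      exact mul_pos (zero_lt_iff.2 hx0) (pow_pos (zero_lt_iff.2 hx0) 3)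
    · calc v X * v (4 * x ^ 3 + 1) < v X * v x ^ 3 :=
            mul_lt_mul_of_pos_left h2 (zero_lt_iff.2 h6)
        _ ≤ v x * v x ^ 3 := mul_le_mul' hle le_rfl
  rw [h3] at h5
  have h6 : v x * v x ^ 3 = v x ^ 4 := by rw [← pow_succ']
  rw [h6] at h5
  exact lt_irrefl _ h5

/-- points of order prime to two are integral -/
theorem v_int_pt (hC : Cur L Ω) (hv : v 2 < 1) {a b : eis} (hb : b ≠ 0) (hb2 : IsCoprime b 2)
    (ha : a ∉ (sp b : Ideal eis)) : v (℘[L] (Ω * a / b)) ≤ 1 := by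
  by_contra hlt
  rw [not_le] at hlt
  have hfin := finite_q hb
  -- multiples by powers of two
  have hmul : ∀ n : ℕ, (2 : eis) ^ n * a ∉ (sp b : Ideal eis) := by
    intro n hn
    apply ha
    have hcop : IsCoprime (2 ^ n : eis) b := (hb2.symm).pow_left
    obtain ⟨s, t, hst⟩ := hcop
    rw [Ideal.mem_span_singleton'] at hn ⊢
    obtain ⟨r, hr⟩ := hn
    exact ⟨s * r + t * a, by linear_combination s * hr + a * hst⟩
  have hz : ∀ n : ℕ, (2 : ℂ) ^ n * (Ω * a / b) ∉ L.lattice := by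
    intro n h
    apply hmul n
    rw [← hC.div_iff hb]
    convert h using 1
    push_cast
    have : ((2 : eis) : ℂ) = 2 := rfl
    rw [this]
    ring
  have hinc : ∀ n : ℕ, v (℘[L] (Ω * a / b)) < v (℘[L] ((2 : ℂ) ^ (n + 1) * (Ω * a / b))) := by
    intro n
    induction n with
    | zero =>
      have h1 := v_double hC hv (z := Ω * a / b) (by simpa using hz 1) hlt
      simpa using h1
    | succ n ih =>
      have h1 := v_double hC hv (z := (2 : ℂ) ^ (n + 1) * (Ω * a / b)) (by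
        have := hz (n + 2)
        rw [← mul_assoc, ← pow_succ']
        exact this) (hlt.trans ih)
      rw [← mul_assoc, ← pow_succ'] at h1
      exact ih.trans h1
  -- periodicity
  obtain ⟨u, hu⟩ := (unit_iff (c := b) 2).2 hb2.symm
  have h1 : u ^ Nat.card (eis ⧸ (sp b : Ideal eis))ˣ = 1 := pow_card_eq_one'
  obtain ⟨n, hn⟩ : ∃ n, Nat.card (eis ⧸ (sp b : Ideal eis))ˣ = n + 1 :=
    ⟨_, (Nat.succ_pred_eq_of_pos Nat.card_pos).symm⟩
  rw [hn] at h1
  have h2 : (2 : eis) ^ (n + 1) - 1 ∈ (sp b : Ideal eis) := by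
    rw [← Ideal.Quotient.mk_eq_mk_iff_sub_mem, map_pow, ← hu, ← Units.val_pow_eq_pow_val, h1]
    simp
  have h3 : ℘[L] ((2 : ℂ) ^ (n + 1) * (Ω * a / b)) = ℘[L] (Ω * a / b) := by
    apply wp_per
    have h4 : ((2 : eis) ^ (n + 1) - 1) * a ∈ (sp b : Ideal eis) := Ideal.mul_mem_right _ _ h2
    rw [← hC.div_iff hb] at h4
    convert h4 using 1
    push_cast
    have : ((2 : eis) : ℂ) = 2 := rfl
    rw [this]
    ring
  have h4 := hinc n
  rw [h3] at h4
  exact lt_irrefl _ h4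

lemma v_x0 (hC : Cur L Ω) : v (℘[L] (Ω / 3)) = 1 :=
  v_one_of_pow (n := 3) (by norm_num) (by rw [hC.x0, v.map_neg, map_one])

lemma v_y0 (hC : Cur L Ω) (hv : v 2 < 1) : v (℘'[L] (Ω / 3)) = 1 :=
  v_one_of_pow (n := 2) (by norm_num) (by rw [hC.y0, v.map_neg, v_three hv])

/-- the difference with the three-division points -/
lemma v_diff (hC : Cur L Ω) (hv : v 2 < 1) {a b : eis} (hb : b ≠ 0) (hb2 : IsCoprime b 2)
    (hb3 : IsCoprime b 3) (ha : a ∉ (sp b : Ideal eis)) {u : eis} (hu : IsUnit u) :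
    v (℘[L] (u * (Ω / 3)) - ℘[L] (Ω * a / b)) = 1 := by
  have h3b : (3 : eis) * b ≠ 0 := mul_ne_zero three_ne hb
  have hb0 := coe_ne hb
  have h30 : ((3 : eis) : ℂ) = 3 := rfl
  have hu3 : (u : ℂ) * (Ω / 3) ∉ L.lattice := by
    rw [lat_unit hC.lat hu]
    exact hC.third
  have hu32 : 2 * ((u : ℂ) * (Ω / 3)) ∉ L.lattice := by
    have e : 2 * ((u : ℂ) * (Ω / 3)) = u * (2 * (Ω / 3)) := by ring
    rw [e, lat_unit hC.lat hu]
    exact hC.third_two
  have hw : Ω * a / b ∉ L.lattice := by rwa [hC.div_iff hb]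
  have hc6 : IsCoprime ((3 : eis) * b) 2 := IsCoprime.mul_left ⟨1, -1, by norm_num⟩ hb2
  have hmem : ∀ r : eis, u * b + r * 3 ∉ (sp (3 * b) : Ideal eis) := by
    intro r h
    rw [Ideal.mem_span_singleton'] at h
    obtain ⟨t, ht⟩ := h
    obtain ⟨s, q, hsq⟩ := hb3
    have h1 : u ∈ (sp 3 : Ideal eis) := by
      rw [Ideal.mem_span_singleton']
      exact ⟨q * u + s * (t * b - r), by linear_combination s * ht + u * hsq⟩
    have h2 : IsCoprime (0 : eis) 3 := cop_of_unit hu (by rw [zero_sub]; exact neg_mem h1)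
    rw [isCoprime_zero_left, isUnit_iff'] at h2
    have : Complex.normSq ((3 : eis) : ℂ) = 9 := normSq_three
    rw [this] at h2
    norm_num at h2
  have e1 : (u : ℂ) * (Ω / 3) + Ω * a / b = Ω * ((u * b + a * 3 : eis) : ℂ) / ((3 * b : eis) : ℂ) := by
    push_cast
    rw [h30]
    field_simp
  have e2 : (u : ℂ) * (Ω / 3) - Ω * a / b =
      Ω * ((u * b + (-a) * 3 : eis) : ℂ) / ((3 * b : eis) : ℂ) := by
    push_cast
    rw [h30]
    field_simp
    ring
  have h1 : (u : ℂ) * (Ω / 3) + Ω * a / b ∉ L.lattice := by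
    rw [e1, hC.div_iff h3b]
    exact hmem a
  have h2 : (u : ℂ) * (Ω / 3) - Ω * a / b ∉ L.lattice := by
    rw [e2, hC.div_iff h3b]
    exact hmem (-a)
  have i1 : v (℘[L] ((u : ℂ) * (Ω / 3) + Ω * a / b)) ≤ 1 := by
    rw [e1]
    exact v_int_pt hC hv h3b hc6 (hmem a)
  have i2 : v (℘[L] ((u : ℂ) * (Ω / 3) - Ω * a / b)) ≤ 1 := by
    rw [e2]
    exact v_int_pt hC hv h3b hc6 (hmem (-a))
  have i3 : v (℘[L] (Ω * a / b)) ≤ 1 := v_int_pt hC hv hb hb2 ha
  have hx1 : ℘[L] ((u : ℂ) * (Ω / 3)) ^ 3 = -1 := by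
    rw [wp_unit hC.lat hu, mul_pow, hC.x0, ← inv_pow, ← pow_mul, inv_pow]
    have h6 : (u : ℂ) ^ (2 * 3) = 1 := by
      have := congrArg (fun t : eis => (t : ℂ)) (unit_six hu)
      push_cast at this
      exact this
    rw [h6]
    norm_num
  have vx1 : v (℘[L] ((u : ℂ) * (Ω / 3))) = 1 :=
    v_one_of_pow (n := 3) (by norm_num) (by rw [hx1, v.map_neg, map_one])
  have hp := wp_prod hu32 hw h1 h2
  rw [hC.g2, hC.g3] at hp
  set x1 := ℘[L] ((u : ℂ) * (Ω / 3)) with hx1d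
  set X := ℘[L] (Ω * a / b) with hXd
  refine le_antisymm (v_sub_le vx1.le i3) ?_
  by_contra hlt
  rw [not_le] at hlt
  -- the right side is a unit
  have e3 : (x1 * X + 0 / 4) ^ 2 + -1 * (x1 + X) = -3 * x1 -
      (x1 - X) * (x1 ^ 2 * (x1 + X) - 1) := by
    linear_combination x1 * hx1
  have h5 : v ((x1 * X + 0 / 4) ^ 2 + -1 * (x1 + X)) = 1 := by
    rw [e3, Valuation.map_sub_eq_of_lt_left]
    · rw [map_mul, vx1, v.map_neg, v_three hv, one_mul]
    · have h6 : v (-3 * x1) = 1 := by rw [map_mul, vx1, v.map_neg, v_three hv, one_mul]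
      rw [h6]
      refine v_mul_lt' hlt (v_sub_le (v_mul_le (v_pow_le vx1.le 2) (v_add_le vx1.le i3)) ?_)
      rw [map_one]
  have h6 : v ((x1 * X + 0 / 4) ^ 2 + -1 * (x1 + X)) < 1 := by
    rw [← hp]
    refine v_mul_lt (v_mul_le i1 i2) ?_
    rw [pow_two]
    exact v_mul_lt hlt.le hlt
  rw [h5] at h6
  exact lt_irrefl _ h6

/-- `1 + x³` is a unit -/
theorem v_unit_pt (hC : Cur L Ω) (hv : v 2 < 1) {a b : eis} (hb : b ≠ 0) (hb2 : IsCoprime b 2)
    (hb3 : IsCoprime b 3) (ha : a ∉ (sp b : Ideal eis)) :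
    v (1 + ℘[L] (Ω * a / b) ^ 3) = 1 := by
  have h1 := v_diff hC hv hb hb2 hb3 ha isUnit_one
  have h2 := v_diff hC hv hb hb2 hb3 ha omr_unit
  have h3 := v_diff hC hv hb hb2 hb3 ha (u := omr ^ 2) (omr_unit.pow 2)
  rw [wp_unit hC.lat isUnit_one] at h1
  rw [wp_unit hC.lat omr_unit] at h2
  rw [wp_unit hC.lat (omr_unit.pow 2)] at h3
  have hx := hC.x0
  set x := ℘[L] (Ω / 3)
  set X := ℘[L] (Ω * a / b)
  have hs := om_sq
  have h3' := om_cube
  have i1 : (om ^ 2)⁻¹ = om := by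
    have : om * om ^ 2 = 1 := by linear_combination h3'
    exact (eq_inv_of_mul_eq_one_left this).symm
  have i2 : ((om ^ 2) ^ 2)⁻¹ = om ^ 2 := by
    have : om ^ 2 * (om ^ 2) ^ 2 = 1 := by linear_combination (om ^ 3 + 1) * h3'
    exact (eq_inv_of_mul_eq_one_left this).symm
  push_cast at h1 h2 h3
  rw [omr_coe, i1] at h2
  rw [omr_coe, i2] at h3
  have e : 1 + X ^ 3 = -((((1 : ℂ) ^ 2)⁻¹ * x - X) * (om * x - X) * (om ^ 2 * x - X)) := by
    have e1 : ((1 : ℂ) ^ 2)⁻¹ * x = x := by simp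
    rw [e1]
    linear_combination (om ^ 3) * hx + (X ^ 2 * x - x ^ 2 * X * om) * hs - h3'
  rw [e, v.map_neg, map_mul, map_mul, h1, h2, h3]
  simp

lemma ne_of_v {x : ℂ} (h : v x = 1) : x ≠ 0 := by
  rintro rfl
  rw [map_zero] at h
  exact zero_ne_one h

/-- the values of `HH` are units -/
theorem v_HH (hC : Cur L Ω) (hv : v 2 < 1) [Fintype (eis ⧸ (sp 3 : Ideal eis))] {a b : eis}
    (hb : b ≠ 0) (hb2 : IsCoprime b 2) (hb3 : IsCoprime b 3) (ha : a ∉ (sp b : Ideal eis)) :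
    v (HH L Ω 3 (ee psi) (Ω * a / b)) = 1 := by
  have h := v_unit_pt hC hv hb hb2 hb3 ha
  rw [hC.hh (ne_of_v h), map_div₀, h, map_mul, map_mul, map_pow, v_x0 hC, v_y0 hC hv, v.map_neg,
    v_three hv]
  simp

end Pool.Agent.Y696
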