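import Mathlib
import Pool.Agent.Y696.Val1

/-!
# The values at one of the Hecke L-functions are units above two
-/

set_option autoImplicit false

open Complex Filter Topology IsDedekindDomain
open scoped PeriodPair

namespace Pool.Agent.Y696

open H667R3 Pool.Agent.W192.HK Pool.Agent.TH936.CM Pool.Agent.TH936.PU
open Pool.Agent.W192.CM (nu)

variable {L : PeriodPair} {Ω : ℂ} {Γ : Type*} [LinearOrderedCommGroupWithZero Γ]
  {v : Valuation ℂ Γ}

lemma nu_six : nu eis = 6 := by
  unfold nu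
  have h1 : Nat.card eisˣ = Nat.card {u : eis // IsUnit u} :=
    Nat.card_congr ⟨fun u => ⟨u, u.isUnit⟩, fun u => u.2.unit, fun u => by ext; simp,
      fun u => by ext; simp⟩
  rw [h1]
  have h2 : Nat.card {u : eis // IsUnit u} = Set.ncard {u : eis | IsUnit u} := rfl
  rw [h2]
  set f : ℤ × ℤ → eis := fun p => (p.1 : eis) + p.2 * omr with hf
  have hinj : Function.Injective f := by
    intro p q hpq
    have h3 := congrArg (fun t : eis => (t : ℂ)) hpq
    obtain ⟨h4, h5⟩ := coef_inj (x := p.1) (y := p.2) (a := q.1) (b := q.2) (by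
      simp only [hf] at h3
      push_cast at h3
      exact h3)
    exact Prod.ext h4 h5
  set S : Finset (ℤ × ℤ) := {(1, 0), (-1, 0), (0, 1), (0, -1), (-1, -1), (1, 1)} with hS
  have h3 : {u : eis | IsUnit u} = f '' (S : Set (ℤ × ℤ)) := by
    have e1 : f (1, 0) = 1 := by simp [hf]
    have e2 : f (-1, 0) = -1 := by simp [hf]
    have e3 : f (0, 1) = omr := by simp [hf]
    have e4 : f (0, -1) = -omr := by simp [hf]
    have e5 : f (-1, -1) = omr ^ 2 := by
      simp only [hf]
      push_cast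
      linear_combination (-1 : eis) * omr_sq
    have e6 : f (1, 1) = -omr ^ 2 := by
      simp only [hf]
      push_cast
      linear_combination omr_sq
    ext u
    rw [Set.mem_ofPred_eq, unit_list, hS]
    push_cast
    simp only [Set.image_insert_eq, Set.image_singleton, e1, e2, e3, e4, e5, e6]
  rw [h3, Set.ncard_image_of_injective _ hinj, Set.ncard_coe_finset]
  decide

lemma v_root_lt (hv : v 2 < 1) {x : ℂ} {k : ℕ} (hx : x ^ (2 ^ k) = 1) : v (x - 1) < 1 := by
  induction k generalizing x with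
  | zero =>
    rw [pow_zero, pow_one] at hx
    rw [hx, sub_self, map_zero]
    exact zero_lt_one
  | succ k ih =>
    have h1 : (x ^ 2) ^ (2 ^ k) = 1 := by rw [← pow_mul, ← pow_succ', hx]
    have h2 := ih h1
    have hx1 : v x ≤ 1 := (v_one_of_pow (n := 2 ^ (k + 1)) (by positivity) (by rw [hx, map_one])).le
    have e : (x - 1) ^ 2 = (x ^ 2 - 1) + 2 * (1 - x) := by ring
    have h3 : v ((x - 1) ^ 2) < 1 := by
      rw [e]
      refine v_add_lt h2 ?_
      rw [mul_comm]
      exact v_mul_lt (v_sub_le (by rw [map_one]) hx1) hv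
    exact lt_one_of_pow two_ne_zero h3

/-- pairing of the nonzero classes -/
lemma pair_sum {M : Type*} [Fintype M] [DecidableEq M] (τ : M → M) (hτ : ∀ x, τ (τ x) = x) :
    ∃ T : Finset M, ∀ F : M → ℂ, (∀ x, τ x = x → F x = 0) → (∀ x, F (τ x) = F x) →
      ∑ x, F x = 2 * ∑ x ∈ T, F x := by
  classical
  set e : M ≃ Fin (Fintype.card M) := Fintype.equivFin M
  refine ⟨Finset.univ.filter fun x => e x < e (τ x), fun F h0 h1 => ?_⟩
  have hs := Finset.sum_filter_add_sum_filter_not Finset.univ (fun x => e x < e (τ x)) F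
  have h2 : ∑ x ∈ Finset.univ.filter (fun x => ¬ e x < e (τ x)), F x =
      ∑ x ∈ Finset.univ.filter (fun x => e (τ x) < e x), F x := by
    symm
    refine Finset.sum_subset ?_ ?_
    · intro x hx
      rw [Finset.mem_filter] at hx ⊢
      exact ⟨hx.1, not_lt.2 hx.2.le⟩
    · intro x hx hx'
      rw [Finset.mem_filter] at hx hx'
      apply h0
      apply e.injective
      refine le_antisymm (not_lt.1 hx.2) ?_
      by_contra hlt
      exact hx' ⟨hx.1, not_le.1 hlt⟩
  have h3 : ∑ x ∈ Finset.univ.filter (fun x => e (τ x) < e x), F x =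
      ∑ x ∈ Finset.univ.filter (fun x => e x < e (τ x)), F x := by
    refine Finset.sum_bij' (fun x _ => τ x) (fun x _ => τ x) ?_ ?_ ?_ ?_ ?_
    · intro x hx
      rw [Finset.mem_filter] at hx ⊢
      refine ⟨Finset.mem_univ _, ?_⟩
      rw [hτ]
      exact hx.2
    · intro x hx
      rw [Finset.mem_filter] at hx ⊢
      refine ⟨Finset.mem_univ _, ?_⟩
      rw [hτ]
      exact hx.2
    · intro x _
      exact hτ x
    · intro x _
      exact hτ x
    · intro x _
      exact (h1 x).symm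
  rw [← hs, h2, h3]
  ring

/-- the even functions with small values -/
lemma v_pair {c : eis} (hc2 : IsCoprime c 2) [Fintype (eis ⧸ (sp c : Ideal eis))] :
    ∃ T : Finset (eis ⧸ (sp c : Ideal eis)), ∀ F : eis ⧸ (sp c : Ideal eis) → ℂ,
      F 0 = 0 → (∀ x, F (-x) = F x) → ∑ x, F x = 2 * ∑ x ∈ T, F x := by
  classical
  obtain ⟨T, hT⟩ := pair_sum (fun x : eis ⧸ (sp c : Ideal eis) => -x) (fun x => neg_neg x)
  have h3 : ∀ x : eis ⧸ (sp c : Ideal eis), -x = x → x = 0 := by
    intro x hx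
    have hu : IsUnit (Ideal.Quotient.mk (sp c : Ideal eis) 2) := (unit_iff 2).2 hc2.symm
    have h4 : Ideal.Quotient.mk (sp c : Ideal eis) 2 * x = 0 := by
      have : Ideal.Quotient.mk (sp c : Ideal eis) 2 = 2 := map_ofNat _ 2
      rw [this]
      linear_combination (-1 : eis ⧸ (sp c : Ideal eis)) * hx
    exact (hu.mul_right_eq_zero).1 h4
  exact ⟨T, fun F h0 h1 => hT F (fun x hx => by rw [h3 x hx, h0]) h1⟩

lemma v_two_ne : v 2 ≠ 0 := by
  rw [Ne, Valuation.zero_iff]
  norm_num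

lemma v_pair_lt {c : eis} (hc2 : IsCoprime c 2) [Fintype (eis ⧸ (sp c : Ideal eis))]
    (F : eis ⧸ (sp c : Ideal eis) → ℂ) (h0 : F 0 = 0) (h1 : ∀ x, F (-x) = F x)
    (h2 : ∀ x, v (F x) < 1) : v (∑ x, F x) < v 2 := by
  obtain ⟨T, hT⟩ := v_pair hc2
  rw [hT F h0 h1, map_mul]
  have h5 : v (∑ x ∈ T, F x) < 1 := v_sum_lt T fun x _ => h2 x
  calc v 2 * v (∑ x ∈ T, F x) < v 2 * 1 := mul_lt_mul_of_pos_left h5 (zero_lt_iff.2 v_two_ne)
    _ = v 2 := mul_one _

lemma v_pair_le {c : eis} (hc2 : IsCoprime c 2) [Fintype (eis ⧸ (sp c : Ideal eis))]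
    (F : eis ⧸ (sp c : Ideal eis) → ℂ) (h0 : F 0 = 0) (h1 : ∀ x, F (-x) = F x)
    (h2 : ∀ x, v (F x) ≤ 1) : v (∑ x, F x) ≤ v 2 := by
  obtain ⟨T, hT⟩ := v_pair hc2
  rw [hT F h0 h1, map_mul]
  have h5 : v (∑ x ∈ T, F x) ≤ 1 := v_sum_le T fun x _ => h2 x
  calc v 2 * v (∑ x ∈ T, F x) ≤ v 2 * 1 := mul_le_mul' le_rfl h5
    _ = v 2 := mul_one _

lemma v_unit {u : eis} (hu : IsUnit u) : v (u : ℂ) = 1 := by
  refine v_one_of_pow (n := 6) (by norm_num) ?_
  have := congrArg (fun t : eis => (t : ℂ)) (unit_six hu)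
  push_cast at this
  rw [this, map_one]

lemma v_ee {α : eis} (h : IsCoprime α 3) : v (ee psi α) = 1 := by
  obtain ⟨u, hu, h1⟩ := cop_three h
  rw [eo.per _ _ h1, ee_u hu]
  exact v_unit hu

/-- the values on the classes -/
noncomputable def hval (L : PeriodPair) (Ω : ℂ) [Fintype (eis ⧸ (sp 3 : Ideal eis))] {c : eis}
    (x : eis ⧸ (sp c : Ideal eis)) : ℂ := HH L Ω 3 (ee psi) (Ω * x.out / c)

lemma hx_v [Fintype (eis ⧸ (sp 3 : Ideal eis))] (hC : Cur L Ω) (hv : v 2 < 1) {c : eis}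
    (hc : c ≠ 0) (hc2 : IsCoprime c 2) (hc3 : IsCoprime c 3) {x : eis ⧸ (sp c : Ideal eis)}
    (hx0 : x ≠ 0) : v (hval L Ω x) = 1 :=
  v_HH hC hv hc hc2 hc3 (out_notMem hx0)

lemma hx_neg [Fintype (eis ⧸ (sp 3 : Ideal eis))] (hC : Cur L Ω) (hv : v 2 < 1) {c : eis}
    (hc : c ≠ 0) (hc2 : IsCoprime c 2) (hc3 : IsCoprime c 3) {x : eis ⧸ (sp c : Ideal eis)}
    (hx0 : x ≠ 0) : hval L Ω (-x) = hval L Ω x := by
  have h1 : -x ≠ 0 := neg_ne_zero.2 hx0
  have h2 := v_unit_pt hC hv hc hc2 hc3 (out_notMem hx0)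
  have h3 := v_unit_pt hC hv hc hc2 hc3 (out_notMem h1)
  unfold hval
  rw [hC.hh (ne_of_v h2), hC.hh (ne_of_v h3)]
  have h4 : ℘[L] (Ω * (-x).out / c) = ℘[L] (Ω * x.out / c) := by
    have h5 : ℘[L] (Ω * (-x).out / c) = ℘[L] (-(Ω * x.out / c)) := by
      apply wp_per
      have h6 : (-x).out + x.out ∈ (sp c : Ideal eis) := by
        rw [← Ideal.Quotient.eq_zero_iff_mem, map_add, Ideal.Quotient.mk_out, Ideal.Quotient.mk_out]
        exact neg_add_cancel x
      rw [← hC.div_iff hc] at h6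
      convert h6 using 1
      push_cast
      ring
    rw [h5]
    exact L.weierstrassP_neg _
  rw [h4]

/-- the value of the twisted sums -/
theorem hecke_unit (hC : Cur L Ω) (hv : v 2 < 1) {c : eis} (hc : c ≠ 0) (hc2 : IsCoprime c 2)
    (hc3 : IsCoprime c 3) {η : MulChar (eis ⧸ (sp c : Ideal eis)) ℂ} {k : ℕ}
    (hη : η ^ (2 ^ k) = 1) (hηu : ∀ u : eis, IsUnit u → et η u = 1) (hP : ∀ P ∈ Sc hc, v ((gP P : ℂ) - ee psi (gP P)) = 1) {l : ℂ}
    (hl : Tendsto (SS (ec η)) (𝓝[>] 0) (𝓝 l)) : v (l / Ω) = v 2 := by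
  classical
  have : Finite (eis ⧸ (sp 3 : Ideal eis)) := finite_q three_ne
  have : Fintype (eis ⧸ (sp 3 : Ideal eis)) := Fintype.ofFinite _
  have : Finite (eis ⧸ (sp c : Ideal eis)) := finite_q hc
  have : Fintype (eis ⧸ (sp c : Ideal eis)) := Fintype.ofFinite _
  have hL := hC.lat
  have hΩ := hL.ne
  obtain ⟨w, hw⟩ := WW_lim hL
  have hwv := hC.w_val hw
  have vw : v w = v 2 := by
    rw [hwv, map_mul, map_mul, map_pow, v_x0 hC, v_y0 hC hv]
    simp
  have hc0 := coe_ne hc
  have vc : v (c : ℂ) = 1 := v_cop hv hc2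
  have ve : v (ee psi c) = 1 := v_ee hc3
  have v3 : v 3 = 1 := v_three hv
  have c3 : ((3 : eis) : ℂ) = 3 := rfl
  have hcm : CM (ee psi) := ⟨eo.mul, eo.bd⟩
  -- the trivial character
  have l1 := lim_rmv hL hcm gP gP_span (psi_lim hL hw) (Sc hc)
  have e1 : rmv (Sc hc) (ee psi) = ec (1 : MulChar (eis ⧸ (sp c : Ideal eis)) ℂ) := by
    funext α
    unfold rmv ec
    by_cases h : ∃ P ∈ Sc hc, α ∈ P.asIdeal
    · rw [if_pos h]
      obtain ⟨P, hP, hPα⟩ := h
      have h2 : et (1 : MulChar (eis ⧸ (sp c : Ideal eis)) ℂ) α = 0 := by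
        rw [et_zero_iff, cop_iff hc]
        exact fun h3 => h3 P hP hPα
      rw [h2, map_zero, mul_zero]
    · rw [if_neg h]
      have h2 : IsCoprime α c := by
        rw [cop_iff hc]
        intro P hP hα
        exact h ⟨P, hP, hα⟩
      have h3 : et (1 : MulChar (eis ⧸ (sp c : Ideal eis)) ℂ) α = 1 := by
        unfold et
        exact MulChar.one_apply ((unit_iff α).2 h2)
      rw [h3, map_one, mul_one]
  rw [e1] at l1
  have vprod : v (∏ P ∈ Sc hc, (1 - ee psi (gP P) / (gP P : ℂ))) = 1 := by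
    rw [map_prod]
    refine Finset.prod_eq_one fun P hPm => ?_
    have h0 := coe_ne (gP_ne P)
    have h1 : (1 - ee psi (gP P) / (gP P : ℂ)) = ((gP P : ℂ) - ee psi (gP P)) / gP P := by
      field_simp
    have h2 : IsCoprime (gP P) 2 := by
      refine hc2.of_isCoprime_of_dvd_left ?_
      have h3 := (mem_Sc hc).1 hPm
      rw [gP_span, Ideal.mem_span_singleton] at h3
      exact h3
    rw [h1, map_div₀, hP P hPm, v_cop hv h2, div_one]
  by_cases h1 : η = 1
  · subst h1
    have h2 := tendsto_nhds_unique hl l1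
    rw [h2, c3]
    have h3 : Ω / 3 * w * (∏ P ∈ Sc hc, (1 - ee psi (gP P) / (gP P : ℂ))) / Ω =
        w / 3 * ∏ P ∈ Sc hc, (1 - ee psi (gP P) / (gP P : ℂ)) := by
      field_simp
    rw [h3, map_mul, map_div₀, vprod, vw, v3, div_one, mul_one]
  · have hcu : ¬ IsUnit c := by
      intro hu
      apply h1
      have h2 : (sp c : Ideal eis) = ⊤ := Ideal.span_singleton_eq_top.2 hu
      have h3 : Subsingleton (eis ⧸ (sp c : Ideal eis)) := Ideal.Quotient.subsingleton_iff.2 h2
      ext x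
      have h4 : (x : eis ⧸ (sp c : Ideal eis)) = 1 := Subsingleton.elim _ _
      rw [h4]
      simp
    have hnt : Nontrivial (eis ⧸ (sp c : Ideal eis)) := by
      rw [Ideal.Quotient.nontrivial_iff]
      intro h
      exact hcu (Ideal.span_singleton_eq_top.1 h)
    have hzero : ∀ η' : MulChar (eis ⧸ (sp c : Ideal eis)) ℂ, η' 0 = 0 := fun η' =>
      η'.map_nonunit not_isUnit_zero
    have eout : ∀ (η' : MulChar (eis ⧸ (sp c : Ideal eis)) ℂ) (x : eis ⧸ (sp c : Ideal eis)),
        et η' x.out = η' x := by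
      intro η' x
      unfold et
      rw [Ideal.Quotient.mk_out]
    -- the formula
    have key : ∀ (η' : MulChar (eis ⧸ (sp c : Ideal eis)) ℂ) (l' : ℂ),
        Tendsto (SS (ec η')) (𝓝[>] 0) (𝓝 l') →
        l' = Ω / (3 * c) * (ee psi c * (starRingEnd ℂ) (et η' 3)) *
          (∑ x : eis ⧸ (sp c : Ideal eis), (starRingEnd ℂ) (η' x) * hval L Ω x +
          (∑ x : eis ⧸ (sp c : Ideal eis), (starRingEnd ℂ) (η' x)) * w) := by
      intro η' l' hl'
      have h2 : Xg c (fun α => (starRingEnd ℂ) (et η' α)) := by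
        refine ⟨fun x y h => ?_, fun x y => ?_, fun x => ?_⟩
        · rw [et_per h]
        · rw [et_mul, map_mul]
        · rw [RCLike.norm_conj]
          exact et_bd hc x
      have h3 := lim_gen hL hc hc3.symm h2 (fun x hx => by
        unfold et
        rw [Ideal.Quotient.eq_zero_iff_mem.2 hx, hzero, map_zero]) hw
      have h4 := tendsto_nhds_unique hl' h3
      rw [h4, c3]
      simp only [eout]
      rfl
    have k1 := key 1 _ l1
    have k2 := key η _ hl
    have e3 : et (1 : MulChar (eis ⧸ (sp c : Ideal eis)) ℂ) 3 = 1 := by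
      unfold et
      exact MulChar.one_apply ((unit_iff 3).2 hc3.symm)
    rw [e3, map_one, mul_one, c3] at k1
    set S1 := ∑ x : eis ⧸ (sp c : Ideal eis),
      (starRingEnd ℂ) ((1 : MulChar (eis ⧸ (sp c : Ideal eis)) ℂ) x) * hval L Ω x with hS1
    set φ := ∑ x : eis ⧸ (sp c : Ideal eis),
      (starRingEnd ℂ) ((1 : MulChar (eis ⧸ (sp c : Ideal eis)) ℂ) x) with hφ
    have he0 : ee psi c ≠ 0 := ne_of_v ve
    have k3 : S1 = w * (c / ee psi c * (∏ P ∈ Sc hc, (1 - ee psi (gP P) / (gP P : ℂ))) - φ) := by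
      set Q := ∏ P ∈ Sc hc, (1 - ee psi (gP P) / (gP P : ℂ))
      have h2 : S1 + φ * w = w * (c / ee psi c) * Q := by
        field_simp at k1 ⊢
        linear_combination -k1
      linear_combination h2
    have hnegc : ∀ η' : MulChar (eis ⧸ (sp c : Ideal eis)) ℂ, et η' (-1) = 1 →
        ∀ x : eis ⧸ (sp c : Ideal eis), η' (-x) = η' x := by
      intro η' h2 x
      have h3 : η' (-1) = 1 := by
        unfold et at h2
        rwa [map_neg, map_one] at h2
      rw [← neg_one_mul, map_mul, h3, one_mul]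
    have hn1 : et (1 : MulChar (eis ⧸ (sp c : Ideal eis)) ℂ) (-1) = 1 := by
      unfold et
      exact MulChar.one_apply ((unit_iff (-1)).2 (isCoprime_one_left.neg_left))
    have hnη : et η (-1) = 1 := hηu _ isUnit_one.neg
    have vφ : v φ < 1 := by
      refine lt_of_le_of_lt (v_pair_le hc2 _ ?_ ?_ ?_) hv
      · rw [hzero, map_zero]
      · intro x
        rw [hnegc 1 hn1]
      · intro x
        by_cases hx : IsUnit x
        · rw [MulChar.one_apply hx, map_one, map_one]
        · rw [MulChar.map_nonunit _ hx, map_zero, map_zero]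
          exact zero_le_one
    have vS1 : v S1 = v 2 := by
      rw [k3, map_mul, vw]
      have h2 : v (c / ee psi c * (∏ P ∈ Sc hc, (1 - ee psi (gP P) / (gP P : ℂ)))) = 1 := by
        rw [map_mul, map_div₀, vc, ve, vprod, div_one, one_mul]
      rw [Valuation.map_sub_eq_of_lt_left, h2, mul_one]
      rw [h2]
      exact vφ
    have hs0 : ∑ x : eis ⧸ (sp c : Ideal eis), (starRingEnd ℂ) (η x) = 0 := by
      rw [← map_sum, MulChar.sum_eq_zero_of_ne_one h1, map_zero]
    rw [hs0, zero_mul, add_zero] at k2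
    set S2 := ∑ x : eis ⧸ (sp c : Ideal eis), (starRingEnd ℂ) (η x) * hval L Ω x with hS2
    have vd : v (S2 - S1) < v 2 := by
      rw [hS1, hS2, ← Finset.sum_sub_distrib]
      refine v_pair_lt hc2 _ ?_ ?_ ?_
      · rw [hzero, hzero, map_zero, zero_mul, sub_zero]
      · intro x
        by_cases hx0 : x = 0
        · rw [hx0, neg_zero]
        · rw [hnegc 1 hn1, hnegc η hnη, hx_neg hC hv hc hc2 hc3 hx0]
      · intro x
        by_cases hx : IsUnit x
        · have hx0 : x ≠ 0 := hx.ne_zero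
          have h2 : (starRingEnd ℂ) (η x) * hval L Ω x -
              (starRingEnd ℂ) ((1 : MulChar (eis ⧸ (sp c : Ideal eis)) ℂ) x) * hval L Ω x =
              ((starRingEnd ℂ) (η x) - 1) * hval L Ω x := by
            rw [MulChar.one_apply hx, map_one]
            ring
          rw [h2, map_mul, hx_v hC hv hc hc2 hc3 hx0, mul_one]
          refine v_root_lt hv (k := k) ?_
          rw [← map_pow, ← MulChar.pow_apply' _ (by positivity), hη, MulChar.one_apply hx, map_one]
        · rw [MulChar.map_nonunit _ hx, MulChar.map_nonunit _ hx, map_zero, zero_mul, sub_zero,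
            map_zero]
          exact zero_lt_one
    have vS2 : v S2 = v 2 := by
      have h2 : S2 = S1 + (S2 - S1) := by ring
      rw [h2, Valuation.map_add_eq_of_lt_left, vS1]
      rw [vS1]
      exact vd
    have vη3 : v ((starRingEnd ℂ) (et η 3)) = 1 := by
      refine v_one_of_pow (n := 2 ^ k) (by positivity) ?_
      have h2 : IsUnit (Ideal.Quotient.mk (sp c : Ideal eis) 3) := (unit_iff 3).2 hc3.symm
      unfold et
      rw [← map_pow, ← MulChar.pow_apply' _ (by positivity), hη, MulChar.one_apply h2, map_one,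
        map_one]
    rw [k2]
    have h5 : Ω / (3 * c) * (ee psi c * (starRingEnd ℂ) (et η 3)) * S2 / Ω =
        (ee psi c * (starRingEnd ℂ) (et η 3)) / (3 * c) * S2 := by
      field_simp
    rw [h5, map_mul, map_div₀, map_mul, map_mul, ve, vη3, v3, vc, vS2]
    simp

end Pool.Agent.Y696
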