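import Mathlib
import Pool.Agent.Y696.Val2
import Pool.Agent.Y696.Jac2

/-!
# The primes for which two is not a cube
-/

set_option autoImplicit false

open Complex Filter Topology IsDedekindDomain
open scoped PeriodPair

namespace Pool.Agent.Y696

open H667R3 Pool.Agent.W192.HK Pool.Agent.TH936.CM Pool.Agent.TH936.PU

variable {Γ : Type*} [LinearOrderedCommGroupWithZero Γ] {v : Valuation ℂ Γ}

/-- elements of odd norm are units above two -/
lemma v_odd (hv : v 2 < 1) {z : eis} {n : ℤ} (h : (z : ℂ) * (starRingEnd ℂ) z = 2 * n + 1) :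
    v (z : ℂ) = 1 := by
  refine v_cop hv ⟨cj z, -(n : eis), ?_⟩
  apply coe_inj'
  push_cast
  rw [cj_coe]
  have h2 : ((2 : eis) : ℂ) = 2 := rfl
  rw [h2]
  linear_combination h

/-- the parity of the number of points -/
lemma aff_even {k : Type*} [Field k] [Fintype k] (h2 : (2 : k) ≠ 0) (hc : ∀ x : k, x ^ 3 ≠ 2) :
    Even (Nat.card {p : k × k // p.2 ^ 2 + p.2 = p.1 ^ 3}) := by
  classical
  rw [Nat.card_eq_fintype_card]
  have hinv : ∀ p : {p : k × k // p.2 ^ 2 + p.2 = p.1 ^ 3},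
      (p.1.1, -1 - p.1.2).2 ^ 2 + (p.1.1, -1 - p.1.2).2 = (p.1.1, -1 - p.1.2).1 ^ 3 := by
    rintro ⟨⟨x, y⟩, h⟩
    simp only at h ⊢
    linear_combination h
  set τ : {p : k × k // p.2 ^ 2 + p.2 = p.1 ^ 3} → {p : k × k // p.2 ^ 2 + p.2 = p.1 ^ 3} :=
    fun p => ⟨(p.1.1, -1 - p.1.2), hinv p⟩ with hτ
  have h3 : Function.Involutive τ := by
    rintro ⟨⟨x, y⟩, h⟩
    simp only [hτ, Subtype.mk.injEq, Prod.mk.injEq, true_and]
    ring
  have h4 : ∀ p, τ p ≠ p := by
    rintro ⟨⟨x, y⟩, h⟩ h5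
    simp only [hτ, Subtype.mk.injEq, Prod.mk.injEq, true_and] at h5
    simp only at h
    apply hc (-2 * x)
    have h6 : 2 * y = -1 := by linear_combination -h5
    have h7 : 4 * (y ^ 2 + y) = 4 * x ^ 3 := by rw [h]
    linear_combination (2 : k) * h7 - 2 * (2 * y + 1) * h6
  obtain ⟨T, hT⟩ := pair_sum τ h3
  have h5 := hT (fun _ => 1) (fun x hx => absurd hx (h4 x)) (fun _ => rfl)
  simp only [Finset.sum_const, nsmul_eq_mul, mul_one, Finset.card_univ] at h5
  have h6 : Fintype.card {p : k × k // p.2 ^ 2 + p.2 = p.1 ^ 3} = 2 * T.card := by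
    exact_mod_cast h5
  rw [h6]
  exact even_two_mul _

/-- the condition at the primes of the conductor -/
theorem v_gP (hv : v 2 < 1) (P : HeightOneSpectrum eis) (hP2 : IsCoprime (gP P) 2)
    (hP3 : IsCoprime (gP P) 3) (hcube : ∀ x : eis, x ^ 3 - 2 ∉ P.asIdeal) :
    v ((gP P : ℂ) - ee psi (gP P)) = 1 := by
  classical
  set π := gP P with hπ
  obtain ⟨u, hu, h1⟩ := cop_three hP3
  have h2 : ee psi π = u := by rw [eo.per _ _ h1, ee_u hu]
  obtain ⟨w, hw⟩ := hu.exists_right_inv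
  have hwu : IsUnit w := IsUnit.of_mul_eq_one u (by rw [mul_comm]; exact hw)
  set π1 : eis := w * π with hπ1
  have hsp : P.asIdeal = sp π := gP_span P
  have hsp1 : sp π1 = (sp π : Ideal eis) := by
    rw [Ideal.span_singleton_eq_span_singleton]
    exact ⟨hu.unit, by rw [IsUnit.unit_spec, hπ1]; linear_combination π * hw⟩
  have hprime : Prime π1 := by
    rw [← Ideal.span_singleton_prime, ← sp, hsp1, ← hsp]
    · exact P.isPrime
    · intro h0
      apply P.ne_bot
      rw [hsp, ← hsp1, h0]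
      simp
  have hmod : π1 - 1 ∈ (sp 3 : Ideal eis) := by
    have h3 := (sp 3 : Ideal eis).mul_mem_left w h1
    convert h3 using 1
    rw [hπ1]
    linear_combination hw
  have : P.asIdeal.IsMaximal := P.isPrime.isMaximal P.ne_bot
  letI : Field (eis ⧸ P.asIdeal) := Ideal.Quotient.field P.asIdeal
  have hfin : Finite (eis ⧸ P.asIdeal) := by
    rw [hsp]
    exact finite_q (gP_ne P)
  letI : Fintype (eis ⧸ P.asIdeal) := Fintype.ofFinite _
  have hmk : ∀ x : eis, Ideal.Quotient.mk P.asIdeal x = 0 ↔ π1 ∣ x := by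
    intro x
    rw [Ideal.Quotient.eq_zero_iff_mem, hsp, ← hsp1, Ideal.mem_span_singleton]
  have hk3 : (3 : eis ⧸ P.asIdeal) ≠ 0 := by
    intro h
    have h3 : Ideal.Quotient.mk P.asIdeal 3 = 0 := by rw [map_ofNat]; exact h
    rw [Ideal.Quotient.eq_zero_iff_mem] at h3
    obtain ⟨a, b, hab⟩ := hP3
    apply P.isPrime.ne_top
    rw [Ideal.eq_top_iff_one, ← hab]
    refine P.asIdeal.add_mem ?_ (P.asIdeal.mul_mem_left _ h3)
    rw [hsp]
    exact Ideal.mul_mem_left _ _ (Ideal.mem_span_singleton_self _)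
  have hk2 : (2 : eis ⧸ P.asIdeal) ≠ 0 := by
    intro h
    have h3 : Ideal.Quotient.mk P.asIdeal 2 = 0 := by rw [map_ofNat]; exact h
    rw [Ideal.Quotient.eq_zero_iff_mem] at h3
    obtain ⟨a, b, hab⟩ := hP2
    apply P.isPrime.ne_top
    rw [Ideal.eq_top_iff_one, ← hab]
    refine P.asIdeal.add_mem ?_ (P.asIdeal.mul_mem_left _ h3)
    rw [hsp]
    exact Ideal.mul_mem_left _ _ (Ideal.mem_span_singleton_self _)
  have hcb : ∀ x : eis ⧸ P.asIdeal, x ^ 3 ≠ 2 := by
    intro x hx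
    obtain ⟨y, rfl⟩ := Ideal.Quotient.mk_surjective x
    apply hcube y
    rw [← Ideal.Quotient.eq_zero_iff_mem, map_sub, map_pow, hx, map_ofNat, sub_self]
  have hcard : ((Fintype.card (eis ⧸ P.asIdeal) : ℕ) : ℝ) = Complex.normSq (π1 : ℂ) := by
    rw [← nm_sp, hsp1, ← hsp]
    unfold nm
    rw [Nat.card_eq_fintype_card]
  have hq : ((Fintype.card (eis ⧸ P.asIdeal) : ℕ) : eis) = (π1 * cj π1) ^ 1 := by
    apply coe_inj'
    rw [pow_one, cj_mul_coe, ← hcard]
    push_cast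
    rfl
  have h5 := card_aff (Ideal.Quotient.mk P.asIdeal) hk3 hprime hmod hmk hq
  obtain ⟨m, hm⟩ := aff_even hk2 hcb
  rw [hm] at h5
  have h6 : ((Fintype.card (eis ⧸ P.asIdeal) : ℕ) : ℂ) = (π1 : ℂ) * (starRingEnd ℂ) (π1 : ℂ) := by
    rw [Complex.mul_conj, ← hcard]
    push_cast
    rfl
  rw [h6, pow_one, pow_one] at h5
  have h7 : v (((π1 - 1 : eis)) : ℂ) = 1 := by
    refine v_odd hv (n := m) ?_
    push_cast
    push_cast at h5
    rw [map_sub, map_one]
    linear_combination -h5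
  have h8 : (π : ℂ) - u = u * ((π1 - 1 : eis) : ℂ) := by
    have h9 : π - u = u * (π1 - 1) := by
      rw [hπ1]
      linear_combination (-π) * hw
    have := congrArg (fun t : eis => (t : ℂ)) h9
    push_cast at this ⊢
    exact this
  rw [h2, h8, map_mul, v_unit hu, h7, one_mul]

end Pool.Agent.Y696
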