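import Mathlib
import Pool.Agent.Y696.Fld
import Pool.Agent.Y696.Hecke
import Pool.Agent.Y696.EP
import Pool.Agent.Y696.Val3

/-!
# Factorization of the L-function
-/

set_option autoImplicit false

namespace Pool.Agent.Y696

open NumberField IsDedekindDomain IsLocalRing Filter Topology Complex
open Pool.Agent.W192.HK Pool.Agent.TH936.CM Pool.Agent.TH936.PU
open Pool.Agent.H921R2.TatePole (two_le_nm)
open Pool.Agent.W189.NF (aV eV redMap)
open Pool.Agent.W192.CM (nu)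

section
variable {K : Type} [Field K] [NumberField K] {ι : eis →+* 𝓞 K} {G : Type} [CommGroup G] [Finite G]
  [MulSemiringAction G (𝓞 K)] {c : eis} {art : (eis ⧸ (sp c : Ideal eis))ˣ →* G}

/-- the character modulo `c` attached to a character of the group -/
noncomputable def eta (art : (eis ⧸ (sp c : Ideal eis))ˣ →* G) (χ : MulChar G ℂ) :
    MulChar (eis ⧸ (sp c : Ideal eis)) ℂ :=
  MulChar.ofUnitHom (χ.toUnitHom.comp (toUnits.toMonoidHom.comp art))

omit [Finite G] in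
lemma eta_unit (χ : MulChar G ℂ) (u : (eis ⧸ (sp c : Ideal eis))ˣ) :
    eta art χ (u : eis ⧸ (sp c : Ideal eis)) = χ (art u) := by
  unfold eta
  rw [MulChar.ofUnitHom_coe]
  rfl

lemma eta_pow (D : Dat ι G c art) (χ : MulChar G ℂ) : ∃ n : ℕ, eta art χ ^ (2 ^ n) = 1 := by
  obtain ⟨n, hn⟩ := D.pgrp
  refine ⟨n, ?_⟩
  ext u
  rw [MulChar.pow_apply_coe, eta_unit, ← map_pow, ← hn, pow_card_eq_one', map_one,
    MulChar.one_apply_coe]

lemma prime_two : Prime (2 : eis) := by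
  refine ⟨two_ne, ?_, ?_⟩
  · intro h
    rw [isUnit_iff'] at h
    have h2 : ((2 : eis) : ℂ) = 2 := rfl
    rw [h2] at h
    norm_num [Complex.normSq_apply] at h
  · intro a b h
    have := two_prime (a := a) (b := b) (by rwa [Ideal.mem_span_singleton])
    rwa [Ideal.mem_span_singleton, Ideal.mem_span_singleton] at this

/-- the Artin map is trivial on the units -/
lemma art_unit (D : Dat ι G c art) {w : eis} (hw : IsUnit w) {u : (eis ⧸ (sp c : Ideal eis))ˣ}
    (hu : (u : eis ⧸ (sp c : Ideal eis)) = Ideal.Quotient.mk _ w) : art u = 1 := by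
  have hPp : (sp 2 : Ideal eis).IsPrime := (Ideal.span_singleton_prime two_ne).2 prime_two
  set P : HeightOneSpectrum eis := ⟨sp 2, hPp, by
    rw [Ne, Ideal.span_singleton_eq_bot]; exact two_ne⟩ with hP
  obtain ⟨v, hv⟩ := exists_over D P
  have h2v : ι 2 ∈ v.asIdeal := by
    rw [← mem_bel, hv]
    exact Ideal.mem_span_singleton_self 2
  have hcv : ι c ∉ v.asIdeal := by
    intro h
    obtain ⟨a, b, hab⟩ := D.cop2
    apply v.isPrime.ne_top
    rw [Ideal.eq_top_iff_one, ← map_one ι, ← hab, map_add, map_mul, map_mul]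
    exact v.asIdeal.add_mem (v.asIdeal.mul_mem_left _ h) (v.asIdeal.mul_mem_left _ h2v)
  obtain ⟨u2, hu2⟩ := (unit_iff (c := c) 2).2 D.cop2.symm
  have hw2 : Prime (w * 2) := by
    rw [← Ideal.span_singleton_prime (mul_ne_zero hw.ne_zero two_ne),
      Ideal.span_singleton_mul_left_unit hw]
    exact hPp
  have h1 := D.frob 2 prime_two u2 hu2 v h2v
  have h2 := D.frob (w * 2) hw2 (u * u2) (by
    rw [Units.val_mul, hu, hu2, map_mul]) v (by
    rw [map_mul]
    exact v.asIdeal.mul_mem_left _ h2v)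
  have h3 : (sp (w * 2) : Ideal eis) = sp 2 := Ideal.span_singleton_mul_left_unit hw 2
  rw [h3] at h2
  apply D.unr v hcv
  intro x
  have h4 := v.asIdeal.sub_mem (h2 ((art u2)⁻¹ • x)) (h1 ((art u2)⁻¹ • x))
  rw [sub_sub_sub_cancel_right, map_mul, mul_smul, smul_inv_smul] at h4
  exact h4

lemma et_eta_unit (D : Dat ι G c art) (χ : MulChar G ℂ) (w : eis) (hw : IsUnit w) :
    et (eta art χ) w = 1 := by
  have h1 : IsCoprime w c := by
    obtain ⟨t, ht⟩ := hw.exists_left_inv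
    exact ⟨t, 0, by rw [ht, zero_mul, add_zero]⟩
  obtain ⟨u, hu⟩ := (unit_iff w).2 h1
  unfold et
  rw [← hu, eta_unit, art_unit D hw hu, map_one]

/-- the local factor -/
noncomputable def XX (v : HeightOneSpectrum (𝓞 K)) (s : ℂ) : ℂ :=
  (1 - (aV (E0 K) v : ℂ) * (nK v : ℂ) ^ (-s) + (eV (E0 K) v : ℂ) * ((nK v : ℂ) ^ (-s)) ^ 2)⁻¹

lemma nm_P (P : HeightOneSpectrum eis) : nm P.asIdeal = (Nat.card (eis ⧸ P.asIdeal) : ℝ) := rfl

/-- the local factor at a prime that does not divide three -/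
lemma XX_val (v : HeightOneSpectrum (𝓞 K)) (h3 : ι 3 ∉ v.asIdeal) {f : ℕ}
    (hf : nK v = Nat.card (eis ⧸ (bel ι v).asIdeal) ^ f) (s : ℂ) :
    XX v s = ((1 - (psi (bel ι v).asIdeal * (nm (bel ι v).asIdeal : ℂ) ^ (-s)) ^ f) *
      (1 - ((starRingEnd ℂ) (psi (bel ι v).asIdeal) * (nm (bel ι v).asIdeal : ℂ) ^ (-s)) ^ f))⁻¹ := by
  obtain ⟨h1, h2, h4⟩ := aV_val v h3 hf
  unfold XX
  rw [h1, h2]
  congr 1
  have e1 : ((nK v : ℕ) : ℂ) ^ (-s) = ((nm (bel ι v).asIdeal : ℂ) ^ (-s)) ^ f := by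
    rw [hf, nm_P]
    push_cast
    rw [← Complex.natCast_cpow_natCast_mul, Complex.cpow_nat_mul]
  have e2 : ((nK v : ℕ) : ℂ) = (psi (bel ι v).asIdeal *
      (starRingEnd ℂ) (psi (bel ι v).asIdeal)) ^ f := by
    rw [h4, hf]
    push_cast
    rfl
  rw [e1, e2]
  ring

lemma card_two_le (P : HeightOneSpectrum eis) : 2 ≤ Nat.card (eis ⧸ P.asIdeal) := by
  have hfin : Finite (eis ⧸ P.asIdeal) := by
    rw [gP_span]
    exact finite_q (gP_ne _)
  have : Nontrivial (eis ⧸ P.asIdeal) := Ideal.Quotient.nontrivial_iff.2 P.isPrime.ne_top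
  exact Finite.one_lt_card

lemma conj_nat_cpow (n : ℕ) (z : ℂ) : (starRingEnd ℂ) ((n : ℂ) ^ z) = (n : ℂ) ^ (starRingEnd ℂ) z := by
  rw [Complex.cpow_conj]
  · rw [Complex.conj_natCast]
  · rw [Complex.natCast_arg]
    exact Real.pi_ne_zero.symm

/-- the product over the characters of the factors at `P` -/
noncomputable def RR (art : (eis ⧸ (sp c : Ideal eis))ˣ →* G) [Fintype (MulChar G ℂ)]
    (P : HeightOneSpectrum eis) (s : ℂ) : ℂ :=
  ∏ χ : MulChar G ℂ,
    ((1 - psi P.asIdeal * eI (eta art χ) P.asIdeal * (nm P.asIdeal : ℂ) ^ (-s))⁻¹ *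
    (starRingEnd ℂ) ((1 - psi P.asIdeal * eI (eta art χ) P.asIdeal *
      (nm P.asIdeal : ℂ) ^ (-((starRingEnd ℂ) s)))⁻¹))

omit [Finite G] in
lemma RR_of_c (D : Dat ι G c art) [Fintype (MulChar G ℂ)] {P : HeightOneSpectrum eis}
    (hP : c ∈ P.asIdeal) (s : ℂ) : RR art P s = 1 := by
  unfold RR
  refine Finset.prod_eq_one fun χ _ => ?_
  have h1 : eI (eta art χ) P.asIdeal = 0 := by
    show et (eta art χ) (gP P) = 0
    rw [et_zero_iff]
    rintro ⟨a, b, hab⟩
    apply P.isPrime.ne_top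
    rw [Ideal.eq_top_iff_one, ← hab]
    refine P.asIdeal.add_mem (P.asIdeal.mul_mem_left _ ?_) (P.asIdeal.mul_mem_left _ hP)
    have := Ideal.mem_span_singleton_self (gP P)
    rwa [← sp, ← gP_span] at this
  rw [h1]
  simp

omit [Finite G] in
lemma RR_of_three [Fintype (MulChar G ℂ)] {P : HeightOneSpectrum eis}
    (hP : (3 : eis) ∈ P.asIdeal) (s : ℂ) : RR art P s = 1 := by
  unfold RR
  refine Finset.prod_eq_one fun χ _ => ?_
  have h1 : psi P.asIdeal = 0 := by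
    rw [psi_zero_iff, Ideal.isCoprime_iff_sup_eq]
    intro h
    apply P.isPrime.ne_top
    rw [← h, left_eq_sup, Ideal.span_singleton_le_iff_mem]
    exact hP
  rw [h1]
  simp

lemma fib_three (D : Dat ι G c art) {P : HeightOneSpectrum eis}
    (hP : (3 : eis) ∈ P.asIdeal) (s : ℂ) :
    ∏ v : {v : HeightOneSpectrum (𝓞 K) // bel ι v = P}, XX v.1 s = 1 := by
  refine Finset.prod_eq_one fun v _ => ?_
  have h3 : ι 3 ∈ v.1.asIdeal := by
    rw [← mem_bel, v.2]
    exact hP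
  obtain ⟨h1, h2⟩ := aV_three D v.1 h3
  unfold XX
  rw [h1, h2]
  simp

/-- the fibre over a prime that does not divide `3c` -/
lemma fib_good (D : Dat ι G c art) [Fintype (MulChar G ℂ)] {P : HeightOneSpectrum eis}
    (hPc : c ∉ P.asIdeal) (hP3 : (3 : eis) ∉ P.asIdeal) {s : ℂ} (hs : 1 < s.re) :
    ∏ v : {v : HeightOneSpectrum (𝓞 K) // bel ι v = P}, XX v.1 s = RR art P s := by
  classical
  have hcop : IsCoprime (gP P) c := by
    rw [cop_iff D.c_ne]
    intro Q hQ h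
    apply hPc
    have h1 : P.asIdeal ≤ Q.asIdeal := by
      rw [gP_span, Ideal.span_singleton_le_iff_mem]
      exact h
    have h2 : P.asIdeal = Q.asIdeal :=
      (P.isPrime.isMaximal P.ne_bot).eq_of_le Q.isPrime.ne_top h1
    rw [h2]
    exact (mem_Sc D.c_ne).1 hQ
  obtain ⟨u, hu⟩ := (unit_iff (c := c) (gP P)).2 hcop
  obtain ⟨h1, h2⟩ := split D hPc hu
  obtain ⟨v0, hv0⟩ := exists_over D P
  have hpsi : psi P.asIdeal * (starRingEnd ℂ) (psi P.asIdeal) =
      (Nat.card (eis ⧸ P.asIdeal) : ℂ) := by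
    obtain ⟨-, -, h4⟩ := aV_val (ι := ι) v0 (by rw [← mem_bel, hv0]; exact hP3)
      (f := orderOf (art u)) (by rw [h1 v0 hv0, hv0])
    rw [hv0] at h4
    exact h4
  have hN2 := card_two_le P
  set N := Nat.card (eis ⧸ P.asIdeal) with hN
  have hN1 : (1 : ℝ) < N := by
    have : (2 : ℝ) ≤ N := by exact_mod_cast hN2
    linarith
  set f := orderOf (art u) with hf
  have hpn : ‖psi P.asIdeal‖ ≤ N := by
    rw [Complex.mul_conj, Complex.normSq_eq_norm_sq] at hpsi
    have h5 : ‖psi P.asIdeal‖ ^ 2 = N := by exact_mod_cast hpsi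
    nlinarith [norm_nonneg (psi P.asIdeal)]
  have hyn : ∀ t : ℂ, 1 < t.re → ‖psi P.asIdeal * (nm P.asIdeal : ℂ) ^ (-t)‖ < 1 := by
    intro t ht
    rw [norm_mul, nm_P]
    have h5 : ‖(((N : ℝ)) : ℂ) ^ (-t)‖ = (N : ℝ) ^ (-t.re) := by
      rw [Complex.norm_cpow_eq_rpow_re_of_pos (by linarith), Complex.neg_re]
    rw [h5]
    calc ‖psi P.asIdeal‖ * (N : ℝ) ^ (-t.re) ≤ (N : ℝ) * (N : ℝ) ^ (-t.re) := by gcongr
      _ = (N : ℝ) ^ (1 - t.re) := by
        rw [sub_eq_add_neg, Real.rpow_add (by linarith), Real.rpow_one]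
      _ < 1 := Real.rpow_lt_one_of_one_lt_of_neg hN1 (by linarith)
  -- the left side
  have hL : ∏ v : {v : HeightOneSpectrum (𝓞 K) // bel ι v = P}, XX v.1 s =
      ((1 - (psi P.asIdeal * (nm P.asIdeal : ℂ) ^ (-s)) ^ f) ^ (Nat.card G / f))⁻¹ *
      ((1 - ((starRingEnd ℂ) (psi P.asIdeal) * (nm P.asIdeal : ℂ) ^ (-s)) ^ f) ^
        (Nat.card G / f))⁻¹ := by
    have h5 : ∀ v : {v : HeightOneSpectrum (𝓞 K) // bel ι v = P}, XX v.1 s =
        ((1 - (psi P.asIdeal * (nm P.asIdeal : ℂ) ^ (-s)) ^ f) *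
        (1 - ((starRingEnd ℂ) (psi P.asIdeal) * (nm P.asIdeal : ℂ) ^ (-s)) ^ f))⁻¹ := by
      rintro ⟨v, hv⟩
      have h6 := XX_val (ι := ι) v (by rw [← mem_bel, hv]; exact hP3) (f := f)
        (by rw [h1 v hv, hv]) s
      rw [hv] at h6
      exact h6
    rw [Finset.prod_congr rfl fun v _ => h5 v, Finset.prod_const, Finset.card_univ, h2, inv_pow,
      mul_pow, mul_inv]
  rw [hL]
  unfold RR
  rw [Finset.prod_mul_distrib]
  have heI : ∀ χ : MulChar G ℂ, eI (eta art χ) P.asIdeal = χ (art u) := by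
    intro χ
    show et (eta art χ) (gP P) = _
    unfold et
    rw [← hu, eta_unit]
  simp only [heI]
  congr 1
  · rw [Finset.prod_inv_distrib]
    congr 1
    rw [← prod_mc (art u) _ (hyn s hs)]
    refine Finset.prod_congr rfl fun χ _ => ?_
    ring
  · rw [← map_prod, Finset.prod_inv_distrib]
    have h6 : (1 - ((starRingEnd ℂ) (psi P.asIdeal) * (nm P.asIdeal : ℂ) ^ (-s)) ^ f) ^
        (Nat.card G / f) = (starRingEnd ℂ) ((1 - (psi P.asIdeal *
          (nm P.asIdeal : ℂ) ^ (-((starRingEnd ℂ) s))) ^ f) ^ (Nat.card G / f)) := by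
      rw [map_pow, map_sub, map_one, map_pow, map_mul]
      have h7 : (starRingEnd ℂ) ((nm P.asIdeal : ℂ) ^ (-((starRingEnd ℂ) s))) =
          (nm P.asIdeal : ℂ) ^ (-s) := by
        rw [nm_P, Complex.ofReal_natCast, conj_nat_cpow, map_neg, Complex.conj_conj]
      rw [h7]
    rw [h6, map_inv₀]
    congr 2
    rw [← prod_mc (art u) _ (hyn ((starRingEnd ℂ) s) (by rw [Complex.conj_re]; exact hs))]
    refine Finset.prod_congr rfl fun χ _ => ?_
    ring

end

end Pool.Agent.Y696
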