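import Mathlib
import Pool.Agent.Y696.LK
import Pool.Agent.Y696.Hss

/-!
# Factorization of the L-function, second part
-/

set_option autoImplicit false

namespace Pool.Agent.Y696

open NumberField IsDedekindDomain IsLocalRing Filter Topology Complex
open Pool.Agent.W192.HK Pool.Agent.TH936.CM Pool.Agent.TH936.PU
open Pool.Agent.W189.NF (aV eV redMap)
open Pool.Agent.W192.CM (nu)

lemma psi_mul (I J : Ideal eis) : psi (I * J) = psi I * psi J := hc_psi.mul I J

lemma psi_top : psi ⊤ = 1 := by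
  have e1 : (⊤ : Ideal eis) = sp 1 := by
    rw [eq_comm, Ideal.span_singleton_eq_top]
    exact isUnit_one
  rw [e1, psi_prim (by rw [sub_self]; exact Submodule.zero_mem _)]
  rfl

lemma nm_mul (I J : Ideal eis) : nm (I * J) = nm I * nm J := (lbasic eis om qr).2.2.2.1 I J

lemma nm_top : nm (⊤ : Ideal eis) = 1 := ((lbasic eis om qr).2.2.2.2.2.2.1 ⊤).2 rfl

section
variable {K : Type} [Field K] [NumberField K] {ι : eis →+* 𝓞 K} {G : Type} [CommGroup G] [Finite G]
  [MulSemiringAction G (𝓞 K)] {c : eis} {art : (eis ⧸ (sp c : Ideal eis))ˣ →* G}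

lemma eI_mul {η : MulChar (eis ⧸ (sp c : Ideal eis)) ℂ} (hη : ∀ u : eis, IsUnit u → et η u = 1)
    (I J : Ideal eis) : eI η (I * J) = eI η I * eI η J := by
  obtain ⟨a, rfl⟩ : ∃ a : eis, I = sp a :=
    ⟨_, (Submodule.IsPrincipal.span_singleton_generator I).symm⟩
  obtain ⟨b, rfl⟩ : ∃ b : eis, J = sp b :=
    ⟨_, (Submodule.IsPrincipal.span_singleton_generator J).symm⟩
  have h1 : (sp a * sp b : Ideal eis) = sp (a * b) := Ideal.span_singleton_mul_span_singleton a b
  rw [h1, eI_sp hη, eI_sp hη, eI_sp hη, et_mul]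

lemma eI_top {η : MulChar (eis ⧸ (sp c : Ideal eis)) ℂ} (hη : ∀ u : eis, IsUnit u → et η u = 1) :
    eI η ⊤ = 1 := by
  have e1 : (⊤ : Ideal eis) = sp 1 := by
    rw [eq_comm, Ideal.span_singleton_eq_top]
    exact isUnit_one
  rw [e1, eI_sp hη, et_one]

/-- the Euler product of the Hecke L-function -/
lemma hp_eta {η : MulChar (eis ⧸ (sp c : Ideal eis)) ℂ} (hη : ∀ u : eis, IsUnit u → et η u = 1)
    {z a : ℂ} (hF : HasSum (fun I : Ideal eis => psi I * eI η I * (nm I : ℂ) ^ (-z)) a) :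
    HasProd (fun P : HeightOneSpectrum eis =>
      (1 - psi P.asIdeal * eI η P.asIdeal * (nm P.asIdeal : ℂ) ^ (-z))⁻¹) a := by
  have h1 := hasProd_ideal (fun I : Ideal eis => psi I * eI η I * (nm I : ℂ) ^ (-z)) (by
      have : psi ⊥ = 0 := (psi_zero_iff _).2 not_cop_bot
      simp only [this, zero_mul]) (by
      simp only [psi_top, eI_top hη, nm_top]
      simp) (by
      intro I J
      rw [psi_mul, eI_mul hη, nm_mul]
      push_cast
      rw [Complex.mul_cpow_ofReal_nonneg (nm_nonneg I) (nm_nonneg J)]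
      ring) hF.summable
  rw [hF.tsum_eq] at h1
  exact h1

lemma hp_RR (D : Dat ι G c art) [Fintype (MulChar G ℂ)] {F : MulChar G ℂ → ℂ → ℂ}
    (hF : ∀ χ : MulChar G ℂ, ∀ z : ℂ, 3 / 2 < z.re →
      HasSum (fun I : Ideal eis => psi I * eI (eta art χ) I * (nm I : ℂ) ^ (-z)) (F χ z))
    {s : ℂ} (hs : 3 / 2 < s.re) :
    HasProd (fun P : HeightOneSpectrum eis => RR art P s)
      (∏ χ, (F χ s * (starRingEnd ℂ) (F χ ((starRingEnd ℂ) s)))) := by
  unfold RR
  apply hasProd_prod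
  intro χ _
  refine (hp_eta (et_eta_unit D χ) (hF χ s hs)).mul ?_
  have h1 := hp_eta (et_eta_unit D χ) (hF χ ((starRingEnd ℂ) s) (by rw [Complex.conj_re]; exact hs))
  exact h1.map (starRingEnd ℂ) Complex.continuous_conj

/-- the bound of Hasse -/
lemma hasse (D : Dat ι G c art) (v : HeightOneSpectrum (𝓞 K)) :
    HBd (aV (E0 K) v) (eV (E0 K) v) (Pool.Agent.H921R2.TatePole.nm v) := by
  by_cases h3 : ι 3 ∈ v.asIdeal
  · exact Or.inl (aV_three D v h3)
  · obtain ⟨f, -, -, hf⟩ := exists_deg D v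
    obtain ⟨h1, h2, h4⟩ := aV_val v h3 hf
    refine Or.inr ⟨psi (bel ι v).asIdeal ^ f, ?_, ?_, ?_⟩
    · rw [h1, map_pow]
    · rw [h2, map_pow, ← mul_pow, h4, hf]
      push_cast
      rfl
    · rw [map_pow, ← mul_pow, h4]
      change _ = ((nK v : ℕ) : ℂ)
      rw [hf]
      push_cast
      rfl

/-- the factorization of the L-function -/
theorem LK_eq (D : Dat ι G c art) [Fintype (MulChar G ℂ)] {F : MulChar G ℂ → ℂ → ℂ}
    (hF : ∀ χ : MulChar G ℂ, ∀ z : ℂ, 3 / 2 < z.re →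
      HasSum (fun I : Ideal eis => psi I * eI (eta art χ) I * (nm I : ℂ) ^ (-z)) (F χ z))
    {s : ℂ} (hs : 3 / 2 < s.re) :
    (E0 K).LSeries s = (∏ P ∈ Sc D.c_ne, ∏ v : {v : HeightOneSpectrum (𝓞 K) // bel ι v = P}, XX v.1 s) *
      ∏ χ, (F χ s * (starRingEnd ℂ) (F χ ((starRingEnd ℂ) s))) := by
  classical
  have h1 := (LSeries_hasProd' (E0 K) (hasse D) hs).2
  have h2 : HasProd (fun v : HeightOneSpectrum (𝓞 K) => XX v s) ((E0 K).LSeries s) := h1
  have h3 := (Equiv.sigmaFiberEquiv (bel ι)).hasProd_iff.2 h2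
  have h4 : HasProd (fun P : HeightOneSpectrum eis =>
      ∏ v : {v : HeightOneSpectrum (𝓞 K) // bel ι v = P}, XX v.1 s) ((E0 K).LSeries s) := by
    refine h3.sigma fun P => ?_
    exact hasProd_fintype _ (.unconditional _)
  have h5 : HasProd (fun P : HeightOneSpectrum eis => if P ∈ Sc D.c_ne then
      ∏ v : {v : HeightOneSpectrum (𝓞 K) // bel ι v = P}, XX v.1 s else 1)
      (∏ P ∈ Sc D.c_ne, ∏ v : {v : HeightOneSpectrum (𝓞 K) // bel ι v = P}, XX v.1 s) := by
    have h6 := hasProd_prod_of_ne_finset_one (L := .unconditional _) (s := Sc D.c_ne)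
      (f := fun P : HeightOneSpectrum eis => if P ∈ Sc D.c_ne then
        ∏ v : {v : HeightOneSpectrum (𝓞 K) // bel ι v = P}, XX v.1 s else 1)
      (fun P hP => if_neg hP)
    rw [Finset.prod_congr rfl (fun P hP => if_pos hP)] at h6
    exact h6
  have h6 := h5.mul (hp_RR D hF (s := s) (by linarith))
  refine h4.unique (h6.congr_fun fun P => ?_)
  by_cases hP : P ∈ Sc D.c_ne
  · rw [if_pos hP, RR_of_c D ((mem_Sc D.c_ne).1 hP), mul_one]
  · rw [if_neg hP, one_mul]
    have hPc : c ∉ P.asIdeal := fun h => hP ((mem_Sc D.c_ne).2 h)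
    by_cases h3P : (3 : eis) ∈ P.asIdeal
    · rw [RR_of_three h3P, fib_three D h3P]
    · exact fib_good D hPc h3P (by linarith)

end

end Pool.Agent.Y696
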