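import Mathlib
import Pool.Agent.Y696.LK2
import Pool.Agent.Y696.Hex

/-!
# The value at one of the L-function
-/

set_option autoImplicit false

namespace Pool.Agent.Y696

open NumberField IsDedekindDomain IsLocalRing Filter Topology Complex
open Pool.Agent.W192.HK Pool.Agent.TH936.CM Pool.Agent.TH936.PU
open Pool.Agent.W189.NF (aV eV redMap)
open Pool.Agent.W192.CM (nu)

section val

variable {Γ : Type*} [LinearOrderedCommGroupWithZero Γ]

/-- the conjugate valuation -/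
noncomputable def vc (v : Valuation ℂ Γ) : Valuation ℂ Γ := v.comap (starRingEnd ℂ)

lemma vc_apply (v : Valuation ℂ Γ) (x : ℂ) : vc v x = v ((starRingEnd ℂ) x) := rfl

lemma vc_two {v : Valuation ℂ Γ} (hv : v 2 < 1) : vc v 2 < 1 := by
  rw [vc_apply, map_ofNat]
  exact hv

lemma cube_mod_two {z : eis} (h : IsCoprime z 2) : z ^ 3 - 1 ∈ (sp 2 : Ideal eis) := by
  obtain ⟨x, y, rfl⟩ := eis_rep z
  have h1 : (x : eis) + y * omr ∉ (sp 2 : Ideal eis) := by
    intro h2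
    obtain ⟨a, b, hab⟩ := h
    apply (prime_two).not_isUnit
    rw [Ideal.mem_span_singleton'] at h2
    obtain ⟨t, ht⟩ := h2
    refine IsUnit.of_mul_eq_one (a * t + b) ?_
    linear_combination hab + a * ht
  rw [mem_two] at h1
  have e : ((x : eis) + y * omr) ^ 3 - 1 = ((x ^ 3 + y ^ 3 - 3 * x * y ^ 2 - 1 : ℤ) : eis) +
      ((3 * x ^ 2 * y - 3 * x * y ^ 2 : ℤ) : eis) * omr := by
    push_cast
    linear_combination (3 * x * y ^ 2 + y ^ 3 * (omr - 1) : eis) * omr_sq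
  rw [e, mem_two]
  have hz : ∀ n : ℤ, 2 ∣ n ↔ (n : ZMod 2) = 0 := fun n => (ZMod.intCast_zmod_eq_zero_iff_dvd n 2).symm
  rw [hz, hz] at h1
  rw [hz, hz]
  push_cast
  generalize (x : ZMod 2) = x at *
  generalize (y : ZMod 2) = y at *
  revert x y
  decide

lemma v_sp_two {v : Valuation ℂ Γ} (hv : v 2 < 1) {z : eis} (h : z ∈ (sp 2 : Ideal eis)) :
    v (z : ℂ) < 1 := by
  rw [Ideal.mem_span_singleton'] at h
  obtain ⟨t, rfl⟩ := h
  push_cast
  exact v_mul_lt (v_eis t) hv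

/-- powers of an element that is not congruent to one -/
lemma v_pow_sub {v : Valuation ℂ Γ} (hv : v 2 < 1) {π : eis} (h2 : IsCoprime π 2)
    (h : v ((π : ℂ) - 1) = 1) {f : ℕ} (hf : ¬ 3 ∣ f) : v ((π : ℂ) ^ f - 1) = 1 := by
  have h3 : ∀ k : ℕ, v ((π : ℂ) ^ (3 * k) - 1) < 1 := by
    intro k
    have h4 : π ^ (3 * k) - 1 ∈ (sp 2 : Ideal eis) := by
      rw [pow_mul]
      have h5 : π ^ 3 - 1 ∣ (π ^ 3) ^ k - 1 := sub_one_dvd_pow_sub_one _ _ 
      exact (sp 2 : Ideal eis).mem_of_dvd h5 (cube_mod_two h2)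
    have h5 := v_sp_two hv h4
    push_cast at h5
    exact h5
  have hπ : v (π : ℂ) = 1 := v_cop hv h2
  have hk := Nat.div_add_mod f 3
  have hlt : f % 3 < 3 := Nat.mod_lt _ (by norm_num)
  have hne : f % 3 ≠ 0 := fun h0 => hf (Nat.dvd_of_mod_eq_zero h0)
  set k := f / 3
  rcases (show f % 3 = 1 ∨ f % 3 = 2 by omega) with h1 | h1
  · rw [h1] at hk
    have e : (π : ℂ) ^ f - 1 = ((π : ℂ) - 1) + π * ((π : ℂ) ^ (3 * k) - 1) := by
      rw [← hk, pow_add, pow_one]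
      ring
    rw [e, Valuation.map_add_eq_of_lt_left, h]
    rw [h, map_mul, hπ, one_mul]
    exact h3 k
  · rw [h1] at hk
    have e : (π : ℂ) ^ f - 1 = ((π : ℂ) - 1) * (((π : ℂ) - 1) + 2) +
        π ^ 2 * ((π : ℂ) ^ (3 * k) - 1) := by
      rw [← hk, pow_add]
      ring
    have h4 : v (((π : ℂ) - 1) * (((π : ℂ) - 1) + 2)) = 1 := by
      rw [map_mul, h, one_mul, Valuation.map_add_eq_of_lt_left, h]
      rw [h]
      exact hv
    rw [e, Valuation.map_add_eq_of_lt_left, h4]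
    rw [h4, map_mul, map_pow, hπ, one_pow, one_mul]
    exact h3 k

end val

section
variable {K : Type} [Field K] [NumberField K] {ι : eis →+* 𝓞 K} {G : Type} [CommGroup G] [Finite G]
  [MulSemiringAction G (𝓞 K)] {c : eis} {art : (eis ⧸ (sp c : Ideal eis))ˣ →* G}
  {Γ : Type*} [LinearOrderedCommGroupWithZero Γ]

lemma cop_dvd {P : HeightOneSpectrum eis} (hP : c ∈ P.asIdeal) {x : eis} (h : IsCoprime c x) :
    IsCoprime (gP P) x := by
  refine h.of_isCoprime_of_dvd_left ?_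
  rw [gP_span, Ideal.mem_span_singleton] at hP
  exact hP

omit [Finite G] in
lemma three_not (D : Dat ι G c art) {P : HeightOneSpectrum eis} (hP : c ∈ P.asIdeal) :
    (3 : eis) ∉ P.asIdeal := by
  intro h
  obtain ⟨a, b, hab⟩ := D.cop3
  apply P.isPrime.ne_top
  rw [Ideal.eq_top_iff_one, ← hab]
  exact P.asIdeal.add_mem (P.asIdeal.mul_mem_left _ hP) (P.asIdeal.mul_mem_left _ h)

omit [Finite G] in
/-- the value of the Hecke character at a prime that divides `c` -/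
lemma v_psi (D : Dat ι G c art) {P : HeightOneSpectrum eis} (hP : c ∈ P.asIdeal) :
    ∃ π : eis, psi P.asIdeal = π ∧ IsCoprime π 2 ∧
      ∀ v : Valuation ℂ Γ, v 2 < 1 → v ((π : ℂ) - 1) = 1 := by
  have h2 : IsCoprime (gP P) 2 := cop_dvd hP D.cop2
  have h3 : IsCoprime (gP P) 3 := cop_dvd hP D.cop3
  have hI : IsCoprime P.asIdeal (sp 3) := by
    rw [gP_span, Ideal.isCoprime_span_singleton_iff]
    exact h3
  obtain ⟨π, hπ1, hπ2⟩ := exists_prim hI
  have hpsi : psi P.asIdeal = π := by rw [hπ1]; exact psi_prim hπ2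
  have has : sp π = sp (gP P) := by rw [← hπ1, ← gP_span]
  obtain ⟨w, hw⟩ := Ideal.span_singleton_eq_span_singleton.1 has
  refine ⟨π, hpsi, ?_, ?_⟩
  · rw [← hw] at h2
    exact h2.of_mul_left_left
  · intro v hv
    have h4 := v_gP hv P h2 h3 (D.cube P hP)
    have h5 : ee psi π = 1 := by
      rw [eo.per π 1 hπ2, ee_u isUnit_one]
      rfl
    rw [← hw, eo.mul, h5, ee_u w.isUnit, one_mul] at h4
    push_cast at h4
    have h6 : (π : ℂ) * ((w : eis) : ℂ) - ((w : eis) : ℂ) = ((w : eis) : ℂ) * ((π : ℂ) - 1) := by ring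
    rw [h6, map_mul, v_unit w.isUnit, one_mul] at h4
    exact h4

/-- the denominator of the local factor -/
noncomputable def EV (v : HeightOneSpectrum (𝓞 K)) (s : ℂ) : ℂ :=
  1 - (aV (E0 K) v : ℂ) * (nK v : ℂ) ^ (-s) + (eV (E0 K) v : ℂ) * ((nK v : ℂ) ^ (-s)) ^ 2

lemma EV_diff (v : HeightOneSpectrum (𝓞 K)) : Differentiable ℂ (EV v) := by
  have hn : (nK v : ℂ) ≠ 0 := by
    have := Pool.Agent.H921R2.TatePole.two_le_nm v
    have h : nK v ≠ 0 := by unfold nK; omega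
    exact_mod_cast h
  have h1 : Differentiable ℂ (fun s : ℂ => (nK v : ℂ) ^ (-s)) := by
    intro z
    exact (differentiableAt_id.neg).const_cpow (Or.inl hn)
  unfold EV
  exact ((differentiable_const _).sub ((differentiable_const _).mul h1)).add
    ((differentiable_const _).mul (h1.pow 2))

/-- the local factors above `c` are units at one -/
lemma v_EV (D : Dat ι G c art) {P : HeightOneSpectrum eis} (hP : c ∈ P.asIdeal)
    (w : HeightOneSpectrum (𝓞 K)) (hw : bel ι w = P) {v : Valuation ℂ Γ} (hv : v 2 < 1) :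
    v (EV w 1) = 1 := by
  obtain ⟨π, hπ, hπ2, hπv⟩ := v_psi (Γ := Γ) D hP
  obtain ⟨f, hf0, hfG, hf⟩ := exists_deg D w
  have hf3 : ¬ 3 ∣ f := by
    intro h3
    obtain ⟨n, hn⟩ := D.pgrp
    have h4 := h3.trans hfG
    rw [hn] at h4
    have := (Nat.prime_dvd_prime_iff_eq Nat.prime_three Nat.prime_two).1
      (Nat.prime_three.dvd_of_dvd_pow h4)
    norm_num at this
  have h3w : ι 3 ∉ w.asIdeal := by
    rw [← mem_bel, hw]
    exact three_not D hP
  have h1 := XX_val (ι := ι) w h3w hf 1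
  obtain ⟨-, -, h5⟩ := aV_val (ι := ι) w h3w hf
  rw [hw] at h1 h5
  have h6 : EV w 1 = (1 - (psi P.asIdeal * (nm P.asIdeal : ℂ) ^ (-1 : ℂ)) ^ f) *
      (1 - ((starRingEnd ℂ) (psi P.asIdeal) * (nm P.asIdeal : ℂ) ^ (-1 : ℂ)) ^ f) := by
    have h7 : XX w 1 = (EV w 1)⁻¹ := rfl
    rw [h7] at h1
    exact inv_injective h1
  rw [hπ] at h5 h6
  have hπ0 : (π : ℂ) ≠ 0 := ne_of_v (v_cop hv hπ2)
  have hπc0 : (starRingEnd ℂ) (π : ℂ) ≠ 0 := (map_ne_zero _).2 hπ0
  have hnm : (nm P.asIdeal : ℂ) = (π : ℂ) * (starRingEnd ℂ) (π : ℂ) := by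
    rw [h5, nm_P]
    push_cast
    rfl
  have h8 : EV w 1 = (((starRingEnd ℂ) (π : ℂ)) ^ f - 1) * ((π : ℂ) ^ f - 1) /
      (((starRingEnd ℂ) (π : ℂ)) ^ f * (π : ℂ) ^ f) := by
    rw [h6, Complex.cpow_neg_one, hnm]
    have e1 : (π : ℂ) * ((π : ℂ) * (starRingEnd ℂ) (π : ℂ))⁻¹ = ((starRingEnd ℂ) (π : ℂ))⁻¹ := by
      field_simp
    have e2 : (starRingEnd ℂ) (π : ℂ) * ((π : ℂ) * (starRingEnd ℂ) (π : ℂ))⁻¹ = (π : ℂ)⁻¹ := by
      field_simp
    rw [e1, e2, inv_pow, inv_pow]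
    field_simp
  have k1 := v_pow_sub hv hπ2 (hπv v hv) hf3
  have k2 := v_pow_sub (vc_two hv) hπ2 (hπv (vc v) (vc_two hv)) hf3
  rw [vc_apply, map_sub, map_pow, map_one] at k2
  have k3 : v (π : ℂ) = 1 := v_cop hv hπ2
  have k4 := v_cop (vc_two hv) hπ2
  rw [vc_apply] at k4
  rw [h8, map_div₀, map_mul, map_mul, map_pow, map_pow, k1, k2, k3, k4]
  simp

end

end Pool.Agent.Y696
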