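import Mathlib
import Pool.Agent.Y696.Main1

/-!
# The analytic theorem
-/

set_option autoImplicit false

namespace Pool.Agent.Y696

open NumberField IsDedekindDomain IsLocalRing Filter Topology Complex
open Pool.Agent.W192.HK Pool.Agent.TH936.CM Pool.Agent.TH936.PU
open Pool.Agent.W189.NF (aV eV redMap)
open Pool.Agent.W192.CM (nu)

section
variable {K : Type} [Field K] [NumberField K] {ι : eis →+* 𝓞 K} {G : Type} [CommGroup G] [Finite G]
  [MulSemiringAction G (𝓞 K)] {c : eis} {art : (eis ⧸ (sp c : Ideal eis))ˣ →* G}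

lemma v_six {Γ : Type*} [LinearOrderedCommGroupWithZero Γ] {v : Valuation ℂ Γ} (hv : v 2 < 1) :
    v 6 = v 2 := by
  have : (6 : ℂ) = 2 * 3 := by norm_num
  rw [this, map_mul, v_three hv, mul_one]

/-- the values of the Hecke L-functions are units -/
lemma v_F (D : Dat ι G c art) (χ : MulChar G ℂ) {L : PeriodPair} {Ω : ℂ} (hC : Cur L Ω)
    {Γ : Type*} [LinearOrderedCommGroupWithZero Γ] {v : Valuation ℂ Γ} (hv : v 2 < 1) {a : ℂ}
    (ha : Tendsto (SS (ec (eta art χ))) (𝓝[>] 0) (𝓝 ((nu eis : ℂ) * (starRingEnd ℂ) a))) :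
    v ((starRingEnd ℂ) a / Ω) = 1 := by
  obtain ⟨k, hk⟩ := eta_pow D χ
  have h1 := hecke_unit hC hv D.c_ne D.cop2 D.cop3 hk (et_eta_unit D χ) (fun P hP => by
    have hP' := (mem_Sc D.c_ne).1 hP
    exact v_gP hv P (cop_dvd hP' D.cop2) (cop_dvd hP' D.cop3) (D.cube P hP')) ha
  rw [nu_six, mul_div_assoc, map_mul] at h1
  have h2 : v ((6 : ℕ) : ℂ) = v 2 := by
    rw [Nat.cast_ofNat]
    exact v_six hv
  rw [h2] at h1
  exact mul_left_cancel₀ (v_two_ne (v := v)) (h1.trans (mul_one _).symm)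

lemma v_FF (D : Dat ι G c art) (χ : MulChar G ℂ) {L : PeriodPair} {Ω : ℂ} (hC : Cur L Ω)
    {Γ : Type*} [LinearOrderedCommGroupWithZero Γ] {v : Valuation ℂ Γ} (hv : v 2 < 1) {a : ℂ}
    (ha : Tendsto (SS (ec (eta art χ))) (𝓝[>] 0) (𝓝 ((nu eis : ℂ) * (starRingEnd ℂ) a))) :
    v (a * (starRingEnd ℂ) a / (Ω * (starRingEnd ℂ) Ω)) = 1 := by
  have h1 := v_F D χ hC hv ha
  have h2 := v_F D χ hC (vc_two hv) ha
  rw [vc_apply, map_div₀, Complex.conj_conj] at h2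
  have h3 : a * (starRingEnd ℂ) a / (Ω * (starRingEnd ℂ) Ω) =
      (a / (starRingEnd ℂ) Ω) * ((starRingEnd ℂ) a / Ω) := by
    rw [div_mul_div_comm, mul_comm Ω]
  rw [h3, map_mul, h1, h2, one_mul]

/-- the analytic theorem -/
theorem analytic_main (D : Dat ι G c art) :
    ∃ Lf : ℂ → ℂ, MeromorphicOn Lf Set.univ ∧ (∀ s : ℂ, 3 / 2 < s.re →
      LSeriesSummable ((fun n : ℤ => (n : ℂ)) ∘ (E0 K).LFunction) s ∧ Lf s = (E0 K).LSeries s) ∧
      AnalyticAt ℂ Lf 1 ∧ Lf 1 ≠ 0 ∧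
      ∀ (L : PeriodPair) (Ω : ℂ), Cur L Ω → ∀ (Γ : Type) [LinearOrderedCommGroupWithZero Γ]
        (v : Valuation ℂ Γ), v 2 < 1 → v (Lf 1 / (Ω * (starRingEnd ℂ) Ω) ^ Nat.card G) = 1 := by
  classical
  have hfinM : Finite (MulChar G ℂ) := inferInstance
  have : Fintype (MulChar G ℂ) := Fintype.ofFinite _
  have hH := fun χ : MulChar G ℂ => hecke D.c_ne D.cop3 (η := eta art χ) (et_eta_unit D χ)
  choose F hFd hFs hFl using hH
  have hcard : Fintype.card (MulChar G ℂ) = Nat.card G := by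
    rw [← Nat.card_eq_fintype_card, MulChar.card_eq_card_units_of_hasEnoughRootsOfUnity]
    exact Nat.card_congr toUnits.symm.toEquiv
  set Lf : ℂ → ℂ := fun s => (∏ P ∈ Sc D.c_ne, ∏ v : {v : HeightOneSpectrum (𝓞 K) // bel ι v = P},
    (EV v.1 s)⁻¹) * ∏ χ, (F χ s * (starRingEnd ℂ) (F χ ((starRingEnd ℂ) s))) with hLf
  have hconj : ∀ χ, Differentiable ℂ (fun s => (starRingEnd ℂ) (F χ ((starRingEnd ℂ) s))) := by
    intro χ s
    exact differentiableAt_conj_conj_iff.2 (hFd χ _)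
  have hent : Differentiable ℂ (fun s => ∏ χ, (F χ s * (starRingEnd ℂ) (F χ ((starRingEnd ℂ) s)))) :=
    Differentiable.fun_finsetProd fun χ _ => (hFd χ).mul (hconj χ)
  have hval : ∀ (L : PeriodPair) (Ω : ℂ), Cur L Ω → ∀ (Γ : Type)
      [LinearOrderedCommGroupWithZero Γ] (v : Valuation ℂ Γ), v 2 < 1 →
      v (Lf 1 / (Ω * (starRingEnd ℂ) Ω) ^ Nat.card G) = 1 := by
    intro L Ω hC Γ _ v hv
    have h1 : Lf 1 / (Ω * (starRingEnd ℂ) Ω) ^ Nat.card G =
        (∏ P ∈ Sc D.c_ne, ∏ v : {v : HeightOneSpectrum (𝓞 K) // bel ι v = P}, (EV v.1 1)⁻¹) *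
        ∏ χ : MulChar G ℂ, (F χ 1 * (starRingEnd ℂ) (F χ 1) / (Ω * (starRingEnd ℂ) Ω)) := by
      rw [hLf, Finset.prod_div_distrib, Finset.prod_const, Finset.card_univ, hcard]
      simp only [map_one]
      rw [mul_div_assoc]
    rw [h1, map_mul, map_prod, map_prod]
    have h2 : ∀ P ∈ Sc D.c_ne, v (∏ w : {v : HeightOneSpectrum (𝓞 K) // bel ι v = P},
        (EV w.1 1)⁻¹) = 1 := by
      intro P hP
      rw [map_prod]
      refine Finset.prod_eq_one fun w _ => ?_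
      rw [map_inv₀, v_EV D ((mem_Sc D.c_ne).1 hP) w.1 w.2 hv, inv_one]
    rw [Finset.prod_eq_one h2, one_mul]
    exact Finset.prod_eq_one fun χ _ => v_FF D χ hC hv (hFl χ L Ω hC.lat)
  refine ⟨Lf, ?_, ?_, ?_, ?_, hval⟩
  · have h1 : MeromorphicOn (fun s => ∏ P ∈ Sc D.c_ne,
        ∏ v : {v : HeightOneSpectrum (𝓞 K) // bel ι v = P}, (EV v.1 s)⁻¹) Set.univ := by
      intro z _
      refine MeromorphicAt.fun_prod fun P _ => MeromorphicAt.fun_prod fun w _ => ?_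
      exact ((EV_diff w.1).analyticAt z).meromorphicAt.inv
    intro z hz
    exact (h1 z hz).mul ((hent.analyticAt z).meromorphicAt)
  · intro s hs
    refine ⟨(LSeries_hasProd' (E0 K) (hasse D) hs).1, ?_⟩
    rw [LK_eq D hFs hs]
    rfl
  · have h1 : ∀ P ∈ Sc D.c_ne, ∀ w : {v : HeightOneSpectrum (𝓞 K) // bel ι v = P},
        EV w.1 1 ≠ 0 := by
      intro P hP w
      obtain ⟨V, hV⟩ := exists_over_two
      exact ne_of_v (v_EV D ((mem_Sc D.c_ne).1 hP) w.1 w.2 hV)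
    refine AnalyticAt.mul ?_ (hent.analyticAt 1)
    refine Finset.analyticAt_fun_prod _ fun P hP => Finset.analyticAt_fun_prod _ fun w _ => ?_
    exact ((EV_diff w.1).analyticAt 1).inv (h1 P hP w)
  · obtain ⟨V, hV⟩ := exists_over_two
    obtain ⟨Ω, hΩ, hC⟩ := exists_cur
    have h1 := hval _ Ω hC _ V.valuation hV
    intro h0
    rw [h0, zero_div, map_zero] at h1
    exact zero_ne_one h1

end

end Pool.Agent.Y696
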