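import Mathlib
import Pool.Agent.Y696.Main2
import Pool.Agent.Y696.AlgD

/-!
# Artin data for extensions of the field of cube roots of unity
-/

set_option autoImplicit false

namespace Pool.Agent.Y696

open NumberField IsDedekindDomain IsLocalRing
open Pool.Agent.W192.HK

/-- `art` is the Artin map of the extension `K / F`, of modulus `c` -/
structure Art {F K : Type} [Field F] [NumberField F] [Field K] [NumberField K] [Algebra F K]
    (c : 𝓞 F) (art : (𝓞 F ⧸ Ideal.span {c})ˣ →* Gal(K/F)) : Prop where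
  surj : Function.Surjective art
  unr : ∀ v : HeightOneSpectrum (𝓞 K), algebraMap (𝓞 F) (𝓞 K) c ∉ v.asIdeal →
    Algebra.IsUnramifiedAt (𝓞 F) v.asIdeal
  frob : ∀ π : 𝓞 F, Prime π → ∀ u : (𝓞 F ⧸ Ideal.span {c})ˣ,
    (u : 𝓞 F ⧸ Ideal.span {c}) = Ideal.Quotient.mk _ π →
    ∀ v : HeightOneSpectrum (𝓞 K), algebraMap (𝓞 F) (𝓞 K) π ∈ v.asIdeal →
      ∀ x : 𝓞 K, art u • x - x ^ Nat.card (𝓞 F ⧸ Ideal.span {π}) ∈ v.asIdeal

section
variable {F K : Type} [Field F] [NumberField F] [Field K] [NumberField K] [Algebra F K]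

/-- the group structure -/
noncomputable abbrev commG {c : 𝓞 F} {art : (𝓞 F ⧸ Ideal.span {c})ˣ →* Gal(K/F)}
    (h : Art c art) : CommGroup Gal(K/F) :=
  { (inferInstance : Group Gal(K/F)) with
    mul_comm := fun a b => by
      obtain ⟨x, rfl⟩ := h.surj a
      obtain ⟨y, rfl⟩ := h.surj b
      rw [← map_mul, ← map_mul, mul_comm] }

omit [NumberField F] in
lemma sp_map {e : 𝓞 F ≃+* eis} (c : 𝓞 F) :
    Ideal.span {c} = Ideal.map (e.symm : eis →+* 𝓞 F) (sp (e c)) := by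
  rw [Ideal.map_span, Set.image_singleton]
  congr 2
  exact (e.symm_apply_apply c).symm

/-- the quotient isomorphism -/
noncomputable def qe (e : 𝓞 F ≃+* eis) (c : 𝓞 F) :
    (eis ⧸ (sp (e c) : Ideal eis)) ≃+* 𝓞 F ⧸ Ideal.span {c} :=
  Ideal.quotientEquiv _ _ e.symm (sp_map c)

omit [NumberField F] in
lemma qe_mk (e : 𝓞 F ≃+* eis) (c : 𝓞 F) (x : eis) :
    qe e c (Ideal.Quotient.mk _ x) = Ideal.Quotient.mk _ (e.symm x) := rfl

lemma unr_g [IsGalois F K] (v : HeightOneSpectrum (𝓞 K))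
    (hv : Algebra.IsUnramifiedAt (𝓞 F) v.asIdeal)
    {g : Gal(K/F)} (hg : ∀ x : 𝓞 K, g • x - x ∈ v.asIdeal) : g = 1 := by
  have h1 : v.asIdeal.ramificationIdx (𝓞 F) = 1 := Ideal.ramificationIdx_eq_one _ _
  let p := v.asIdeal.under (𝓞 F)
  have hlo : v.asIdeal.LiesOver p := ⟨rfl⟩
  have hpp : p.IsPrime := inferInstance
  have hp0 : p ≠ ⊥ := fun h => v.ne_bot (Ideal.eq_bot_of_comap_eq_bot h)
  have : p.IsMaximal := hpp.isMaximal hp0
  have : Finite (𝓞 F ⧸ p) := Ideal.finiteQuotientOfFreeOfNeBot p hp0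
  have : Finite p.ResidueField := by
    have := Ideal.bijective_algebraMap_quotient_residueField p
    exact Finite.of_surjective _ this.2
  have h2 := Ideal.card_inertia_eq_ramificationIdxIn (G := Gal(K/F)) p v.asIdeal
  rw [Ideal.ramificationIdxIn_eq_ramificationIdx p v.asIdeal Gal(K/F), h1] at h2
  have h3 : g ∈ Ideal.inertia Gal(K/F) v.asIdeal := by
    rw [AddSubgroup.mem_inertia]
    exact hg
  have h4 : Ideal.inertia Gal(K/F) v.asIdeal = ⊥ := Subgroup.card_eq_one.1 h2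
  rw [h4] at h3
  exact h3

end

section val
variable {F : Type} [Field F] [NumberField F] [IsCyclotomicExtension {3} ℚ F]

lemma val_three_F (v : HeightOneSpectrum (𝓞 F)) (hv : (3 : 𝓞 F) ∈ v.asIdeal) :
    v.valuation F (3 : F) = WithZero.exp (-2 : ℤ) := by
  have : Fact (Nat.Prime 3) := ⟨Nat.prime_three⟩
  let P : HeightOneSpectrum ℤ := ⟨Ideal.span {((3 : ℕ) : ℤ)},
    (Ideal.span_singleton_prime (by norm_num)).2 (Nat.prime_iff_prime_int.1 Nat.prime_three), by
      rw [Ne, Ideal.span_singleton_eq_bot]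
      norm_num⟩
  have hmax : P.asIdeal.IsMaximal := P.isPrime.isMaximal P.ne_bot
  have hlo : v.asIdeal.LiesOver P.asIdeal := by
    constructor
    refine (hmax.eq_of_le ?_ ?_)
    · exact Ideal.IsPrime.ne_top inferInstance
    · rw [Ideal.span_singleton_le_iff_mem, Ideal.under_def, Ideal.mem_comap]
      simpa using hv
  have : v.asIdeal.LiesOver (Ideal.span {((3 : ℕ) : ℤ)}) := hlo
  have h1 := HeightOneSpectrum.valuation_liesOver (K := ℚ) F P v (3 : ℚ)
  have hram : P.asIdeal.ramificationIdx' v.asIdeal = 2 := by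
    rw [Ideal.ramificationIdx'_eq_ramificationIdx _ _ P.ne_bot]
    exact IsCyclotomicExtension.Rat.ramificationIdx_eq_of_prime 3 F v.asIdeal
  rw [hram] at h1
  have h2 : P.valuation ℚ (3 : ℚ) = WithZero.exp (-1 : ℤ) := by
    have := HeightOneSpectrum.intValuation_singleton P (r := ((3 : ℕ) : ℤ))
      (by norm_num) rfl
    rw [← this, ← HeightOneSpectrum.valuation_of_algebraMap (K := ℚ)]
    simp
  rw [h2] at h1
  rw [map_ofNat] at h1
  rw [← h1]
  rfl

lemma sq_exp {x : WithZero (Multiplicative ℤ)} {k : ℤ} (h : x ^ 2 = WithZero.exp (2 * k)) :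
    x = WithZero.exp k := by
  have hx : x ≠ 0 := by
    rintro rfl
    rw [zero_pow (by norm_num)] at h
    exact WithZero.exp_ne_zero h.symm
  obtain ⟨a, rfl⟩ : ∃ a : ℤ, x = WithZero.exp a := ⟨WithZero.log x, (WithZero.exp_log hx).symm⟩
  rw [← WithZero.exp_nsmul] at h
  have := WithZero.exp_injective h
  congr 1
  rw [nsmul_eq_mul] at this
  push_cast at this
  omega

lemma val_theta_F (v : HeightOneSpectrum (𝓞 F)) (hv : (3 : 𝓞 F) ∈ v.asIdeal) {θ : F}
    (hθ : θ ^ 2 = -3) : v.valuation F θ = WithZero.exp (-1 : ℤ) := by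
  apply sq_exp
  rw [← map_pow, hθ, Valuation.map_neg, val_three_F v hv]
  rfl

end val

section dat
variable {F K : Type} [Field F] [NumberField F] [IsCyclotomicExtension {3} ℚ F] [Field K]
  [NumberField K] [Algebra F K]

omit [NumberField F] [IsCyclotomicExtension {3} ℚ F] [NumberField K] in
lemma mem_under_of_lies {v₀ : HeightOneSpectrum (𝓞 F)} {v : HeightOneSpectrum (𝓞 K)}
    (hlo : v.asIdeal.LiesOver v₀.asIdeal) (x : 𝓞 F) :
    x ∈ v₀.asIdeal ↔ algebraMap (𝓞 F) (𝓞 K) x ∈ v.asIdeal := by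
  rw [hlo.over, Ideal.under_def, Ideal.mem_comap]

/-- the prime below -/
noncomputable def und (v : HeightOneSpectrum (𝓞 K)) : HeightOneSpectrum (𝓞 F) :=
  ⟨v.asIdeal.under (𝓞 F), inferInstance, by
    intro h
    exact v.ne_bot (Ideal.eq_bot_of_comap_eq_bot h)⟩

omit [NumberField F] [IsCyclotomicExtension {3} ℚ F] [NumberField K] in
lemma und_lies (v : HeightOneSpectrum (𝓞 K)) : v.asIdeal.LiesOver (und (F := F) v).asIdeal :=
  ⟨rfl⟩

omit [IsCyclotomicExtension {3} ℚ F] in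
lemma unr_of_art {c : 𝓞 F} {art : (𝓞 F ⧸ Ideal.span {c})ˣ →* Gal(K/F)} (h : Art c art)
    (hc : ∀ v₀ : HeightOneSpectrum (𝓞 F), c ∈ v₀.asIdeal → ∀ x : 𝓞 F, x ^ 3 - 2 ∉ v₀.asIdeal) :
    Unr F K := by
  intro v₀ v hlo ⟨x, hx⟩
  have hcv : algebraMap (𝓞 F) (𝓞 K) c ∉ v.asIdeal := by
    rw [← mem_under_of_lies hlo]
    exact fun h => hc v₀ h x hx
  have := h.unr v hcv
  rw [Ideal.ramificationIdx'_eq_ramificationIdx _ _ v₀.ne_bot]
  exact Ideal.ramificationIdx_eq_one _ _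

lemma val_theta_K (hun : Unr F K) (v : HeightOneSpectrum (𝓞 K)) (hv : (3 : 𝓞 K) ∈ v.asIdeal)
    {θ : F} (hθ : θ ^ 2 = -3) : v.valuation K (algebraMap F K θ) = WithZero.exp (-1 : ℤ) := by
  have hlo := und_lies (F := F) v
  have h3 : (3 : 𝓞 F) ∈ (und (F := F) v).asIdeal := by
    rw [mem_under_of_lies hlo, map_ofNat]
    exact hv
  have he := hun (und v) v hlo ⟨-1, by
    have : (-1 : 𝓞 F) ^ 3 - 2 = -3 := by ring
    rw [this]
    exact neg_mem h3⟩
  rw [val_of_unr hlo he, val_theta_F _ h3 hθ]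

/-- the embedding -/
noncomputable def iF (K : Type) [Field K] [NumberField K] [Algebra F K] (e : 𝓞 F ≃+* eis) :
    eis →+* 𝓞 K := (algebraMap (𝓞 F) (𝓞 K)).comp (e.symm : eis →+* 𝓞 F)

omit [NumberField F] [IsCyclotomicExtension {3} ℚ F] in
lemma iF_apply (e : 𝓞 F ≃+* eis) (x : eis) :
    iF K e x = algebraMap (𝓞 F) (𝓞 K) (e.symm x) := rfl

/-- transport of prime ideals -/
noncomputable def trP (e : 𝓞 F ≃+* eis) (P : HeightOneSpectrum eis) : HeightOneSpectrum (𝓞 F) where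
  asIdeal := P.asIdeal.comap (e : 𝓞 F →+* eis)
  isPrime := inferInstance
  ne_bot := by
    intro h
    apply P.ne_bot
    rw [eq_bot_iff]
    intro x hx
    have : e.symm x ∈ P.asIdeal.comap (e : 𝓞 F →+* eis) := by
      rw [Ideal.mem_comap]
      change e (e.symm x) ∈ _
      rw [e.apply_symm_apply]
      exact hx
    rw [h, Ideal.mem_bot, map_eq_zero_iff _ e.symm.injective] at this
    rw [this]
    exact Ideal.zero_mem _

theorem mkDat [IsGalois F K] {n : ℕ} (hn : Module.finrank F K = 2 ^ n) {c : 𝓞 F}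
    {art : (𝓞 F ⧸ Ideal.span {c})ˣ →* Gal(K/F)} (h : Art c art) (e : 𝓞 F ≃+* eis)
    (hc0 : c ≠ 0) (hc2 : IsCoprime c 2) (hc3 : IsCoprime c 3)
    (hc : ∀ v₀ : HeightOneSpectrum (𝓞 F), c ∈ v₀.asIdeal → ∀ x : 𝓞 F, x ^ 3 - 2 ∉ v₀.asIdeal) :
    letI := commG h
    Dat (iF K e) Gal(K/F) (e c) (art.comp (Units.map (qe e c : _ →* _))) := by
  let := commG h
  have hun := unr_of_art h hc
  have hmap : ∀ k : ℕ, IsCoprime c (k : 𝓞 F) → IsCoprime (e c) (k : eis) := by
    intro k hk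
    have := hk.map (e : 𝓞 F →+* eis)
    rwa [map_natCast] at this
  refine ⟨?_, ?_, ?_, ?_, ?_, ?_, ?_, ?_, ?_, ?_, ?_⟩
  · exact (map_ne_zero_iff _ e.injective).2 hc0
  · exact_mod_cast hmap 2 (by exact_mod_cast hc2)
  · exact_mod_cast hmap 3 (by exact_mod_cast hc3)
  · intro P hP x hx
    refine hc (trP e P) hP (e.symm x) ?_
    change e (e.symm x ^ 3 - 2) ∈ P.asIdeal
    rw [map_sub, map_pow, e.apply_symm_apply, map_ofNat]
    exact hx
  · exact ⟨n, by rw [← hn]; exact IsGalois.card_aut_eq_finrank F K⟩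
  · intro b hb
    obtain ⟨a, ha⟩ := Algebra.IsInvariant.isInvariant (A := 𝓞 F) (G := Gal(K/F)) b hb
    exact ⟨e a, by rw [iF_apply, e.symm_apply_apply, ha]⟩
  · intro g a
    rw [iF_apply]
    exact smul_algebraMap (α := Gal(K/F)) g (e.symm a)
  · refine h.surj.comp ?_
    exact (Units.mapEquiv (qe e c).toMulEquiv).surjective
  · intro v hv g hg
    rw [iF_apply, e.symm_apply_apply] at hv
    exact unr_g v (h.unr v hv) hg
  · intro π hπ u hu v hv x
    rw [iF_apply] at hv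
    have h1 : Prime (e.symm π) := (MulEquiv.prime_iff (e.symm : eis ≃* 𝓞 F)).2 hπ
    have h2 : Nat.card (𝓞 F ⧸ Ideal.span {e.symm π}) = Nat.card (eis ⧸ (sp π : Ideal eis)) := by
      have := qe e (e.symm π)
      rw [e.apply_symm_apply] at this
      exact (Nat.card_congr this.toEquiv).symm
    rw [← h2]
    refine h.frob (e.symm π) h1 (Units.map (qe e c : _ →* _) u) ?_ v hv x
    rw [Units.coe_map]
    change qe e c (u : _) = _
    rw [hu, qe_mk]
  · intro v hv h2
    rw [map_ofNat] at hv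
    have hθ : ((e.symm (2 * omr + 1) : 𝓞 F) : F) ^ 2 = -3 := by
      have : (2 * omr + 1) ^ 2 = (-3 : eis) := by linear_combination 4 * omr_sq
      have h3 : (e.symm (2 * omr + 1)) ^ 2 = (-3 : 𝓞 F) := by
        rw [← map_pow, this, map_neg, map_ofNat]
      have h4 := congrArg (algebraMap (𝓞 F) F) h3
      rw [map_pow, map_neg, map_ofNat] at h4
      exact h4
    have h5 := val_theta_K hun v hv hθ
    have h6 := (v.intValuation_le_pow_iff_mem (iF K e (2 * omr + 1)) 2).2 h2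
    rw [← HeightOneSpectrum.valuation_of_algebraMap (K := K)] at h6
    have h7 : v.valuation K (algebraMap F K ((e.symm (2 * omr + 1) : 𝓞 F) : F)) ≤
        WithZero.exp (-((2 : ℕ) : ℤ)) := h6
    rw [h5] at h7
    exact absurd (WithZero.exp_le_exp.1 h7) (by norm_num)

end dat

end Pool.Agent.Y696
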