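import Mathlib
import Pool.Agent.Y696.Bld

/-!
# The discriminant is odd
-/

set_option autoImplicit false

namespace Pool.Agent.Y696

open NumberField IsDedekindDomain

section
variable {F K : Type} [Field F] [NumberField F] [IsCyclotomicExtension {3} ℚ F] [Field K]
  [NumberField K] [Algebra F K]

lemma disc_odd (hun : Unr F K) : ¬ (2 : ℤ) ∣ discr K := by
  rw [NumberField.not_dvd_discr_iff_forall_mem K (𝓞 K) Int.prime_two]
  intro P hP h2
  have h2' : ((2 : ℕ) : 𝓞 K) ∈ P := by exact_mod_cast h2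
  have hP0 : P ≠ ⊥ := by
    rintro rfl
    rw [Ideal.mem_bot] at h2'
    exact absurd h2' (by norm_num)
  let v : HeightOneSpectrum (𝓞 K) := ⟨P, hP, hP0⟩
  have h3 : v.valuation K 2 = WithZero.exp (-1 : ℤ) := val_two_K hun h2'
  let Q : HeightOneSpectrum ℤ := ⟨Ideal.span {((2 : ℕ) : ℤ)},
    (Ideal.span_singleton_prime (by norm_num)).2 (Nat.prime_iff_prime_int.1 Nat.prime_two), by
      rw [Ne, Ideal.span_singleton_eq_bot]
      norm_num⟩
  have hmax : Q.asIdeal.IsMaximal := Q.isPrime.isMaximal Q.ne_bot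
  have hlo : v.asIdeal.LiesOver Q.asIdeal := by
    constructor
    refine (hmax.eq_of_le ?_ ?_)
    · exact Ideal.IsPrime.ne_top inferInstance
    · rw [Ideal.span_singleton_le_iff_mem, Ideal.under_def, Ideal.mem_comap]
      simpa using h2'
  have h1 := HeightOneSpectrum.valuation_liesOver (K := ℚ) K Q v (2 : ℚ)
  have h4 : Q.valuation ℚ (2 : ℚ) = WithZero.exp (-1 : ℤ) := by
    have := HeightOneSpectrum.intValuation_singleton Q (r := ((2 : ℕ) : ℤ))
      (by norm_num) rfl
    rw [← this, ← HeightOneSpectrum.valuation_of_algebraMap (K := ℚ)]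
    simp
  rw [h4, map_ofNat, h3, ← WithZero.exp_nsmul] at h1
  have h5 := WithZero.exp_injective h1
  have h6 : Q.asIdeal.ramificationIdx' v.asIdeal = 1 := by
    rw [nsmul_eq_mul] at h5
    have : ((Q.asIdeal.ramificationIdx' v.asIdeal : ℕ) : ℤ) = 1 := by linarith
    exact_mod_cast this
  rw [Ideal.ramificationIdx'_eq_ramificationIdx _ _ Q.ne_bot] at h6
  have : Finite (ℤ ⧸ P.under ℤ) := by
    rw [← hlo.over]
    exact Ideal.finiteQuotientOfFreeOfNeBot _ Q.ne_bot
  have hmax' : (P.under ℤ).IsMaximal := by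
    have := hlo.over
    change _ = P.under ℤ at this
    rw [← this]
    exact hmax
  have : Finite (P.under ℤ).ResidueField := by
    have := Ideal.bijective_algebraMap_quotient_residueField (P.under ℤ)
    exact Finite.of_surjective _ this.2
  exact (Ideal.ramificationIdx_eq_one_iff (q := P) (R := ℤ)).1 h6

lemma v_oddZ {Γ : Type*} [LinearOrderedCommGroupWithZero Γ] {v : Valuation ℂ Γ} (hv : v 2 < 1)
    {d : ℤ} (hd : ¬ (2 : ℤ) ∣ d) : v (d : ℂ) = 1 := by
  obtain ⟨k, hk⟩ : Odd d := by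
    rw [← Int.not_even_iff_odd]
    exact fun h => hd h.two_dvd
  have h1 : v ((k : ℤ) : ℂ) ≤ 1 := by
    have : ∀ m : ℕ, v (m : ℂ) ≤ 1 := by
      intro m
      induction m with
      | zero => simp
      | succ m ih =>
        push_cast
        exact (v.map_add _ _).trans (max_le ih (by simp))
    rcases Int.natAbs_eq k with h | h
    · rw [h, Int.cast_natCast]; exact this _
    · rw [h, Int.cast_neg, Int.cast_natCast, Valuation.map_neg]; exact this _
  have h2 : v (2 * (k : ℂ)) < 1 := by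
    rw [map_mul]
    calc v 2 * v (k : ℂ) ≤ v 2 * 1 := mul_le_mul_right h1 _
      _ < 1 := by rw [mul_one]; exact hv
  rw [hk]
  push_cast
  have h3 := v.map_add_eq_of_lt_right (x := 2 * (k : ℂ)) (y := 1) (by rw [map_one]; exact h2)
  rw [h3, map_one]

lemma v_sqrtD {Γ : Type*} [LinearOrderedCommGroupWithZero Γ] {v : Valuation ℂ Γ} (hv : v 2 < 1)
    {d : ℤ} (hd : ¬ (2 : ℤ) ∣ d) : v ((Real.sqrt |(d : ℝ)| : ℝ) : ℂ) = 1 := by
  have h1 : (((Real.sqrt |(d : ℝ)| : ℝ) : ℂ)) ^ 2 = ((|d| : ℤ) : ℂ) := by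
    rw [← Complex.ofReal_pow, Real.sq_sqrt (abs_nonneg _), ← Int.cast_abs]
    norm_cast
  have h2 : v (((Real.sqrt |(d : ℝ)| : ℝ) : ℂ)) ^ 2 = 1 := by
    rw [← map_pow, h1]
    exact v_oddZ hv (by rwa [dvd_abs])
  exact (pow_eq_one_iff_of_nonneg (by simp) (by norm_num)).1 h2

end

end Pool.Agent.Y696
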