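import Mathlib
import Pool.Agent.Y696.Dsr
import Pool.Agent.Y678.CM.Tam3

/-!
# The local indices are odd and the model is minimal
-/

set_option autoImplicit false

namespace Pool.Agent.Y696

open NumberField IsDedekindDomain WithZero WeierstrassCurve
open scoped Classical
open Pool.Agent.Y678.CM (NsRed)

section loc
variable {L : Type} [Field L]

/-- all points have nonsingular reduction if three is a unit -/
lemma nsred_all (v : Valuation L ℤᵐ⁰) (h3 : v 3 = 1) {W : WeierstrassCurve L}
    (h : W.a₁ = 0 ∧ W.a₂ = 0 ∧ W.a₃ = 1 ∧ W.a₄ = 0 ∧ W.a₆ = 0) (P : W.toAffine.Point) :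
    NsRed v W P := by
  obtain ⟨h1, h2, ha3, h4, h6⟩ := h
  rcases P with _ | ⟨x, y, hP⟩
  · trivial
  · show 1 ≤ v (2 * y + W.a₁ * x + W.a₃) ∨ 1 ≤ v (3 * x ^ 2 + 2 * W.a₂ * x + W.a₄ - W.a₁ * y)
    rw [h1, h2, ha3, h4]
    have e1 : 2 * y + 0 * x + 1 = 2 * y + 1 := by ring
    have e2 : 3 * x ^ 2 + 2 * 0 * x + 0 - 0 * y = 3 * x ^ 2 := by ring
    rw [e1, e2, map_mul, h3, one_mul, map_pow]
    by_contra hcon
    rw [not_or, not_le, not_le] at hcon
    obtain ⟨c1, c2⟩ := hcon
    have hx : v x < 1 := by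
      by_contra hx
      exact absurd c2 (not_lt.2 (one_le_pow₀ (not_lt.1 hx)))
    have heq : y ^ 2 + y = x ^ 3 := by
      have := (Affine.equation_iff x y).1 hP.1
      rw [h1, h2, ha3, h4, h6] at this
      linear_combination this
    have hsq : (2 * y + 1) ^ 2 = 4 * x ^ 3 + 1 := by linear_combination 4 * heq
    have h41 : v 4 ≤ 1 := by
      have : (4 : L) = 3 + 1 := by norm_num
      rw [this]
      exact (v.map_add _ _).trans (by rw [h3, map_one, max_self])
    have h5 : v (4 * x ^ 3) < 1 := by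
      rw [map_mul, map_pow]
      calc v 4 * v x ^ 3 ≤ 1 * v x ^ 3 := by gcongr
        _ = v x ^ 3 := one_mul _
        _ < 1 := pow_lt_one₀ zero_le hx (by norm_num)
    have h6' : v (4 * x ^ 3 + 1) = 1 := by
      rw [v.map_add_eq_of_lt_right (by rw [map_one]; exact h5), map_one]
    have h7 : v ((2 * y + 1) ^ 2) < 1 := by
      rw [map_pow]
      exact pow_lt_one₀ zero_le c1 (by norm_num)
    rw [hsq, h6'] at h7
    exact lt_irrefl _ h7

end loc

section
variable {F K : Type} [Field F] [NumberField F] [IsCyclotomicExtension {3} ℚ F] [Field K]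
  [NumberField K] [Algebra F K]

omit [NumberField K] in
lemma bc_coeffs (L : Type) [Field L] [Algebra K L] :
    ((E0 K).baseChange L).a₁ = 0 ∧ ((E0 K).baseChange L).a₂ = 0 ∧
      ((E0 K).baseChange L).a₃ = 1 ∧ ((E0 K).baseChange L).a₄ = 0 ∧
      ((E0 K).baseChange L).a₆ = 0 :=
  ⟨map_zero (algebraMap K L), map_zero (algebraMap K L), map_one (algebraMap K L),
      map_zero (algebraMap K L), map_zero (algebraMap K L)⟩

/-- the valuation of three or of its square root -/
lemma val_cases (hun : Unr F K) (v : HeightOneSpectrum (𝓞 K)) :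
    (Valued.v (3 : v.adicCompletion K) = 1) ∨
    ∃ θ : v.adicCompletion K, θ ^ 2 = -3 ∧ Valued.v θ = exp (-1 : ℤ) := by
  have h3 : (3 : v.adicCompletion K) = algebraMap K (v.adicCompletion K) 3 := by rw [map_ofNat]
  by_cases hv : (3 : 𝓞 K) ∈ v.asIdeal
  · right
    obtain ⟨ζ, hζ⟩ := IsCyclotomicExtension.exists_isPrimitiveRoot ℚ F
      (Set.mem_singleton 3) (by norm_num)
    have h1 : ζ ^ 2 + ζ + 1 = 0 := by
      have h3 : ζ ^ 3 = 1 := hζ.pow_eq_one
      have h4 : ζ ≠ 1 := hζ.ne_one (by norm_num)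
      have h5 : (ζ - 1) * (ζ ^ 2 + ζ + 1) = 0 := by
        linear_combination h3
      exact (mul_eq_zero.1 h5).resolve_left (sub_ne_zero.2 h4)
    have hθ : (2 * ζ + 1) ^ 2 = -3 := by linear_combination 4 * h1
    refine ⟨algebraMap K (v.adicCompletion K) (algebraMap F K (2 * ζ + 1)), ?_, ?_⟩
    · rw [← map_pow, ← map_pow, hθ, map_neg, map_neg, map_ofNat, map_ofNat]
    · rw [Pool.Agent.H723R3.valued_algebraMap]
      exact val_theta_K hun v hv hθ
  · left
    rw [h3, Pool.Agent.H723R3.valued_algebraMap]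
    have : (3 : K) = algebraMap (𝓞 K) K 3 := by rw [map_ofNat]
    rw [this, HeightOneSpectrum.valuation_of_algebraMap]
    exact (HeightOneSpectrum.intValuation_eq_one_iff).2 hv

/-- **the points of nonsingular reduction form a subgroup of odd index** -/
theorem tam_all (hun : Unr F K) (v : HeightOneSpectrum (𝓞 K)) :
    ∃ H : AddSubgroup ((E0 K).baseChange (v.adicCompletion K)).toAffine.Point,
      (∀ P, P ∈ H ↔ NsRed Valued.v ((E0 K).baseChange (v.adicCompletion K)) P) ∧ Odd H.index := by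
  rcases val_cases hun v with h | ⟨θ, h1, h2⟩
  · exact ⟨⊤, fun P => ⟨fun _ => nsred_all _ h (bc_coeffs _) P, fun _ => trivial⟩, by
      rw [AddSubgroup.index_top]; exact odd_one⟩
  · exact Pool.Agent.Y678.CM.tam_odd _ h1 h2 (bc_coeffs _)

end

section min
open IsDiscreteValuationRing IsLocalRing IsDedekindDomain.HeightOneSpectrum
variable (R : Type) [CommRing R] [IsDomain R] [IsDiscreteValuationRing R] {L : Type}
  [Field L] [Algebra R L] [IsFractionRing R L]

lemma isMinimal_E0 (h : ∀ u ∈ IsLocalRing.maximalIdeal R, ¬ u ^ 12 ∣ (27 : R)) :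
    WeierstrassCurve.IsMinimal R (E0 L) := by
  refine ⟨⟨by
    change WeierstrassCurve.IsIntegral R ((1 : WeierstrassCurve.VariableChange L) • E0 L)
    rw [one_smul]
    infer_instance, ?_⟩⟩
  intro C hC _
  have hC' : WeierstrassCurve.IsIntegral R (C • E0 L) := hC
  change WeierstrassCurve.valuation_Δ_aux R (C • E0 L) ≤
    WeierstrassCurve.valuation_Δ_aux R ((1 : WeierstrassCurve.VariableChange L) • E0 L)
  rw [one_smul, ← Subtype.coe_le_coe, valuation_Δ_aux_eq_of_isIntegral,
    valuation_Δ_aux_eq_of_isIntegral, variableChange_Δ, E0_Δ, map_mul]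
  have hu0 : ((C.u : Lˣ) : L) ≠ 0 := C.u.ne_zero
  have huv : ((C.u⁻¹ : Lˣ) : L) * ((C.u : Lˣ) : L) = 1 := by simp
  have hle : valuation L (maximalIdeal R) ((C.u⁻¹ : Lˣ) : L) ≤ 1 := by
    by_contra hlt
    rw [not_le] at hlt
    have h1 : valuation L (maximalIdeal R) ((C.u : Lˣ) : L) < 1 := by
      have h2 := congrArg (valuation L (maximalIdeal R)) huv
      rw [map_mul, map_one] at h2
      by_contra h3
      rw [not_lt] at h3
      exact absurd h2 (one_lt_mul_of_lt_of_le hlt h3).ne'
    obtain ⟨u₀, hu₀⟩ := exists_lift_of_le_one (A := R) (K := L) h1.le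
    have hmem : u₀ ∈ IsLocalRing.maximalIdeal R := by
      rw [← hu₀] at h1
      exact (valuation_lt_one_iff_mem (K := L) (maximalIdeal R) u₀).1 h1
    obtain ⟨r, hr⟩ := WeierstrassCurve.Δ_integral_of_isIntegral R (C • E0 L)
    rw [variableChange_Δ, E0_Δ] at hr
    refine h u₀ hmem ⟨-r, ?_⟩
    apply IsFractionRing.injective R L
    rw [map_mul, map_neg, map_pow, hr, hu₀, map_ofNat]
    have h5 : ((C.u : Lˣ) : L) ^ 12 * (((C.u⁻¹ : Lˣ) : L)) ^ 12 = 1 := by
      rw [← mul_pow, mul_comm, huv, one_pow]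
    linear_combination -27 * h5
  calc valuation L (maximalIdeal R) (((C.u⁻¹ : Lˣ) : L) ^ 12) * valuation L (maximalIdeal R) (-27)
      ≤ 1 * valuation L (maximalIdeal R) (-27) := by
        rw [map_pow]
        gcongr
        exact pow_le_one₀ zero_le hle
    _ = _ := one_mul _

end min

section
variable {F K : Type} [Field F] [NumberField F] [IsCyclotomicExtension {3} ℚ F] [Field K]
  [NumberField K] [Algebra F K]

/-- **the model is minimal at every finite place** -/
theorem min_all (hun : Unr F K) (v : HeightOneSpectrum (𝓞 K)) :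
    WeierstrassCurve.IsMinimal (v.adicCompletionIntegers K)
      ((E0 K).baseChange (v.adicCompletion K)) := by
  have hbc : (E0 K).baseChange (v.adicCompletion K) = E0 (v.adicCompletion K) := E0_map _
  rw [hbc]
  apply isMinimal_E0
  rintro u hu ⟨r, hr⟩
  have h1 : Valued.v (u : v.adicCompletion K) < 1 := (Pool.Agent.W189.NF.mem_max_iff v u).1 hu
  have h2 : Valued.v (u : v.adicCompletion K) ≤ exp (-1 : ℤ) := exp_lt h1
  have h3 : Valued.v (r : v.adicCompletion K) ≤ 1 := r.2
  have h4 : (27 : v.adicCompletion K) = (u : v.adicCompletion K) ^ 12 * (r : v.adicCompletion K) := by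
    have := congrArg (algebraMap (v.adicCompletionIntegers K) (v.adicCompletion K)) hr
    rw [map_mul, map_pow, map_ofNat] at this
    exact this
  have h5 : Valued.v (27 : v.adicCompletion K) ≤ exp (-12 : ℤ) := by
    rw [h4, map_mul, map_pow]
    calc _ ≤ (exp (-1 : ℤ)) ^ 12 * 1 := by gcongr
      _ = exp (-12 : ℤ) := by rw [mul_one, ← exp_nsmul]; rfl
  have h6 : (exp (-6 : ℤ) : ℤᵐ⁰) ≤ Valued.v (27 : v.adicCompletion K) := by
    rcases val_cases hun v with h | ⟨θ, e1, e2⟩
    · have : (27 : v.adicCompletion K) = 3 ^ 3 := by norm_num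
      rw [this, map_pow, h, one_pow, ← exp_zero, exp_le_exp]
      norm_num
    · have : (27 : v.adicCompletion K) = -θ ^ 6 := by
        linear_combination (θ ^ 4 - 3 * θ ^ 2 + 9) * e1
      rw [this, Valuation.map_neg, map_pow, e2, ← exp_nsmul]
      exact le_of_eq rfl
  have h7 := h6.trans h5
  rw [exp_le_exp] at h7
  norm_num at h7

end

end Pool.Agent.Y696
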