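import Mathlib
import Pool.Agent.Y696.EvL
import Pool.Agent.Y696.Fac

/-!
# Comparison of the local conditions with the valuations of the cubic field
-/

set_option autoImplicit false

namespace Pool.Agent.Y696

open IsDedekindDomain NumberField WithZero

section newton
variable {F : Type} [Field F] (v : Valuation F ℤᵐ⁰)

lemma v_nat_le (n : ℕ) : v (n : F) ≤ 1 := by
  induction n with
  | zero => simp
  | succ n ih =>
    rw [Nat.cast_succ]
    exact v.map_add_le ih (by rw [map_one])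

lemma pow_inj_of {a b : ℤᵐ⁰} {e : ℕ} (he : e ≠ 0) (h : a ^ e = b ^ e) : a = b :=
  (pow_left_inj₀ zero_le zero_le he).1 h

lemma v_one_of_cube {a : F} (h2 : v 2 = 1) (ha : v (a ^ 3 - 2) < 1) : v a = 1 := by
  have h : v (a ^ 3) = v 2 := by
    have : a ^ 3 = (a ^ 3 - 2) + 2 := by ring
    rw [this, Valuation.map_add_eq_of_lt_right]
    rw [h2]
    exact ha
  rw [map_pow, h2] at h
  exact pow_inj_of (e := 3) (by norm_num) (by rw [h, one_pow])

/-- Newton approximation of a cube root of two -/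
lemma newton (h2 : v 2 = 1) (h3 : v 3 = 1) {x : F} (hx : v (x ^ 3 - 2) < 1) (n : ℕ) :
    ∃ a : F, v (a - x) < 1 ∧ v (a ^ 3 - 2) ≤ exp (-((n : ℤ) + 1)) := by
  have key : ∀ z : F, v z < 1 → v z ≤ exp (-1 : ℤ) := by
    intro z hz
    by_cases h0 : z = 0
    · rw [h0, map_zero]; exact zero_le
    · obtain ⟨m, hm⟩ : ∃ m : ℤ, v z = exp m := ⟨log (v z), (exp_log ((v.ne_zero_iff).2 h0)).symm⟩
      rw [hm, ← exp_zero, exp_lt_exp] at hz
      rw [hm, exp_le_exp]
      omega
  induction n with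
  | zero => exact ⟨x, by simp, by simpa using key _ hx⟩
  | succ n ih =>
    obtain ⟨a, ha, hn⟩ := ih
    have hn1 : v (a ^ 3 - 2) < 1 := lt_of_le_of_lt hn (by rw [← exp_zero, exp_lt_exp]; omega)
    have hva : v a = 1 := v_one_of_cube v h2 hn1
    have ha0 : a ≠ 0 := by
      rintro rfl
      simp at hva
    have h30 : (3 : F) ≠ 0 := by
      intro h
      rw [h, map_zero] at h3
      exact zero_ne_one h3
    set h : F := -(a ^ 3 - 2) / (3 * a ^ 2) with hh
    have hvh : v h = v (a ^ 3 - 2) := by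
      rw [hh, map_div₀, Valuation.map_neg, map_mul, map_pow, h3, hva]
      simp
    have e : (a + h) ^ 3 - 2 = h ^ 2 * (3 * a + h) := by
      have : 3 * a ^ 2 * h = -(a ^ 3 - 2) := by
        rw [hh]
        field_simp
      linear_combination this
    refine ⟨a + h, ?_, ?_⟩
    · rw [show a + h - x = (a - x) + h by ring]
      exact v.map_add_lt ha (by rw [hvh]; exact hn1)
    · rw [e, map_mul, map_pow, hvh]
      have h4 : v (3 * a + h) ≤ 1 := by
        refine v.map_add_le ?_ ?_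
        · rw [map_mul, h3, hva, one_mul]
        · rw [hvh]; exact hn1.le
      refine (mul_le_of_le_one_right' h4).trans ?_
      refine (pow_le_pow_left₀ zero_le hn 2).trans ?_
      rw [← exp_nsmul, exp_le_exp]
      simp only [nsmul_eq_mul]
      push_cast
      omega

end newton

section cmpA
variable {F k A : Type} [Field F] [NumberField F] [IsCyclotomicExtension {3} ℚ F]
  [Field k] [NumberField k] [Field A] [NumberField A] [Algebra k A] [Algebra F A]

omit [NumberField F] [IsCyclotomicExtension {3} ℚ F] in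
lemma ne_zero_ram {v₀ : HeightOneSpectrum (𝓞 F)} {Q : HeightOneSpectrum (𝓞 A)}
    (hlo : Q.asIdeal.LiesOver v₀.asIdeal) : v₀.asIdeal.ramificationIdx' Q.asIdeal ≠ 0 :=
  Ideal.IsDedekindDomain.ramificationIdx'_ne_zero_of_liesOver Q.asIdeal v₀.ne_bot

theorem cmp_a {π : k} (hπ : π ^ 3 = 2) {p : ℕ} (hp : p.Prime) (h2 : p ≠ 2) (h3 : p ≠ 3)
    {P : HeightOneSpectrum (𝓞 k)} {Q : HeightOneSpectrum (𝓞 A)} {v₀ : HeightOneSpectrum (𝓞 F)}
    (hPp : (p : 𝓞 k) ∈ P.asIdeal)
    (hQP : Q.asIdeal.LiesOver P.asIdeal) (hQv : Q.asIdeal.LiesOver v₀.asIdeal)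
    (hx : ∃ x : 𝓞 F, x ^ 3 - 2 ∈ v₀.asIdeal) {δ : Cb ℚ}
    (hδ : algebraMap ℚ k δ.a + algebraMap ℚ k δ.b * π + algebraMap ℚ k δ.c * π ^ 2 ≠ 0)
    (hev : EvV (v₀.valuation F) (Cb.map (algebraMap ℚ F) δ)) :
    ∃ n : ℤ, P.valuation k (algebraMap ℚ k δ.a + algebraMap ℚ k δ.b * π +
      algebraMap ℚ k δ.c * π ^ 2) = exp (2 * n) := by
  set q := Q.valuation A with hq
  set v := v₀.valuation F with hv
  have hqF : ∀ x, q (algebraMap F A x) = v x ^ (v₀.asIdeal.ramificationIdx' Q.asIdeal) := fun x =>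
    (HeightOneSpectrum.valuation_liesOver A v₀ Q x).symm
  have hqk : ∀ x, q (algebraMap k A x) = P.valuation k x ^
      (P.asIdeal.ramificationIdx' Q.asIdeal) := fun x =>
    (HeightOneSpectrum.valuation_liesOver A P Q x).symm
  have he0 : v₀.asIdeal.ramificationIdx' Q.asIdeal ≠ 0 := ne_zero_ram hQv
  have he1 : P.asIdeal.ramificationIdx' Q.asIdeal ≠ 0 :=
    Ideal.IsDedekindDomain.ramificationIdx'_ne_zero_of_liesOver Q.asIdeal P.ne_bot
  set e₀ := v₀.asIdeal.ramificationIdx' Q.asIdeal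
  set e₁ := P.asIdeal.ramificationIdx' Q.asIdeal
  -- `p` lies in `v₀`
  have hPp' : P.valuation k (p : k) < 1 := (nat_mem_iff P p).1 hPp
  have hqp : q (p : A) < 1 := by
    have := hqk (p : k)
    rw [map_natCast] at this
    rw [this]
    exact pow_lt_one₀ zero_le hPp' he1
  have hvp : v (p : F) < 1 := by
    have := hqF (p : F)
    rw [map_natCast] at this
    rw [this] at hqp
    by_contra h
    push Not at h
    exact absurd hqp (not_lt.2 (one_le_pow₀ h))
  have hvp' : v (p : F) = exp (-1 : ℤ) := val_prime_F hp h3 v₀ ((nat_mem_iff v₀ p).2 hvp)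
  have hcop : ∀ l : ℕ, l.Prime → p ≠ l → v (l : F) = 1 := by
    intro l hl hne
    refine le_antisymm (v_nat_le v l) ?_
    by_contra h
    push Not at h
    have hco : Nat.Coprime p l := (Nat.coprime_primes hp hl).2 hne
    obtain ⟨a, b, hab⟩ : ∃ a b : ℤ, (p : ℤ) * a + l * b = 1 :=
      ⟨_, _, (Nat.gcd_eq_gcd_ab p l).symm.trans (by rw [hco]; rfl)⟩
    have hzle : ∀ z : ℤ, v (z : F) ≤ 1 := by
      intro z
      have := v₀.valuation_le_one (K := F) ((z : ℤ) : 𝓞 F)
      have e : algebraMap (𝓞 F) F ((z : ℤ) : 𝓞 F) = (z : F) := map_intCast _ _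
      rw [← e]
      exact this
    have h1 : v (((p : ℤ) * a + l * b : ℤ) : F) < 1 := by
      push_cast
      refine v.map_add_lt ?_ ?_
      · rw [map_mul]
        exact mul_lt_one_of_nonneg_of_lt_one_left zero_le hvp (hzle a)
      · rw [map_mul]
        exact mul_lt_one_of_nonneg_of_lt_one_left zero_le h (hzle b)
    rw [hab] at h1
    simp at h1
  have hv2 : v 2 = 1 := by exact_mod_cast hcop 2 Nat.prime_two h2
  have hv3 : v 3 = 1 := by exact_mod_cast hcop 3 Nat.prime_three h3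
  -- the root of unity
  obtain ⟨ζ, hζ⟩ := IsCyclotomicExtension.exists_isPrimitiveRoot (S := {3}) ℚ F
    (Set.mem_singleton 3) (by norm_num)
  have hζ3 : ζ ^ 3 = 1 := hζ.pow_eq_one
  have hζs : ζ ^ 2 + ζ + 1 = 0 := by
    have h4 : ζ ≠ 1 := hζ.ne_one (by norm_num)
    have h5 : (ζ - 1) * (ζ ^ 2 + ζ + 1) = 0 := by linear_combination hζ3
    exact (mul_eq_zero.1 h5).resolve_left (sub_ne_zero.2 h4)
  set ρ : A := algebraMap k A π with hρ
  have hρ3 : ρ ^ 3 = 2 := by rw [hρ, ← map_pow, hπ, map_ofNat]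
  obtain ⟨x, hx⟩ := hx
  have hx' : v ((x : F) ^ 3 - 2) < 1 := by
    have := (HeightOneSpectrum.valuation_lt_one_iff_mem (K := F) v₀ _).2 hx
    have e : algebraMap (𝓞 F) F (x ^ 3 - 2) = (x : F) ^ 3 - 2 := by
      rw [map_sub, map_pow, map_ofNat]
    rw [← e]
    exact this
  -- a root congruent to `ρ`
  obtain ⟨y, hy3, hy⟩ : ∃ y : F, v (y ^ 3 - 2) < 1 ∧ q (ρ - algebraMap F A y) < 1 := by
    have hprod : q ((ρ - algebraMap F A x) * (ρ - algebraMap F A (ζ * x)) *
        (ρ - algebraMap F A (ζ ^ 2 * x))) < 1 := by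
      have e : (ρ - algebraMap F A x) * (ρ - algebraMap F A (ζ * x)) *
        (ρ - algebraMap F A (ζ ^ 2 * x)) = algebraMap F A (-((x : F) ^ 3 - 2)) := by
        have hz := congrArg (algebraMap F A) hζs
        simp only [map_add, map_pow, map_one, map_zero] at hz
        have hz3 := congrArg (algebraMap F A) hζ3
        simp only [map_pow, map_one] at hz3
        simp only [map_mul, map_neg, map_sub, map_pow, map_ofNat]
        set z := algebraMap F A ζ
        set X := algebraMap F A (x : F)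
        linear_combination hρ3 - (ρ ^ 2 * X) * hz + (ρ * X ^ 2 * z) * hz - X ^ 3 * hz3
      rw [e, hqF, Valuation.map_neg]
      exact pow_lt_one₀ zero_le hx' he0
    by_contra hcon
    push Not at hcon
    have hz3 : ∀ y : F, y ^ 3 = (x : F) ^ 3 → 1 ≤ q (ρ - algebraMap F A y) := by
      intro y hy
      exact hcon y (by rw [hy]; exact hx')
    have c1 := hz3 x rfl
    have c2 := hz3 (ζ * x) (by rw [mul_pow, hζ3, one_mul])
    have c3 := hz3 (ζ ^ 2 * x) (by rw [mul_pow, ← pow_mul, mul_comm 2 3, pow_mul, hζ3]; ring)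
    rw [map_mul, map_mul] at hprod
    exact absurd hprod (not_lt.2 (one_le_mul (one_le_mul c1 c2) c3))
  -- the element of `A`
  set d : A := algebraMap k A (algebraMap ℚ k δ.a + algebraMap ℚ k δ.b * π +
    algebraMap ℚ k δ.c * π ^ 2) with hd
  have hd0 : d ≠ 0 := by
    rw [hd]
    intro h
    exact hδ ((map_eq_zero _).1 h)
  obtain ⟨kd, hkd⟩ := exp_lb q hd0
  obtain ⟨n₀, hn₀⟩ := hev
  set b : A := algebraMap k A (algebraMap ℚ k δ.b) with hb
  set c : A := algebraMap k A (algebraMap ℚ k δ.c) with hc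
  obtain ⟨kb, hkb⟩ := exp_bd q b
  obtain ⟨kc, hkc⟩ := exp_bd q c
  obtain ⟨a, hay, ha⟩ := newton v hv2 hv3 hy3 (n₀ + kd + kb + kc)
  have ha1 : v (a ^ 3 - 2) < 1 := lt_of_le_of_lt ha (by rw [← exp_zero, exp_lt_exp]; omega)
  have hva : v a = 1 := v_one_of_cube v hv2 ha1
  obtain ⟨m, hm⟩ := hn₀ a (ha.trans (by rw [exp_le_exp]; push_cast; omega))
  -- `q (ρ - a)` is small
  have hqa : q (algebraMap F A a) = 1 := by rw [hqF, hva, one_pow]
  have hra : q (ρ - algebraMap F A a) < 1 := by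
    rw [show ρ - algebraMap F A a = (ρ - algebraMap F A y) - algebraMap F A (a - y) by
      rw [map_sub]; ring]
    refine q.map_sub_lt hy ?_
    rw [hqF]
    exact pow_lt_one₀ zero_le hay he0
  have hqρ : q ρ ≤ 1 := by
    rw [show ρ = (ρ - algebraMap F A a) + algebraMap F A a by ring]
    exact q.map_add_le hra.le hqa.le
  have hq3 : q 3 = 1 := by
    have := hqF 3
    rw [map_ofNat, hv3, one_pow] at this
    exact this
  have hfac : q (ρ ^ 2 + ρ * algebraMap F A a + algebraMap F A a ^ 2) = 1 := by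
    rw [show ρ ^ 2 + ρ * algebraMap F A a + algebraMap F A a ^ 2 =
      (ρ - algebraMap F A a) * (ρ + 2 * algebraMap F A a) + 3 * algebraMap F A a ^ 2 by ring]
    have h1 : q (3 * algebraMap F A a ^ 2) = 1 := by
      rw [map_mul, map_pow, hq3, hqa, one_pow, one_mul]
    rw [Valuation.map_add_eq_of_lt_right, h1]
    rw [h1, map_mul]
    refine mul_lt_one_of_nonneg_of_lt_one_left zero_le hra (q.map_add_le hqρ ?_)
    rw [map_mul, hqa, mul_one]
    exact v_two_le q
  have hrs : q (ρ - algebraMap F A a) ≤ exp (-(((n₀ + kd + kb + kc : ℕ) : ℤ) + 1)) := by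
    have e : (ρ - algebraMap F A a) * (ρ ^ 2 + ρ * algebraMap F A a + algebraMap F A a ^ 2) =
        algebraMap F A (-(a ^ 3 - 2)) := by
      rw [map_neg, map_sub, map_pow, map_ofNat]
      linear_combination hρ3
    have e' := congrArg q e
    rw [map_mul, hfac, mul_one, hqF, Valuation.map_neg] at e'
    rw [e']
    refine le_trans ?_ ha
    exact pow_le_of_le_one zero_le ha1.le he0
  -- comparison
  have hcomp : q (d - algebraMap F A ((Cb.map (algebraMap ℚ F) δ).ev a)) < q d := by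
    have e : d - algebraMap F A ((Cb.map (algebraMap ℚ F) δ).ev a) =
        (ρ - algebraMap F A a) * (b + c * (ρ + algebraMap F A a)) := by
      have hrat : ∀ r : ℚ, algebraMap F A (algebraMap ℚ F r) = algebraMap k A (algebraMap ℚ k r) :=
        fun r => by rw [eq_ratCast, eq_ratCast, map_ratCast, map_ratCast]
      rw [hd, hb, hc, Cb.ev]
      simp only [Cb.map_a', Cb.map_b', Cb.map_c', map_add, map_mul, map_pow, hrat]
      ring
    rw [e, map_mul]
    refine lt_of_lt_of_le ?_ hkd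
    have h5 : q (b + c * (ρ + algebraMap F A a)) ≤ exp ((kb + kc : ℕ) : ℤ) := by
      refine q.map_add_le (hkb.trans (by rw [exp_le_exp]; omega)) ?_
      rw [map_mul]
      refine (mul_le_of_le_one_right' (q.map_add_le hqρ hqa.le)).trans
        (hkc.trans (by rw [exp_le_exp]; omega))
    refine lt_of_le_of_lt (mul_le_mul' hrs h5) ?_
    rw [← exp_add, exp_lt_exp]
    push_cast
    omega
  have hqd : q d = q (algebraMap F A ((Cb.map (algebraMap ℚ F) δ).ev a)) := by
    refine (Valuation.map_eq_of_sub_lt q ?_).symm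
    rw [Valuation.map_sub_swap]
    exact hcomp
  have hqp' : q (p : A) = exp (-1 : ℤ) ^ e₀ := by
    have := hqF (p : F)
    rw [map_natCast, hvp'] at this
    exact this
  have hfin : P.valuation k (algebraMap ℚ k δ.a + algebraMap ℚ k δ.b * π +
      algebraMap ℚ k δ.c * π ^ 2) = P.valuation k (p : k) ^ (-(2 * m)) := by
    apply pow_inj_of he1
    have e1 : (P.valuation k (p : k) ^ (-(2 * m))) ^ e₁ =
        (P.valuation k (p : k) ^ e₁) ^ (-(2 * m)) := by
      rw [← zpow_natCast, ← zpow_natCast, ← zpow_mul, ← zpow_mul, mul_comm]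
    rw [e1, ← hqk, ← hqk, map_natCast, hqp', ← hd, hqd, hqF, hm, ← exp_nsmul, ← exp_nsmul,
      ← exp_zsmul]
    congr 1
    simp
    ring
  have hp0 : P.valuation k (p : k) ≠ 0 := by
    rw [Valuation.ne_zero_iff]
    exact_mod_cast hp.ne_zero
  refine ⟨-(m * log (P.valuation k (p : k))), ?_⟩
  rw [hfin, ← exp_log hp0, ← exp_zsmul, log_exp]
  congr 1
  simp
  ring

end cmpA

end Pool.Agent.Y696
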