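import Mathlib
import Pool.Agent.Y696.EvL
import Pool.Agent.Y696.Cmp
import Pool.Agent.Y696.Stp

/-!
# Parity of the valuations from the norm
-/

set_option autoImplicit false

namespace Pool.Agent.Y696

open IsDedekindDomain NumberField WithZero

/-- integral coefficients -/
def IV {M : Type} [Field M] (v : Valuation M ℤᵐ⁰) (x : Cb M) : Prop :=
  v x.a ≤ 1 ∧ v x.b ≤ 1 ∧ v x.c ≤ 1

section
variable {M : Type} [Field M] {v : Valuation M ℤᵐ⁰}

lemma vm {z w : M} (hz : v z ≤ 1) (hw : v w ≤ 1) : v (z * w) ≤ 1 := by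
  rw [map_mul]
  exact mul_le_one' hz hw

lemma vo (n : ℕ) : v (n : M) ≤ 1 := v_nat_le v n

lemma IV.mul {x y : Cb M} (hx : IV v x) (hy : IV v y) : IV v (x * y) := by
  obtain ⟨xa, xb, xc⟩ := hx
  obtain ⟨ya, yb, yc⟩ := hy
  have h2 := v_two_le v
  refine ⟨?_, ?_, ?_⟩
  · exact v.map_add_le (vm xa ya) (vm h2 (v.map_add_le (vm xb yc) (vm xc yb)))
  · exact v.map_add_le (v.map_add_le (vm xa yb) (vm xb ya)) (vm h2 (vm xc yc))
  · exact v.map_add_le (v.map_add_le (vm xa yc) (vm xb yb)) (vm xc ya)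

lemma IV.N {x : Cb M} (hx : IV v x) : v x.N ≤ 1 := by
  obtain ⟨xa, xb, xc⟩ := hx
  have h2 := v_two_le v
  have h4 : v (4 : M) ≤ 1 := by exact_mod_cast vo (v := v) 4
  have h6 : v (6 : M) ≤ 1 := by exact_mod_cast vo (v := v) 6
  have hc : ∀ z, v z ≤ 1 → v (z ^ 3) ≤ 1 := fun z hz => by
    rw [map_pow]; exact pow_le_one' hz 3
  refine v.map_sub_le (v.map_add_le (v.map_add_le (hc _ xa) (vm h2 (hc _ xb)))
    (vm h4 (hc _ xc))) (vm (vm (vm h6 xa) xb) xc)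

lemma IV.adj {x : Cb M} (hx : IV v x) : IV v x.adj := by
  obtain ⟨xa, xb, xc⟩ := hx
  have h2 := v_two_le v
  have hc : ∀ z, v z ≤ 1 → v (z ^ 2) ≤ 1 := fun z hz => by
    rw [map_pow]; exact pow_le_one' hz 2
  exact ⟨v.map_sub_le (hc _ xa) (vm (vm h2 xb) xc), v.map_sub_le (vm h2 (hc _ xc)) (vm xa xb),
    v.map_sub_le (hc _ xb) (vm xa xc)⟩

lemma peel {ϖ : Cb M} {f : ℕ} (hf : 0 < f) (hϖ : v ϖ.N = exp (-(f : ℤ)))
    (hdiv : ∀ x, IV v x → v x.N < 1 → ∃ y, IV v y ∧ x = ϖ * y) (n : ℕ) :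
    ∀ x, IV v x → exp (-(n : ℤ)) ≤ v x.N → ∃ (i : ℕ) (u : Cb M), IV v u ∧ v u.N = 1 ∧
      x = ϖ ^ i * u := by
  induction n using Nat.strong_induction_on with
  | _ n ih =>
    intro x hx hn
    by_cases h1 : v x.N = 1
    · exact ⟨0, x, hx, h1, by rw [pow_zero, one_mul]⟩
    · have hlt := lt_of_le_of_ne hx.N h1
      obtain ⟨y, hy, rfl⟩ := hdiv x hx hlt
      rw [Cb.N_mul, map_mul, hϖ] at hn
      have hyN := hy.N
      have hfn : f ≤ n := by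
        by_contra hcon
        have : exp (-(f : ℤ)) * v y.N < exp (-(n : ℤ)) := by
          refine lt_of_le_of_lt (mul_le_of_le_one_right' hyN) ?_
          rw [exp_lt_exp]
          omega
        exact absurd hn (not_le.2 this)
      obtain ⟨i, u, hu, hu1, rfl⟩ := ih (n - f) (by omega) y hy (by
        have h3 : exp (-((n - f : ℕ) : ℤ)) = exp (f : ℤ) * exp (-(n : ℤ)) := by
          rw [← exp_add]
          congr 1
          omega
        rw [h3]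
        refine (mul_le_mul' le_rfl hn).trans ?_
        rw [← mul_assoc, ← exp_add, add_neg_cancel, exp_zero, one_mul])
      exact ⟨i + 1, u, hu, hu1, by rw [pow_succ]; ring⟩

end

section
variable {k : Type} [Field k] [NumberField k] {π : k} (hπ : π ^ 3 = 2)

/-- the embedding of `ℚ[π]` -/
noncomputable def hk : Cb ℚ →+* k := Cb.hom k (algebraMap ℚ k) π hπ

lemma hk_apply (x : Cb ℚ) : hk hπ x = algebraMap ℚ k x.a + algebraMap ℚ k x.b * π +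
    algebraMap ℚ k x.c * π ^ 2 := rfl

lemma hk_adj (x : Cb ℚ) : hk hπ x * hk hπ x.adj = algebraMap ℚ k x.N := by
  rw [← map_mul, Cb.mul_adj, hk_apply]
  simp

lemma hk_ne {x : Cb ℚ} (hx : x.N ≠ 0) : hk hπ x ≠ 0 := by
  intro h
  have := hk_adj hπ x
  rw [h, zero_mul] at this
  exact hx ((map_eq_zero _).1 this.symm)

theorem np {ν : Valuation ℚ ℤᵐ⁰} {q : Valuation k ℤᵐ⁰} {e : ℕ}
    (hq : ∀ a : ℚ, q (algebraMap ℚ k a) = ν a ^ e) {p : ℚ} (hp : ν p = exp (-1 : ℤ))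
    {ϖ : Cb ℚ} {f : ℕ} (hf : Odd f) (hϖ : ν ϖ.N = exp (-(f : ℤ)))
    (hdiv : ∀ x, IV ν x → ν x.N < 1 → ∃ y, IV ν y ∧ x = ϖ * y) {x : Cb ℚ} (hx : x.N ≠ 0)
    (hr : ∃ r, x.N = r ^ 2) : ∃ n : ℤ, q (hk hπ x) = exp (2 * n) := by
  have hp0 : p ≠ 0 := by
    rintro rfl
    rw [map_zero] at hp
    exact exp_ne_zero hp.symm
  obtain ⟨r, hr⟩ := hr
  have hr0 : r ≠ 0 := by
    rintro rfl
    exact hx (by rw [hr]; ring)
  obtain ⟨k1, h1⟩ := exp_bd ν x.a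
  obtain ⟨k2, h2⟩ := exp_bd ν x.b
  obtain ⟨k3, h3⟩ := exp_bd ν x.c
  set K := k1 + k2 + k3 with hK
  set x' : Cb ℚ := Cb.C (p ^ (2 * K)) * x with hx'
  have hpK : ν (p ^ (2 * K)) = exp (-(2 * K : ℤ)) := by
    rw [map_pow, hp, ← exp_nsmul]
    congr 1
    simp
  have hsm : ∀ z (l : ℕ), ν z ≤ exp (l : ℤ) → l ≤ K → ν (p ^ (2 * K) * z) ≤ 1 := by
    intro z l hz hl
    rw [map_mul, hpK]
    refine (mul_le_mul' le_rfl hz).trans ?_
    rw [← exp_add, ← exp_zero, exp_le_exp]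
    omega
  have hxI : IV ν x' := by
    refine ⟨?_, ?_, ?_⟩
    · rw [hx', Cb.mul_a, Cb.C_a, Cb.C_b, Cb.C_c]
      simpa using hsm _ k1 h1 (by omega)
    · rw [hx', Cb.mul_b, Cb.C_a, Cb.C_b, Cb.C_c]
      simpa using hsm _ k2 h2 (by omega)
    · rw [hx', Cb.mul_c, Cb.C_a, Cb.C_b, Cb.C_c]
      simpa using hsm _ k3 h3 (by omega)
  have hN' : x'.N = (p ^ (3 * K) * r) ^ 2 := by
    rw [hx', Cb.N_mul, Cb.N_C, hr]
    ring
  have hN'0 : x'.N ≠ 0 := by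
    rw [hN']
    exact pow_ne_zero _ (mul_ne_zero (pow_ne_zero _ hp0) hr0)
  obtain ⟨n, hn⟩ := exp_lb ν hN'0
  obtain ⟨i, u, hu, hu1, hxu⟩ := peel hf.pos hϖ hdiv n x' hxI hn
  have hpr : p ^ (3 * K) * r ≠ 0 := mul_ne_zero (pow_ne_zero _ hp0) hr0
  obtain ⟨m, hm⟩ : ∃ m : ℤ, ν (p ^ (3 * K) * r) = exp m :=
    ⟨log (ν (p ^ (3 * K) * r)), (exp_log ((ν.ne_zero_iff).2 hpr)).symm⟩
  have hev : Even i := by
    have h5 := congrArg ν hN'
    have h6 : x'.N = ϖ.N ^ i * u.N := by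
      rw [hxu, Cb.N_mul]
      congr 1
      exact map_pow (Cb.Nh ℚ) ϖ i
    rw [h6, map_mul, map_pow, hϖ, hu1, mul_one, map_pow, hm, ← exp_nsmul, ← exp_nsmul] at h5
    have h7 := exp_injective h5
    simp only [nsmul_eq_mul] at h7
    have h8 : (2 : ℤ) ∣ (i : ℤ) * f := ⟨-m, by push_cast at h7; linarith⟩
    have h9 : 2 ∣ i * f := by exact_mod_cast h8
    rcases (Nat.Prime.dvd_mul Nat.prime_two).1 h9 with h | h
    · exact even_iff_two_dvd.2 h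
    · exact absurd (even_iff_two_dvd.2 h) (Nat.not_even_iff_odd.2 hf)
  obtain ⟨j, rfl⟩ := hev
  have hqπ : q π ≤ 1 := by
    have h5 := congrArg q hπ
    rw [map_pow] at h5
    have h6 : q π ^ 3 ≤ 1 := by rw [h5]; exact v_two_le q
    exact (pow_le_one_iff (by norm_num)).1 h6
  have hint : ∀ y, IV ν y → q (hk hπ y) ≤ 1 := by
    intro y hy
    rw [hk_apply]
    refine q.map_add_le (q.map_add_le ?_ (vm ?_ hqπ)) (vm ?_ ?_)
    · rw [hq]; exact pow_le_one' hy.1 e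
    · rw [hq]; exact pow_le_one' hy.2.1 e
    · rw [hq]; exact pow_le_one' hy.2.2 e
    · rw [map_pow]; exact pow_le_one' hqπ 2
  have hqu : q (hk hπ u) = 1 := by
    have h5 := congrArg q (hk_adj hπ u)
    rw [map_mul, hq, hu1, one_pow] at h5
    refine le_antisymm (hint u hu) ?_
    by_contra hcon
    push Not at hcon
    have : q (hk hπ u) * q (hk hπ u.adj) < 1 :=
      mul_lt_one_of_nonneg_of_lt_one_left zero_le hcon (hint _ hu.adj)
    rw [h5] at this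
    exact lt_irrefl _ this
  have hϖ0 : ϖ.N ≠ 0 := by
    intro h
    rw [h, map_zero] at hϖ
    exact exp_ne_zero hϖ.symm
  have hqϖ : q (hk hπ ϖ) ≠ 0 := (q.ne_zero_iff).2 (hk_ne hπ hϖ0)
  have hqp : q (algebraMap ℚ k p) ≠ 0 := (q.ne_zero_iff).2 ((map_ne_zero _).2 hp0)
  obtain ⟨s, hs⟩ : ∃ s : ℤ, q (hk hπ ϖ) = exp s := ⟨_, (exp_log hqϖ).symm⟩
  obtain ⟨t, ht⟩ : ∃ t : ℤ, q (algebraMap ℚ k p) = exp t := ⟨_, (exp_log hqp).symm⟩
  refine ⟨s * j - t * K, ?_⟩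
  have h5 : q (hk hπ x') = q (algebraMap ℚ k p) ^ (2 * K) * q (hk hπ x) := by
    have h9 : ∀ z : ℚ, hk hπ (Cb.C z) = algebraMap ℚ k z := fun z => by
      rw [hk_apply, Cb.C_a, Cb.C_b, Cb.C_c, map_zero, zero_mul, zero_mul, add_zero, add_zero]
    rw [hx', map_mul, map_mul, h9, map_pow, map_pow]
  have h6 : q (hk hπ x') = q (hk hπ ϖ) ^ (j + j) := by
    rw [hxu, map_mul, map_mul, hqu, mul_one, map_pow, map_pow]
  rw [h6, hs, ht, ← exp_nsmul, ← exp_nsmul] at h5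
  have h7 : q (hk hπ x) = exp (-((2 * K) • t)) * exp ((j + j) • s) := by
    rw [h5, ← mul_assoc, ← exp_add, neg_add_cancel, exp_zero, one_mul]
  rw [h7, ← exp_add]
  congr 1
  simp only [nsmul_eq_mul]
  push_cast
  ring

end

end Pool.Agent.Y696
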