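import Mathlib
import Pool.Agent.Y696.NPar
import Pool.Agent.Y696.AlgD

/-!
# All the valuations of the descended element are even
-/

set_option autoImplicit false

namespace Pool.Agent.Y696

open IsDedekindDomain NumberField WithZero

section hdiv
variable {M : Type} [Field M] {v : Valuation M ℤᵐ⁰}

lemma div_le {p : M} (hp : v p = exp (-1 : ℤ)) {z : M} (hz : v z < 1) : v (p⁻¹ * z) ≤ 1 := by
  by_cases h0 : z = 0
  · rw [h0, mul_zero, map_zero]
    exact zero_le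
  · obtain ⟨m, hm⟩ : ∃ m : ℤ, v z = exp m := ⟨log (v z), (exp_log ((v.ne_zero_iff).2 h0)).symm⟩
    rw [hm, ← exp_zero, exp_lt_exp] at hz
    rw [map_mul, map_inv₀, hp, hm, ← exp_neg, ← exp_add, ← exp_zero, exp_le_exp]
    omega

lemma ne_of_exp {p : M} {m : ℤ} (hp : v p = exp m) : p ≠ 0 := by
  rintro rfl
  rw [map_zero] at hp
  exact exp_ne_zero hp.symm

lemma lt_of_cube {z : M} (h : v (z ^ 3) < 1) : v z < 1 := by
  by_contra hcon
  push Not at hcon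
  rw [map_pow] at h
  exact absurd h (not_lt.2 (one_le_pow₀ hcon))

lemma lt_of_sq {z : M} (h : v (z ^ 2) < 1) : v z < 1 := by
  by_contra hcon
  push Not at hcon
  rw [map_pow] at h
  exact absurd h (not_lt.2 (one_le_pow₀ hcon))

lemma vml {z w : M} (hz : v z < 1) (hw : v w ≤ 1) : v (z * w) < 1 := by
  rw [map_mul]
  exact mul_lt_one_of_nonneg_of_lt_one_left zero_le hz hw

lemma vmr {z w : M} (hz : v z ≤ 1) (hw : v w < 1) : v (z * w) < 1 := by
  rw [mul_comm]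
  exact vml hw hz

lemma hdiv2 (h2 : v 2 = exp (-1 : ℤ)) (x : Cb M) (hx : IV v x) (hN : v x.N < 1) :
    ∃ y, IV v y ∧ x = Cb.pi * y := by
  obtain ⟨a, b, c⟩ := x
  obtain ⟨xa, xb, xc⟩ := hx
  have h20 := ne_of_exp h2
  have h2' : v 2 < 1 := by rw [h2, ← exp_zero, exp_lt_exp]; omega
  have ha : v a < 1 := by
    apply lt_of_cube
    have e : a ^ 3 = Cb.N ⟨a, b, c⟩ - 2 * (b ^ 3 + 2 * c ^ 3 - 3 * a * b * c) := by
      rw [Cb.N]; ring
    have h3 : v (3 : M) ≤ 1 := by exact_mod_cast vo (v := v) 3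
    rw [e]
    refine v.map_sub_lt hN (vml h2' ?_)
    refine v.map_sub_le (v.map_add_le ?_ (vm h2'.le ?_)) (vm (vm (vm h3 xa) xb) xc)
    · rw [map_pow]; exact pow_le_one' xb 3
    · rw [map_pow]; exact pow_le_one' xc 3
  refine ⟨⟨b, c, 2⁻¹ * a⟩, ⟨xb, xc, div_le h2 ha⟩, ?_⟩
  ext
  · simp [mul_inv_cancel_left₀ h20]
  · simp
  · simp

lemma hdiv3 (h3 : v 3 = exp (-1 : ℤ)) (x : Cb M) (hx : IV v x) (hN : v x.N < 1) :
    ∃ y, IV v y ∧ x = ⟨1, 1, 0⟩ * y := by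
  obtain ⟨a, b, c⟩ := x
  obtain ⟨xa, xb, xc⟩ := hx
  have h30 := ne_of_exp h3
  have h3' : v 3 < 1 := by rw [h3, ← exp_zero, exp_lt_exp]; omega
  have h2 := v_two_le v
  have hs : v (a - b + c) < 1 := by
    apply lt_of_cube
    have e : (a - b + c) ^ 3 = Cb.N ⟨a, b, c⟩ + 3 * (-b ^ 3 - c ^ 3 - a ^ 2 * b + a ^ 2 * c +
        a * b ^ 2 + a * c ^ 2 + b ^ 2 * c - b * c ^ 2) := by
      rw [Cb.N]; ring
    rw [e]
    refine v.map_add_lt hN (vml h3' ?_)
    have hb3 : v (b ^ 3) ≤ 1 := by rw [map_pow]; exact pow_le_one' xb 3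
    have hc3 : v (c ^ 3) ≤ 1 := by rw [map_pow]; exact pow_le_one' xc 3
    have ha2 : v (a ^ 2) ≤ 1 := by rw [map_pow]; exact pow_le_one' xa 2
    have hb2 : v (b ^ 2) ≤ 1 := by rw [map_pow]; exact pow_le_one' xb 2
    have hc2 : v (c ^ 2) ≤ 1 := by rw [map_pow]; exact pow_le_one' xc 2
    refine v.map_sub_le (v.map_add_le (v.map_add_le (v.map_add_le (v.map_add_le (v.map_sub_le
      (v.map_sub_le ?_ hc3) (vm ha2 xb)) (vm ha2 xc)) (vm xa hb2)) (vm xa hc2)) (vm hb2 xc))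
      (vm xb hc2)
    rw [Valuation.map_neg]; exact hb3
  refine ⟨⟨3⁻¹ * (a - b + c) + (b - c), -(3⁻¹ * (a - b + c)) + c, 3⁻¹ * (a - b + c)⟩,
    ⟨?_, ?_, div_le h3 hs⟩, ?_⟩
  · exact v.map_add_le (div_le h3 hs) (v.map_sub_le xb xc)
  · refine v.map_add_le ?_ xc
    rw [Valuation.map_neg]
    exact div_le h3 hs
  · have e : (3 : M) * 3⁻¹ = 1 := mul_inv_cancel₀ h30
    ext
    · simp only [Cb.mul_a]
      linear_combination -(a - b + c) * e
    · simp only [Cb.mul_b]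
      ring
    · simp only [Cb.mul_c]
      ring

lemma hdivp {p : M} (hp : v p = exp (-1 : ℤ)) (hno : ∀ a : M, ¬ v (a ^ 3 - 2) < 1) (x : Cb M)
    (hx : IV v x) (hN : v x.N < 1) : ∃ y, IV v y ∧ x = Cb.C p * y := by
  obtain ⟨a, b, c⟩ := x
  obtain ⟨xa, xb, xc⟩ := hx
  have hp0 := ne_of_exp hp
  have h2 := v_two_le v
  have hNv : Cb.N ⟨a, b, c⟩ = a ^ 3 + 2 * b ^ 3 + 4 * c ^ 3 - 6 * a * b * c := rfl
  rw [hNv] at hN
  set A := a ^ 2 - 2 * b * c with hA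
  set B := 2 * c ^ 2 - a * b with hB
  set D := b ^ 2 - a * c with hD
  have vsq : ∀ z, v z ≤ 1 → v (z ^ 2) ≤ 1 := fun z hz => by
    rw [map_pow]; exact pow_le_one' hz 2
  have vB : v B ≤ 1 := v.map_sub_le (vm h2 (vsq _ xc)) (vm xa xb)
  have vD : v D ≤ 1 := v.map_sub_le (vsq _ xb) (vm xa xc)
  have e1 : A * D - B ^ 2 = -c * (a ^ 3 + 2 * b ^ 3 + 4 * c ^ 3 - 6 * a * b * c) := by
    rw [hA, hB, hD]; ring
  have e2 : A * B - 2 * D ^ 2 = -b * (a ^ 3 + 2 * b ^ 3 + 4 * c ^ 3 - 6 * a * b * c) := by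
    rw [hA, hB, hD]; ring
  have v1 : v (A * D - B ^ 2) < 1 := by
    rw [e1]; exact vmr (by rw [Valuation.map_neg]; exact xc) hN
  have v2 : v (A * B - 2 * D ^ 2) < 1 := by
    rw [e2]; exact vmr (by rw [Valuation.map_neg]; exact xb) hN
  have hcube : ∀ u w : M, v w ≤ 1 → v (u ^ 3 - 2 * w ^ 3) < 1 → v w < 1 := by
    intro u w hw huw
    by_contra hcon
    push Not at hcon
    have hw1 : v w = 1 := le_antisymm hw hcon
    have hw0 : w ≠ 0 := by
      rintro rfl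
      simp at hw1
    apply hno (u / w)
    have e : (u / w) ^ 3 - 2 = (u ^ 3 - 2 * w ^ 3) / w ^ 3 := by
      field_simp
    rw [e, map_div₀, map_pow, hw1, one_pow, div_one]
    exact huw
  have hD1 : v D < 1 := by
    refine hcube B D vD ?_
    have e : B ^ 3 - 2 * D ^ 3 = (-B) * (A * D - B ^ 2) + D * (A * B - 2 * D ^ 2) := by ring
    rw [e]
    exact v.map_add_lt (vmr (by rw [Valuation.map_neg]; exact vB) v1) (vmr vD v2)
  have hA1 : v A ≤ 1 := v.map_sub_le (vsq _ xa) (vm (vm h2 xb) xc)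
  have hB1 : v B < 1 := by
    apply lt_of_sq
    have e : B ^ 2 = A * D - (A * D - B ^ 2) := by ring
    rw [e]
    exact v.map_sub_lt (vmr hA1 hD1) v1
  have hc1 : v c < 1 := by
    refine hcube b c xc ?_
    have e : b ^ 3 - 2 * c ^ 3 = b * D - c * B := by rw [hD, hB]; ring
    rw [e]
    exact v.map_sub_lt (vmr xb hD1) (vmr xc hB1)
  have hb1 : v b < 1 := by
    apply lt_of_sq
    have e : b ^ 2 = D + a * c := by rw [hD]; ring
    rw [e]
    exact v.map_add_lt hD1 (vmr xa hc1)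
  have ha1 : v a < 1 := by
    apply lt_of_cube
    have e : a ^ 3 = (a ^ 3 + 2 * b ^ 3 + 4 * c ^ 3 - 6 * a * b * c) - b * (2 * b ^ 2) +
        c * (6 * a * b - 4 * c ^ 2) := by ring
    have h4 : v (4 : M) ≤ 1 := by exact_mod_cast vo (v := v) 4
    have h6 : v (6 : M) ≤ 1 := by exact_mod_cast vo (v := v) 6
    rw [e]
    exact v.map_add_lt (v.map_sub_lt hN (vml hb1 (vm h2 (vsq _ xb))))
      (vml hc1 (v.map_sub_le (vm (vm h6 xa) xb) (vm h4 (vsq _ xc))))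
  refine ⟨⟨p⁻¹ * a, p⁻¹ * b, p⁻¹ * c⟩, ⟨div_le hp ha1, div_le hp hb1, div_le hp hc1⟩, ?_⟩
  ext
  · simp [mul_inv_cancel_left₀ hp0]
  · simp [mul_inv_cancel_left₀ hp0]
  · simp [mul_inv_cancel_left₀ hp0]

end hdiv

section
variable {F k : Type} [Field F] [NumberField F] [IsCyclotomicExtension {3} ℚ F]
  [Field k] [NumberField k]

/-- the prime of `ℤ` -/
noncomputable def spZ {p : ℕ} (hp : p.Prime) : HeightOneSpectrum ℤ :=
  ⟨Ideal.span {(p : ℤ)},
    (Ideal.span_singleton_prime (by exact_mod_cast hp.ne_zero)).2 (Nat.prime_iff_prime_int.1 hp), by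
      rw [Ne, Ideal.span_singleton_eq_bot]
      exact_mod_cast hp.ne_zero⟩

lemma spZ_val {p : ℕ} (hp : p.Prime) : (spZ hp).valuation ℚ (p : ℚ) = exp (-1 : ℤ) := by
  have := HeightOneSpectrum.intValuation_singleton (spZ hp) (r := (p : ℤ))
    (by exact_mod_cast hp.ne_zero) rfl
  rw [← this, ← HeightOneSpectrum.valuation_of_algebraMap (K := ℚ)]
  simp

omit [NumberField k] in
lemma lies_spZ {p : ℕ} (hp : p.Prime) {P : HeightOneSpectrum (𝓞 k)}
    (hP : (p : 𝓞 k) ∈ P.asIdeal) : P.asIdeal.LiesOver (spZ hp).asIdeal := by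
  have hmax : (spZ hp).asIdeal.IsMaximal := (spZ hp).isPrime.isMaximal (spZ hp).ne_bot
  constructor
  refine (hmax.eq_of_le ?_ ?_)
  · exact Ideal.IsPrime.ne_top inferInstance
  · change Ideal.span {(p : ℤ)} ≤ _
    rw [Ideal.span_singleton_le_iff_mem, Ideal.under_def, Ideal.mem_comap]
    simpa using hP

lemma exists_prime_mem (P : HeightOneSpectrum (𝓞 k)) :
    ∃ p : ℕ, p.Prime ∧ (p : 𝓞 k) ∈ P.asIdeal := by
  have h0 : (Ideal.absNorm P.asIdeal : 𝓞 k) ∈ P.asIdeal := Ideal.absNorm_mem P.asIdeal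
  have hne : Ideal.absNorm P.asIdeal ≠ 0 := by
    rw [Ne, Ideal.absNorm_eq_zero_iff]
    exact P.ne_bot
  set n := Ideal.absNorm P.asIdeal
  have key : ∀ n : ℕ, n ≠ 0 → (n : 𝓞 k) ∈ P.asIdeal → ∃ p : ℕ, p.Prime ∧ (p : 𝓞 k) ∈ P.asIdeal := by
    intro n
    induction n using Nat.recOnMul with
    | zero => intro h _; exact absurd rfl h
    | one =>
      intro _ h
      rw [Nat.cast_one] at h
      exact absurd ((Ideal.eq_top_iff_one _).2 h) P.isPrime.ne_top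
    | prime p hp => intro _ h; exact ⟨p, hp, h⟩
    | mul a b iha ihb =>
      intro hab h
      rw [Nat.cast_mul] at h
      rcases P.isPrime.mem_or_mem h with h | h
      · exact iha (left_ne_zero_of_mul hab) h
      · exact ihb (right_ne_zero_of_mul hab) h
  exact key n hne h0

theorem even_all (A : Type) [Field A] [NumberField A] [Algebra k A] [Algebra F A] {π : k} (hπ : π ^ 3 = 2) {δ : Cb ℚ} (hN : δ.N ≠ 0) (hr : ∃ r, δ.N = r ^ 2)
    (hev : EvA (Cb.map (algebraMap ℚ F) δ)) (P : HeightOneSpectrum (𝓞 k)) :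
    ∃ n : ℤ, P.valuation k (hk hπ δ) = exp (2 * n) := by
  obtain ⟨p, hp, hPp⟩ := exists_prime_mem P
  have hlo := lies_spZ hp hPp
  have hq : ∀ a : ℚ, P.valuation k (algebraMap ℚ k a) = (spZ hp).valuation ℚ a ^
      ((spZ hp).asIdeal.ramificationIdx' P.asIdeal) := fun a =>
    (HeightOneSpectrum.valuation_liesOver k (spZ hp) P a).symm
  by_cases h2 : p = 2
  · subst h2
    have hv2 : (spZ hp).valuation ℚ (2 : ℚ) = exp (-1 : ℤ) := by exact_mod_cast spZ_val hp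
    exact np hπ hq hv2 (ϖ := Cb.pi) (f := 1) odd_one (by rw [Cb.N_pi, hv2]; rfl) (hdiv2 hv2) hN hr
  by_cases h3 : p = 3
  · subst h3
    have hv3 : (spZ hp).valuation ℚ (3 : ℚ) = exp (-1 : ℤ) := by exact_mod_cast spZ_val hp
    refine np hπ hq hv3 (ϖ := ⟨1, 1, 0⟩) (f := 1) odd_one ?_ (hdiv3 hv3) hN hr
    have : Cb.N (⟨1, 1, 0⟩ : Cb ℚ) = 3 := by simp [Cb.N]; norm_num
    rw [this, hv3]; rfl
  obtain ⟨Q, hQP⟩ : ∃ Q : HeightOneSpectrum (𝓞 A), Q.asIdeal.LiesOver P.asIdeal :=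
    exists_above P
  let v₀ : HeightOneSpectrum (𝓞 F) := ⟨Q.asIdeal.under (𝓞 F), inferInstance, by
    intro h
    exact Q.ne_bot (Ideal.eq_bot_of_comap_eq_bot h)⟩
  have hQv : Q.asIdeal.LiesOver v₀.asIdeal := ⟨rfl⟩
  -- `p` lies in `v₀`
  have hpv : (p : 𝓞 F) ∈ v₀.asIdeal := by
    change _ ∈ Q.asIdeal.comap _
    rw [Ideal.mem_comap, map_natCast]
    have h1 : (p : 𝓞 k) ∈ Q.asIdeal.under (𝓞 k) := by
      rw [← hQP.over]; exact hPp
    rw [Ideal.under_def, Ideal.mem_comap, map_natCast] at h1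
    exact h1
  by_cases hx : ∃ x : 𝓞 F, x ^ 3 - 2 ∈ v₀.asIdeal
  · refine cmp_a hπ hp h2 h3 hPp hQP hQv hx (hk_ne hπ hN) (hev v₀ ?_)
    intro h6
    have : ((6 : ℕ) : 𝓞 F) = ((2 : ℕ) : 𝓞 F) * ((3 : ℕ) : 𝓞 F) := by norm_num
    rw [this] at h6
    have hcop : ∀ l : ℕ, l.Prime → p ≠ l → (l : 𝓞 F) ∉ v₀.asIdeal := by
      intro l hl hne hlm
      have hco : Nat.Coprime p l := (Nat.coprime_primes hp hl).2 hne
      obtain ⟨a, b, hab⟩ : ∃ a b : ℤ, (p : ℤ) * a + l * b = 1 :=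
        ⟨_, _, (Nat.gcd_eq_gcd_ab p l).symm.trans (by rw [hco]; rfl)⟩
      have h1 : (1 : 𝓞 F) ∈ v₀.asIdeal := by
        have h4 := congrArg (fun z : ℤ => (z : 𝓞 F)) hab
        push_cast at h4
        rw [← h4]
        exact add_mem (Ideal.mul_mem_right _ _ hpv) (Ideal.mul_mem_right _ _ hlm)
      exact v₀.isPrime.ne_top ((Ideal.eq_top_iff_one _).2 h1)
    rcases v₀.isPrime.mem_or_mem h6 with h | h
    · exact hcop 2 Nat.prime_two h2 h
    · exact hcop 3 Nat.prime_three h3 h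
  · have hvp := spZ_val hp
    refine np hπ hq hvp (ϖ := Cb.C (p : ℚ)) (f := 3) ⟨1, rfl⟩ ?_ (hdivp hvp ?_) hN hr
    · rw [Cb.N_C, map_pow, hvp, ← exp_nsmul]
      congr 1
    · intro a ha
      have ha1 : (spZ hp).valuation ℚ a ≤ 1 := le_of_near _ ha.le
      obtain ⟨z, hz⟩ := HeightOneSpectrum.exists_valuation_sub_lt_of_integer (K := ℚ)
        (spZ hp) ha1 1
      have hz' : (spZ hp).valuation ℚ (algebraMap ℤ ℚ z - a) < 1 := hz
      have h5 : (spZ hp).valuation ℚ (algebraMap ℤ ℚ (z ^ 3 - 2)) < 1 := by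
        have e : algebraMap ℤ ℚ (z ^ 3 - 2) = (algebraMap ℤ ℚ z - a) *
            (algebraMap ℤ ℚ z ^ 2 + algebraMap ℤ ℚ z * a + a ^ 2) + (a ^ 3 - 2) := by
          rw [map_sub, map_pow, map_ofNat]
          ring
        rw [e]
        have hzz := (spZ hp).valuation_le_one (K := ℚ) z
        refine Valuation.map_add_lt _ (vml hz' ?_) ha
        refine Valuation.map_add_le _ (Valuation.map_add_le _ ?_ (vm hzz ha1)) ?_
        · rw [map_pow]; exact pow_le_one' hzz 2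
        · rw [map_pow]; exact pow_le_one' ha1 2
      rw [HeightOneSpectrum.valuation_lt_one_iff_mem] at h5
      apply hx
      refine ⟨(z : 𝓞 F), ?_⟩
      have h6 : (p : ℤ) ∣ z ^ 3 - 2 := Ideal.mem_span_singleton.1 h5
      obtain ⟨w, hw⟩ := h6
      have h7 := congrArg (fun z : ℤ => (z : 𝓞 F)) hw
      push_cast at h7
      rw [h7]
      exact Ideal.mul_mem_right _ _ hpv

end

end Pool.Agent.Y696
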