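import Mathlib
import Pool.Agent.Y696.EvAll
import Pool.Agent.Y180.CbrtTwo

/-!
# Elements with the Selmer condition are squares
-/

set_option autoImplicit false

namespace Pool.Agent.Y696

open IsDedekindDomain NumberField WithZero

section gen
variable {M : Type} [Field M] [NumberField M]

lemma nf_Cb (h3 : ∀ x : M, x ^ 3 ≠ 2) : @NumberField (Cb M) (Cb.fld h3) := by
  classical
  let _ : Field (Cb M) := Cb.fld h3
  have hc : CharZero (Cb M) := charZero_of_injective_ringHom (f := (Cb.C : M →+* Cb M)) Cb.C_inj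
  let _ : Algebra M (Cb M) := (Cb.C : M →+* Cb M).toAlgebra
  have hfin : Module.Finite M (Cb M) := by
    refine ⟨⟨{1, Cb.pi, Cb.pi ^ 2}, ?_⟩⟩
    rw [eq_top_iff]
    intro x _
    have hx := Cb.form x
    have h1 : ∀ (r : M) (y : Cb M), r • y = Cb.C r * y := fun r y => Algebra.smul_def r y
    have : x = x.a • (1 : Cb M) + x.b • Cb.pi + x.c • Cb.pi ^ 2 := by
      rw [h1, h1, h1, mul_one]
      exact hx
    rw [this]
    refine add_mem (add_mem ?_ ?_) ?_
    · exact Submodule.smul_mem _ _ (Submodule.subset_span (by simp))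
    · exact Submodule.smul_mem _ _ (Submodule.subset_span (by simp))
    · exact Submodule.smul_mem _ _ (Submodule.subset_span (by simp))
  have : IsScalarTower ℚ M (Cb M) := by
    refine IsScalarTower.of_algebraMap_eq' ?_
    exact Subsingleton.elim _ _
  have : Module.Finite ℚ (Cb M) := Module.Finite.trans M (Cb M)
  exact { to_charZero := hc, to_finiteDimensional := this }

end gen

section rat

/-- the field structure on `ℚ[π]` -/
noncomputable local instance instQ : Field (Cb ℚ) := Cb.fld no_cube_two_rat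

local instance instNF : NumberField (Cb ℚ) := nf_Cb no_cube_two_rat

lemma algQ (r : ℚ) : algebraMap ℚ (Cb ℚ) r = Cb.C r := by
  have : algebraMap ℚ (Cb ℚ) = (Cb.C : ℚ →+* Cb ℚ) := Subsingleton.elim _ _
  rw [this]

/-- the coordinates -/
noncomputable def eQ : Cb ℚ ≃ₗ[ℚ] (Fin 3 → ℚ) where
  toFun x := ![x.a, x.b, x.c]
  invFun f := ⟨f 0, f 1, f 2⟩
  left_inv x := rfl
  right_inv f := by
    funext i
    fin_cases i <;> rfl
  map_add' x y := by
    funext i
    fin_cases i <;> rfl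
  map_smul' r x := by
    have h : r • x = Cb.C r * x := by rw [Algebra.smul_def, algQ]
    rw [h]
    funext i
    fin_cases i
    · change (Cb.C r * x).a = r * x.a
      rw [Cb.mul_a, Cb.C_a, Cb.C_b, Cb.C_c]
      ring
    · change (Cb.C r * x).b = r * x.b
      rw [Cb.mul_b, Cb.C_a, Cb.C_b, Cb.C_c]
      ring
    · change (Cb.C r * x).c = r * x.c
      rw [Cb.mul_c, Cb.C_a, Cb.C_b, Cb.C_c]
      ring

/-- the basis `1, π, π²` -/
noncomputable def bQ : Module.Basis (Fin 3) ℚ (Cb ℚ) := Module.Basis.ofEquivFun eQ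

lemma fr_Q : Module.finrank ℚ (Cb ℚ) = 3 := by
  rw [Module.finrank_eq_card_basis bQ]
  rfl

lemma bQ_0 : bQ 0 = 1 := by
  apply eQ.injective
  funext i
  rw [bQ, Module.Basis.coe_ofEquivFun]
  simp only [LinearEquiv.apply_symm_apply]
  fin_cases i <;> simp [eQ]

lemma bQ_1 : bQ 1 = Cb.pi := by
  apply eQ.injective
  funext i
  rw [bQ, Module.Basis.coe_ofEquivFun]
  simp only [LinearEquiv.apply_symm_apply]
  fin_cases i <;> simp [eQ]

lemma bQ_2 : bQ 2 = ⟨0, 0, 1⟩ := by
  apply eQ.injective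
  funext i
  rw [bQ, Module.Basis.coe_ofEquivFun]
  simp only [LinearEquiv.apply_symm_apply]
  fin_cases i <;> simp [eQ]

lemma norm_Q (x : Cb ℚ) : Algebra.norm ℚ x = x.N := by
  rw [Algebra.norm_eq_matrix_det bQ, Matrix.det_fin_three]
  have h : ∀ i j, (Algebra.leftMulMatrix bQ x) i j = eQ (x * bQ j) i := by
    intro i j
    rw [Algebra.leftMulMatrix_eq_repr_mul]
    rfl
  simp only [h, bQ_0, bQ_1, bQ_2]
  simp [eQ, Cb.N]
  ring

theorem alg_rat {F : Type} [Field F] [NumberField F] [IsCyclotomicExtension {3} ℚ F] {δ : Cb ℚ}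
    (hr : ∃ r, δ.N = r ^ 2) (hP : PA (Cb.map (algebraMap ℚ F) δ)) :
    IsSquare (Cb.map (algebraMap ℚ F) δ) := by
  have hF2 : Module.finrank ℚ F = 2 := by
    rw [IsCyclotomicExtension.finrank (n := 3) F (Polynomial.cyclotomic.irreducible_rat (by norm_num))]
    rfl
  have hF : Module.finrank ℚ F = 2 ^ 1 := by rw [hF2, pow_one]
  have h3 := no_cube_two hF
  let _ : Field (Cb F) := Cb.fld h3
  have hnf : NumberField (Cb F) := nf_Cb h3
  let _ : Algebra F (Cb F) := (Cb.C : F →+* Cb F).toAlgebra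
  let _ : Algebra (Cb ℚ) (Cb F) := (Cb.map (algebraMap ℚ F)).toAlgebra
  have hN : δ.N ≠ 0 := by
    intro h
    apply hP.1
    rw [Cb.N_map, h, map_zero]
  have hδ0 : δ ≠ 0 := Cb.ne_of_N hN
  have hhk : hk (k := Cb ℚ) (π := Cb.pi) Cb.pi_cube δ = δ := by
    rw [hk_apply, algQ, algQ, algQ]
    exact (Cb.form δ).symm
  obtain ⟨t, ht⟩ := Pool.Agent.Y180.J1 (Cb ℚ) fr_Q Cb.pi Cb.pi_cube δ hδ0
    (by rw [norm_Q]; exact hr)
    (fun P => by
      have := even_all (F := F) (Cb F) (π := (Cb.pi : Cb ℚ)) Cb.pi_cube hN hr hP.2.2.1 P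
      rw [hhk] at this
      exact this)
  rcases ht with ht | ht
  · refine ⟨Cb.map (algebraMap ℚ F) t, ?_⟩
    rw [ht, pow_two, map_mul]
  · exfalso
    -- a place above two
    obtain ⟨v, hv⟩ : ∃ v : HeightOneSpectrum (𝓞 F), ((2 : ℕ) : 𝓞 F) ∈ v.asIdeal := by
      have hmax : (spZ Nat.prime_two).asIdeal.IsMaximal :=
        (spZ Nat.prime_two).isPrime.isMaximal (spZ Nat.prime_two).ne_bot
      obtain ⟨P, hPm, hlo⟩ := Ideal.exists_maximal_ideal_liesOver_of_isIntegral
        (spZ Nat.prime_two).asIdeal (S := 𝓞 F)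
      refine ⟨⟨P, hPm.isPrime, Ideal.ne_bot_of_liesOver_of_ne_bot (spZ Nat.prime_two).ne_bot P⟩, ?_⟩
      have h1 : (2 : ℤ) ∈ P.under ℤ := by
        rw [← hlo.over]
        exact Ideal.mem_span_singleton_self _
      rw [Ideal.under_def, Ideal.mem_comap] at h1
      simpa using h1
    have hv2 : v.valuation F 2 = exp (-1 : ℤ) := by
      have := val_prime_F Nat.prime_two (by norm_num) v hv
      exact_mod_cast this
    have h2 : v.valuation F 2 < 1 := by rw [hv2, ← exp_zero, exp_lt_exp]; omega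
    have htN : t.N ≠ 0 := by
      intro h
      apply hN
      rw [ht, pow_two, Cb.N_mul, Cb.N_mul, h, mul_zero, mul_zero]
    have htN' : (Cb.map (algebraMap ℚ F) t).N ≠ 0 := by
      rw [Cb.N_map]
      exact (map_ne_zero _).2 htN
    apply not_LvV_eps hv2
    obtain ⟨s, hs, hst⟩ := Cb_inv htN'
    have e : (Cb.pi - 1 : Cb F) = Cb.map (algebraMap ℚ F) δ * s ^ 2 := by
      rw [ht, map_mul, map_pow, map_sub, map_one, Cb.map_pi, mul_assoc, ← mul_pow, hst, one_pow,
        mul_one]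
    rw [e]
    exact (hP.2.2.2 v hv).mul h2 (LvV.sq _ hs)

end rat

/-- elements with the Selmer condition are squares -/
theorem alg_final {F K : Type} [Field F] [NumberField F] [IsCyclotomicExtension {3} ℚ F] [Field K]
    [NumberField K] [Algebra F K] [IsGalois F K] {n : ℕ} (hn : Module.finrank F K = 2 ^ n)
    (hun : Unr F K) {δ : Cb K} (hP : PA δ) : IsSquare δ := by
  by_contra hsq
  obtain ⟨δ₀, hs0, hP0⟩ := desc_KF hn hun hsq hP
  obtain ⟨δ₁, hs1, hP1, hr⟩ := desc_FQ hs0 hP0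
  exact hs1 (alg_rat hr hP1)

end Pool.Agent.Y696
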