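import Mathlib
import Pool.Agent.TH115.SD.Hensel

/-!
Cube roots of principal units in complete valued fields.
-/

set_option autoImplicit false

open WithZero Filter Topology

namespace Pool.Agent.Y696

open Pool.Agent.TH115.GD (nonarch)

section

variable {L : Type*} [Field L] [Valued L (WithZero (Multiplicative ℤ))]

/-- Cube roots of principal units. -/
theorem cbrt_one_unit [CompleteSpace L] [T0Space L] (h3 : Valued.v (3 : L) = 1) (x : L)
    (hx : Valued.v (x - 1) < 1) : ∃ z : L, z ^ 3 = x := by
  have h30 : (3 : L) ≠ 0 := by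
    intro h
    rw [h, map_zero] at h3
    exact zero_ne_one h3
  let T : L → L := fun z => z - (z ^ 3 - x) / 3
  obtain ⟨z, z0, zs⟩ : ∃ z : ℕ → L, z 0 = 1 ∧ ∀ n, z (n + 1) = T (z n) :=
    ⟨fun n => Nat.rec 1 (fun _ y => T y) n, rfl, fun _ => rfl⟩
  set δ := Valued.v (x - 1) with hδ
  have hT : ∀ y y' : L, Valued.v (y - 1) ≤ δ → Valued.v (y' - 1) ≤ δ →
      Valued.v (T y - T y') ≤ δ * Valued.v (y - y') := by
    intro y y' hy hy'
    have e : T y - T y' = (-(3 * (y - 1) + 3 * (y' - 1) + (y - 1) * (y - 1) +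
        (y - 1) * (y' - 1) + (y' - 1) * (y' - 1)) / 3) * (y - y') := by
      simp only [T]
      field_simp
      ring
    rw [e, map_mul, map_div₀, h3, div_one, Valuation.map_neg]
    have hs : Valued.v (y - 1) ≤ 1 := hy.trans hx.le
    have hs' : Valued.v (y' - 1) ≤ 1 := hy'.trans hx.le
    refine mul_le_mul_left ?_ _
    refine Valued.v.map_add_le (Valued.v.map_add_le (Valued.v.map_add_le
      (Valued.v.map_add_le ?_ ?_) ?_) ?_) ?_
    · rw [map_mul, h3, one_mul]; exact hy
    · rw [map_mul, h3, one_mul]; exact hy'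
    · rw [map_mul]; exact (mul_le_of_le_one_right' hs).trans hy
    · rw [map_mul]; exact (mul_le_of_le_one_right' hs').trans hy
    · rw [map_mul]; exact (mul_le_of_le_one_right' hs').trans hy'
  have hA : ∀ n, Valued.v (z n - 1) ≤ δ := by
    intro n
    induction n with
    | zero => rw [z0, sub_self, map_zero]; exact zero_le
    | succ n ih =>
      have h1 : Valued.v ((1 : L) - 1) ≤ δ := by rw [sub_self, map_zero]; exact zero_le
      have h4 := hT (z n) 1 ih h1
      have h5 : T 1 - 1 = (x - 1) / 3 := by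
        simp only [T]; ring
      have e : z (n + 1) - 1 = (T (z n) - T 1) + (T 1 - 1) := by rw [zs]; ring
      rw [e]
      refine (Valued.v.map_add _ _).trans (max_le ?_ ?_)
      · refine h4.trans ?_
        exact mul_le_of_le_one_right' (ih.trans hx.le)
      · rw [h5, map_div₀, h3, div_one]
  have hB : ∀ n, Valued.v (z (n + 1) - z n) ≤ Valued.v ((x - 1) ^ (n + 1)) := by
    intro n
    induction n with
    | zero =>
      rw [zero_add, pow_one, zs, z0]
      have h4 : T 1 - 1 = (x - 1) / 3 := by
        simp only [T]; ring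
      rw [h4, map_div₀, h3, div_one]
    | succ n ih =>
      have h4 := hT (z (n + 1)) (z n) (hA _) (hA _)
      rw [← zs, ← zs] at h4
      refine h4.trans ?_
      rw [pow_succ' (x - 1), map_mul]
      exact mul_le_mul_right ih _
  have := nonarch (L := L)
  have hlim : Tendsto (fun n => z (n + 1) - z n) atTop (𝓝 0) := by
    have h4 : Tendsto (fun n : ℕ => (x - 1) ^ (n + 1)) atTop (𝓝 0) :=
      (Valued.tendsto_zero_pow_of_v_lt_one hx).comp (tendsto_add_atTop_nat 1)
    rw [(Valued.hasBasis_nhds_zero L _).tendsto_right_iff] at h4 ⊢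
    intro γ hγ
    filter_upwards [h4 γ hγ] with n hn
    have h5 : (Valued.v (R := L)).restrict (z (n + 1) - z n) ≤
        (Valued.v (R := L)).restrict ((x - 1) ^ (n + 1)) :=
      (Valuation.restrict_le_iff _).2 (hB n)
    exact lt_of_le_of_lt h5 hn
  have hcau : CauchySeq z := NonarchimedeanAddGroup.cauchySeq_of_tendsto_sub_nhds_zero hlim
  obtain ⟨w, hw⟩ := cauchySeq_tendsto_of_complete hcau
  have hTc : Continuous T := by
    have : Continuous fun y : L => y - (y ^ 3 - x) * 3⁻¹ := by fun_prop
    simpa only [T, div_eq_mul_inv] using this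
  have hw1 : Tendsto (fun n => z (n + 1)) atTop (𝓝 w) := hw.comp (tendsto_add_atTop_nat 1)
  have hw2 : Tendsto (fun n => z (n + 1)) atTop (𝓝 (T w)) := by
    simp only [zs]
    exact (hTc.tendsto w).comp hw
  have : T2Space L := inferInstance
  have hfix : T w = w := tendsto_nhds_unique hw2 hw1
  refine ⟨w, ?_⟩
  have h5 : (w ^ 3 - x) / 3 = 0 := by
    have : w - (w ^ 3 - x) / 3 = w := hfix
    linear_combination -this
  rcases div_eq_zero_iff.1 h5 with h6 | h6
  · linear_combination h6
  · exact absurd h6 h30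

end

end Pool.Agent.Y696
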