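import Mathlib
import Pool.Agent.Y696.Cb

/-!
# Galois theory of the cubic extension inside the algebraic closure
-/

set_option autoImplicit false

namespace Pool.Agent.Y696

section quad
variable {k Ω : Type} [Field k] [Field Ω] [Algebra k Ω] [IsGalois k Ω]

/-- a quadratic character is given by a square root -/
lemma quad {H H' : Subgroup Gal(Ω/k)} (hle : H' ≤ H)
    (hcl : IsClosed (H' : Set Gal(Ω/k)))
    (hmul : ∀ σ ∈ H, ∀ τ ∈ H, σ ∉ H' → τ ∉ H' → σ * τ ∈ H') :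
    ∃ w : Ω, w ≠ 0 ∧ (∀ σ ∈ H', σ w = w) ∧ ∀ σ ∈ H, σ ∉ H' → σ w = -w := by
  by_cases htriv : ∀ σ ∈ H, σ ∈ H'
  · exact ⟨1, one_ne_zero, fun σ _ => map_one σ, fun σ h1 h2 => absurd (htriv σ h1) h2⟩
  push Not at htriv
  obtain ⟨τ, hτ, hτ'⟩ := htriv
  let N' : ClosedSubgroup Gal(Ω/k) := { H' with isClosed' := hcl }
  have hfix := InfiniteGalois.fixingSubgroup_fixedField (k := k) (K := Ω) N'
  obtain ⟨x, hx, hxτ⟩ : ∃ x : Ω, (∀ σ ∈ H', σ x = x) ∧ τ x ≠ x := by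
    by_contra hcon
    push Not at hcon
    have h2 : τ ∈ (IntermediateField.fixedField N'.toSubgroup).fixingSubgroup := by
      rw [IntermediateField.mem_fixingSubgroup_iff]
      intro x hx
      rw [IntermediateField.mem_fixedField_iff] at hx
      exact hcon x (fun σ hσ => hx σ hσ)
    rw [hfix] at h2
    exact hτ' h2
  have hτi : τ⁻¹ ∉ H' := fun h => hτ' (by simpa using H'.inv_mem h)
  have hnorm : ∀ σ ∈ H', τ⁻¹ * (σ * τ) ∈ H' := by
    intro σ hσ
    refine hmul _ (H.inv_mem hτ) _ (H.mul_mem (hle hσ) hτ) hτi ?_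
    intro h
    apply hτ'
    have := H'.mul_mem (H'.inv_mem hσ) h
    rwa [inv_mul_cancel_left] at this
  have hfixτ : ∀ σ ∈ H', σ (τ x) = τ x := by
    intro σ hσ
    have h3 := hx _ (hnorm σ hσ)
    rw [AlgEquiv.mul_apply, AlgEquiv.mul_apply] at h3
    have h4 := congrArg τ h3
    rwa [← AlgEquiv.mul_apply τ τ⁻¹, mul_inv_cancel, AlgEquiv.one_apply] at h4
  refine ⟨x - τ x, fun h => hxτ (sub_eq_zero.1 h).symm, fun σ hσ => ?_, fun σ hσ hσ' => ?_⟩
  · rw [map_sub, hx σ hσ, hfixτ σ hσ]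
  · -- `σ = τ (τ⁻¹ σ)` and `σ τ ∈ H'`
    have h1 : τ⁻¹ * σ ∈ H' := hmul _ (H.inv_mem hτ) _ hσ hτi hσ'
    have h2 : σ x = τ x := by
      have h3 := hx _ h1
      rw [AlgEquiv.mul_apply] at h3
      have h4 := congrArg τ h3
      rwa [← AlgEquiv.mul_apply τ τ⁻¹, mul_inv_cancel, AlgEquiv.one_apply] at h4
    have h5 : σ (τ x) = x := by
      have := hx _ (hmul σ hσ τ hτ hσ' hτ')
      rwa [AlgEquiv.mul_apply] at this
    rw [map_sub, h2, h5]
    ring

/-- an element fixed by all the automorphisms lies in the base field -/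
lemma fixm (x : Ω) (h : ∀ σ : Gal(Ω/k), σ x = x) : ∃ y : k, algebraMap k Ω y = x :=
  (InfiniteGalois.mem_range_algebraMap_iff_fixed (k := k) (K := Ω) x).2 h

/-- an element fixed by the stabiliser of the cube root of two -/
lemma stabm {ρ : Ω} (hρ : ρ ^ 3 = 2) {z : Ω} (h : ∀ σ : Gal(Ω/k), σ ρ = ρ → σ z = z) :
    ∃ Z : Cb k, Cb.hom Ω (algebraMap k Ω) ρ hρ Z = z := by
  have hint : IsIntegral k ρ := Algebra.IsIntegral.isIntegral ρ
  have h1 : z ∈ IntermediateField.adjoin k {ρ} := by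
    rw [← InfiniteGalois.fixedField_fixingSubgroup (IntermediateField.adjoin k {ρ}),
      IntermediateField.mem_fixedField_iff]
    intro σ hσ
    apply h
    rw [IntermediateField.mem_fixingSubgroup_iff] at hσ
    exact hσ ρ (IntermediateField.mem_adjoin_simple_self k ρ)
  have h2 : z ∈ (IntermediateField.adjoin k {ρ}).toSubalgebra := h1
  rw [IntermediateField.adjoin_simple_toSubalgebra_of_isAlgebraic hint.isAlgebraic] at h2
  refine Algebra.adjoin_induction (p := fun z _ => ∃ Z : Cb k,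
    Cb.hom Ω (algebraMap k Ω) ρ hρ Z = z) ?_ ?_ ?_ ?_ h2
  · rintro _ rfl
    refine ⟨Cb.pi, ?_⟩
    simp [Cb.hom_apply]
  · intro r
    refine ⟨Cb.C r, ?_⟩
    simp [Cb.hom_apply]
  · rintro _ _ _ _ ⟨X, rfl⟩ ⟨Y, rfl⟩
    exact ⟨X + Y, map_add _ _ _⟩
  · rintro _ _ _ _ ⟨X, rfl⟩ ⟨Y, rfl⟩
    exact ⟨X * Y, map_mul _ _ _⟩

end quad

end Pool.Agent.Y696
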