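import Mathlib
import Pool.Agent.Y696.Cb
import Pool.Agent.TH841.SH.Alg2
import Pool.Agent.TH841.SH.ShaDef

/-!
# Points of `y² = x³ + 16`: the action of homomorphisms on the points of order two
-/

set_option autoImplicit false

namespace Pool.Agent.Y696

open WeierstrassCurve
open Pool.Agent.TH841.SH.D
open Pool.Agent.TH841.SH (IsR IsX gf not_isX isX_some isX_zero)

section gen
variable {k : Type} [Field k] (W : WeierstrassCurve k)

lemma act_some {F L : Type} [Field F] [Field L] [Algebra k F]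
    [Algebra k L] (φ : F →ₐ[k] L) {x y : F} (h : (W.baseChange F).toAffine.Nonsingular x y) :
    act W φ (.some x y h) =
      .some (φ x) (φ y) ((Affine.baseChange_nonsingular W φ.injective ..).mpr h) := rfl

variable {W} in
lemma pt_ext {L : Type} [Field L] [Algebra k L] {x y x' y' : L}
    {h : (W.baseChange L).toAffine.Nonsingular x y}
    {h' : (W.baseChange L).toAffine.Nonsingular x' y'} :
    @Eq (Pt W L) (Affine.Point.some x y h : (W.baseChange L).toAffine.Point)
      (Affine.Point.some x' y' h' : (W.baseChange L).toAffine.Point) ↔ x = x' ∧ y = y' := by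
  constructor
  · intro h
    have := (Affine.Point.some.injEq ..).to_iff.1 h
    exact this
  · rintro ⟨rfl, rfl⟩
    rfl

lemma act_inj {F L : Type} [Field F] [Field L] [Algebra k F]
    [Algebra k L] (φ : F →ₐ[k] L) : Function.Injective (act W φ) :=
  @Affine.Point.map_injective k k F L _ _ _ _ W (Classical.decEq F) (Classical.decEq L) _ _ _ _ _ _ _ φ

lemma act_act {F L M : Type} [Field F] [Field L] [Field M] [Algebra k F]
    [Algebra k L] [Algebra k M] (φ : F →ₐ[k] L) (ψ : L →ₐ[k] M) (P : Pt W F) :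
    act W ψ (act W φ P) = act W (ψ.comp φ) P := by
  rcases P with _ | ⟨x, y, h⟩
  · rfl
  · rfl

lemma act_isX {F L : Type} [Field F] [Field L] [Algebra k F]
    [Algebra k L] (φ : F →ₐ[k] L) (e : F) (T : Pt W F) :
    IsX (W.baseChange L) (φ e) (act W φ T) ↔ IsX (W.baseChange F) e T := by
  rcases T with _ | ⟨x, y, h⟩
  · exact ⟨fun _ => Or.inl rfl, fun _ => Or.inl rfl⟩
  · by_cases hx : x = e
    · subst hx
      refine ⟨fun _ => isX_some h, fun _ => ?_⟩
      rw [act_some]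
      exact isX_some _
    · refine ⟨fun h' => absurd h' ?_, fun h' => absurd h' (not_isX h hx)⟩
      rw [act_some]
      exact not_isX _ fun h2 => hx (φ.injective h2)

lemma act_gf {F L : Type} [Field F] [Field L] [Algebra k F] [Algebra k L] (φ : F →ₐ[k] L)
    (a b c : F) (R : Pt W F) :
    φ (gf (W.baseChange F) a b c R) = gf (W.baseChange L) (φ a) (φ b) (φ c) (act W φ R) := by
  rcases R with _ | ⟨u, v, h⟩
  · exact map_zero φ
  · rw [act_some]
    show φ (((u - a) ^ 2 - (a - b) * (a - c)) / (2 * v)) = ((φ u - φ a) ^ 2 -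
      (φ a - φ b) * (φ a - φ c)) / (2 * φ v)
    simp only [map_div₀, map_sub, map_pow, map_mul, map_ofNat]

end gen

/-- the curve `y² = x³ + 16` -/
def W16 (k : Type) [Field k] : WeierstrassCurve k := ⟨0, 0, 0, 0, 16⟩

section curve
variable {k : Type} [Field k] {L : Type} [Field L] [Algebra k L]

/-- the three roots -/
def rt (ρ : L) : L := -2 * ρ

lemma isR16 {ρ ω : L} (hρ : ρ ^ 3 = 2) (hω : ω ^ 2 + ω + 1 = 0) :
    IsR ((W16 k).baseChange L) (rt ρ) (rt (ω * ρ)) (rt (ω ^ 2 * ρ)) where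
  h1 := by
    show algebraMap k L 0 = 0
    rw [map_zero]
  h2 := by
    show algebraMap k L 0 = _
    rw [map_zero, rt, rt, rt]
    linear_combination (-2 * ρ) * hω
  h3 := by
    show algebraMap k L 0 = 0
    rw [map_zero]
  h4 := by
    show algebraMap k L 0 = _
    rw [map_zero, rt, rt, rt]
    linear_combination (-4 * ρ ^ 2 * ω) * hω
  h6 := by
    show algebraMap k L 16 = _
    rw [map_ofNat, rt, rt, rt]
    have h3 : ω ^ 3 = 1 := by linear_combination (ω - 1) * hω
    linear_combination (-8 * ω ^ 3) * hρ - 16 * h3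

lemma rt_inj (h2 : (2 : L) ≠ 0) {x y : L} (h : rt x = rt y) : x = y := by
  simp only [rt] at h
  have h3 : (2 : L) * (x - y) = 0 := by linear_combination -h
  exact sub_eq_zero.1 ((mul_eq_zero.1 h3).resolve_left h2)

lemma om_ne_one {ω : L} (h3 : (3 : L) ≠ 0) (hω : ω ^ 2 + ω + 1 = 0) : ω ≠ 1 := by
  rintro rfl
  apply h3
  linear_combination hω

lemma rt_ne1 (h2 : (2 : L) ≠ 0) (h3 : (3 : L) ≠ 0) {ρ ω : L} (hρ : ρ ^ 3 = 2)
    (hω : ω ^ 2 + ω + 1 = 0) : rt ρ ≠ rt (ω * ρ) := by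
  intro h
  have h1 := rt_inj h2 h
  have hρ0 : ρ ≠ 0 := by
    rintro rfl
    apply h2
    rw [← hρ]; ring
  apply om_ne_one h3 hω
  have h4 : (ω - 1) * ρ = 0 := by linear_combination -h1
  exact sub_eq_zero.1 ((mul_eq_zero.1 h4).resolve_right hρ0)

lemma rt_ne2 (h2 : (2 : L) ≠ 0) (h3 : (3 : L) ≠ 0) {ρ ω : L} (hρ : ρ ^ 3 = 2)
    (hω : ω ^ 2 + ω + 1 = 0) : rt ρ ≠ rt (ω ^ 2 * ρ) := by
  have hω' : (ω ^ 2) ^ 2 + ω ^ 2 + 1 = 0 := by linear_combination (ω ^ 2 - ω + 1) * hω
  exact rt_ne1 h2 h3 hρ hω'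

lemma rt_ne3 (h2 : (2 : L) ≠ 0) (h3 : (3 : L) ≠ 0) {ρ ω : L} (hρ : ρ ^ 3 = 2)
    (hω : ω ^ 2 + ω + 1 = 0) : rt (ω * ρ) ≠ rt (ω ^ 2 * ρ) := by
  have hω3 : ω ^ 3 = 1 := by linear_combination (ω - 1) * hω
  have h := rt_ne1 (ρ := ω * ρ) h2 h3 (by rw [mul_pow, hω3, one_mul, hρ]) hω
  rwa [show ω * (ω * ρ) = ω ^ 2 * ρ by ring] at h

end curve

section mk
variable {k : Type} [Field k] {W : WeierstrassCurve k} {L : Type} [Field L] [Algebra k L]

/-- an affine point -/
def mkp {x y : L} (h : (W.baseChange L).toAffine.Nonsingular x y) : Pt W L :=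
  Affine.Point.some x y h

lemma pt_cases (R : Pt W L) : R = 0 ∨ ∃ (x y : L) (h : (W.baseChange L).toAffine.Nonsingular x y),
    R = mkp h := by
  rcases R with _ | ⟨x, y, h⟩
  · exact Or.inl rfl
  · exact Or.inr ⟨x, y, h, rfl⟩

lemma mk_ext {x y x' y' : L} {h : (W.baseChange L).toAffine.Nonsingular x y}
    {h' : (W.baseChange L).toAffine.Nonsingular x' y'} : mkp h = mkp h' ↔ x = x' ∧ y = y' := pt_ext

lemma act_mk {M : Type} [Field M] [Algebra k M] (φ : L →ₐ[k] M) {x y : L}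
    (h : (W.baseChange L).toAffine.Nonsingular x y) :
    act W φ (mkp h) = mkp ((Affine.baseChange_nonsingular W φ.injective ..).mpr h) := rfl

variable {a b c : L} (hR : IsR (W.baseChange L) a b c) (h2 : (2 : L) ≠ 0)

include hR h2

lemma mk_add_self {u v : L} (h : (W.baseChange L).toAffine.Nonsingular u v) :
    mkp h + mkp h = 0 ↔ v = 0 :=
  @IsR.add_self L _ (W.baseChange L) a b c (Classical.decEq L) hR h2 u v h

lemma mk_dup {u v : L} (h : (W.baseChange L).toAffine.Nonsingular u v) (hv : v ≠ 0) :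
    ∃ (X Y : L) (h' : (W.baseChange L).toAffine.Nonsingular X Y), mkp h + mkp h = mkp h' ∧
      X - a = (gf (W.baseChange L) a b c (mkp h)) ^ 2 :=
  @IsR.dup L _ (W.baseChange L) a b c (Classical.decEq L) hR h2 u v h hv

lemma mk_sign (hab : a ≠ b) (hac : a ≠ c) (hbc : b ≠ c)
    {u v : L} (h : (W.baseChange L).toAffine.Nonsingular u v) (hv : v ≠ 0) {T : Pt W L}
    (hT : T + T = 0) :
    ∃ (u' v' : L) (h' : (W.baseChange L).toAffine.Nonsingular u' v'),
      mkp h + T = mkp h' ∧ v' ≠ 0 ∧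
      (IsX (W.baseChange L) a T → gf (W.baseChange L) a b c (mkp h') =
        gf (W.baseChange L) a b c (mkp h)) ∧
      (¬ IsX (W.baseChange L) a T → gf (W.baseChange L) a b c (mkp h') =
        - gf (W.baseChange L) a b c (mkp h)) :=
  @IsR.sign L _ (W.baseChange L) a b c (Classical.decEq L) hR h2 hab hac hbc u v h hv T hT

lemma mk_halve [IsAlgClosed L] (hab : a ≠ b) (hac : a ≠ c) (hbc : b ≠ c) (P : Pt W L) :
    ∃ Q : Pt W L, P = Q + Q :=
  @IsR.div L _ (W.baseChange L) a b c (Classical.decEq L) _ hR h2 hab hac hbc P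

end mk

end Pool.Agent.Y696
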