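import Mathlib
import Pool.Agent.Y696.Kum
import Pool.Agent.Y696.Pt16

/-!
# Cocycles with values in the points of order two and elements of `K[π]`
-/

set_option autoImplicit false

namespace Pool.Agent.Y696

open WeierstrassCurve
open scoped Classical
open Pool.Agent.TH841.SH.D
open Pool.Agent.TH841.SH (IsR IsX gf not_isX isX_some isX_zero)

section
variable {K : Type} [Field K]

lemma act_one' (W : WeierstrassCurve K) (T : Pt W (AlgebraicClosure K)) :
    act W (1 : Gal K).toAlgHom T = T := by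
  rcases T with _ | ⟨x, y, h⟩
  · rfl
  · rfl

lemma act_mul' (W : WeierstrassCurve K) (σ τ : Gal K) (T : Pt W (AlgebraicClosure K)) :
    act W (σ * τ).toAlgHom T = act W σ.toAlgHom (act W τ.toAlgHom T) := by
  rcases T with _ | ⟨x, y, h⟩
  · rfl
  · rfl

lemma coc_one {W : WeierstrassCurve K} {f : Coch W} (hf : IsCoc W f) : f 1 = 0 := by
  have h := hf.2 1 1
  rw [mul_one, act_one'] at h
  exact (add_eq_left.1 h.symm)

variable [CharZero K]

/-- the data: a primitive cube root of unity in the field, a cube root of two above -/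
structure RD (K : Type) [Field K] [CharZero K] where
  ω : K
  hω : ω ^ 2 + ω + 1 = 0
  h3 : ∀ x : K, x ^ 3 ≠ 2
  ρ : AlgebraicClosure K
  hρ : ρ ^ 3 = 2

variable (D : RD K)

/-- the root of unity above -/
noncomputable def RD.z : AlgebraicClosure K := algebraMap K _ D.ω

lemma RD.hz : D.z ^ 2 + D.z + 1 = 0 := by
  rw [RD.z, ← map_pow, ← map_add, ← map_one (algebraMap K (AlgebraicClosure K)), ← map_add, D.hω,
    map_zero]

lemma RD.hz3 : D.z ^ 3 = 1 := by linear_combination (D.z - 1) * D.hz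

lemma RD.σz (σ : Gal K) : σ D.z = D.z := σ.commutes _

lemma RD.isR : IsR ((W16 K).baseChange (AlgebraicClosure K)) (rt D.ρ) (rt (D.z * D.ρ))
    (rt (D.z ^ 2 * D.ρ)) := isR16 D.hρ D.hz

lemma RD.n1 : rt D.ρ ≠ rt (D.z * D.ρ) := rt_ne1 two_ne_zero three_ne_zero D.hρ D.hz
lemma RD.n2 : rt D.ρ ≠ rt (D.z ^ 2 * D.ρ) := rt_ne2 two_ne_zero three_ne_zero D.hρ D.hz
lemma RD.n3 : rt (D.z * D.ρ) ≠ rt (D.z ^ 2 * D.ρ) := rt_ne3 two_ne_zero three_ne_zero D.hρ D.hz

lemma map_rt {k L M : Type} [Field k] [Field L] [Field M] [Algebra k L] [Algebra k M]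
    (φ : L →ₐ[k] M) (x : L) : φ (rt x) = rt (φ x) := by
  simp only [rt, map_mul, map_neg, map_ofNat]

/-- the stabiliser acts trivially on the points of order two -/
lemma RD.triv {σ : Gal K} (hσ : σ D.ρ = D.ρ) {T : Pt (W16 K) (AlgebraicClosure K)}
    (hT : T + T = 0) : act (W16 K) σ.toAlgHom T = T := by
  have hz := D.σz σ
  have e : ∀ x, σ.toAlgHom (rt x) = rt (σ x) := fun x => map_rt σ.toAlgHom x
  rcases D.isR.tors two_ne_zero hT with rfl | ⟨ha, rfl⟩ | ⟨hb, rfl⟩ | ⟨hc, rfl⟩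
  · exact map_zero _
  · exact pt_ext.2 ⟨by rw [e, hσ], map_zero _⟩
  · exact pt_ext.2 ⟨by rw [e, map_mul, hσ, hz], map_zero _⟩
  · exact pt_ext.2 ⟨by rw [e, map_mul, map_pow, hσ, hz], map_zero _⟩

lemma RD.exists_s : ∃ σ : Gal K, σ D.ρ = D.z * D.ρ := by
  have hirr : Irreducible (Polynomial.X ^ 3 - Polynomial.C (2 : K)) :=
    X_pow_sub_C_irreducible_of_prime Nat.prime_three D.h3
  have hm : (Polynomial.X ^ 3 - Polynomial.C (2 : K)).Monic :=
    Polynomial.monic_X_pow_sub_C _ (by norm_num)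
  have hmin : Polynomial.X ^ 3 - Polynomial.C (2 : K) = minpoly K D.ρ :=
    minpoly.eq_of_irreducible_of_monic hirr (by simp [D.hρ, map_ofNat]) hm
  have : Normal K (AlgebraicClosure K) := IsAlgClosure.normal K _
  refine minpoly.exists_algEquiv_of_root' (Algebra.IsAlgebraic.isAlgebraic D.ρ) ?_
  rw [← hmin]
  simp [mul_pow, D.hρ, D.hz3, map_ofNat]

variable {D} in
/-- an automorphism is a power of `s` times an element of the stabiliser -/
lemma RD.dec {s : Gal K} (hs : s D.ρ = D.z * D.ρ) (σ : Gal K) :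
    ∃ h : Gal K, h D.ρ = D.ρ ∧ (σ = h ∨ σ = s * h ∨ σ = s * (s * h)) := by
  have hz := D.hz
  have h1 : (σ D.ρ) ^ 3 = 2 := by rw [← map_pow, D.hρ, map_ofNat]
  have h2 : (σ D.ρ - D.ρ) * ((σ D.ρ - D.z * D.ρ) * (σ D.ρ - D.z ^ 2 * D.ρ)) = 0 := by
    have h3 := D.hz3
    have h4 := D.hρ
    linear_combination h1 - (D.z ^ 3) * h4 - 2 * h3 - ((σ D.ρ) ^ 2 * D.ρ) * hz +
      (σ D.ρ * D.ρ ^ 2 * D.z) * hz
  have hsi : s⁻¹ (D.z * D.ρ) = D.ρ := by
    rw [← hs, ← AlgEquiv.mul_apply, inv_mul_cancel, AlgEquiv.one_apply]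
  have hsi2 : s⁻¹ (D.z ^ 2 * D.ρ) = D.z * D.ρ := by
    rw [show D.z ^ 2 * D.ρ = D.z * (D.z * D.ρ) by ring, map_mul, hsi, D.σz]
  rcases mul_eq_zero.1 h2 with h | h
  · exact ⟨σ, sub_eq_zero.1 h, Or.inl rfl⟩
  rcases mul_eq_zero.1 h with h | h
  · refine ⟨s⁻¹ * σ, ?_, Or.inr (Or.inl (by group))⟩
    rw [AlgEquiv.mul_apply, sub_eq_zero.1 h, hsi]
  · refine ⟨s⁻¹ * (s⁻¹ * σ), ?_, Or.inr (Or.inr (by group))⟩
    rw [AlgEquiv.mul_apply, AlgEquiv.mul_apply, sub_eq_zero.1 h, hsi2, hsi]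

omit [CharZero K] in
/-- the transport of the roots -/
lemma isX_conj {σ : Gal K} (x : AlgebraicClosure K) (T : Pt (W16 K) (AlgebraicClosure K)) :
    IsX ((W16 K).baseChange (AlgebraicClosure K)) (rt (σ x)) (act (W16 K) σ.toAlgHom T) ↔
    IsX ((W16 K).baseChange (AlgebraicClosure K)) (rt x) T := by
  have := act_isX (W16 K) σ.toAlgHom (rt x) T
  rwa [map_rt] at this

variable {D} in
lemma RD.fix0 {s : Gal K} (hs : s D.ρ = D.z * D.ρ) {T : Pt (W16 K) (AlgebraicClosure K)}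
    (hT : T + T = 0) (h : act (W16 K) s.toAlgHom T = T) : T = 0 := by
  have hz := D.σz s
  have e : ∀ x, s.toAlgHom (rt x) = rt (s x) := fun x => map_rt s.toAlgHom x
  rcases D.isR.tors two_ne_zero hT with rfl | ⟨ha, rfl⟩ | ⟨hb, rfl⟩ | ⟨hc, rfl⟩
  · rfl
  · exfalso
    have h := (pt_ext.1 h).1
    rw [e, hs] at h
    exact D.n1 h.symm
  · exfalso
    have h := (pt_ext.1 h).1
    rw [e, map_mul, hs, hz] at h
    apply D.n3
    rw [← h]
    congr 1
    ring
  · exfalso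
    have h := (pt_ext.1 h).1
    rw [e, map_mul, map_pow, hs, hz] at h
    apply D.n2
    rw [← h]
    congr 1
    linear_combination (-D.ρ) * D.hz3

variable {D} in
lemma RD.orbit {s : Gal K} (hs : s D.ρ = D.z * D.ρ) {T : Pt (W16 K) (AlgebraicClosure K)}
    (hT : T + T = 0) :
    T + act (W16 K) s.toAlgHom T + act (W16 K) s.toAlgHom (act (W16 K) s.toAlgHom T) = 0 := by
  set A := act (W16 K) s.toAlgHom with hA
  have h2 : A T + A T = 0 := by rw [← map_add, hT, map_zero]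
  have h3 : A (A T) + A (A T) = 0 := by rw [← map_add, h2, map_zero]
  have hs3 : A (A (A T)) = T := by
    rw [hA, ← act_mul', ← act_mul']
    refine D.triv ?_ hT
    rw [AlgEquiv.mul_apply, AlgEquiv.mul_apply, hs, map_mul, hs, D.σz, map_mul, map_mul, hs, D.σz]
    linear_combination D.ρ * D.hz3
  refine RD.fix0 hs ?_ ?_
  · have : T + A T + A (A T) + (T + A T + A (A T)) = (T + T) + (A T + A T) + (A (A T) + A (A T)) := by
      abel
    rw [this, hT, h2, h3, add_zero, add_zero]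
  · change A _ = _
    rw [map_add, map_add, hs3]
    abel

end

end Pool.Agent.Y696
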