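import Mathlib
import Pool.Agent.Y696.Glo

/-!
# The element of `K[π]` attached to a cocycle with values in the points of order two
-/

set_option autoImplicit false

namespace Pool.Agent.Y696

open WeierstrassCurve
open scoped Classical
open Pool.Agent.TH841.SH.D
open Pool.Agent.TH841.SH (IsR IsX gf not_isX isX_some isX_zero)

section
variable {K : Type} [Field K] [CharZero K] (D : RD K)

/-- the embedding of `K[π]` -/
noncomputable def RD.em : Cb K →+* AlgebraicClosure K :=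
  Cb.hom _ (algebraMap K (AlgebraicClosure K)) D.ρ D.hρ

lemma RD.em_apply (x : Cb K) : D.em x = algebraMap K (AlgebraicClosure K) x.a +
    algebraMap K (AlgebraicClosure K) x.b * D.ρ +
    algebraMap K (AlgebraicClosure K) x.c * D.ρ ^ 2 := rfl

lemma RD.em_inj : Function.Injective D.em := by
  let _ : Field (Cb K) := Cb.fld D.h3
  exact D.em.injective

variable {D} in
lemma RD.norm_em {s : Gal K} (hs : s D.ρ = D.z * D.ρ) (x : Cb K) :
    D.em x * s (D.em x) * s (s (D.em x)) = algebraMap K (AlgebraicClosure K) x.N := by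
  have hz := D.hz
  have e1 : s (D.em x) = algebraMap K (AlgebraicClosure K) x.a +
      D.z * (algebraMap K (AlgebraicClosure K) x.b * D.ρ) +
      D.z ^ 2 * (algebraMap K (AlgebraicClosure K) x.c * D.ρ ^ 2) := by
    rw [D.em_apply, map_add, map_add, map_mul, map_mul, map_pow, AlgEquiv.commutes,
      AlgEquiv.commutes, AlgEquiv.commutes, hs]
    ring
  have e2 : s (s (D.em x)) = algebraMap K (AlgebraicClosure K) x.a +
      D.z ^ 2 * (algebraMap K (AlgebraicClosure K) x.b * D.ρ) +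
      D.z * (algebraMap K (AlgebraicClosure K) x.c * D.ρ ^ 2) := by
    rw [e1, map_add, map_add, map_mul, map_mul, map_mul, map_mul, map_pow, map_pow,
      AlgEquiv.commutes, AlgEquiv.commutes, AlgEquiv.commutes, hs, D.σz]
    linear_combination (D.z * algebraMap K (AlgebraicClosure K) x.c * D.ρ ^ 2) * D.hz3
  rw [e2, e1, D.em_apply]
  have e3 : algebraMap K (AlgebraicClosure K) x.N =
      (algebraMap K (AlgebraicClosure K) x.a) ^ 3 + 2 * (algebraMap K (AlgebraicClosure K) x.b) ^ 3 +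
      4 * (algebraMap K (AlgebraicClosure K) x.c) ^ 3 - 6 * algebraMap K (AlgebraicClosure K) x.a *
      algebraMap K (AlgebraicClosure K) x.b * algebraMap K (AlgebraicClosure K) x.c := by
    rw [Cb.N]
    simp only [map_sub, map_add, map_mul, map_pow, map_ofNat]
  rw [e3]
  set A := algebraMap K (AlgebraicClosure K) x.a
  set B := algebraMap K (AlgebraicClosure K) x.b
  set C := algebraMap K (AlgebraicClosure K) x.c
  set y := B * D.ρ with hy
  set z := C * D.ρ ^ 2 with hz'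
  have y3 : y ^ 3 = 2 * B ^ 3 := by rw [hy]; linear_combination B ^ 3 * D.hρ
  have z3 : z ^ 3 = 4 * C ^ 3 := by
    rw [hz']; linear_combination C ^ 3 * (D.ρ ^ 3 + 2) * D.hρ
  have xyz : A * y * z = 2 * A * B * C := by
    rw [hy, hz']; linear_combination A * B * C * D.hρ
  linear_combination ((A + y + z) * (A * y + A * z + (D.z - 1) * (y ^ 2 + z ^ 2) +
    (D.z ^ 2 - D.z + 1) * (y * z))) * hz + y3 + z3 - 3 * xyz

/-- the value of a cocycle at a conjugate -/
lemma RD.coc_conj {f : Coch (W16 K)} (hf : IsCoc (W16 K) f) (h2 : ∀ σ, f σ + f σ = 0)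
    {s σ : Gal K} (hσ : σ D.ρ = D.ρ) :
    act (W16 K) s.toAlgHom (f (s⁻¹ * (σ * s))) = f σ := by
  have e1 := hf.2 s (s⁻¹ * (σ * s))
  rw [mul_inv_cancel_left, hf.2 σ s, D.triv hσ (h2 s)] at e1
  have e2 : f s + act (W16 K) s.toAlgHom (f (s⁻¹ * (σ * s))) = f s + f σ := by
    rw [← e1, add_comm]
  exact add_left_cancel e2

/-- **the element attached to a cocycle** -/
theorem RD.glo {f : Coch (W16 K)} (hf : IsCoc (W16 K) f) (h2 : ∀ σ, f σ + f σ = 0) :
    ∃ (δ : Cb K) (w : AlgebraicClosure K), w ≠ 0 ∧ w ^ 2 = D.em δ ∧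
      (∀ σ : Gal K, σ D.ρ = D.ρ →
        IsX ((W16 K).baseChange (AlgebraicClosure K)) (rt D.ρ) (f σ) → σ w = w) ∧
      (∀ σ : Gal K, σ D.ρ = D.ρ →
        ¬ IsX ((W16 K).baseChange (AlgebraicClosure K)) (rt D.ρ) (f σ) → σ w = -w) ∧
      (∃ r, δ.N = r ^ 2) ∧ δ.N ≠ 0 ∧
      (IsSquare δ → ∃ T : Pt (W16 K) (AlgebraicClosure K), T + T = 0 ∧
        ∀ σ : Gal K, f σ = act (W16 K) σ.toAlgHom T - T) := by
  have hR := D.isR
  set X : Pt (W16 K) (AlgebraicClosure K) → Prop :=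
    IsX ((W16 K).baseChange (AlgebraicClosure K)) (rt D.ρ) with hX
  let H : Subgroup (Gal K) :=
    { carrier := {σ | σ D.ρ = D.ρ}
      one_mem' := rfl
      mul_mem' := by
        intro a b ha hb
        change a (b D.ρ) = D.ρ
        rw [hb, ha]
      inv_mem' := by
        intro a ha
        change a⁻¹ D.ρ = D.ρ
        have ha' : a D.ρ = D.ρ := ha
        conv_lhs => rw [← ha']
        rw [← AlgEquiv.mul_apply, inv_mul_cancel, AlgEquiv.one_apply] }
  have hH : ∀ σ, σ ∈ H ↔ σ D.ρ = D.ρ := fun σ => Iff.rfl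
  have hadd : ∀ σ ∈ H, ∀ τ, f (σ * τ) = f σ + f τ := by
    intro σ hσ τ
    rw [hf.2, D.triv hσ (h2 τ)]
  have hxadd : ∀ σ ∈ H, ∀ τ, (X (f (σ * τ)) ↔ (X (f σ) ↔ X (f τ))) := by
    intro σ hσ τ
    rw [hadd σ hσ τ]
    exact hR.isX_add two_ne_zero D.n1 D.n2 D.n3 (h2 σ) (h2 τ)
  have hone : X (f 1) := by
    rw [coc_one hf]
    exact isX_zero _
  let H' : Subgroup (Gal K) :=
    { carrier := {σ | σ ∈ H ∧ X (f σ)}
      one_mem' := ⟨H.one_mem, hone⟩
      mul_mem' := by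
        rintro a b ⟨ha, ha'⟩ ⟨hb, hb'⟩
        exact ⟨H.mul_mem ha hb, ((hxadd a ha b).2 (by simp only [ha', hb']))⟩
      inv_mem' := by
        rintro a ⟨ha, ha'⟩
        refine ⟨H.inv_mem ha, ?_⟩
        have := hxadd a ha a⁻¹
        rw [mul_inv_cancel] at this
        exact (this.1 hone).1 ha' }
  have hH' : ∀ σ, σ ∈ H' ↔ σ ∈ H ∧ X (f σ) := fun σ => Iff.rfl
  have hcl : IsClosed (H' : Set (Gal K)) := by
    have e : (H' : Set (Gal K)) = (H : Set (Gal K)) ∩ f ⁻¹' {T | X T} := rfl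
    rw [e]
    refine IsClosed.inter ?_ ?_
    · have e2 : (H : Set (Gal K)) =
          ((IntermediateField.adjoin K {D.ρ}).fixingSubgroup : Set (Gal K)) := by
        ext σ
        rw [SetLike.mem_coe, SetLike.mem_coe, IntermediateField.mem_fixingSubgroup_iff]
        constructor
        · intro hσ x hx
          have hσ' : σ D.ρ = D.ρ := hσ
          have h4 : ∀ y ∈ IntermediateField.adjoin K {D.ρ}, σ y = y := by
            intro y hy
            refine IntermediateField.adjoin_induction (p := fun y _ => σ y = y) K ?_ ?_ ?_ ?_ ?_ hy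
            · rintro _ rfl; exact hσ'
            · intro r; exact σ.commutes r
            · intro a b _ _ ha hb; rw [map_add, ha, hb]
            · intro a _ ha; rw [map_inv₀, ha]
            · intro a b _ _ ha hb; rw [map_mul, ha, hb]
          exact h4 x hx
        · intro h4
          exact h4 D.ρ (IntermediateField.mem_adjoin_simple_self K D.ρ)
      rw [e2]
      exact InfiniteGalois.fixingSubgroup_isClosed _
    · have h5 := (hf.1 {T | ¬ X T}).isClosed_compl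
      have h6 : (f ⁻¹' {T | ¬ X T})ᶜ = f ⁻¹' {T | X T} := by
        ext σ
        simp only [Set.mem_compl_iff, Set.mem_preimage, Set.mem_ofPred_eq, not_not]
      rwa [h6] at h5
  obtain ⟨w, hw0, hw1, hw2⟩ := quad (k := K) (Ω := AlgebraicClosure K) (H := H) (H' := H')
    (fun σ hσ => hσ.1) hcl (by
      intro σ hσ τ hτ hσ' hτ'
      refine ⟨H.mul_mem hσ hτ, (hxadd σ hσ τ).2 ?_⟩
      have a1 : ¬ X (f σ) := fun h => hσ' ⟨hσ, h⟩
      have a2 : ¬ X (f τ) := fun h => hτ' ⟨hτ, h⟩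
      simp only [a1, a2])
  have hwX : ∀ σ : Gal K, σ D.ρ = D.ρ → X (f σ) → σ w = w := fun σ hσ hx => hw1 σ ⟨hσ, hx⟩
  have hwN : ∀ σ : Gal K, σ D.ρ = D.ρ → ¬ X (f σ) → σ w = -w := fun σ hσ hx =>
    hw2 σ hσ fun h => hx h.2
  obtain ⟨δ, hδ⟩ := stabm (k := K) D.hρ (z := w ^ 2) (by
    intro σ hσ
    rw [map_pow]
    by_cases hx : X (f σ)
    · rw [hwX σ hσ hx]
    · rw [hwN σ hσ hx, neg_sq])
  have hδ' : D.em δ = w ^ 2 := hδ
  obtain ⟨s, hs⟩ := D.exists_s
  have hsi : s⁻¹ (D.z * D.ρ) = D.ρ := by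
    rw [← hs, ← AlgEquiv.mul_apply, inv_mul_cancel, AlgEquiv.one_apply]
  -- conjugates of the stabiliser
  have hconj : ∀ σ : Gal K, σ D.ρ = D.ρ → (s⁻¹ * (σ * s)) D.ρ = D.ρ := by
    intro σ hσ
    rw [AlgEquiv.mul_apply, AlgEquiv.mul_apply, hs, map_mul, hσ, D.σz, hsi]
  have hsc : ∀ (σ : Gal K) (x : AlgebraicClosure K), σ (s x) = s ((s⁻¹ * (σ * s)) x) := by
    intro σ x
    rw [← AlgEquiv.mul_apply, ← AlgEquiv.mul_apply, mul_inv_cancel_left]
  set Xb : Pt (W16 K) (AlgebraicClosure K) → Prop :=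
    IsX ((W16 K).baseChange (AlgebraicClosure K)) (rt (D.z * D.ρ)) with hXb
  set Xc : Pt (W16 K) (AlgebraicClosure K) → Prop :=
    IsX ((W16 K).baseChange (AlgebraicClosure K)) (rt (D.z ^ 2 * D.ρ)) with hXc
  have hab : ∀ σ : Gal K, σ D.ρ = D.ρ → (X (f (s⁻¹ * (σ * s))) ↔ Xb (f σ)) := by
    intro σ hσ
    have := isX_conj (σ := s) D.ρ (f (s⁻¹ * (σ * s)))
    rw [D.coc_conj hf h2 hσ, hs] at this
    exact this.symm
  have hbc : ∀ σ : Gal K, σ D.ρ = D.ρ → (Xb (f (s⁻¹ * (σ * s))) ↔ Xc (f σ)) := by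
    intro σ hσ
    have := isX_conj (σ := s) (D.z * D.ρ) (f (s⁻¹ * (σ * s)))
    rw [D.coc_conj hf h2 hσ, map_mul, hs, D.σz, show D.z * (D.z * D.ρ) = D.z ^ 2 * D.ρ by ring]
      at this
    exact this.symm
  have hpar : ∀ T : Pt (W16 K) (AlgebraicClosure K), T + T = 0 →
      (X T ∧ Xb T ∧ Xc T) ∨ (X T ∧ ¬ Xb T ∧ ¬ Xc T) ∨ (¬ X T ∧ Xb T ∧ ¬ Xc T) ∨
      (¬ X T ∧ ¬ Xb T ∧ Xc T) := by
    intro T hT
    rcases hR.tors two_ne_zero hT with rfl | ⟨ha, rfl⟩ | ⟨hb, rfl⟩ | ⟨hc, rfl⟩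
    · exact Or.inl ⟨isX_zero _, isX_zero _, isX_zero _⟩
    · exact Or.inr (Or.inl ⟨isX_some ha, not_isX ha D.n1, not_isX ha D.n2⟩)
    · exact Or.inr (Or.inr (Or.inl ⟨not_isX hb D.n1.symm, isX_some hb, not_isX hb D.n3⟩))
    · exact Or.inr (Or.inr (Or.inr ⟨not_isX hc D.n2.symm, not_isX hc D.n3.symm, isX_some hc⟩))
  have h20 : (2 : AlgebraicClosure K) ≠ 0 := two_ne_zero
  set W := w * s w * s (s w) with hW
  have hW0 : W ≠ 0 := by
    have h1 : s w ≠ 0 := (map_ne_zero s).2 hw0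
    exact mul_ne_zero (mul_ne_zero hw0 h1) ((map_ne_zero s).2 h1)
  have hWH : ∀ σ : Gal K, σ D.ρ = D.ρ → σ W = W := by
    intro σ hσ
    have c1 := hconj σ hσ
    have c2 := hconj _ c1
    have e1 : σ W = σ w * s ((s⁻¹ * (σ * s)) w) * s (s ((s⁻¹ * ((s⁻¹ * (σ * s)) * s)) w)) := by
      rw [hW, map_mul, map_mul, hsc σ w, hsc σ (s w), hsc (s⁻¹ * (σ * s)) w]
    have q1 : Xb (f σ) → (s⁻¹ * (σ * s)) w = w := fun h => hwX _ c1 ((hab σ hσ).2 h)
    have q2 : ¬ Xb (f σ) → (s⁻¹ * (σ * s)) w = -w := fun h =>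
      hwN _ c1 fun h' => h ((hab σ hσ).1 h')
    have q3 : Xc (f σ) → (s⁻¹ * ((s⁻¹ * (σ * s)) * s)) w = w := fun h =>
      hwX _ c2 ((hab _ c1).2 ((hbc σ hσ).2 h))
    have q4 : ¬ Xc (f σ) → (s⁻¹ * ((s⁻¹ * (σ * s)) * s)) w = -w := fun h =>
      hwN _ c2 fun h' => h ((hbc σ hσ).1 ((hab _ c1).1 h'))
    rw [e1]
    rcases hpar (f σ) (h2 σ) with ⟨a1, a2, a3⟩ | ⟨a1, a2, a3⟩ | ⟨a1, a2, a3⟩ | ⟨a1, a2, a3⟩
    · rw [hwX σ hσ a1, q1 a2, q3 a3]
    · rw [hwX σ hσ a1, q2 a2, q4 a3, hW]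
      simp only [map_neg]
      ring
    · rw [hwN σ hσ a1, q1 a2, q4 a3, hW]
      simp only [map_neg]
      ring
    · rw [hwN σ hσ a1, q2 a2, q3 a3, hW]
      simp only [map_neg]
      ring
  have hs3 : (s * (s * s)) D.ρ = D.ρ := by
    rw [AlgEquiv.mul_apply, AlgEquiv.mul_apply, hs, map_mul, hs, D.σz, map_mul, map_mul, hs, D.σz]
    linear_combination D.ρ * D.hz3
  have hf3 : f (s * (s * s)) = 0 := by
    rw [hf.2, hf.2, map_add, ← add_assoc]
    exact RD.orbit hs (h2 s)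
  have hWs : s W = W := by
    have h1 : (s * (s * s)) w = w := hwX _ hs3 (by rw [hf3]; exact isX_zero _)
    have h3 : s (s (s w)) = w := by
      rwa [AlgEquiv.mul_apply, AlgEquiv.mul_apply] at h1
    rw [hW, map_mul, map_mul, h3]
    ring
  obtain ⟨r, hr⟩ := fixm (k := K) W (by
    intro σ
    obtain ⟨h, hh, h1 | h1 | h1⟩ := RD.dec hs σ
    · rw [h1]; exact hWH h hh
    · rw [h1, AlgEquiv.mul_apply, hWH h hh, hWs]
    · rw [h1, AlgEquiv.mul_apply, AlgEquiv.mul_apply, hWH h hh, hWs, hWs])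
  have hNr : algebraMap K (AlgebraicClosure K) δ.N = W ^ 2 := by
    rw [← RD.norm_em hs, hδ', hW, map_pow, map_pow]
    ring
  refine ⟨δ, w, hw0, hδ'.symm, hwX, hwN, ⟨r, ?_⟩, ?_, ?_⟩
  · apply (algebraMap K (AlgebraicClosure K)).injective
    rw [hNr, map_pow, hr]
  · intro h
    rw [h, map_zero] at hNr
    exact hW0 (pow_eq_zero_iff two_ne_zero |>.1 hNr.symm)
  · rintro ⟨t, ht⟩
    have hfixw : ∀ σ : Gal K, σ D.ρ = D.ρ → σ w = w := by
      intro σ hσ
      have h1 : w ^ 2 = (D.em t) ^ 2 := by rw [← hδ', ht, map_mul, pow_two]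
      have h3 : σ (D.em t) = D.em t := by
        rw [D.em_apply, map_add, map_add, map_mul, map_mul, map_pow, AlgEquiv.commutes,
          AlgEquiv.commutes, AlgEquiv.commutes, hσ]
      rcases sq_eq_sq_iff_eq_or_eq_neg.1 h1 with h | h
      · rw [h, h3]
      · rw [h, map_neg, h3]
    have hXH : ∀ σ : Gal K, σ D.ρ = D.ρ → X (f σ) := by
      intro σ hσ
      by_contra hx
      have h1 := hwN σ hσ hx
      rw [hfixw σ hσ] at h1
      have h3 : 2 * w = 0 := by linear_combination h1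
      exact hw0 ((mul_eq_zero.1 h3).resolve_left h20)
    have hf0 : ∀ σ : Gal K, σ D.ρ = D.ρ → f σ = 0 := by
      intro σ hσ
      have x1 := hXH σ hσ
      have x2 := (hab σ hσ).1 (hXH _ (hconj σ hσ))
      exact hR.ext two_ne_zero D.n1 D.n2 D.n3 (h2 σ) (add_zero 0)
        ⟨fun _ => isX_zero _, fun _ => x1⟩ ⟨fun _ => isX_zero _, fun _ => x2⟩
    set A := act (W16 K) s.toAlgHom with hA
    have horb := RD.orbit hs (h2 s)
    rw [← hA] at horb
    have hAA : A (f s) + A (f s) = 0 := by rw [← map_add, h2, map_zero]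
    have hT : A (A (f s)) = A (f s) + f s := by
      have e1 : A (A (f s)) = -(f s + A (f s)) := by
        rw [eq_neg_iff_add_eq_zero, add_comm]
        exact horb
      have e2 : -(f s) = f s := neg_eq_of_add_eq_zero_left (h2 s)
      have e3 : -(A (f s)) = A (f s) := neg_eq_of_add_eq_zero_left hAA
      rw [e1, neg_add, e2, e3, add_comm]
    refine ⟨A (f s), hAA, fun σ => ?_⟩
    obtain ⟨h, hh, h1 | h1 | h1⟩ := RD.dec hs σ
    · rw [h1, hf0 h hh, D.triv hh hAA, sub_self]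
    · rw [h1, hf.2, hf0 h hh, act_mul', D.triv hh hAA]
      change _ = A (A (f s)) - A (f s)
      rw [hT, map_zero]
      abel
    · rw [h1, hf.2, hf.2, hf0 h hh, act_mul', act_mul', D.triv hh hAA]
      change f s + A (f s + A 0) = A (A (A (f s))) - A (f s)
      rw [hT]
      simp only [map_add, hT, map_zero, add_zero]
      abel

end

end Pool.Agent.Y696
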