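import Mathlib
import Pool.Agent.Y696.Glo2

/-!
# The local conditions of a locally trivial cocycle
-/

set_option autoImplicit false

namespace Pool.Agent.Y696

open WeierstrassCurve
open scoped Classical
open Pool.Agent.TH841.SH.D
open Pool.Agent.TH841.SH (IsR IsX gf not_isX isX_some isX_zero)

section
variable {K Kv : Type} [Field K] [Field Kv] [Algebra K Kv]

/-- restriction of automorphisms -/
lemma exists_restr [CharZero K] (ι : AlgebraicClosure K →ₐ[K] AlgebraicClosure Kv) (τ : Gal Kv) :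
    ∃ σ : Gal K, ∀ x, τ (ι x) = ι (σ x) := by
  let _ : Algebra (AlgebraicClosure K) (AlgebraicClosure Kv) := ι.toRingHom.toAlgebra
  have : IsScalarTower K (AlgebraicClosure K) (AlgebraicClosure Kv) :=
    IsScalarTower.of_algebraMap_eq (fun x => (ι.commutes x).symm)
  have : Normal K (AlgebraicClosure K) := IsAlgClosure.normal K _
  let τ' : AlgebraicClosure Kv ≃ₐ[K] AlgebraicClosure Kv := τ.restrictScalars K
  exact ⟨τ'.restrictNormal (AlgebraicClosure K), fun x =>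
    (AlgEquiv.restrictNormal_commutes τ' (AlgebraicClosure K) x).symm⟩

variable [CharZero K] [CharZero Kv] (D : RD K)

/-- **the local data of a locally trivial cocycle** -/
theorem RD.loc1 {f : Coch (W16 K)} (h2 : ∀ σ, f σ + f σ = 0)
    {w : AlgebraicClosure K}
    (hwX : ∀ σ : Gal K, σ D.ρ = D.ρ →
        IsX ((W16 K).baseChange (AlgebraicClosure K)) (rt D.ρ) (f σ) → σ w = w)
    (hwN : ∀ σ : Gal K, σ D.ρ = D.ρ →
        ¬ IsX ((W16 K).baseChange (AlgebraicClosure K)) (rt D.ρ) (f σ) → σ w = -w)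
    (hloc : LocTriv (W16 K) Kv f) (ι : AlgebraicClosure K →ₐ[K] AlgebraicClosure Kv) :
    ∃ (x y : Kv) (z : AlgebraicClosure Kv), y ≠ 0 ∧ y ^ 2 = x ^ 3 + 16 ∧
      z ^ 2 = (algebraMap Kv _ x - rt (ι D.ρ)) * ι (w ^ 2) ∧
      ∀ τ : Gal Kv, τ (ι D.ρ) = ι D.ρ → τ z = z := by
  have h20 : (2 : AlgebraicClosure Kv) ≠ 0 := two_ne_zero
  have h30 : (3 : AlgebraicClosure Kv) ≠ 0 := three_ne_zero
  have hρ' : (ι D.ρ) ^ 3 = 2 := by rw [← map_pow, D.hρ, map_ofNat]
  have hz' : (ι D.z) ^ 2 + ι D.z + 1 = 0 := by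
    rw [← map_pow, ← map_add, ← map_one ι, ← map_add, D.hz, map_zero]
  have hR := isR16 (k := K) hρ' hz'
  have n1 := rt_ne1 h20 h30 hρ' hz'
  have n2 := rt_ne2 h20 h30 hρ' hz'
  have n3 := rt_ne3 h20 h30 hρ' hz'
  obtain ⟨P, hP⟩ := hloc ι
  have h3z : (ι D.z) ^ 3 = 1 := by linear_combination (ι D.z - 1) * hz'
  -- a rational point with `4 S ≠ 0`
  obtain ⟨S, hSfix, hS4⟩ : ∃ S : Pt (W16 K) (AlgebraicClosure Kv), (∀ τ : Gal Kv,
      act (W16 K) (τ.toAlgHom.restrictScalars K) S = S) ∧ (S + S) + (S + S) ≠ 0 := by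
    have h4 : (4 : AlgebraicClosure Kv) ≠ 0 := by norm_num
    have he : ((0 : AlgebraicClosure Kv) - rt (ι D.ρ)) * (0 - rt (ι D.z * ι D.ρ)) *
        (0 - rt ((ι D.z) ^ 2 * ι D.ρ)) = (16 : AlgebraicClosure Kv) := by
      simp only [rt]
      linear_combination (8 * (ι D.z) ^ 3) * hρ' + 16 * h3z
    have hn : ((W16 K).baseChange (AlgebraicClosure Kv)).toAffine.Nonsingular 0 4 := by
      refine hR.nons h20 n1 n2 n3 ?_
      rw [he]
      norm_num
    refine ⟨mkp hn, fun τ => ?_, ?_⟩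
    · exact mk_ext.2 ⟨map_zero _, map_ofNat _ 4⟩
    · obtain ⟨X, Y, hn', e1, e2⟩ := mk_dup hR h20 hn h4
      have hY : Y ≠ 0 := by
        intro hY
        subst hY
        -- `X = 0`
        have hX : X = 0 := by
          have e4 : (((0 : AlgebraicClosure Kv) - rt (ι D.ρ)) ^ 2 -
            (rt (ι D.ρ) - rt (ι D.z * ι D.ρ)) * (rt (ι D.ρ) - rt ((ι D.z) ^ 2 * ι D.ρ))) =
              -8 * (ι D.ρ) ^ 2 := by
            simp only [rt]
            linear_combination (4 * (ι D.ρ) ^ 2) * hz' - 4 * (ι D.ρ) ^ 2 * h3z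
          have e2' : X - rt (ι D.ρ) = ((((0 : AlgebraicClosure Kv) - rt (ι D.ρ)) ^ 2 -
            (rt (ι D.ρ) - rt (ι D.z * ι D.ρ)) * (rt (ι D.ρ) - rt ((ι D.z) ^ 2 * ι D.ρ))) /
              (2 * 4)) ^ 2 := e2
          rw [e4] at e2'
          have e5 : X = rt (ι D.ρ) + (-8 * (ι D.ρ) ^ 2 / (2 * 4)) ^ 2 := by
            rw [← e2']; ring
          rw [e5]
          simp only [rt]
          have e6 : (-8 * (ι D.ρ) ^ 2 / (2 * 4)) ^ 2 = (ι D.ρ) ^ 4 := by
            field_simp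
            ring
          rw [e6]
          linear_combination (ι D.ρ) * hρ'
        have he2 := (hR.eqn X 0).1 hn'.1
        rw [hX, he] at he2
        norm_num at he2
      intro h0
      rw [e1] at h0
      exact hY ((mk_add_self hR h20 hn').1 h0)
  -- the point `R`
  obtain ⟨R, hRR, hR4⟩ : ∃ R : Pt (W16 K) (AlgebraicClosure Kv), (∀ (τ : Gal Kv) (σ : Gal K),
      (∀ x, τ (ι x) = ι (σ x)) →
      act (W16 K) (τ.toAlgHom.restrictScalars K) R = R + act (W16 K) ι (f σ)) ∧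
      (R + R) + (R + R) ≠ 0 := by
    by_cases h4 : (P + P) + (P + P) = 0
    · refine ⟨P + S, fun τ σ hσ => ?_, ?_⟩
      · rw [map_add, hSfix, hP τ σ hσ]
        abel
      · have e1 : ((P + S) + (P + S)) + ((P + S) + (P + S)) =
          ((P + P) + (P + P)) + ((S + S) + (S + S)) := by abel
        rw [e1, h4, zero_add]
        exact hS4
    · refine ⟨P, fun τ σ hσ => ?_, h4⟩
      rw [hP τ σ hσ]
      abel
  rcases pt_cases R with rfl | ⟨u, v, hn, rfl⟩
  · exact absurd (by rw [add_zero, add_zero]) hR4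
  have hv : v ≠ 0 := by
    intro hv
    have h5 := (mk_add_self hR h20 hn).2 hv
    rw [h5] at hR4
    exact hR4 (add_zero 0)
  obtain ⟨X, Y, hn', e1, hXa⟩ := mk_dup hR h20 hn hv
  have hY : Y ≠ 0 := by
    intro hY
    apply hR4
    rw [e1]
    exact (mk_add_self hR h20 hn').2 hY
  have hfix : ∀ τ : Gal Kv, τ X = X ∧ τ Y = Y := by
    intro τ
    obtain ⟨σ, hσ⟩ := exists_restr ι τ
    have h6 : act (W16 K) (τ.toAlgHom.restrictScalars K) (mkp hn') = mkp hn' := by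
      rw [← e1, map_add, hRR τ σ hσ]
      have h7 : act (W16 K) ι (f σ) + act (W16 K) ι (f σ) = 0 := by
        rw [← map_add, h2, map_zero]
      have h8 : ∀ A B : Pt (W16 K) (AlgebraicClosure Kv),
          (A + B) + (A + B) = (A + A) + (B + B) := fun A B => by abel
      rw [h8, h7, add_zero]
    exact mk_ext.1 h6
  obtain ⟨x, hx⟩ := fixm (k := Kv) X (fun τ => (hfix τ).1)
  obtain ⟨y, hy⟩ := fixm (k := Kv) Y (fun τ => (hfix τ).2)
  refine ⟨x, y, gf ((W16 K).baseChange (AlgebraicClosure Kv)) (rt (ι D.ρ)) (rt (ι D.z * ι D.ρ))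
    (rt ((ι D.z) ^ 2 * ι D.ρ)) (mkp hn) * ι w, ?_, ?_, ?_, ?_⟩
  · rintro rfl
    rw [map_zero] at hy
    exact hY hy.symm
  · apply (algebraMap Kv (AlgebraicClosure Kv)).injective
    have h9 := (hR.eqn X Y).1 hn'.1
    rw [map_pow, map_add, map_pow, hx, hy, map_ofNat, h9]
    simp only [rt]
    linear_combination (2 * X ^ 2 * ι D.ρ + 4 * X * (ι D.ρ) ^ 2 * ι D.z) * hz' +
      (8 * (ι D.z) ^ 3) * hρ' + 16 * h3z
  · rw [mul_pow, map_pow ι w, hx, hXa]
  · intro τ hτ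
    obtain ⟨σ, hσ⟩ := exists_restr ι τ
    have hσρ : σ D.ρ = D.ρ := by
      apply ι.injective
      change ι (σ D.ρ) = ι D.ρ
      rw [← hσ, hτ]
    have hτz : τ (ι D.z) = ι D.z := by rw [hσ, D.σz]
    have e2 : τ (gf ((W16 K).baseChange (AlgebraicClosure Kv)) (rt (ι D.ρ))
        (rt (ι D.z * ι D.ρ)) (rt ((ι D.z) ^ 2 * ι D.ρ)) (mkp hn)) =
        gf ((W16 K).baseChange (AlgebraicClosure Kv)) (rt (ι D.ρ)) (rt (ι D.z * ι D.ρ))
        (rt ((ι D.z) ^ 2 * ι D.ρ)) (act (W16 K) (τ.toAlgHom.restrictScalars K)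
          (mkp hn)) := by
      have := act_gf (W16 K) (τ.toAlgHom.restrictScalars K) (rt (ι D.ρ))
        (rt (ι D.z * ι D.ρ)) (rt ((ι D.z) ^ 2 * ι D.ρ)) (mkp hn)
      have r1 : ∀ x : AlgebraicClosure Kv, (τ.toAlgHom.restrictScalars K) (rt x) = rt (τ x) :=
        fun x => map_rt (τ.toAlgHom.restrictScalars K) x
      rw [r1, r1, r1, map_mul, map_mul, map_pow, hτ, hτz] at this
      exact this
    rw [map_mul, e2, hRR τ σ hσ, hσ]
    set T := act (W16 K) ι (f σ) with hT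
    have hTT : T + T = 0 := by
      rw [hT, ← map_add, h2, map_zero]
    have hTX : IsX ((W16 K).baseChange (AlgebraicClosure Kv)) (rt (ι D.ρ)) T ↔
        IsX ((W16 K).baseChange (AlgebraicClosure K)) (rt D.ρ) (f σ) := by
      have := act_isX (W16 K) ι (rt D.ρ) (f σ)
      rwa [map_rt] at this
    obtain ⟨u', v', hn'', e3, hv', h3, h4⟩ := mk_sign hR h20 n1 n2 n3 hn hv hTT
    rw [e3]
    by_cases hX : IsX ((W16 K).baseChange (AlgebraicClosure Kv)) (rt (ι D.ρ)) T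
    · rw [hwX σ hσρ (hTX.1 hX), h3 hX]
    · rw [hwN σ hσρ (fun h => hX (hTX.2 h)), map_neg, h4 hX]
      ring

end

end Pool.Agent.Y696
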