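import Mathlib
import Pool.Agent.Y696.Lcl
import Pool.Agent.Y696.Hen
import Pool.Agent.Y696.EvAll

/-!
# The local conditions at the finite places
-/

set_option autoImplicit false

namespace Pool.Agent.Y696

open WeierstrassCurve IsDedekindDomain NumberField WithZero
open scoped Classical
open Pool.Agent.TH841.SH.D
open Pool.Agent.TH841.SH (IsR IsX gf not_isX isX_some isX_zero)

section alg
variable {L : Type} [Field L] {ν : Valuation L ℤᵐ⁰}

/-- the linear factor at two -/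
lemma lvq (h2 : ν 2 = exp (-1 : ℤ)) {x y : L} (hy : y ≠ 0) (hxy : y ^ 2 = x ^ 3 + 16) :
    LvV ν ⟨x, 2, 0⟩ := by
  have h20 : (2 : L) ≠ 0 := two_ne_of h2
  have h4 : ν 4 = exp (-2 : ℤ) := by
    rw [show (4 : L) = 2 * 2 by norm_num, map_mul, h2, ← exp_add]; rfl
  have h40 : (4 : L) ≠ 0 := ne_of_exp h4
  by_cases hx : ν x ≤ exp (-2 : ℤ)
  · refine ⟨⟨0, 2⁻¹, 0⟩, ?_, ?_⟩
    · simp [Cb.N, h20]
    · have e : (⟨x, 2, 0⟩ : Cb L) * ⟨0, 2⁻¹, 0⟩ ^ 2 = ⟨1, 0, x / 4⟩ := by
        rw [pow_two]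
        ext
        · simp only [Cb.mul_a, Cb.mul_b, Cb.mul_c]
          field_simp
          ring
        · simp only [Cb.mul_a, Cb.mul_b, Cb.mul_c]
          ring
        · simp only [Cb.mul_a, Cb.mul_b, Cb.mul_c]
          field_simp
          ring
      rw [e]
      refine ⟨by simp, by simp, ?_⟩
      simp only
      rw [map_div₀, h4]
      rw [div_le_one₀ exp_pos]
      exact hx
  · push Not at hx
    have hx0 : x ≠ 0 := by
      rintro rfl
      rw [map_zero] at hx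
      exact absurd hx (not_lt.2 zero_le)
    obtain ⟨m, hm⟩ : ∃ m : ℤ, ν x = exp m := ⟨_, (exp_log ((ν.ne_zero_iff).2 hx0)).symm⟩
    obtain ⟨l, hl⟩ : ∃ l : ℤ, ν y = exp l := ⟨_, (exp_log ((ν.ne_zero_iff).2 hy)).symm⟩
    rw [hm, exp_lt_exp] at hx
    have h16 : ν 16 < ν (x ^ 3) := by
      rw [show (16 : L) = 4 * 4 by norm_num, map_mul, h4, map_pow, hm, ← exp_add, ← exp_nsmul,
        exp_lt_exp]
      simp only [nsmul_eq_mul]
      push_cast
      omega
    have h5 := congrArg ν hxy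
    rw [Valuation.map_add_eq_of_lt_left ν h16, map_pow, map_pow, hm, hl, ← exp_nsmul,
      ← exp_nsmul] at h5
    have h6 := exp_injective h5
    simp only [nsmul_eq_mul] at h6
    push_cast at h6
    obtain ⟨j, hj⟩ : ∃ j : ℕ, m = 2 * j := ⟨(m / 2).toNat, by omega⟩
    have hp : ν (2 ^ j) = exp (-(j : ℤ)) := by
      rw [map_pow, h2, ← exp_nsmul]
      congr 1
      simp
    refine ⟨Cb.C (2 ^ j), ?_, ?_⟩
    · rw [Cb.N_C]
      exact pow_ne_zero _ (pow_ne_zero _ h20)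
    · have e : (⟨x, 2, 0⟩ : Cb L) * (Cb.C (2 ^ j)) ^ 2 =
          ⟨x * (2 ^ j) ^ 2, 2 * (2 ^ j) ^ 2, 0⟩ := by
        rw [pow_two]
        ext
        · simp only [Cb.mul_a, Cb.mul_b, Cb.mul_c, Cb.C_a, Cb.C_b, Cb.C_c]
          ring
        · simp only [Cb.mul_a, Cb.mul_b, Cb.mul_c, Cb.C_a, Cb.C_b, Cb.C_c]
          ring
        · simp only [Cb.mul_a, Cb.mul_b, Cb.mul_c, Cb.C_a, Cb.C_b, Cb.C_c]
          ring
      rw [e]
      refine ⟨?_, ?_, by simp⟩
      · simp only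
        rw [map_mul, map_pow, hp, hm, ← exp_nsmul, ← exp_add, ← exp_zero]
        congr 1
        simp only [nsmul_eq_mul]
        push_cast
        omega
      · simp only
        rw [map_mul, map_pow, hp, h2, ← exp_nsmul, ← exp_add, ← exp_zero, exp_lt_exp]
        simp only [nsmul_eq_mul]
        push_cast
        omega

/-- the linear factor away from six -/
lemma evq (h2 : ν 2 = 1) (h3 : ν 3 = 1) {x y θ : L} (hθ : θ ^ 3 = 2) (hy : y ≠ 0)
    (hxy : y ^ 2 = x ^ 3 + 16) : ∃ m : ℤ, ν (x + 2 * θ) = exp (2 * m) := by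
  have hνθ : ν θ = 1 := v_one_of_cube ν h2 (by rw [hθ, sub_self, map_zero]; exact zero_lt_one)
  have hfac : (x + 2 * θ) * (x ^ 2 - 2 * θ * x + 4 * θ ^ 2) = y ^ 2 := by
    rw [hxy]
    linear_combination 8 * hθ
  obtain ⟨l, hl⟩ : ∃ l : ℤ, ν y = exp l := ⟨_, (exp_log ((ν.ne_zero_iff).2 hy)).symm⟩
  have h2θ : ν (2 * θ) = 1 := by rw [map_mul, h2, hνθ, one_mul]
  by_cases hx : ν x ≤ 1
  · by_cases h1 : ν (x + 2 * θ) = 1
    · exact ⟨0, by rw [h1, mul_zero, exp_zero]⟩
    · have hlt : ν (x + 2 * θ) < 1 := lt_of_le_of_ne (ν.map_add_le hx h2θ.le) h1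
      have h4 : ν (4 : L) = 1 := by
        rw [show (4 : L) = 2 * 2 by norm_num, map_mul, h2, one_mul]
      have h12 : ν (12 * θ ^ 2) = 1 := by
        rw [show (12 : L) = 3 * 4 by norm_num, map_mul, map_mul, h3, h4, map_pow, hνθ]
        simp
      have h5 : ν (x ^ 2 - 2 * θ * x + 4 * θ ^ 2) = 1 := by
        have e : x ^ 2 - 2 * θ * x + 4 * θ ^ 2 = (x + 2 * θ) * (x - 4 * θ) + 12 * θ ^ 2 := by ring
        rw [e, Valuation.map_add_eq_of_lt_right, h12]
        rw [h12]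
        exact vml hlt (ν.map_sub_le hx (le_of_eq (by rw [map_mul, h4, hνθ, one_mul])))
      have h6 := congrArg ν hfac
      rw [map_mul, h5, mul_one, map_pow, hl, ← exp_nsmul] at h6
      exact ⟨l, by rw [h6]; rfl⟩
  · push Not at hx
    have hx0 : x ≠ 0 := by
      rintro rfl
      rw [map_zero] at hx
      exact absurd hx (not_lt.2 zero_le)
    obtain ⟨m, hm⟩ : ∃ m : ℤ, ν x = exp m := ⟨_, (exp_log ((ν.ne_zero_iff).2 hx0)).symm⟩
    have h1 : ν (x + 2 * θ) = ν x := by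
      rw [Valuation.map_add_eq_of_lt_left]
      rw [h2θ]
      exact hx
    have h16 : ν 16 < ν (x ^ 3) := by
      rw [show (16 : L) = 2 ^ 4 by norm_num, map_pow, h2, one_pow, map_pow]
      exact one_lt_pow₀ hx (by norm_num)
    have h5 := congrArg ν hxy
    rw [Valuation.map_add_eq_of_lt_left ν h16, map_pow, map_pow, hm, hl, ← exp_nsmul,
      ← exp_nsmul] at h5
    have h6 := exp_injective h5
    simp only [nsmul_eq_mul] at h6
    push_cast at h6
    refine ⟨m / 2, ?_⟩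
    rw [h1, hm]
    congr 1
    omega

end alg

section
variable {K : Type} [Field K] [NumberField K] (D : RD K)

/-- the condition at two -/
theorem RD.lv_of_loc {f : Coch (W16 K)} (h2 : ∀ σ, f σ + f σ = 0)
    {w : AlgebraicClosure K} {δ : Cb K} (hw : w ^ 2 = D.em δ)
    (hwX : ∀ σ : Gal K, σ D.ρ = D.ρ →
        IsX ((W16 K).baseChange (AlgebraicClosure K)) (rt D.ρ) (f σ) → σ w = w)
    (hwN : ∀ σ : Gal K, σ D.ρ = D.ρ →
        ¬ IsX ((W16 K).baseChange (AlgebraicClosure K)) (rt D.ρ) (f σ) → σ w = -w)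
    {v : HeightOneSpectrum (𝓞 K)} (hv : v.valuation K 2 = exp (-1 : ℤ))
    (hloc : LocTriv (W16 K) (v.adicCompletion K) f) (hδ : δ.N ≠ 0) :
    LvV (v.valuation K) δ := by
  have hinj := (algebraMap K (v.adicCompletion K)).injective
  have : CharZero (v.adicCompletion K) := charZero_of_injective_algebraMap hinj
  set ν : Valuation (v.adicCompletion K) ℤᵐ⁰ := Valued.v with hν
  have hνK : ∀ a : K, ν (algebraMap K _ a) = v.valuation K a := fun a =>
    HeightOneSpectrum.valuedAdicCompletion_eq_valuation' v a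
  have hν2 : ν 2 = exp (-1 : ℤ) := by
    rw [← hv, ← hνK, map_ofNat (algebraMap K (v.adicCompletion K)) 2]
  obtain ⟨ι⟩ : Nonempty (AlgebraicClosure K →ₐ[K] AlgebraicClosure (v.adicCompletion K)) :=
    ⟨IsAlgClosed.lift⟩
  obtain ⟨x, y, z, hy, hxy, hz, hfix⟩ := D.loc1 h2 hwX hwN hloc ι
  have hρ' : (ι D.ρ) ^ 3 = 2 := by rw [← map_pow, D.hρ, map_ofNat]
  obtain ⟨Z, hZ⟩ := stabm (k := v.adicCompletion K) hρ' hfix
  -- there is no cube root of two
  have h3 : ∀ a : v.adicCompletion K, a ^ 3 ≠ 2 := by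
    intro a ha
    have h4 := congrArg ν ha
    have ha0 : a ≠ 0 := by
      rintro rfl
      rw [hν2, map_pow, map_zero] at h4
      exact exp_ne_zero (by rw [← h4]; simp)
    obtain ⟨m, hm⟩ : ∃ m : ℤ, ν a = exp m := ⟨_, (exp_log ((ν.ne_zero_iff).2 ha0)).symm⟩
    rw [map_pow, hm, hν2, ← exp_nsmul] at h4
    have h5 := exp_injective h4
    simp only [nsmul_eq_mul] at h5
    push_cast at h5
    omega
  have hinj2 : Function.Injective (Cb.hom (AlgebraicClosure (v.adicCompletion K))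
      (algebraMap (v.adicCompletion K) _) (ι D.ρ) hρ') := by
    let _ : Field (Cb (v.adicCompletion K)) := Cb.fld h3
    exact (Cb.hom (AlgebraicClosure (v.adicCompletion K))
      (algebraMap (v.adicCompletion K) _) (ι D.ρ) hρ').injective
  set δ' := Cb.map (algebraMap K (v.adicCompletion K)) δ with hδ'
  have key : Z ^ 2 = ⟨x, 2, 0⟩ * δ' := by
    apply hinj2
    rw [map_pow, map_mul, hZ, hz, hw]
    congr 1
    · rw [Cb.hom_apply]
      simp only [rt]
      rw [map_zero, map_ofNat]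
      ring
    · rw [hδ', Cb.hom_apply, D.em_apply]
      simp only [Cb.map_a', Cb.map_b', Cb.map_c']
      rw [map_add, map_add, map_mul, map_mul, map_pow, ι.commutes, ι.commutes, ι.commutes]
      rfl
  have hqN : (⟨x, 2, 0⟩ : Cb (v.adicCompletion K)).N ≠ 0 := by
    have : (⟨x, 2, 0⟩ : Cb (v.adicCompletion K)).N = y ^ 2 := by
      rw [hxy, Cb.N]; ring
    rw [this]
    exact pow_ne_zero 2 hy
  have hδN : δ'.N ≠ 0 := by
    rw [hδ', Cb.N_map]
    exact (map_ne_zero _).2 hδ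
  have hZN : Z.N ≠ 0 := by
    intro h
    have h4 := congrArg Cb.N key
    rw [pow_two, Cb.N_mul, Cb.N_mul, h, mul_zero] at h4
    exact mul_ne_zero hqN hδN h4.symm
  have hν2' : ν 2 < 1 := by rw [hν2, ← exp_zero, exp_lt_exp]; omega
  obtain ⟨q', hq', hqq⟩ := Cb_inv hqN
  have hL : LvV ν δ' := by
    have e : δ' = (Z ^ 2 * ⟨x, 2, 0⟩) * q' ^ 2 := by
      rw [key]
      linear_combination (-δ' * (⟨x, 2, 0⟩ * q' + 1)) * hqq
    rw [e]
    exact ((LvV.sq ν hZN).mul hν2' (lvq hν2 hy hxy)).mul hν2' (LvV.sq ν hq')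
  exact LvV.desc hν2 (algebraMap K (v.adicCompletion K)) hνK (Cb.ne_of_N hδ) hL

end

end Pool.Agent.Y696
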