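import Mathlib
import Pool.Agent.Y696.Lcl2

/-!
# The local condition away from six
-/

set_option autoImplicit false

namespace Pool.Agent.Y696

open WeierstrassCurve IsDedekindDomain NumberField WithZero
open scoped Classical
open Pool.Agent.TH841.SH.D
open Pool.Agent.TH841.SH (IsR IsX gf not_isX isX_some isX_zero)

lemma root_near {L : Type} [Field L] {ν : Valuation L ℤᵐ⁰} (h2 : ν 2 = 1) (h3 : ν 3 = 1)
    {ω θ a : L} (hω : ω ^ 2 + ω + 1 = 0) (hθ : θ ^ 3 = 2) (ha : ν (a ^ 3 - 2) < 1) :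
    ∃ θ' : L, θ' ^ 3 = 2 ∧ (θ' = θ ∨ θ' = ω * θ ∨ θ' = ω ^ 2 * θ) ∧
      ν (a - θ') = ν (a ^ 3 - 2) := by
  have hω3 : ω ^ 3 = 1 := by linear_combination (ω - 1) * hω
  have hprod : (a - θ) * (a - ω * θ) * (a - ω ^ 2 * θ) = a ^ 3 - 2 := by
    linear_combination (-(ω ^ 3)) * hθ - 2 * hω3 - (a ^ 2 * θ) * hω + (a * θ ^ 2 * ω) * hω
  have key : ∀ θ' : L, θ' ^ 3 = 2 → ν (a - θ') < 1 → ν (a - θ') = ν (a ^ 3 - 2) := by
    intro θ' hθ' hlt
    have hv : ν θ' = 1 := v_one_of_cube ν h2 (by rw [hθ', sub_self, map_zero]; exact zero_lt_one)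
    have hva : ν a = 1 := v_one_of_cube ν h2 ha
    have e : a ^ 2 + a * θ' + θ' ^ 2 = (a - θ') * (a + 2 * θ') + 3 * θ' ^ 2 := by ring
    have h5 : ν (3 * θ' ^ 2) = 1 := by rw [map_mul, map_pow, h3, hv, one_pow, one_mul]
    have h6 : ν (a ^ 2 + a * θ' + θ' ^ 2) = 1 := by
      rw [e, Valuation.map_add_eq_of_lt_right, h5]
      rw [h5]
      exact vml hlt (ν.map_add_le hva.le (le_of_eq (by rw [map_mul, h2, hv, one_mul])))
    have h7 : (a - θ') * (a ^ 2 + a * θ' + θ' ^ 2) = a ^ 3 - 2 := by linear_combination -hθ'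
    rw [← h7, map_mul, h6, mul_one]
  by_contra hcon
  push Not at hcon
  have c1 : 1 ≤ ν (a - θ) := by
    by_contra h
    push Not at h
    exact hcon θ hθ (Or.inl rfl) (key θ hθ h)
  have t2 : (ω * θ) ^ 3 = 2 := by rw [mul_pow, hω3, one_mul, hθ]
  have t3 : (ω ^ 2 * θ) ^ 3 = 2 := by
    rw [mul_pow, ← pow_mul, mul_comm 2 3, pow_mul, hω3, one_pow, one_mul, hθ]
  have c2 : 1 ≤ ν (a - ω * θ) := by
    by_contra h
    push Not at h
    exact hcon _ t2 (Or.inr (Or.inl rfl)) (key _ t2 h)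
  have c3 : 1 ≤ ν (a - ω ^ 2 * θ) := by
    by_contra h
    push Not at h
    exact hcon _ t3 (Or.inr (Or.inr rfl)) (key _ t3 h)
  have h4 := congrArg ν hprod
  rw [map_mul, map_mul] at h4
  have := one_le_mul (one_le_mul c1 c2) c3
  rw [h4] at this
  exact absurd ha (not_lt.2 this)

section
variable {K : Type} [Field K] [NumberField K] (D : RD K)

theorem RD.ev_of_loc {f : Coch (W16 K)} (h2 : ∀ σ, f σ + f σ = 0)
    {w : AlgebraicClosure K} {δ : Cb K} (hw : w ^ 2 = D.em δ)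
    (hwX : ∀ σ : Gal K, σ D.ρ = D.ρ →
        IsX ((W16 K).baseChange (AlgebraicClosure K)) (rt D.ρ) (f σ) → σ w = w)
    (hwN : ∀ σ : Gal K, σ D.ρ = D.ρ →
        ¬ IsX ((W16 K).baseChange (AlgebraicClosure K)) (rt D.ρ) (f σ) → σ w = -w)
    {v : HeightOneSpectrum (𝓞 K)} (h6 : ((6 : ℕ) : 𝓞 K) ∉ v.asIdeal)
    (hloc : LocTriv (W16 K) (v.adicCompletion K) f) (hδ : δ.N ≠ 0) :
    EvV (v.valuation K) δ := by
  have hinj := (algebraMap K (v.adicCompletion K)).injective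
  have : CharZero (v.adicCompletion K) := charZero_of_injective_algebraMap hinj
  set ν : Valuation (v.adicCompletion K) ℤᵐ⁰ := Valued.v with hν
  have hνK : ∀ a : K, ν (algebraMap K _ a) = v.valuation K a := fun a =>
    HeightOneSpectrum.valuedAdicCompletion_eq_valuation' v a
  -- the valuations of 2 and 3
  have h23 : v.valuation K 2 = 1 ∧ v.valuation K 3 = 1 := by
    have h1 : ¬ v.valuation K ((6 : ℕ) : K) < 1 := fun h => h6 ((nat_mem_iff v 6).2 h)
    have e : ((6 : ℕ) : K) = 2 * 3 := by norm_num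
    rw [e, map_mul] at h1
    have a2 : v.valuation K (2 : K) ≤ 1 := v_two_le _
    have a3 : v.valuation K (3 : K) ≤ 1 := by exact_mod_cast v_nat_le (v.valuation K) 3
    constructor
    · by_contra h
      exact h1 (mul_lt_one_of_nonneg_of_lt_one_left zero_le (lt_of_le_of_ne a2 h) a3)
    · by_contra h
      apply h1
      rw [mul_comm]
      exact mul_lt_one_of_nonneg_of_lt_one_left zero_le (lt_of_le_of_ne a3 h) a2
  obtain ⟨hv2, hv3⟩ := h23
  have hν2 : ν 2 = 1 := by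
    rw [← hv2, ← hνK, map_ofNat (algebraMap K (v.adicCompletion K)) 2]
  have hν3 : ν 3 = 1 := by
    rw [← hv3, ← hνK, map_ofNat (algebraMap K (v.adicCompletion K)) 3]
  by_cases hroot : ∃ θ : v.adicCompletion K, θ ^ 3 = 2
  swap
  · refine ⟨1, fun a ha => ?_⟩
    exfalso
    apply hroot
    have ha1 : v.valuation K (a ^ 3 - 2) < 1 :=
      lt_of_le_of_lt ha (by rw [← exp_zero, exp_lt_exp]; norm_num)
    have hva : v.valuation K a = 1 := v_one_of_cube _ hv2 ha1
    have ha0 : a ≠ 0 := by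
      rintro rfl
      simp at hva
    have ha0' : algebraMap K (v.adicCompletion K) a ≠ 0 := (map_ne_zero _).2 ha0
    obtain ⟨z, hz⟩ := cbrt_one_unit (L := v.adicCompletion K) hν3
      (2 / (algebraMap K (v.adicCompletion K) a) ^ 3) (by
        have e : 2 / (algebraMap K (v.adicCompletion K) a) ^ 3 - 1 =
          algebraMap K (v.adicCompletion K) (-(a ^ 3 - 2)) /
            (algebraMap K (v.adicCompletion K) a) ^ 3 := by
          rw [map_neg, map_sub, map_pow, map_ofNat]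
          field_simp
          ring
        rw [e]
        change ν _ < 1
        rw [map_div₀, map_pow, hνK, hνK, hva, Valuation.map_neg]
        simpa using ha1)
    refine ⟨algebraMap K (v.adicCompletion K) a * z, ?_⟩
    rw [mul_pow, hz]
    field_simp
  obtain ⟨θ₀, hθ₀⟩ := hroot
  -- the claim for every root
  have claim : ∀ (θ : v.adicCompletion K) (hθ : θ ^ 3 = 2), ∃ m : ℤ,
      ν (Cb.hom _ (algebraMap K (v.adicCompletion K)) θ hθ δ) = exp (2 * m) := by
    intro θ hθ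
    obtain ⟨ι₀⟩ : Nonempty (AlgebraicClosure K →ₐ[K] AlgebraicClosure (v.adicCompletion K)) :=
      ⟨IsAlgClosed.lift⟩
    obtain ⟨s, hs⟩ := D.exists_s
    have hss : (s * s) D.ρ = D.z ^ 2 * D.ρ := by
      rw [AlgEquiv.mul_apply, hs, map_mul, hs, D.σz]
      ring
    have hz3 : (ι₀ D.z) ^ 3 = 1 := by rw [← map_pow, D.hz3, map_one]
    have hz1 : (ι₀ D.z) ^ 2 + ι₀ D.z + 1 = 0 := by
      rw [← map_pow, ← map_add, ← map_one ι₀, ← map_add, D.hz, map_zero]
    set Θ : AlgebraicClosure (v.adicCompletion K) := algebraMap _ _ θ with hΘ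
    have hΘ3 : Θ ^ 3 = 2 := by rw [hΘ, ← map_pow, hθ, map_ofNat]
    obtain ⟨ι, hι⟩ : ∃ ι : AlgebraicClosure K →ₐ[K] AlgebraicClosure (v.adicCompletion K),
        ι D.ρ = Θ := by
      have h1 : (ι₀ D.ρ) ^ 3 = 2 := by rw [← map_pow, D.hρ, map_ofNat]
      have h4 : (ι₀ D.ρ - Θ) * ((ι₀ D.ρ - ι₀ D.z * Θ) * (ι₀ D.ρ - (ι₀ D.z) ^ 2 * Θ)) = 0 := by
        linear_combination h1 - ((ι₀ D.z) ^ 3) * hΘ3 - 2 * hz3 - ((ι₀ D.ρ) ^ 2 * Θ) * hz1 +
          (ι₀ D.ρ * Θ ^ 2 * ι₀ D.z) * hz1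
      rcases mul_eq_zero.1 h4 with h | h
      · exact ⟨ι₀, sub_eq_zero.1 h⟩
      rcases mul_eq_zero.1 h with h | h
      · refine ⟨ι₀.comp (s * s).toAlgHom, ?_⟩
        change ι₀ ((s * s) D.ρ) = Θ
        rw [hss, map_mul, map_pow, sub_eq_zero.1 h]
        linear_combination Θ * hz3
      · refine ⟨ι₀.comp s.toAlgHom, ?_⟩
        change ι₀ (s D.ρ) = Θ
        rw [hs, map_mul, sub_eq_zero.1 h]
        linear_combination Θ * hz3
    obtain ⟨x, y, z, hy, hxy, hz, hfix⟩ := D.loc1 h2 hwX hwN hloc ι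
    obtain ⟨z₀, hz₀⟩ := fixm (k := v.adicCompletion K) z (fun τ => hfix τ (by
      rw [hι, hΘ]; exact τ.commutes θ))
    have key : z₀ ^ 2 = (x + 2 * θ) *
        Cb.hom _ (algebraMap K (v.adicCompletion K)) θ hθ δ := by
      apply (algebraMap (v.adicCompletion K) (AlgebraicClosure (v.adicCompletion K))).injective
      rw [map_pow, hz₀, hz, hw, map_mul]
      congr 1
      · rw [hι]
        simp only [rt]
        rw [map_add, map_mul, map_ofNat]
        ring
      · rw [Cb.hom_apply, D.em_apply, map_add, map_add, map_add, map_add, map_mul, map_mul,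
          map_mul, map_mul, map_pow, map_pow, ι.commutes, ι.commutes, ι.commutes, hι]
        rfl
    obtain ⟨m, hm⟩ := evq hν2 hν3 hθ hy hxy
    have hne : Cb.hom _ (algebraMap K (v.adicCompletion K)) θ hθ δ ≠ 0 := by
      intro h0
      have h4 : Cb.hom _ (algebraMap K (v.adicCompletion K)) θ hθ (δ * δ.adj) = 0 := by
        rw [map_mul, h0, zero_mul]
      rw [Cb.mul_adj, Cb.hom_apply] at h4
      simp only [Cb.C_a, Cb.C_b, Cb.C_c, map_zero, zero_mul, add_zero] at h4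
      exact hδ ((map_eq_zero _).1 h4)
    obtain ⟨l, hl⟩ : ∃ l : ℤ, ν (Cb.hom _ (algebraMap K (v.adicCompletion K)) θ hθ δ) = exp l :=
      ⟨_, (exp_log ((ν.ne_zero_iff).2 hne)).symm⟩
    have hz0 : z₀ ≠ 0 := by
      intro h0
      have h4 := congrArg ν key
      rw [h0, map_mul, hm, hl, ← exp_add] at h4
      simp at h4
    obtain ⟨j, hj⟩ : ∃ j : ℤ, ν z₀ = exp j := ⟨_, (exp_log ((ν.ne_zero_iff).2 hz0)).symm⟩
    have h4 := congrArg ν key
    rw [map_pow, map_mul, hm, hl, hj, ← exp_nsmul, ← exp_add] at h4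
    have h5 := exp_injective h4
    simp only [nsmul_eq_mul] at h5
    push_cast at h5
    exact ⟨j - m, by rw [hl]; congr 1; omega⟩
  set ω : v.adicCompletion K := algebraMap K _ D.ω with hω
  have hω1 : ω ^ 2 + ω + 1 = 0 := by
    rw [hω, ← map_pow, ← map_add, ← map_one (algebraMap K (v.adicCompletion K)), ← map_add, D.hω,
      map_zero]
  have hω3 : ω ^ 3 = 1 := by linear_combination (ω - 1) * hω1
  have t2 : (ω * θ₀) ^ 3 = 2 := by rw [mul_pow, hω3, one_mul, hθ₀]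
  have t3 : (ω ^ 2 * θ₀) ^ 3 = 2 := by
    rw [mul_pow, ← pow_mul, mul_comm 2 3, pow_mul, hω3, one_pow, one_mul, hθ₀]
  obtain ⟨m1, e1⟩ := claim θ₀ hθ₀
  obtain ⟨m2, e2⟩ := claim _ t2
  obtain ⟨m3, e3⟩ := claim _ t3
  obtain ⟨kb, hkb⟩ := exp_bd ν (algebraMap K (v.adicCompletion K) δ.b)
  obtain ⟨kc, hkc⟩ := exp_bd ν (algebraMap K (v.adicCompletion K) δ.c)
  set n : ℕ := (-(2 * m1)).toNat + (-(2 * m2)).toNat + (-(2 * m3)).toNat + kb + kc + 1 with hn
  refine ⟨n, fun a ha => ?_⟩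
  have ha1 : v.valuation K (a ^ 3 - 2) < 1 :=
    lt_of_le_of_lt ha (by rw [← exp_zero, exp_lt_exp]; omega)
  have hva : v.valuation K a = 1 := v_one_of_cube _ hv2 ha1
  have hνa : ν (algebraMap K _ a) = 1 := by rw [hνK, hva]
  have haa : ν ((algebraMap K (v.adicCompletion K) a) ^ 3 - 2) = v.valuation K (a ^ 3 - 2) := by
    have e : algebraMap K (v.adicCompletion K) (a ^ 3 - 2) =
        (algebraMap K (v.adicCompletion K) a) ^ 3 - 2 := by rw [map_sub, map_pow, map_ofNat]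
    rw [← hνK, e]
  obtain ⟨θ', h3', hor, hd⟩ := root_near hν2 hν3 hω1 hθ₀ (a := algebraMap K _ a)
    (by rw [haa]; exact ha1)
  rw [haa] at hd
  obtain ⟨m, hm, hmn⟩ : ∃ m : ℤ, ν (Cb.hom _ (algebraMap K (v.adicCompletion K)) θ' h3' δ) =
      exp (2 * m) ∧ -(n : ℤ) + kb + kc < 2 * m := by
    rcases hor with rfl | rfl | rfl
    · exact ⟨m1, e1, by omega⟩
    · exact ⟨m2, e2, by omega⟩
    · exact ⟨m3, e3, by omega⟩
  have hvθ : ν θ' = 1 := v_one_of_cube ν hν2 (by rw [h3', sub_self, map_zero]; exact zero_lt_one)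
  refine ⟨m, ?_⟩
  rw [← hm, ← hνK]
  refine Valuation.map_eq_of_sub_lt ν ?_
  rw [hm]
  have e : algebraMap K (v.adicCompletion K) (δ.ev a) -
      Cb.hom _ (algebraMap K (v.adicCompletion K)) θ' h3' δ =
      (algebraMap K (v.adicCompletion K) a - θ') * (algebraMap K (v.adicCompletion K) δ.b +
        algebraMap K (v.adicCompletion K) δ.c * (algebraMap K (v.adicCompletion K) a + θ')) := by
    rw [Cb.hom_apply, Cb.ev, map_add, map_add, map_mul, map_mul, map_pow]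
    ring
  rw [e, map_mul, hd]
  have h5 : ν (algebraMap K (v.adicCompletion K) δ.b + algebraMap K (v.adicCompletion K) δ.c *
      (algebraMap K (v.adicCompletion K) a + θ')) ≤ exp ((kb + kc : ℕ) : ℤ) := by
    refine ν.map_add_le (hkb.trans (by rw [exp_le_exp]; omega)) ?_
    rw [map_mul]
    refine (mul_le_of_le_one_right' (ν.map_add_le hνa.le hvθ.le)).trans
      (hkc.trans (by rw [exp_le_exp]; omega))
  refine lt_of_le_of_lt (mul_le_mul' ha h5) ?_
  rw [← exp_add, exp_lt_exp]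
  push_cast
  omega

end

end Pool.Agent.Y696
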