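import Mathlib
import Pool.Agent.Y696.Lcl3
import Pool.Agent.Y696.AlgF

/-!
# Locally trivial cocycles with values in the points of order two are coboundaries
-/

set_option autoImplicit false

namespace Pool.Agent.Y696

open WeierstrassCurve IsDedekindDomain NumberField WithZero
open scoped Classical
open Pool.Agent.TH841.SH.D
open Pool.Agent.TH841.SH (IsR IsX gf not_isX isX_some isX_zero)

section
variable {F K : Type} [Field F] [NumberField F] [IsCyclotomicExtension {3} ℚ F] [Field K]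
  [NumberField K] [Algebra F K] [IsGalois F K]

lemma fr_K {n : ℕ} (hn : Module.finrank F K = 2 ^ n) : Module.finrank ℚ K = 2 ^ (n + 1) := by
  have hF2 : Module.finrank ℚ F = 2 := by
    rw [IsCyclotomicExtension.finrank (n := 3) F (Polynomial.cyclotomic.irreducible_rat (by norm_num))]
    rfl
  rw [← Module.finrank_mul_finrank ℚ F K, hF2, hn]
  ring

/-- the data exist -/
lemma exists_RD {n : ℕ} (hn : Module.finrank F K = 2 ^ n) : Nonempty (RD K) := by
  obtain ⟨ζ, hζ⟩ := IsCyclotomicExtension.exists_isPrimitiveRoot (S := {3}) ℚ F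
    (Set.mem_singleton 3) (by norm_num)
  have hζ3 : ζ ^ 3 = 1 := hζ.pow_eq_one
  have hζs : ζ ^ 2 + ζ + 1 = 0 := by
    have h4 : ζ ≠ 1 := hζ.ne_one (by norm_num)
    have h5 : (ζ - 1) * (ζ ^ 2 + ζ + 1) = 0 := by linear_combination hζ3
    exact (mul_eq_zero.1 h5).resolve_left (sub_ne_zero.2 h4)
  obtain ⟨ρ, hρ⟩ := IsAlgClosed.exists_pow_nat_eq (2 : AlgebraicClosure K) (n := 3) (by norm_num)
  exact ⟨{ ω := algebraMap F K ζ
           hω := by
            rw [← map_pow, ← map_add, ← map_one (algebraMap F K), ← map_add, hζs, map_zero]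
           h3 := no_cube_two (fr_K hn)
           ρ := ρ
           hρ := hρ }⟩

/-- **the Selmer group vanishes** -/
theorem sel16 {n : ℕ} (hn : Module.finrank F K = 2 ^ n) (hun : Unr F K)
    {f : Coch (W16 K)} (hf : IsCoc (W16 K) f) (h2 : ∀ σ, f σ + f σ = 0)
    (hloc : ∀ v : HeightOneSpectrum (𝓞 K), LocTriv (W16 K) (v.adicCompletion K) f) :
    ∃ T : Pt (W16 K) (AlgebraicClosure K), T + T = 0 ∧
      ∀ σ : Gal K, f σ = act (W16 K) σ.toAlgHom T - T := by
  obtain ⟨D⟩ := exists_RD (F := F) (K := K) hn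
  obtain ⟨δ, w, hw0, hw, hwX, hwN, hr, hN, hsq⟩ := D.glo hf h2
  apply hsq
  refine alg_final hn hun ⟨hN, hr, fun v hv => ?_, fun v hv => ?_⟩
  · exact D.ev_of_loc h2 hw hwX hwN hv (hloc v) hN
  · exact D.lv_of_loc h2 hw hwX hwN (val_two_K hun hv) (hloc v) hN

end

end Pool.Agent.Y696
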