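import Mathlib
import Pool.Agent.Y696.Sel
import Pool.Agent.Y696.Loc
import Pool.Agent.Y784.E3.FinOdd
import Pool.Agent.TH841.NF.ShaN

/-!
# The Tate-Shafarevich group and the rational points of `y² + y = x³`
-/

set_option autoImplicit false

namespace Pool.Agent.Y696

open WeierstrassCurve IsDedekindDomain NumberField WithZero
open scoped Classical
open Pool.Agent.TH841.SH.D
open Pool.Agent.TH841.SH (IsR IsX gf not_isX isX_some isX_zero)

section cont
variable {K : Type} [Field K] [CharZero K]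

omit [CharZero K] in
lemma lc_act (W : WeierstrassCurve K) (P : Pt W (AlgebraicClosure K)) :
    IsLocallyConstant (fun σ : Gal K => act W σ.toAlgHom P) := by
  rw [IsLocallyConstant.iff_exists_open]
  intro σ₀
  rcases pt_cases P with rfl | ⟨x, y, h, rfl⟩
  · exact ⟨Set.univ, isOpen_univ, trivial, fun τ _ => by rw [map_zero, map_zero]⟩
  · let E : IntermediateField K (AlgebraicClosure K) := IntermediateField.adjoin K {x, y}
    have hfd : FiniteDimensional K E := by
      refine IntermediateField.finiteDimensional_adjoin fun z _ => ?_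
      exact Algebra.IsIntegral.isIntegral z
    refine ⟨(fun τ : Gal K => σ₀⁻¹ * τ) ⁻¹' (E.fixingSubgroup : Set (Gal K)), ?_, ?_, ?_⟩
    · exact (E.fixingSubgroup_isOpen).preimage (continuous_const_mul σ₀⁻¹)
    · change σ₀⁻¹ * σ₀ ∈ E.fixingSubgroup
      rw [inv_mul_cancel]
      exact E.fixingSubgroup.one_mem
    · intro τ hτ
      have hτ' : σ₀⁻¹ * τ ∈ E.fixingSubgroup := hτ
      rw [IntermediateField.mem_fixingSubgroup_iff] at hτ'
      have hx := hτ' x (IntermediateField.subset_adjoin K _ (by simp))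
      have hy := hτ' y (IntermediateField.subset_adjoin K _ (by simp))
      have key : ∀ z, (σ₀⁻¹ * τ) z = z → τ z = σ₀ z := by
        intro z hz
        conv_rhs => rw [← hz]
        rw [← AlgEquiv.mul_apply, mul_inv_cancel_left]
      exact mk_ext.2 ⟨key x hx, key y hy⟩

omit [CharZero K] in
/-- coboundaries are continuous cocycles -/
lemma coc_of_pt (W : WeierstrassCurve K) (P : Pt W (AlgebraicClosure K)) :
    IsCoc W (fun σ : Gal K => act W σ.toAlgHom P - P) := by
  refine ⟨?_, fun σ τ => ?_⟩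
  · exact (lc_act W P).comp (fun Q => Q - P)
  · change act W (σ * τ).toAlgHom P - P = act W σ.toAlgHom P - P +
      act W σ.toAlgHom (act W τ.toAlgHom P - P)
    rw [act_mul', map_sub]
    abel

end cont

section iso
variable {K : Type} [Field K] [CharZero K]

omit [CharZero K] in
lemma iso_ex (L : Type) [Field L] [CharZero L] [Algebra K L] :
    ∃ Φ : Pt (E0 K) L ≃+ Pt (W16 K) L, ∀ (x y : L)
      (h : ((E0 K).baseChange L).toAffine.Nonsingular x y),
      ∃ h' : ((W16 K).baseChange L).toAffine.Nonsingular (4 * x) (8 * y + 4),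
        Φ (mkp h) = mkp h' := by
  have h1 : ((E0 K).baseChange L).a₁ = 0 ∧ ((E0 K).baseChange L).a₂ = 0 ∧
      ((E0 K).baseChange L).a₃ = 1 ∧ ((E0 K).baseChange L).a₄ = 0 ∧
      ((E0 K).baseChange L).a₆ = 0 :=
    ⟨map_zero (algebraMap K L), map_zero (algebraMap K L), map_one (algebraMap K L),
      map_zero (algebraMap K L), map_zero (algebraMap K L)⟩
  have h2 : ((W16 K).baseChange L).a₁ = 0 ∧ ((W16 K).baseChange L).a₂ = 0 ∧
      ((W16 K).baseChange L).a₃ = 0 ∧ ((W16 K).baseChange L).a₄ = 0 ∧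
      ((W16 K).baseChange L).a₆ = 16 :=
    ⟨map_zero (algebraMap K L), map_zero (algebraMap K L), map_zero (algebraMap K L),
      map_zero (algebraMap K L), map_ofNat (algebraMap K L) 16⟩
  exact @Pool.Agent.Y784.E3.iso16 L _ (Classical.decEq L) two_ne_zero _ _ h1 h2

/-- the isomorphism of the curves on points -/
noncomputable def Phi (K L : Type) [Field K] [Field L] [CharZero L] [Algebra K L] :
    Pt (E0 K) L ≃+ Pt (W16 K) L := (iso_ex (K := K) L).choose

omit [CharZero K] in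
lemma Phi_mkp {L : Type} [Field L] [CharZero L] [Algebra K L] {x y : L}
    (h : ((E0 K).baseChange L).toAffine.Nonsingular x y) :
    ∃ h' : ((W16 K).baseChange L).toAffine.Nonsingular (4 * x) (8 * y + 4),
        Phi K L (mkp h) = mkp h' := (iso_ex (K := K) L).choose_spec x y h

omit [CharZero K] in
lemma Phi_act {L M : Type} [Field L] [CharZero L] [Algebra K L] [Field M] [CharZero M]
    [Algebra K M] (φ : L →ₐ[K] M) (P : Pt (E0 K) L) :
    Phi K M (act (E0 K) φ P) = act (W16 K) φ (Phi K L P) := by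
  rcases pt_cases P with rfl | ⟨x, y, h, rfl⟩
  · rw [map_zero, map_zero, map_zero, map_zero]
  · obtain ⟨h1, e1⟩ := Phi_mkp h
    rw [e1, act_mk, act_mk]
    obtain ⟨h2, e2⟩ := Phi_mkp (K := K) (L := M)
      ((Affine.baseChange_nonsingular (E0 K) φ.injective ..).mpr h)
    rw [e2]
    exact mk_ext.2 ⟨by rw [map_mul, map_ofNat], by rw [map_add, map_mul, map_ofNat, map_ofNat]⟩

/-- halving over the algebraic closure -/
lemma halve (D : RD K) (P : Pt (E0 K) (AlgebraicClosure K)) : ∃ Q, P = Q + Q := by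
  obtain ⟨Q, hQ⟩ := mk_halve D.isR two_ne_zero D.n1 D.n2 D.n3
    (Phi K (AlgebraicClosure K) P)
  refine ⟨(Phi K (AlgebraicClosure K)).symm Q, ?_⟩
  apply (Phi K (AlgebraicClosure K)).injective
  rw [hQ, map_add, AddEquiv.apply_symm_apply]

lemma coc_Phi {f : Coch (E0 K)} (hf : IsCoc (E0 K) f) :
    IsCoc (W16 K) (fun σ => Phi K _ (f σ)) := by
  refine ⟨hf.1.comp _, fun σ τ => ?_⟩
  change Phi K _ (f (σ * τ)) = Phi K _ (f σ) + act (W16 K) σ.toAlgHom (Phi K _ (f τ))
  rw [hf.2, map_add, Phi_act]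

lemma loc_Phi {Kv : Type} [Field Kv] [CharZero Kv] [Algebra K Kv] {f : Coch (E0 K)}
    (hf : LocTriv (E0 K) Kv f) : LocTriv (W16 K) Kv (fun σ => Phi K _ (f σ)) := by
  intro ι
  obtain ⟨P, hP⟩ := hf ι
  refine ⟨Phi K _ P, fun τ σ h => ?_⟩
  rw [← Phi_act, ← Phi_act, hP τ σ h, map_sub]

end iso

section final
variable {F K : Type} [Field F] [NumberField F] [IsCyclotomicExtension {3} ℚ F] [Field K]
  [NumberField K] [Algebra F K] [IsGalois F K]

/-- locally trivial cocycles killed by two -/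
theorem selE {n : ℕ} (hn : Module.finrank F K = 2 ^ n) (hun : Unr F K)
    {f : Coch (E0 K)} (hf : IsCoc (E0 K) f) (h2 : ∀ σ, f σ + f σ = 0)
    (hloc : ∀ v : HeightOneSpectrum (𝓞 K), LocTriv (E0 K) (v.adicCompletion K) f) :
    ∃ T : Pt (E0 K) (AlgebraicClosure K), T + T = 0 ∧
      ∀ σ : Gal K, f σ = act (E0 K) σ.toAlgHom T - T := by
  obtain ⟨T, hT, h⟩ := sel16 hn hun (coc_Phi hf)
    (fun σ => by rw [← map_add, h2, map_zero])
    (fun v => by
      have : CharZero (v.adicCompletion K) :=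
        charZero_of_injective_algebraMap (algebraMap K (v.adicCompletion K)).injective
      exact loc_Phi (hloc v))
  refine ⟨(Phi K _).symm T, ?_, fun σ => ?_⟩
  · rw [← map_add, hT, map_zero]
  · apply (Phi K (AlgebraicClosure K)).injective
    have h1 : Phi K _ (f σ) = act (W16 K) σ.toAlgHom T - T := h σ
    rw [h1, map_sub, Phi_act, AddEquiv.apply_symm_apply]

/-- **no element of order two in the Tate-Shafarevich group** -/
theorem sha_two {n : ℕ} (hn : Module.finrank F K = 2 ^ n) (hun : Unr F K)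
    (x : Pool.Agent.TH841.NF.D.Sha (E0 K)) (hx : x + x = 0) : x = 0 := by
  obtain ⟨D⟩ := exists_RD (F := F) (K := K) hn
  obtain ⟨⟨f, hf⟩, rfl⟩ := QuotientAddGroup.mk_surjective x
  have h1 : (⟨f, hf⟩ + ⟨f, hf⟩ : Pool.Agent.TH841.NF.D.shaCoc (E0 K)) ∈
      (cob (E0 K)).addSubgroupOf (Pool.Agent.TH841.NF.D.shaCoc (E0 K)) := by
    rw [← QuotientAddGroup.eq_zero_iff]
    exact hx
  obtain ⟨Q, hQ⟩ : IsCob (E0 K) (f + f) := h1
  obtain ⟨Q', hQ'⟩ := halve D Q
  have hf' : Pool.Agent.TH841.NF.D.IsShaCoc (E0 K) f := hf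
  let b : Coch (E0 K) := fun σ : Gal K => act (E0 K) σ.toAlgHom Q' - Q'
  let g : Coch (E0 K) := f - b
  have hgσ : ∀ σ, g σ = f σ - (act (E0 K) σ.toAlgHom Q' - Q') := fun σ => rfl
  have hgc : IsCoc (E0 K) g := by
    have := coc_add hf'.1 (coc_neg (coc_of_pt (E0 K) Q'))
    rw [← sub_eq_add_neg] at this
    exact this
  have hg2 : ∀ σ, g σ + g σ = 0 := by
    intro σ
    have h3 : f σ + f σ = act (E0 K) σ.toAlgHom Q - Q := hQ σ
    rw [hgσ]
    have e : f σ - (act (E0 K) σ.toAlgHom Q' - Q') + (f σ - (act (E0 K) σ.toAlgHom Q' - Q')) =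
        (f σ + f σ) - ((act (E0 K) σ.toAlgHom Q' + act (E0 K) σ.toAlgHom Q') - (Q' + Q')) := by
      abel
    rw [e, h3, ← map_add, ← hQ', sub_self]
  have hgl : ∀ v : HeightOneSpectrum (𝓞 K), LocTriv (E0 K) (v.adicCompletion K) g := by
    intro v ι
    obtain ⟨P, hP⟩ := hf'.2.1 v ι
    refine ⟨P - act (E0 K) ι Q', fun τ σ h => ?_⟩
    have h3 := hP τ σ h
    have h4 : act (E0 K) ι (act (E0 K) σ.toAlgHom Q') =
        act (E0 K) (τ.toAlgHom.restrictScalars K) (act (E0 K) ι Q') := by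
      rw [act_act, act_act]
      congr 2
      ext z
      exact (h z).symm
    rw [hgσ, map_sub, map_sub, map_sub, h3, h4]
    abel
  obtain ⟨T, hT, h⟩ := selE hn hun hgc hg2 hgl
  refine (QuotientAddGroup.eq_zero_iff (⟨f, hf⟩ : Pool.Agent.TH841.NF.D.shaCoc (E0 K))).2 ?_
  change IsCob (E0 K) f
  refine ⟨T + Q', fun σ => ?_⟩
  have h5 := h σ
  rw [hgσ] at h5
  have h6 : f σ = (act (E0 K) σ.toAlgHom T - T) + (act (E0 K) σ.toAlgHom Q' - Q') := by
    rw [← h5]; abel
  rw [h6, map_add]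
  abel

/-- **the rational points are divisible by two** -/
theorem div_two {n : ℕ} (hn : Module.finrank F K = 2 ^ n) (hun : Unr F K) (P : Pt (E0 K) K) :
    ∃ Q : Pt (E0 K) K, P = Q + Q := by
  obtain ⟨D⟩ := exists_RD (F := F) (K := K) hn
  set j : K →ₐ[K] AlgebraicClosure K := Algebra.ofId K _ with hj
  obtain ⟨Q, hQ⟩ := halve D (act (E0 K) j P)
  have hP : ∀ σ : Gal K, act (E0 K) σ.toAlgHom (act (E0 K) j P) = act (E0 K) j P := by
    intro σ
    rw [act_act]
    congr 1
    congr 1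
    exact AlgHom.ext fun _ => σ.commutes _
  have hloc : ∀ v : HeightOneSpectrum (𝓞 K), LocTriv (E0 K) (v.adicCompletion K)
      (fun σ : Gal K => act (E0 K) σ.toAlgHom Q - Q) := by
    intro v ι
    refine ⟨act (E0 K) ι Q, fun τ σ h => ?_⟩
    have h4 : act (E0 K) ι (act (E0 K) σ.toAlgHom Q) =
        act (E0 K) (τ.toAlgHom.restrictScalars K) (act (E0 K) ι Q) := by
      rw [act_act, act_act]
      congr 2
      ext z
      exact (h z).symm
    rw [map_sub, h4]
  obtain ⟨T, hT, h⟩ := selE hn hun (coc_of_pt (E0 K) Q) (fun σ => by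
      have e : act (E0 K) σ.toAlgHom Q - Q + (act (E0 K) σ.toAlgHom Q - Q) =
        (act (E0 K) σ.toAlgHom Q + act (E0 K) σ.toAlgHom Q) - (Q + Q) := by abel
      rw [e, ← map_add, ← hQ, hP, sub_self]) hloc
  have hfix : ∀ σ : Gal K, act (E0 K) σ.toAlgHom (Q - T) = Q - T := by
    intro σ
    have h5 : act (E0 K) σ.toAlgHom Q - Q = act (E0 K) σ.toAlgHom T - T := h σ
    rw [map_sub]
    have : act (E0 K) σ.toAlgHom Q = act (E0 K) σ.toAlgHom T - T + Q := by rw [← h5]; abel
    rw [this]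
    abel
  obtain ⟨R, hR⟩ : ∃ R : Pt (E0 K) K, act (E0 K) j R = Q - T := by
    rcases pt_cases (Q - T) with h0 | ⟨x, y, hn', h0⟩
    · exact ⟨0, by rw [h0, map_zero]⟩
    · have hxy : ∀ σ : Gal K, σ x = x ∧ σ y = y := by
        intro σ
        have h5 := hfix σ
        rw [h0] at h5
        exact mk_ext.1 h5
      obtain ⟨x₀, hx⟩ := fixm (k := K) x fun σ => (hxy σ).1
      obtain ⟨y₀, hy⟩ := fixm (k := K) y fun σ => (hxy σ).2
      subst hx hy
      have hns : ((E0 K).baseChange K).toAffine.Nonsingular x₀ y₀ :=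
        (Affine.baseChange_nonsingular (E0 K) j.injective ..).mp hn'
      exact ⟨mkp hns, by rw [h0]; rfl⟩
  refine ⟨R, ?_⟩
  apply act_inj (E0 K) j
  rw [map_add, hR, hQ]
  have e : Q - T + (Q - T) = (Q + Q) - (T + T) := by abel
  rw [e, hT, sub_zero]

theorem pts_odd {n : ℕ} (hn : Module.finrank F K = 2 ^ n) (hun : Unr F K) :
    Finite (E0 K).toAffine.Point ∧ Odd (Nat.card (E0 K).toAffine.Point) := by
  refine @Pool.Agent.Y784.E3.fin_odd K _ _ (Classical.decEq K) fun P => ?_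
  obtain ⟨Q, hQ⟩ := div_two hn hun P
  refine ⟨Q, ?_⟩
  rw [two_nsmul]
  exact hQ

end final

end Pool.Agent.Y696
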