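import Mathlib
import Pool.Agent.Y696.Trs
import Pool.Agent.Y696.Tam
import Pool.Agent.Y696.Dsr

/-!
# Towers of Galois extensions of 2-power degree
-/

set_option autoImplicit false

namespace Pool.Agent.Y696

open WeierstrassCurve IsDedekindDomain NumberField WithZero
open scoped Classical
open Pool.Agent.TH841.SH.D
open Pool.Agent.TH841.SH (IsR IsX gf not_isX isX_some isX_zero)
open Pool.Agent.Y678.CM (NsRed)

/-- the properties of the fields of the tower -/
structure Gn (K : Type) [Field K] [NumberField K] : Prop where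
  deg : ∃ n, Module.finrank ℚ K = 2 ^ n
  om : ∃ ω : K, ω ^ 2 + ω + 1 = 0
  two : ∀ v : HeightOneSpectrum (𝓞 K), ((2 : ℕ) : 𝓞 K) ∈ v.asIdeal →
    v.valuation K 2 = exp (-1 : ℤ)
  three : ∀ v : HeightOneSpectrum (𝓞 K), (3 : 𝓞 K) ∈ v.asIdeal → v.valuation K 3 = exp (-2 : ℤ)
  sq : ∀ δ : Cb K, PA δ → IsSquare δ

lemma Gn.no_cube {K : Type} [Field K] [NumberField K] (h : Gn K) : ∀ x : K, x ^ 3 ≠ 2 := by
  obtain ⟨n, hn⟩ := h.deg
  exact no_cube_two hn

section step
variable {F K : Type} [Field F] [NumberField F] [Field K] [NumberField K] [Algebra F K]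

lemma Gn.two_up (hF : Gn F) (hun : Unr F K) {v : HeightOneSpectrum (𝓞 K)}
    (hv : ((2 : ℕ) : 𝓞 K) ∈ v.asIdeal) : v.valuation K 2 = exp (-1 : ℤ) := by
  let v₀ : HeightOneSpectrum (𝓞 F) := ⟨v.asIdeal.under (𝓞 F), inferInstance, by
    intro h
    exact v.ne_bot (Ideal.eq_bot_of_comap_eq_bot h)⟩
  have hlo : v.asIdeal.LiesOver v₀.asIdeal := ⟨rfl⟩
  have h2 : ((2 : ℕ) : 𝓞 F) ∈ v₀.asIdeal := by
    change _ ∈ v.asIdeal.comap _
    rw [Ideal.mem_comap, map_natCast]
    exact hv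
  have he := hun v₀ v hlo ⟨0, by
    have : (0 : 𝓞 F) ^ 3 - 2 = -((2 : ℕ) : 𝓞 F) := by push_cast; ring
    rw [this]
    exact neg_mem h2⟩
  have h3 := val_of_unr hlo he 2
  have h4 := hF.two v₀ h2
  rw [map_ofNat] at h3
  rw [h3, ← h4]

lemma Gn.three_up (hF : Gn F) (hun : Unr F K) {v : HeightOneSpectrum (𝓞 K)}
    (hv : (3 : 𝓞 K) ∈ v.asIdeal) : v.valuation K 3 = exp (-2 : ℤ) := by
  let v₀ : HeightOneSpectrum (𝓞 F) := ⟨v.asIdeal.under (𝓞 F), inferInstance, by
    intro h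
    exact v.ne_bot (Ideal.eq_bot_of_comap_eq_bot h)⟩
  have hlo : v.asIdeal.LiesOver v₀.asIdeal := ⟨rfl⟩
  have h2 : (3 : 𝓞 F) ∈ v₀.asIdeal := by
    change _ ∈ v.asIdeal.comap _
    rw [Ideal.mem_comap, map_ofNat]
    exact hv
  have he := hun v₀ v hlo ⟨-1, by
    have : (-1 : 𝓞 F) ^ 3 - 2 = -3 := by ring
    rw [this]
    exact neg_mem h2⟩
  have h3 := val_of_unr hlo he 3
  have h4 := hF.three v₀ h2
  rw [map_ofNat] at h3
  rw [h3, ← h4]

variable [IsGalois F K]

theorem Gn.desc (hF : Gn F) {n : ℕ} (hn : Module.finrank F K = 2 ^ n) (hun : Unr F K) {δ : Cb K}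
    (hsq : ¬ IsSquare δ) (hP : PA δ) : ∃ δ₀ : Cb F, ¬ IsSquare δ₀ ∧ PA δ₀ := by
  obtain ⟨m, hF2⟩ := hF.deg
  have hK : Module.finrank ℚ K = 2 ^ (m + n) := by
    rw [← Module.finrank_mul_finrank ℚ F K, hF2, hn, pow_add]
  obtain ⟨δ₀, D, t, hD, hD0, ht0, hmap, hns, r, hr⟩ := step (L := F) (M := K) hn two_ne_zero
    (no_cube_two hK) PA PA.one (fun x y hx hy => hx.mul hy)
    (fun g x hx => hx.aut (g : K ≃+* K)) (fun x hx => hx.2.1) (Cb.ne_of_N hP.1) hsq hP
  have h3 := no_cube_two hK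
  have htN : t.N ≠ 0 := Cb.N_ne h3 ht0
  have hm : PA (Cb.map (algebraMap F K) δ₀) := by
    rw [hmap]
    exact hD.mul (PA.sq htN)
  have h0N : δ₀.N ≠ 0 := by
    intro h
    apply hm.1
    rw [Cb.N_map, h, map_zero]
  refine ⟨δ₀, ?_, h0N, ⟨r, hr⟩, fun v₀ hv₀ => ?_, fun v₀ hv₀ => ?_⟩
  · rintro ⟨s, hs⟩
    exact hns ⟨Cb.map (algebraMap F K) s, by rw [hs, map_mul]⟩
  · by_cases hx : ∃ x : 𝓞 F, x ^ 3 - 2 ∈ v₀.asIdeal
    · obtain ⟨v, hlo⟩ := exists_above (K := K) v₀
      have he := hun v₀ v hlo hx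
      refine EvV.desc (algebraMap F K) (val_of_unr hlo he) (hm.2.2.1 v ?_)
      rw [nat_mem_iff, ← map_natCast (algebraMap F K), val_of_unr hlo he, ← nat_mem_iff]
      exact hv₀
    · refine ⟨1, fun a ha => ?_⟩
      exfalso
      apply hx
      have ha1 : v₀.valuation F a ≤ 1 :=
        le_of_near _ (ha.trans (by rw [← exp_zero, exp_le_exp]; norm_num))
      obtain ⟨x, hx⟩ := HeightOneSpectrum.exists_valuation_sub_lt_of_integer (K := F) v₀ ha1 1
      refine ⟨x, ?_⟩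
      rw [← HeightOneSpectrum.valuation_lt_one_iff_mem (K := F)]
      change v₀.valuation F (algebraMap (𝓞 F) F (x ^ 3 - 2)) < 1
      have hx' : v₀.valuation F (algebraMap (𝓞 F) F x - a) < 1 := hx
      have ha' : v₀.valuation F (a ^ 3 - 2) < 1 :=
        lt_of_le_of_lt ha (by rw [← exp_zero, exp_lt_exp]; norm_num)
      have e : algebraMap (𝓞 F) F (x ^ 3 - 2) = (algebraMap (𝓞 F) F x - a) *
          (algebraMap (𝓞 F) F x ^ 2 + algebraMap (𝓞 F) F x * a + a ^ 2) + (a ^ 3 - 2) := by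
        rw [map_sub, map_pow, map_ofNat]
        ring
      rw [e]
      refine Valuation.map_add_lt _ ?_ ha'
      rw [map_mul]
      have hxx := v₀.valuation_le_one (K := F) x
      refine mul_lt_one_of_nonneg_of_lt_one_left zero_le hx' ?_
      refine Valuation.map_add_le _ (Valuation.map_add_le _ ?_ ?_) ?_
      · rw [map_pow]; exact pow_le_one' hxx 2
      · rw [map_mul]; exact mul_le_one' hxx ha1
      · rw [map_pow]; exact pow_le_one' ha1 2
  · obtain ⟨v, hlo⟩ := exists_above (K := K) v₀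
    have hx : ∃ x : 𝓞 F, x ^ 3 - 2 ∈ v₀.asIdeal := ⟨0, by
      have : (0 : 𝓞 F) ^ 3 - 2 = -((2 : ℕ) : 𝓞 F) := by push_cast; ring
      rw [this]
      exact neg_mem hv₀⟩
    have he := hun v₀ v hlo hx
    have hv2 : ((2 : ℕ) : 𝓞 K) ∈ v.asIdeal := by
      rw [nat_mem_iff, ← map_natCast (algebraMap F K), val_of_unr hlo he, ← nat_mem_iff]
      exact hv₀
    exact LvV.desc (hF.two_up hun hv2) (algebraMap F K) (val_of_unr hlo he) (Cb.ne_of_N h0N)
      (hm.2.2.2 v hv2)


/-- **one step of the tower** -/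
theorem Gn.step (hF : Gn F) {n : ℕ} (hn : Module.finrank F K = 2 ^ n) (hun : Unr F K) : Gn K := by
  refine ⟨?_, ?_, fun v hv => hF.two_up hun hv, fun v hv => hF.three_up hun hv, fun δ hδ => ?_⟩
  · obtain ⟨m, hm⟩ := hF.deg
    exact ⟨m + n, by rw [← Module.finrank_mul_finrank ℚ F K, hm, hn, pow_add]⟩
  · obtain ⟨ω, hω⟩ := hF.om
    exact ⟨algebraMap F K ω, by
      rw [← map_pow, ← map_add, ← map_one (algebraMap F K), ← map_add, hω, map_zero]⟩
  · by_contra hsq
    obtain ⟨δ₀, hs, hP⟩ := hF.desc hn hun hsq hδ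
    exact hs (hF.sq δ₀ hP)

end step

section base
variable {F K : Type} [Field F] [NumberField F] [IsCyclotomicExtension {3} ℚ F] [Field K]
  [NumberField K] [Algebra F K] [IsGalois F K]

/-- **the first step of the tower** -/
theorem Gn.of {n : ℕ} (hn : Module.finrank F K = 2 ^ n) (hun : Unr F K) : Gn K := by
  obtain ⟨ζ, hζ⟩ := IsCyclotomicExtension.exists_isPrimitiveRoot ℚ F
    (Set.mem_singleton 3) (by norm_num)
  have h1 : ζ ^ 2 + ζ + 1 = 0 := by
    have h3 : ζ ^ 3 = 1 := hζ.pow_eq_one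
    have h4 : ζ ≠ 1 := hζ.ne_one (by norm_num)
    have h5 : (ζ - 1) * (ζ ^ 2 + ζ + 1) = 0 := by
      linear_combination h3
    exact (mul_eq_zero.1 h5).resolve_left (sub_ne_zero.2 h4)
  have hθ : (2 * ζ + 1) ^ 2 = -3 := by linear_combination 4 * h1
  refine ⟨⟨n + 1, fr_K hn⟩, ⟨algebraMap F K ζ, ?_⟩, fun v hv => val_two_K hun hv, fun v hv => ?_,
    fun δ hδ => alg_final hn hun hδ⟩
  · rw [← map_pow, ← map_add, ← map_one (algebraMap F K), ← map_add, h1, map_zero]
  · have h2 := val_theta_K hun v hv hθ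
    have : (3 : K) = -(algebraMap F K (2 * ζ + 1)) ^ 2 := by
      rw [← map_pow, hθ, map_neg, map_ofNat, neg_neg]
    rw [this, Valuation.map_neg, map_pow, h2]
    rfl

end base

section final
variable {K : Type} [Field K] [NumberField K]

lemma Gn.exists_RD (hK : Gn K) : Nonempty (RD K) := by
  obtain ⟨ω, hω⟩ := hK.om
  obtain ⟨ρ, hρ⟩ := IsAlgClosed.exists_pow_nat_eq (2 : AlgebraicClosure K) (n := 3) (by norm_num)
  exact ⟨{ ω := ω
           hω := hω
           h3 := hK.no_cube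
           ρ := ρ
           hρ := hρ }⟩

/-- **the Selmer group vanishes** -/
theorem Gn.sel16 (hK : Gn K)
    {f : Coch (W16 K)} (hf : IsCoc (W16 K) f) (h2 : ∀ σ, f σ + f σ = 0)
    (hloc : ∀ v : HeightOneSpectrum (𝓞 K), LocTriv (W16 K) (v.adicCompletion K) f) :
    ∃ T : Pt (W16 K) (AlgebraicClosure K), T + T = 0 ∧
      ∀ σ : Gal K, f σ = act (W16 K) σ.toAlgHom T - T := by
  obtain ⟨D⟩ := hK.exists_RD
  obtain ⟨δ, w, hw0, hw, hwX, hwN, hr, hN, hsq⟩ := D.glo hf h2
  apply hsq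
  refine hK.sq δ ⟨hN, hr, fun v hv => ?_, fun v hv => ?_⟩
  · exact D.ev_of_loc h2 hw hwX hwN hv (hloc v) hN
  · exact D.lv_of_loc h2 hw hwX hwN (hK.two v hv) (hloc v) hN

/-- locally trivial cocycles killed by two -/
theorem Gn.selE (hK : Gn K)
    {f : Coch (E0 K)} (hf : IsCoc (E0 K) f) (h2 : ∀ σ, f σ + f σ = 0)
    (hloc : ∀ v : HeightOneSpectrum (𝓞 K), LocTriv (E0 K) (v.adicCompletion K) f) :
    ∃ T : Pt (E0 K) (AlgebraicClosure K), T + T = 0 ∧
      ∀ σ : Gal K, f σ = act (E0 K) σ.toAlgHom T - T := by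
  obtain ⟨T, hT, h⟩ := hK.sel16 (coc_Phi hf)
    (fun σ => by rw [← map_add, h2, map_zero])
    (fun v => by
      have : CharZero (v.adicCompletion K) :=
        charZero_of_injective_algebraMap (algebraMap K (v.adicCompletion K)).injective
      exact loc_Phi (hloc v))
  refine ⟨(Phi K _).symm T, ?_, fun σ => ?_⟩
  · rw [← map_add, hT, map_zero]
  · apply (Phi K (AlgebraicClosure K)).injective
    have h1 : Phi K _ (f σ) = act (W16 K) σ.toAlgHom T - T := h σ
    rw [h1, map_sub, Phi_act, AddEquiv.apply_symm_apply]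

/-- **no element of order two in the Tate-Shafarevich group** -/
theorem Gn.sha_two (hK : Gn K)
    (x : Pool.Agent.TH841.NF.D.Sha (E0 K)) (hx : x + x = 0) : x = 0 := by
  obtain ⟨D⟩ := hK.exists_RD
  obtain ⟨⟨f, hf⟩, rfl⟩ := QuotientAddGroup.mk_surjective x
  have h1 : (⟨f, hf⟩ + ⟨f, hf⟩ : Pool.Agent.TH841.NF.D.shaCoc (E0 K)) ∈
      (cob (E0 K)).addSubgroupOf (Pool.Agent.TH841.NF.D.shaCoc (E0 K)) := by
    rw [← QuotientAddGroup.eq_zero_iff]
    exact hx
  obtain ⟨Q, hQ⟩ : IsCob (E0 K) (f + f) := h1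
  obtain ⟨Q', hQ'⟩ := halve D Q
  have hf' : Pool.Agent.TH841.NF.D.IsShaCoc (E0 K) f := hf
  let b : Coch (E0 K) := fun σ : Gal K => act (E0 K) σ.toAlgHom Q' - Q'
  let g : Coch (E0 K) := f - b
  have hgσ : ∀ σ, g σ = f σ - (act (E0 K) σ.toAlgHom Q' - Q') := fun σ => rfl
  have hgc : IsCoc (E0 K) g := by
    have := coc_add hf'.1 (coc_neg (coc_of_pt (E0 K) Q'))
    rw [← sub_eq_add_neg] at this
    exact this
  have hg2 : ∀ σ, g σ + g σ = 0 := by
    intro σ
    have h3 : f σ + f σ = act (E0 K) σ.toAlgHom Q - Q := hQ σ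
    rw [hgσ]
    have e : f σ - (act (E0 K) σ.toAlgHom Q' - Q') + (f σ - (act (E0 K) σ.toAlgHom Q' - Q')) =
        (f σ + f σ) - ((act (E0 K) σ.toAlgHom Q' + act (E0 K) σ.toAlgHom Q') - (Q' + Q')) := by
      abel
    rw [e, h3, ← map_add, ← hQ', sub_self]
  have hgl : ∀ v : HeightOneSpectrum (𝓞 K), LocTriv (E0 K) (v.adicCompletion K) g := by
    intro v ι
    obtain ⟨P, hP⟩ := hf'.2.1 v ι
    refine ⟨P - act (E0 K) ι Q', fun τ σ h => ?_⟩
    have h3 := hP τ σ h
    have h4 : act (E0 K) ι (act (E0 K) σ.toAlgHom Q') =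
        act (E0 K) (τ.toAlgHom.restrictScalars K) (act (E0 K) ι Q') := by
      rw [act_act, act_act]
      congr 2
      ext z
      exact (h z).symm
    rw [hgσ, map_sub, map_sub, map_sub, h3, h4]
    abel
  obtain ⟨T, hT, h⟩ := hK.selE hgc hg2 hgl
  refine (QuotientAddGroup.eq_zero_iff (⟨f, hf⟩ : Pool.Agent.TH841.NF.D.shaCoc (E0 K))).2 ?_
  change IsCob (E0 K) f
  refine ⟨T + Q', fun σ => ?_⟩
  have h5 := h σ
  rw [hgσ] at h5
  have h6 : f σ = (act (E0 K) σ.toAlgHom T - T) + (act (E0 K) σ.toAlgHom Q' - Q') := by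
    rw [← h5]; abel
  rw [h6, map_add]
  abel

/-- **the rational points are divisible by two** -/
theorem Gn.div_two (hK : Gn K) (P : Pt (E0 K) K) :
    ∃ Q : Pt (E0 K) K, P = Q + Q := by
  obtain ⟨D⟩ := hK.exists_RD
  set j : K →ₐ[K] AlgebraicClosure K := Algebra.ofId K _ with hj
  obtain ⟨Q, hQ⟩ := halve D (act (E0 K) j P)
  have hP : ∀ σ : Gal K, act (E0 K) σ.toAlgHom (act (E0 K) j P) = act (E0 K) j P := by
    intro σ
    rw [act_act]
    congr 1
    congr 1
    exact AlgHom.ext fun _ => σ.commutes _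
  have hloc : ∀ v : HeightOneSpectrum (𝓞 K), LocTriv (E0 K) (v.adicCompletion K)
      (fun σ : Gal K => act (E0 K) σ.toAlgHom Q - Q) := by
    intro v ι
    refine ⟨act (E0 K) ι Q, fun τ σ h => ?_⟩
    have h4 : act (E0 K) ι (act (E0 K) σ.toAlgHom Q) =
        act (E0 K) (τ.toAlgHom.restrictScalars K) (act (E0 K) ι Q) := by
      rw [act_act, act_act]
      congr 2
      ext z
      exact (h z).symm
    rw [map_sub, h4]
  obtain ⟨T, hT, h⟩ := hK.selE (coc_of_pt (E0 K) Q) (fun σ => by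
      have e : act (E0 K) σ.toAlgHom Q - Q + (act (E0 K) σ.toAlgHom Q - Q) =
        (act (E0 K) σ.toAlgHom Q + act (E0 K) σ.toAlgHom Q) - (Q + Q) := by abel
      rw [e, ← map_add, ← hQ, hP, sub_self]) hloc
  have hfix : ∀ σ : Gal K, act (E0 K) σ.toAlgHom (Q - T) = Q - T := by
    intro σ
    have h5 : act (E0 K) σ.toAlgHom Q - Q = act (E0 K) σ.toAlgHom T - T := h σ
    rw [map_sub]
    have : act (E0 K) σ.toAlgHom Q = act (E0 K) σ.toAlgHom T - T + Q := by rw [← h5]; abel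
    rw [this]
    abel
  obtain ⟨R, hR⟩ : ∃ R : Pt (E0 K) K, act (E0 K) j R = Q - T := by
    rcases pt_cases (Q - T) with h0 | ⟨x, y, hn', h0⟩
    · exact ⟨0, by rw [h0, map_zero]⟩
    · have hxy : ∀ σ : Gal K, σ x = x ∧ σ y = y := by
        intro σ
        have h5 := hfix σ
        rw [h0] at h5
        exact mk_ext.1 h5
      obtain ⟨x₀, hx⟩ := fixm (k := K) x fun σ => (hxy σ).1
      obtain ⟨y₀, hy⟩ := fixm (k := K) y fun σ => (hxy σ).2
      subst hx hy
      have hns : ((E0 K).baseChange K).toAffine.Nonsingular x₀ y₀ :=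
        (Affine.baseChange_nonsingular (E0 K) j.injective ..).mp hn'
      exact ⟨mkp hns, by rw [h0]; rfl⟩
  refine ⟨R, ?_⟩
  apply act_inj (E0 K) j
  rw [map_add, hR, hQ]
  have e : Q - T + (Q - T) = (Q + Q) - (T + T) := by abel
  rw [e, hT, sub_zero]

theorem Gn.pts_odd (hK : Gn K) :
    Finite (E0 K).toAffine.Point ∧ Odd (Nat.card (E0 K).toAffine.Point) := by
  refine @Pool.Agent.Y784.E3.fin_odd K _ _ (Classical.decEq K) fun P => ?_
  obtain ⟨Q, hQ⟩ := hK.div_two P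
  refine ⟨Q, ?_⟩
  rw [two_nsmul]
  exact hQ


lemma Gn.val_cases (hK : Gn K) (v : HeightOneSpectrum (𝓞 K)) :
    (Valued.v (3 : v.adicCompletion K) = 1) ∨
    ∃ θ : v.adicCompletion K, θ ^ 2 = -3 ∧ Valued.v θ = exp (-1 : ℤ) := by
  have h3 : (3 : v.adicCompletion K) = algebraMap K (v.adicCompletion K) 3 := by rw [map_ofNat]
  by_cases hv : (3 : 𝓞 K) ∈ v.asIdeal
  · right
    obtain ⟨ω, hω⟩ := hK.om
    have hθ : (2 * ω + 1) ^ 2 = -3 := by linear_combination 4 * hω
    refine ⟨algebraMap K (v.adicCompletion K) (2 * ω + 1), ?_, ?_⟩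
    · rw [← map_pow, hθ, map_neg, map_ofNat]
    · rw [Pool.Agent.H723R3.valued_algebraMap]
      have h4 := hK.three v hv
      have h5 : v.valuation K (2 * ω + 1) ^ 2 = exp (-2 : ℤ) := by
        rw [← map_pow, hθ, Valuation.map_neg, h4]
      have h6 : v.valuation K (2 * ω + 1) ≠ 0 := by
        intro h0
        rw [h0, zero_pow two_ne_zero] at h5
        exact WithZero.exp_ne_zero h5.symm
      obtain ⟨k, hk⟩ := exp_rep h6
      rw [hk, ← exp_nsmul] at h5
      have h7 := exp_injective h5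
      rw [hk]
      congr 1
      rw [nsmul_eq_mul] at h7
      push_cast at h7
      omega
  · left
    rw [h3, Pool.Agent.H723R3.valued_algebraMap]
    have : (3 : K) = algebraMap (𝓞 K) K 3 := by rw [map_ofNat]
    rw [this, HeightOneSpectrum.valuation_of_algebraMap]
    exact (HeightOneSpectrum.intValuation_eq_one_iff).2 hv

/-- **the points of nonsingular reduction form a subgroup of odd index** -/
theorem Gn.tam_all (hK : Gn K) (v : HeightOneSpectrum (𝓞 K)) :
    ∃ H : AddSubgroup ((E0 K).baseChange (v.adicCompletion K)).toAffine.Point,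
      (∀ P, P ∈ H ↔ NsRed Valued.v ((E0 K).baseChange (v.adicCompletion K)) P) ∧ Odd H.index := by
  rcases hK.val_cases v with h | ⟨θ, h1, h2⟩
  · exact ⟨⊤, fun P => ⟨fun _ => nsred_all _ h (bc_coeffs _) P, fun _ => trivial⟩, by
      rw [AddSubgroup.index_top]; exact odd_one⟩
  · exact Pool.Agent.Y678.CM.tam_odd _ h1 h2 (bc_coeffs _)

/-- **the model is minimal at every finite place** -/
theorem Gn.min_all (hK : Gn K) (v : HeightOneSpectrum (𝓞 K)) :
    WeierstrassCurve.IsMinimal (v.adicCompletionIntegers K)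
      ((E0 K).baseChange (v.adicCompletion K)) := by
  have hbc : (E0 K).baseChange (v.adicCompletion K) = E0 (v.adicCompletion K) := E0_map _
  rw [hbc]
  apply isMinimal_E0
  rintro u hu ⟨r, hr⟩
  have h1 : Valued.v (u : v.adicCompletion K) < 1 := (Pool.Agent.W189.NF.mem_max_iff v u).1 hu
  have h2 : Valued.v (u : v.adicCompletion K) ≤ exp (-1 : ℤ) := exp_lt h1
  have h3 : Valued.v (r : v.adicCompletion K) ≤ 1 := r.2
  have h4 : (27 : v.adicCompletion K) = (u : v.adicCompletion K) ^ 12 * (r : v.adicCompletion K) := by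
    have := congrArg (algebraMap (v.adicCompletionIntegers K) (v.adicCompletion K)) hr
    rw [map_mul, map_pow, map_ofNat] at this
    exact this
  have h5 : Valued.v (27 : v.adicCompletion K) ≤ exp (-12 : ℤ) := by
    rw [h4, map_mul, map_pow]
    calc _ ≤ (exp (-1 : ℤ)) ^ 12 * 1 := by gcongr
      _ = exp (-12 : ℤ) := by rw [mul_one, ← exp_nsmul]; rfl
  have h6 : (exp (-6 : ℤ) : ℤᵐ⁰) ≤ Valued.v (27 : v.adicCompletion K) := by
    rcases hK.val_cases v with h | ⟨θ, e1, e2⟩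
    · have : (27 : v.adicCompletion K) = 3 ^ 3 := by norm_num
      rw [this, map_pow, h, one_pow, ← exp_zero, exp_le_exp]
      norm_num
    · have : (27 : v.adicCompletion K) = -θ ^ 6 := by
        linear_combination (θ ^ 4 - 3 * θ ^ 2 + 9) * e1
      rw [this, Valuation.map_neg, map_pow, e2, ← exp_nsmul]
      exact le_of_eq rfl
  have h7 := h6.trans h5
  rw [exp_le_exp] at h7
  norm_num at h7

lemma Gn.disc_odd (hK : Gn K) : ¬ (2 : ℤ) ∣ discr K := by
  rw [NumberField.not_dvd_discr_iff_forall_mem K (𝓞 K) Int.prime_two]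
  intro P hP h2
  have h2' : ((2 : ℕ) : 𝓞 K) ∈ P := by exact_mod_cast h2
  have hP0 : P ≠ ⊥ := by
    rintro rfl
    rw [Ideal.mem_bot] at h2'
    exact absurd h2' (by norm_num)
  let v : HeightOneSpectrum (𝓞 K) := ⟨P, hP, hP0⟩
  have h3 : v.valuation K 2 = WithZero.exp (-1 : ℤ) := hK.two v h2'
  let Q : HeightOneSpectrum ℤ := ⟨Ideal.span {((2 : ℕ) : ℤ)},
    (Ideal.span_singleton_prime (by norm_num)).2 (Nat.prime_iff_prime_int.1 Nat.prime_two), by
      rw [Ne, Ideal.span_singleton_eq_bot]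
      norm_num⟩
  have hmax : Q.asIdeal.IsMaximal := Q.isPrime.isMaximal Q.ne_bot
  have hlo : v.asIdeal.LiesOver Q.asIdeal := by
    constructor
    refine (hmax.eq_of_le ?_ ?_)
    · exact Ideal.IsPrime.ne_top inferInstance
    · rw [Ideal.span_singleton_le_iff_mem, Ideal.under_def, Ideal.mem_comap]
      simpa using h2'
  have h1 := HeightOneSpectrum.valuation_liesOver (K := ℚ) K Q v (2 : ℚ)
  have h4 : Q.valuation ℚ (2 : ℚ) = WithZero.exp (-1 : ℤ) := by
    have := HeightOneSpectrum.intValuation_singleton Q (r := ((2 : ℕ) : ℤ))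
      (by norm_num) rfl
    rw [← this, ← HeightOneSpectrum.valuation_of_algebraMap (K := ℚ)]
    simp
  rw [h4, map_ofNat, h3, ← WithZero.exp_nsmul] at h1
  have h5 := WithZero.exp_injective h1
  have h6 : Q.asIdeal.ramificationIdx' v.asIdeal = 1 := by
    rw [nsmul_eq_mul] at h5
    have : ((Q.asIdeal.ramificationIdx' v.asIdeal : ℕ) : ℤ) = 1 := by linarith
    exact_mod_cast this
  rw [Ideal.ramificationIdx'_eq_ramificationIdx _ _ Q.ne_bot] at h6
  have : Finite (ℤ ⧸ P.under ℤ) := by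
    rw [← hlo.over]
    exact Ideal.finiteQuotientOfFreeOfNeBot _ Q.ne_bot
  have hmax' : (P.under ℤ).IsMaximal := by
    have := hlo.over
    change _ = P.under ℤ at this
    rw [← this]
    exact hmax
  have : Finite (P.under ℤ).ResidueField := by
    have := Ideal.bijective_algebraMap_quotient_residueField (P.under ℤ)
    exact Finite.of_surjective _ this.2
  exact (Ideal.ramificationIdx_eq_one_iff (q := P) (R := ℤ)).1 h6

end final

end Pool.Agent.Y696
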