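import Mathlib
import Pool.Agent.Y696.Dsr
import Pool.Agent.Y577.LU.L1

/-!
# The covolume of the period lattice
-/

set_option autoImplicit false

open Complex Filter Topology
open scoped PeriodPair

namespace Pool.Agent.Y696

open Pool.Agent.W192.HK Pool.Agent.TH936.CM Pool.Agent.TH936.PU NumberField IsDedekindDomain

lemma rep_zero {x y : ℤ} (h : (x : ℂ) + y * om = 0) : x = 0 ∧ y = 0 := by
  have h1 := congrArg Complex.im h
  simp only [Complex.add_im, Complex.mul_im, Complex.intCast_im, Complex.intCast_re,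
    Complex.zero_im, zero_mul, add_zero, zero_add] at h1
  have h2 : (y : ℝ) = 0 := (mul_eq_zero.1 h1).resolve_right om_im.ne'
  have h3 : y = 0 := by exact_mod_cast h2
  rw [h3] at h
  simp only [Int.cast_zero, zero_mul, add_zero, Int.cast_eq_zero] at h
  exact ⟨h, h3⟩

/-- the area of a period parallelogram -/
lemma area {L : PeriodPair} {Ω : ℂ} (hL : IsLat L eis Ω) :
    ((2 * |((starRingEnd ℂ) L.ω₁ * L.ω₂).im| : ℝ) : ℂ) =
      ((Real.sqrt |((3 : ℤ) : ℝ)| : ℝ) : ℂ) * (Ω * (starRingEnd ℂ) Ω) := by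
  obtain ⟨a, ha⟩ := (hL.mem _).1 L.ω₁_mem_lattice
  obtain ⟨b, hb⟩ := (hL.mem _).1 L.ω₂_mem_lattice
  obtain ⟨a₁, a₂, ha'⟩ := a.2
  obtain ⟨b₁, b₂, hb'⟩ := b.2
  have h1 : Ω ∈ L.lattice := (hL.mem _).2 ⟨1, by push_cast; ring⟩
  have h2 : Ω * om ∈ L.lattice := (hL.mem _).2 ⟨omr, rfl⟩
  rw [PeriodPair.mem_lattice] at h1 h2
  obtain ⟨m, n, h1⟩ := h1
  obtain ⟨k, l, h2⟩ := h2
  rw [ha, hb, ha', hb'] at h1 h2
  have e1 : ((m * a₁ + n * b₁ - 1 : ℤ) : ℂ) + ((m * a₂ + n * b₂ : ℤ) : ℂ) * om = 0 := by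
    have : Ω * (((m * a₁ + n * b₁ - 1 : ℤ) : ℂ) + ((m * a₂ + n * b₂ : ℤ) : ℂ) * om) = 0 := by
      push_cast
      linear_combination h1
    exact (mul_eq_zero.1 this).resolve_left hL.ne
  have e2 : ((k * a₁ + l * b₁ : ℤ) : ℂ) + ((k * a₂ + l * b₂ - 1 : ℤ) : ℂ) * om = 0 := by
    have : Ω * (((k * a₁ + l * b₁ : ℤ) : ℂ) + ((k * a₂ + l * b₂ - 1 : ℤ) : ℂ) * om) = 0 := by
      push_cast
      linear_combination h2
    exact (mul_eq_zero.1 this).resolve_left hL.ne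
  obtain ⟨p1, p2⟩ := rep_zero e1
  obtain ⟨p3, p4⟩ := rep_zero e2
  have hdet : (a₁ * b₂ - a₂ * b₁) * (m * l - n * k) = 1 := by
    have q1 : m * a₁ + n * b₁ = 1 := by linarith
    have q4 : k * a₂ + l * b₂ = 1 := by linarith
    linear_combination (k * a₂ + l * b₂) * q1 + q4 - (m * a₂ + n * b₂) * p3
  have hunit : |a₁ * b₂ - a₂ * b₁| = 1 := Int.isUnit_iff_abs_eq.1 (IsUnit.of_mul_eq_one _ hdet)
  have him : ((starRingEnd ℂ) L.ω₁ * L.ω₂).im =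
      Complex.normSq Ω * (((a₁ * b₂ - a₂ * b₁ : ℤ) : ℝ) * (Real.sqrt 3 / 2)) := by
    rw [ha, hb, ha', hb', map_mul]
    have : (starRingEnd ℂ) Ω * (starRingEnd ℂ) ((a₁ : ℂ) + a₂ * om) * (Ω * ((b₁ : ℂ) + b₂ * om)) =
        ((Complex.normSq Ω : ℝ) : ℂ) *
          ((starRingEnd ℂ) ((a₁ : ℂ) + a₂ * om) * ((b₁ : ℂ) + b₂ * om)) := by
      rw [← Complex.mul_conj]
      ring
    rw [this, Complex.im_ofReal_mul]
    congr 1
    simp only [om, map_add, map_mul, Complex.add_im, Complex.mul_im, Complex.add_re,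
      Complex.mul_re, Complex.intCast_re, Complex.intCast_im, Complex.conj_re, Complex.conj_im]
    push_cast
    ring
  have habs : |((starRingEnd ℂ) L.ω₁ * L.ω₂).im| = Complex.normSq Ω * (Real.sqrt 3 / 2) := by
    rw [him, abs_mul, abs_mul, abs_of_nonneg (Complex.normSq_nonneg Ω)]
    have : |((a₁ * b₂ - a₂ * b₁ : ℤ) : ℝ)| = 1 := by
      rw [← Int.cast_abs, hunit]
      simp
    rw [this, one_mul, abs_of_nonneg (by positivity)]
  rw [habs, Complex.mul_conj]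
  have h3 : |((3 : ℤ) : ℝ)| = 3 := by norm_num
  rw [h3]
  push_cast
  ring

/-- every lattice with these invariants is a multiple of the Eisenstein integers -/
lemma cur_of {L : PeriodPair} (h2 : L.g₂ = 0) (h3 : L.g₃ = -1) : ∃ Ω, Cur L Ω := by
  obtain ⟨Ω, hΩ, hC⟩ := exists_cur
  have h := Pool.Agent.Y577.LU.lat_unique L (hex Ω hΩ) (h2.trans hC.g2.symm) (h3.trans hC.g3.symm)
  refine ⟨Ω, ⟨hC.lat.ne, fun z => ?_⟩, h2, h3⟩
  rw [h]
  exact hC.lat.mem z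

section
variable {F K : Type} [Field F] [NumberField F] [IsCyclotomicExtension {3} ℚ F] [Field K]
  [NumberField K] [Algebra F K] [IsGalois F K]

/-- **the analytic theorem for a field with its Artin map** -/
theorem analytic_K {n : ℕ} (hn : Module.finrank F K = 2 ^ n) {c : 𝓞 F}
    {art : (𝓞 F ⧸ Ideal.span {c})ˣ →* Gal(K/F)} (h : Art c art)
    (hc0 : c ≠ 0) (hc2 : IsCoprime c 2) (hc3 : IsCoprime c 3)
    (hc : ∀ v₀ : HeightOneSpectrum (𝓞 F), c ∈ v₀.asIdeal → ∀ x : 𝓞 F, x ^ 3 - 2 ∉ v₀.asIdeal) :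
    ∃ Lf : ℂ → ℂ, MeromorphicOn Lf Set.univ ∧ (∀ s : ℂ, 3 / 2 < s.re →
      LSeriesSummable ((fun n : ℤ => (n : ℂ)) ∘ (E0 K).LFunction) s ∧ Lf s = (E0 K).LSeries s) ∧
      AnalyticAt ℂ Lf 1 ∧ Lf 1 ≠ 0 ∧
      ∀ L : PeriodPair, L.g₂ = 0 → L.g₃ = -1 →
        ∀ (Γ : Type) [LinearOrderedCommGroupWithZero Γ] (v : Valuation ℂ Γ), v 2 < 1 →
          v (Lf 1 * (Real.sqrt |(discr K : ℝ)| : ℝ) /
            ((2 * |((starRingEnd ℂ) L.ω₁ * L.ω₂).im| : ℝ) : ℂ) ^ 2 ^ n) = 1 := by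
  let := commG h
  obtain ⟨ζ, hζ⟩ := IsCyclotomicExtension.exists_isPrimitiveRoot ℚ F
    (Set.mem_singleton 3) (by norm_num)
  obtain ⟨σ, hσ⟩ := exists_emb hζ
  obtain ⟨Lf, h1, h2, h3, h4, h5⟩ := analytic_main (mkDat hn h (isoE hζ σ hσ) hc0 hc2 hc3 hc)
  refine ⟨Lf, h1, h2, h3, h4, fun L hL2 hL3 Γ _ v hv => ?_⟩
  obtain ⟨Ω, hC⟩ := cur_of hL2 hL3
  have h6 := h5 L Ω hC Γ v hv
  have h7 : Nat.card Gal(K/F) = 2 ^ n := by rw [← hn]; exact IsGalois.card_aut_eq_finrank F K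
  rw [h7] at h6
  rw [area hC.lat, mul_pow]
  have h8 : v ((Real.sqrt |((3 : ℤ) : ℝ)| : ℝ) : ℂ) = 1 := v_sqrtD hv (by norm_num)
  have h9 : v ((Real.sqrt |(discr K : ℝ)| : ℝ) : ℂ) = 1 :=
    v_sqrtD hv (disc_odd (unr_of_art h hc))
  rw [map_div₀, map_mul, map_mul, map_pow, h8, h9, one_pow, one_mul, mul_one, ← map_div₀]
  exact h6

end

end Pool.Agent.Y696
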