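import Mathlib
import Pool.Agent.Y696.Cov

/-!
# One half of the factorization of the L-function
-/

set_option autoImplicit false

namespace Pool.Agent.Y696

open NumberField IsDedekindDomain IsLocalRing Filter Topology Complex
open Pool.Agent.W192.HK Pool.Agent.TH936.CM Pool.Agent.TH936.PU
open Pool.Agent.W189.NF (aV eV redMap)
open Pool.Agent.W192.CM (nu)
open Pool.Agent.H921R2.TatePole (two_le_nm nm_summable)

section
variable {K : Type} [Field K] [NumberField K] {ι : eis →+* 𝓞 K} {G : Type} [CommGroup G] [Finite G]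
  [MulSemiringAction G (𝓞 K)] {c : eis} {art : (eis ⧸ (sp c : Ideal eis))ˣ →* G}

/-- the residue degree over the prime below -/
noncomputable def fd (ι : eis →+* 𝓞 K) (v : HeightOneSpectrum (𝓞 K)) : ℕ :=
  Nat.log (Nat.card (eis ⧸ (bel ι v).asIdeal)) (nK v)

lemma fd_of {v : HeightOneSpectrum (𝓞 K)} {f : ℕ}
    (hf : nK v = Nat.card (eis ⧸ (bel ι v).asIdeal) ^ f) : fd ι v = f := by
  unfold fd
  rw [hf, Nat.log_pow (card_two_le _)]

/-- the value of the character of `K` at a prime -/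
noncomputable def pw (ι : eis →+* 𝓞 K) (v : HeightOneSpectrum (𝓞 K)) : ℂ :=
  psi (bel ι v).asIdeal ^ fd ι v

/-- the local factor of the character -/
noncomputable def yw (ι : eis →+* 𝓞 K) (v : HeightOneSpectrum (𝓞 K)) (s : ℂ) : ℂ :=
  (1 - pw ι v * (nK v : ℂ) ^ (-s))⁻¹

lemma psi_three {P : HeightOneSpectrum eis} (hP : (3 : eis) ∈ P.asIdeal) : psi P.asIdeal = 0 := by
  rw [psi_zero_iff, Ideal.isCoprime_iff_sup_eq]
  intro h
  apply P.isPrime.ne_top
  rw [← h, left_eq_sup, Ideal.span_singleton_le_iff_mem]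
  exact hP

lemma pw_three (D : Dat ι G c art) {v : HeightOneSpectrum (𝓞 K)} (h3 : ι 3 ∈ v.asIdeal) :
    pw ι v = 0 := by
  obtain ⟨f, hf0, -, hf⟩ := exists_deg D v
  unfold pw
  rw [fd_of hf, psi_three h3, zero_pow hf0.ne']

lemma pw_val (D : Dat ι G c art) {v : HeightOneSpectrum (𝓞 K)} (h3 : ι 3 ∉ v.asIdeal) :
    ((aV (E0 K) v : ℤ) : ℂ) = pw ι v + (starRingEnd ℂ) (pw ι v) ∧
    ((eV (E0 K) v : ℤ) : ℂ) = (nK v : ℂ) ∧
    pw ι v * (starRingEnd ℂ) (pw ι v) = (nK v : ℂ) := by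
  obtain ⟨f, -, -, hf⟩ := exists_deg D v
  obtain ⟨h1, h2, h4⟩ := aV_val v h3 hf
  have e : pw ι v = psi (bel ι v).asIdeal ^ f := by unfold pw; rw [fd_of hf]
  refine ⟨?_, h2, ?_⟩
  · rw [h1, e, map_pow]
  · rw [e, map_pow, ← mul_pow, h4, hf]
    push_cast
    rfl

lemma pw_norm (D : Dat ι G c art) (v : HeightOneSpectrum (𝓞 K)) :
    ‖pw ι v‖ ^ 2 ≤ (nK v : ℝ) := by
  by_cases h3 : ι 3 ∈ v.asIdeal
  · rw [pw_three D h3, norm_zero, zero_pow two_ne_zero]
    exact Nat.cast_nonneg _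
  · obtain ⟨-, -, h⟩ := pw_val D h3
    rw [Complex.mul_conj, Complex.normSq_eq_norm_sq] at h
    have h5 : ‖pw ι v‖ ^ 2 = (nK v : ℝ) := by exact_mod_cast h
    exact h5.le

lemma yw_eq {v : HeightOneSpectrum (𝓞 K)} {P : HeightOneSpectrum eis} (hv : bel ι v = P) {f : ℕ}
    (hf : nK v = Nat.card (eis ⧸ P.asIdeal) ^ f) (s : ℂ) :
    yw ι v s = (1 - (psi P.asIdeal * (nm P.asIdeal : ℂ) ^ (-s)) ^ f)⁻¹ := by
  subst hv
  unfold yw pw
  rw [fd_of hf, mul_pow]
  congr 3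
  rw [hf, nm_P]
  push_cast
  rw [← Complex.natCast_cpow_natCast_mul, Complex.cpow_nat_mul]

lemma yw_three (D : Dat ι G c art) {v : HeightOneSpectrum (𝓞 K)} (h3 : ι 3 ∈ v.asIdeal) (s : ℂ) :
    yw ι v s = 1 := by
  unfold yw
  rw [pw_three D h3, zero_mul, sub_zero, inv_one]

/-- the product over the characters of the factors at `P` -/
noncomputable def RF (art : (eis ⧸ (sp c : Ideal eis))ˣ →* G) [Fintype (MulChar G ℂ)]
    (P : HeightOneSpectrum eis) (s : ℂ) : ℂ :=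
  ∏ χ : MulChar G ℂ,
    (1 - psi P.asIdeal * eI (eta art χ) P.asIdeal * (nm P.asIdeal : ℂ) ^ (-s))⁻¹

omit [Finite G] in
lemma RF_of_c [Fintype (MulChar G ℂ)] {P : HeightOneSpectrum eis}
    (hP : c ∈ P.asIdeal) (s : ℂ) : RF art P s = 1 := by
  unfold RF
  refine Finset.prod_eq_one fun χ _ => ?_
  have h1 : eI (eta art χ) P.asIdeal = 0 := by
    show et (eta art χ) (gP P) = 0
    rw [et_zero_iff]
    rintro ⟨a, b, hab⟩
    apply P.isPrime.ne_top
    rw [Ideal.eq_top_iff_one, ← hab]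
    refine P.asIdeal.add_mem (P.asIdeal.mul_mem_left _ ?_) (P.asIdeal.mul_mem_left _ hP)
    have := Ideal.mem_span_singleton_self (gP P)
    rwa [← sp, ← gP_span] at this
  rw [h1]
  simp

omit [Finite G] in
lemma RF_of_three [Fintype (MulChar G ℂ)] {P : HeightOneSpectrum eis}
    (hP : (3 : eis) ∈ P.asIdeal) (s : ℂ) : RF art P s = 1 := by
  unfold RF
  refine Finset.prod_eq_one fun χ _ => ?_
  rw [psi_three hP]
  simp

/-- the fibre over a prime that does not divide `3c` -/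
lemma fibF_good (D : Dat ι G c art) [Fintype (MulChar G ℂ)] {P : HeightOneSpectrum eis}
    (hPc : c ∉ P.asIdeal) (hP3 : (3 : eis) ∉ P.asIdeal) {s : ℂ} (hs : 1 < s.re) :
    ∏ v : {v : HeightOneSpectrum (𝓞 K) // bel ι v = P}, yw ι v.1 s = RF art P s := by
  classical
  have hcop : IsCoprime (gP P) c := by
    rw [cop_iff D.c_ne]
    intro Q hQ h
    apply hPc
    have h1 : P.asIdeal ≤ Q.asIdeal := by
      rw [gP_span, Ideal.span_singleton_le_iff_mem]
      exact h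
    have h2 : P.asIdeal = Q.asIdeal :=
      (P.isPrime.isMaximal P.ne_bot).eq_of_le Q.isPrime.ne_top h1
    rw [h2]
    exact (mem_Sc D.c_ne).1 hQ
  obtain ⟨u, hu⟩ := (unit_iff (c := c) (gP P)).2 hcop
  obtain ⟨h1, h2⟩ := split D hPc hu
  obtain ⟨v0, hv0⟩ := exists_over D P
  have hpsi : psi P.asIdeal * (starRingEnd ℂ) (psi P.asIdeal) =
      (Nat.card (eis ⧸ P.asIdeal) : ℂ) := by
    obtain ⟨-, -, h4⟩ := aV_val (ι := ι) v0 (by rw [← mem_bel, hv0]; exact hP3)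
      (f := orderOf (art u)) (by rw [h1 v0 hv0, hv0])
    rw [hv0] at h4
    exact h4
  have hN2 := card_two_le P
  set N := Nat.card (eis ⧸ P.asIdeal) with hN
  have hN1 : (1 : ℝ) < N := by
    have : (2 : ℝ) ≤ N := by exact_mod_cast hN2
    linarith
  set f := orderOf (art u) with hf
  have hpn : ‖psi P.asIdeal‖ ≤ N := by
    rw [Complex.mul_conj, Complex.normSq_eq_norm_sq] at hpsi
    have h5 : ‖psi P.asIdeal‖ ^ 2 = N := by exact_mod_cast hpsi
    nlinarith [norm_nonneg (psi P.asIdeal)]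
  have hyn : ‖psi P.asIdeal * (nm P.asIdeal : ℂ) ^ (-s)‖ < 1 := by
    rw [norm_mul, nm_P]
    have h5 : ‖(((N : ℝ)) : ℂ) ^ (-s)‖ = (N : ℝ) ^ (-s.re) := by
      rw [Complex.norm_cpow_eq_rpow_re_of_pos (by linarith), Complex.neg_re]
    rw [h5]
    calc ‖psi P.asIdeal‖ * (N : ℝ) ^ (-s.re) ≤ (N : ℝ) * (N : ℝ) ^ (-s.re) := by gcongr
      _ = (N : ℝ) ^ (1 - s.re) := by
        rw [sub_eq_add_neg, Real.rpow_add (by linarith), Real.rpow_one]
      _ < 1 := Real.rpow_lt_one_of_one_lt_of_neg hN1 (by linarith)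
  have hL : ∏ v : {v : HeightOneSpectrum (𝓞 K) // bel ι v = P}, yw ι v.1 s =
      ((1 - (psi P.asIdeal * (nm P.asIdeal : ℂ) ^ (-s)) ^ f) ^ (Nat.card G / f))⁻¹ := by
    have h5 : ∀ v : {v : HeightOneSpectrum (𝓞 K) // bel ι v = P}, yw ι v.1 s =
        (1 - (psi P.asIdeal * (nm P.asIdeal : ℂ) ^ (-s)) ^ f)⁻¹ := by
      rintro ⟨v, hv⟩
      exact yw_eq hv (h1 v hv) s
    rw [Finset.prod_congr rfl fun v _ => h5 v, Finset.prod_const, Finset.card_univ, h2, inv_pow]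
  rw [hL]
  unfold RF
  have heI : ∀ χ : MulChar G ℂ, eI (eta art χ) P.asIdeal = χ (art u) := by
    intro χ
    show et (eta art χ) (gP P) = _
    unfold et
    rw [← hu, eta_unit]
  simp only [heI]
  rw [Finset.prod_inv_distrib]
  congr 1
  rw [← prod_mc (art u) _ hyn]
  refine Finset.prod_congr rfl fun χ _ => ?_
  ring

lemma yw_mult (D : Dat ι G c art) {s : ℂ} (hs : 3 / 2 < s.re) :
    Multipliable (fun v : HeightOneSpectrum (𝓞 K) => yw ι v s) := by
  have hb : ∀ v : HeightOneSpectrum (𝓞 K), ‖pw ι v * (nK v : ℂ) ^ (-s)‖ ≤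
      (nK v : ℝ) ^ (-(s.re - 1 / 2)) := by
    intro v
    have hq2 : (2 : ℝ) ≤ nK v := by exact_mod_cast two_le_nm v
    have hq0 : (0 : ℝ) < nK v := by linarith
    have h1 : ‖pw ι v‖ ≤ Real.sqrt (nK v) := Real.le_sqrt_of_sq_le (pw_norm D v)
    rw [norm_mul, Complex.norm_natCast_cpow_of_pos (by have := two_le_nm v; unfold nK; omega),
      Complex.neg_re]
    calc ‖pw ι v‖ * (nK v : ℝ) ^ (-s.re) ≤ Real.sqrt (nK v) * (nK v : ℝ) ^ (-s.re) := by gcongr
      _ = (nK v : ℝ) ^ (-(s.re - 1 / 2)) := by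
        rw [Real.sqrt_eq_rpow, ← Real.rpow_add hq0]
        congr 1
        ring
  have hh : ∀ v : HeightOneSpectrum (𝓞 K), (nK v : ℝ) ^ (-(s.re - 1 / 2)) ≤ 1 / 2 := by
    intro v
    have hq2 : (2 : ℝ) ≤ nK v := by exact_mod_cast two_le_nm v
    calc (nK v : ℝ) ^ (-(s.re - 1 / 2)) ≤ (nK v : ℝ) ^ (-1 : ℝ) :=
          Real.rpow_le_rpow_of_exponent_le (by linarith) (by linarith)
      _ = (nK v : ℝ)⁻¹ := Real.rpow_neg_one _
      _ ≤ 2⁻¹ := inv_anti₀ (by norm_num) hq2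
      _ = 1 / 2 := by norm_num
  have hsum := nm_summable (K := K) (x := s.re - 1 / 2) (by linarith)
  have h2 : Summable fun v : HeightOneSpectrum (𝓞 K) => ‖yw ι v s - 1‖ := by
    refine Summable.of_nonneg_of_le (fun v => norm_nonneg _) (fun v => ?_) (hsum.mul_left 2)
    set x := pw ι v * (nK v : ℂ) ^ (-s) with hx
    have hx1 : ‖x‖ ≤ 1 / 2 := (hb v).trans (hh v)
    have hx2 : 1 / 2 ≤ ‖1 - x‖ := by
      have := norm_sub_norm_le (1 : ℂ) x
      rw [norm_one] at this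
      linarith
    have hne : 1 - x ≠ 0 := by
      intro h0
      rw [h0, norm_zero] at hx2
      linarith
    have e : yw ι v s - 1 = x / (1 - x) := by
      show (1 - x)⁻¹ - 1 = x / (1 - x)
      field_simp
      ring
    rw [e, norm_div]
    calc ‖x‖ / ‖1 - x‖ ≤ ‖x‖ / (1 / 2) := by gcongr
      _ = 2 * ‖x‖ := by ring
      _ ≤ 2 * (nK v : ℝ) ^ (-(s.re - 1 / 2)) := by gcongr; exact hb v
  have h3 := multipliable_one_add_of_summable h2
  refine h3.congr fun v => ?_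
  ring

/-- the Euler product of the half -/
theorem yw_prod (D : Dat ι G c art) [Fintype (MulChar G ℂ)] {F : MulChar G ℂ → ℂ → ℂ}
    (hF : ∀ χ : MulChar G ℂ, ∀ z : ℂ, 3 / 2 < z.re →
      HasSum (fun I : Ideal eis => psi I * eI (eta art χ) I * (nm I : ℂ) ^ (-z)) (F χ z))
    {s : ℂ} (hs : 3 / 2 < s.re) :
    HasProd (fun v : HeightOneSpectrum (𝓞 K) => yw ι v s)
      ((∏ P ∈ Sc D.c_ne, ∏ v : {v : HeightOneSpectrum (𝓞 K) // bel ι v = P}, yw ι v.1 s) *
        ∏ χ, F χ s) := by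
  classical
  obtain ⟨Y, h2⟩ := yw_mult (ι := ι) D hs
  have h3 := (Equiv.sigmaFiberEquiv (bel ι)).hasProd_iff.2 h2
  have h4 : HasProd (fun P : HeightOneSpectrum eis =>
      ∏ v : {v : HeightOneSpectrum (𝓞 K) // bel ι v = P}, yw ι v.1 s) Y := by
    refine h3.sigma fun P => ?_
    exact hasProd_fintype _ (.unconditional _)
  have h5 : HasProd (fun P : HeightOneSpectrum eis => if P ∈ Sc D.c_ne then
      ∏ v : {v : HeightOneSpectrum (𝓞 K) // bel ι v = P}, yw ι v.1 s else 1)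
      (∏ P ∈ Sc D.c_ne, ∏ v : {v : HeightOneSpectrum (𝓞 K) // bel ι v = P}, yw ι v.1 s) := by
    have h6 := hasProd_prod_of_ne_finset_one (L := .unconditional _) (s := Sc D.c_ne)
      (f := fun P : HeightOneSpectrum eis => if P ∈ Sc D.c_ne then
        ∏ v : {v : HeightOneSpectrum (𝓞 K) // bel ι v = P}, yw ι v.1 s else 1)
      (fun P hP => if_neg hP)
    rw [Finset.prod_congr rfl (fun P hP => if_pos hP)] at h6
    exact h6
  have h7 : HasProd (fun P : HeightOneSpectrum eis => RF art P s) (∏ χ, F χ s) := by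
    unfold RF
    apply hasProd_prod
    intro χ _
    exact hp_eta (et_eta_unit D χ) (hF χ s hs)
  have h6 := h5.mul h7
  have h8 := h4.unique (h6.congr_fun fun P => by
    by_cases hP : P ∈ Sc D.c_ne
    · rw [if_pos hP, RF_of_c ((mem_Sc D.c_ne).1 hP), mul_one]
    · rw [if_neg hP, one_mul]
      have hPc : c ∉ P.asIdeal := fun h => hP ((mem_Sc D.c_ne).2 h)
      by_cases h3P : (3 : eis) ∈ P.asIdeal
      · rw [RF_of_three h3P]
        refine Finset.prod_eq_one fun v _ => yw_three D ?_ s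
        rw [← mem_bel, v.2]
        exact h3P
      · exact fibF_good D hPc h3P (by linarith))
  rw [← h8]
  exact h2

end

end Pool.Agent.Y696
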