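import Mathlib
import Pool.Agent.Y696.Hf

/-!
# The local factors of `y² + y = x³` over a number field without cube roots of unity
-/

set_option autoImplicit false

namespace Pool.Agent.Y696

open NumberField IsDedekindDomain IsLocalRing Filter Topology Complex
open Pool.Agent.W192.HK Pool.Agent.TH936.CM Pool.Agent.TH936.PU
open Pool.Agent.W189.NF (aV eV redMap Ov card_res finite_res)

/-- the affine points over a finite field -/
abbrev Aff (k : Type) [Field k] : Type := {p : k × k // p.2 ^ 2 + p.2 = p.1 ^ 3}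

lemma aff_iso {k k' : Type} [Field k] [Field k'] (e : k ≃+* k') :
    Nat.card (Aff k) = Nat.card (Aff k') := by
  refine Nat.card_congr
    { toFun := fun p => ⟨(e p.1.1, e p.1.2), ?_⟩
      invFun := fun p => ⟨(e.symm p.1.1, e.symm p.1.2), ?_⟩
      left_inv := ?_
      right_inv := ?_ }
  · have := congrArg e p.2
    simpa only [map_add, map_pow] using this
  · have := congrArg e.symm p.2
    simpa only [map_add, map_pow] using this
  · rintro ⟨⟨x, y⟩, h⟩
    simp
  · rintro ⟨⟨x, y⟩, h⟩
    simp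

lemma cube_bij {k : Type} [Field k] [Finite k] (h : Nat.card k % 3 = 2) :
    Function.Bijective (fun x : k => x ^ 3) := by
  have hcop : (Nat.card kˣ).Coprime 3 := by
    rw [Nat.card_units, Nat.coprime_comm, Nat.Prime.coprime_iff_not_dvd Nat.prime_three]
    omega
  have hinj : Function.Injective (fun x : k => x ^ 3) := by
    intro x y hxy
    simp only at hxy
    by_cases hx : x = 0
    · rw [hx, zero_pow three_ne_zero] at hxy
      rw [hx, (pow_eq_zero_iff three_ne_zero).1 hxy.symm]
    · have hy : y ≠ 0 := by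
        rintro rfl
        rw [zero_pow three_ne_zero] at hxy
        exact hx ((pow_eq_zero_iff three_ne_zero).1 hxy)
      have hb := hcop.pow_left_bijective.1
      have := @hb (Units.mk0 x hx) (Units.mk0 y hy) (Units.ext (by
        simp only [Units.val_pow_eq_pow_val, Units.val_mk0]
        exact hxy))
      exact congrArg Units.val this
  exact ⟨hinj, Finite.surjective_of_injective hinj⟩

lemma aff_inert {k : Type} [Field k] [Finite k] (h : Nat.card k % 3 = 2) :
    Nat.card (Aff k) = Nat.card k := by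
  have hb := cube_bij h
  refine Nat.card_congr (Equiv.ofBijective (fun p : Aff k => p.1.2) ⟨?_, ?_⟩)
  · rintro ⟨⟨x, y⟩, h1⟩ ⟨⟨x', y'⟩, h2⟩ h3
    simp only at h1 h2 h3
    subst h3
    have : x = x' := hb.1 (show x ^ 3 = x' ^ 3 by rw [← h1, ← h2])
    subst this
    rfl
  · intro y
    obtain ⟨x, hx⟩ := hb.2 (y ^ 2 + y)
    exact ⟨⟨(x, y), hx.symm⟩, rfl⟩

section
variable {K₀ : Type} [Field K₀] [NumberField K₀]

/-- the coefficients at the primes that do not divide three -/
lemma aV_good (v : HeightOneSpectrum (𝓞 K₀)) (h3 : (3 : 𝓞 K₀) ∉ v.asIdeal) :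
    aV (E0 K₀) v = (nK v : ℤ) - Nat.card (Aff (ResidueField (Ov v))) ∧
    eV (E0 K₀) v = (nK v : ℤ) := by
  have hfin := finite_res v
  have hk3 : (3 : ResidueField (Ov v)) ≠ 0 := by
    intro h
    apply h3
    rw [← Pool.Agent.W189.NF.redMap_eq_zero v, map_ofNat]
    exact h
  have hu3 : IsUnit (3 : Ov v) := by
    rw [← residue_ne_zero_iff_isUnit, map_ofNat]
    exact hk3
  obtain ⟨h6, h7⟩ := aLoc_good (L := v.adicCompletion K₀) (Ov v) hu3
  have hbc : (E0 K₀).baseChange (v.adicCompletion K₀) = E0 (v.adicCompletion K₀) := E0_map _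
  have h10 : Nat.card (ResidueField (Ov v)) = nK v := card_res v
  constructor
  · unfold aV
    rw [hbc, h6, h10]
  · unfold eV
    rw [hbc, h7, h10]

/-- the coefficient only depends on the norm -/
lemma aV_eq {K : Type} [Field K] [NumberField K] {v : HeightOneSpectrum (𝓞 K₀)}
    {w : HeightOneSpectrum (𝓞 K)} (h3 : (3 : 𝓞 K₀) ∉ v.asIdeal) (h3' : (3 : 𝓞 K) ∉ w.asIdeal)
    (h : nK v = nK w) : aV (E0 K₀) v = aV (E0 K) w ∧ eV (E0 K₀) v = eV (E0 K) w := by
  obtain ⟨h1, h2⟩ := aV_good v h3
  obtain ⟨h4, h5⟩ := aV_good w h3'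
  have hf1 := finite_res v
  have hf2 := finite_res w
  let _ : Fintype (ResidueField (Ov v)) := Fintype.ofFinite _
  let _ : Fintype (ResidueField (Ov w)) := Fintype.ofFinite _
  have hc : Fintype.card (ResidueField (Ov v)) = Fintype.card (ResidueField (Ov w)) := by
    rw [← Nat.card_eq_fintype_card, ← Nat.card_eq_fintype_card]
    exact (card_res v).trans (h.trans (card_res w).symm)
  have e := FiniteField.ringEquivOfCardEq hc
  rw [h1, h2, h4, h5, h, aff_iso e]
  exact ⟨rfl, rfl⟩

lemma aV_inert {v : HeightOneSpectrum (𝓞 K₀)} (h3 : (3 : 𝓞 K₀) ∉ v.asIdeal)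
    (h : nK v % 3 = 2) : aV (E0 K₀) v = 0 ∧ eV (E0 K₀) v = nK v := by
  obtain ⟨h1, h2⟩ := aV_good v h3
  have hf1 := finite_res v
  have h10 : Nat.card (ResidueField (Ov v)) = nK v := card_res v
  refine ⟨?_, h2⟩
  rw [h1, aff_inert (by rw [h10]; exact h), h10, sub_self]

/-- the two valuations of the completion -/
lemma val_eq (v : HeightOneSpectrum (𝓞 K₀)) (x : v.adicCompletion K₀) :
    (IsDiscreteValuationRing.maximalIdeal (Ov v)).valuation (v.adicCompletion K₀) x =
      Valued.v x := by
  obtain ⟨π, hπ⟩ := v.valuation_exists_uniformizer K₀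
  set R := Ov v with hR
  set p : v.adicCompletion K₀ := algebraMap K₀ (v.adicCompletion K₀) π with hp
  have hv1 : Valued.v p = WithZero.exp (-1 : ℤ) := by
    rw [hp, Pool.Agent.H723R3.valued_algebraMap]
    exact hπ
  have hple : Valued.v p ≤ 1 := by
    rw [hv1, ← WithZero.exp_zero, WithZero.exp_le_exp]
    norm_num
  set θ' : R := ⟨p, hple⟩ with hθ'
  have hθc : ((θ' : R) : v.adicCompletion K₀) = p := rfl
  have hp0 : p ≠ 0 := by
    intro h
    rw [h, map_zero] at hv1
    exact WithZero.exp_ne_zero hv1.symm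
  have hmax : (IsDiscreteValuationRing.maximalIdeal R).asIdeal = Ideal.span {θ'} := by
    show IsLocalRing.maximalIdeal R = Ideal.span {θ'}
    refine le_antisymm ?_ ?_
    · intro x hx
      rw [Pool.Agent.W189.NF.mem_max_iff] at hx
      have h6 := exp_lt hx
      rw [Ideal.mem_span_singleton']
      have h7 : Valued.v ((x : v.adicCompletion K₀) / p) ≤ 1 := by
        rw [map_div₀, hv1]
        exact div_le_one_of_le₀ h6 zero_le
      refine ⟨⟨_, h7⟩, ?_⟩
      apply Subtype.ext
      show (x : v.adicCompletion K₀) / p * p = x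
      field_simp
    · rw [Ideal.span_singleton_le_iff_mem, Pool.Agent.W189.NF.mem_max_iff, hθc, hv1,
        ← WithZero.exp_zero, WithZero.exp_lt_exp]
      norm_num
  have hθ'0 : θ' ≠ 0 := by
    intro h
    exact hp0 (congrArg Subtype.val h)
  have hw : (IsDiscreteValuationRing.maximalIdeal R).valuation (v.adicCompletion K₀) p =
      WithZero.exp (-1 : ℤ) := by
    have := HeightOneSpectrum.valuation_of_algebraMap (K := v.adicCompletion K₀)
      (IsDiscreteValuationRing.maximalIdeal R) θ'
    exact this.trans ((IsDiscreteValuationRing.maximalIdeal R).intValuation_singleton hθ'0 hmax)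
  by_cases hx : x = 0
  · rw [hx, map_zero, map_zero]
  obtain ⟨n, hn⟩ := exp_rep ((Valuation.ne_zero_iff (Valued.v)).2 hx)
  have hu1 : Valued.v (x * p ^ n) = 1 := by
    rw [map_mul, map_zpow₀, hn, hv1, ← WithZero.exp_zsmul, ← WithZero.exp_add]
    simp
  set u : R := ⟨x * p ^ n, hu1.le⟩ with hu
  have hunit : IsUnit u := by
    by_contra hnu
    have h1 : u ∈ IsLocalRing.maximalIdeal R := (IsLocalRing.mem_maximalIdeal _).2 hnu
    rw [Pool.Agent.W189.NF.mem_max_iff] at h1
    exact absurd hu1 h1.ne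
  have h2 := val_unit (L := v.adicCompletion K₀) R hunit
  have h3 : algebraMap R (v.adicCompletion K₀) u = x * p ^ n := rfl
  rw [h3, map_mul, map_zpow₀, hw, ← WithZero.exp_zsmul] at h2
  rw [hn]
  have h4 : WithZero.exp (n • (-1 : ℤ)) ≠ 0 := WithZero.exp_ne_zero
  apply mul_right_cancel₀ h4
  rw [h2, ← WithZero.exp_add]
  simp

lemma aV_bad {v : HeightOneSpectrum (𝓞 K₀)}
    (h : v.valuation K₀ 3 = WithZero.exp (-1 : ℤ) ∨ v.valuation K₀ 3 = WithZero.exp (-2 : ℤ)) :
    aV (E0 K₀) v = 0 ∧ eV (E0 K₀) v = 0 := by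
  have hbc : (E0 K₀).baseChange (v.adicCompletion K₀) = E0 (v.adicCompletion K₀) := E0_map _
  unfold aV eV
  rw [hbc]
  refine aLoc_bad (L := v.adicCompletion K₀) (Ov v) fun u hu => ?_
  have h27 : Valued.v (27 : v.adicCompletion K₀) = (v.valuation K₀ 3) ^ 3 := by
    have e : (27 : v.adicCompletion K₀) = (algebraMap K₀ (v.adicCompletion K₀) 3) ^ 3 := by
      rw [map_ofNat]; norm_num
    rw [e, map_pow, Pool.Agent.H723R3.valued_algebraMap]
  have hu' : Valued.v u ^ 12 = (v.valuation K₀ 3) ^ 3 := by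
    rw [← val_eq v u, ← h27, ← val_eq v]
    exact hu
  have h0 : Valued.v u ≠ 0 := by
    intro h0
    rw [h0, zero_pow (by norm_num)] at hu'
    rcases h with h | h <;> rw [h] at hu' <;> exact pow_ne_zero 3 WithZero.exp_ne_zero hu'.symm
  obtain ⟨n, hn⟩ := exp_rep h0
  rcases h with h | h <;>
    (rw [h, hn, ← WithZero.exp_nsmul, ← WithZero.exp_nsmul, WithZero.exp_inj] at hu'
     simp only [nsmul_eq_mul] at hu'
     push_cast at hu'
     omega)

end

end Pool.Agent.Y696
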