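import Mathlib
import Pool.Agent.Y696.LK2
import Pool.Agent.Y696.Bld

/-!
# Factorization of the L-function over a base field that contains the cube roots of unity
-/

set_option autoImplicit false

namespace Pool.Agent.Y696

open NumberField IsDedekindDomain IsLocalRing Filter Topology Complex
open Pool.Agent.W192.HK Pool.Agent.TH936.CM Pool.Agent.TH936.PU
open Pool.Agent.H921R2.TatePole (two_le_nm)
open Pool.Agent.W189.NF (aV eV redMap)

section base
variable {N : Type} [Field N] [NumberField N] (ι : eis →+* 𝓞 N)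

/-- the residue degree over `ℚ(ω)` -/
lemma deg_base (v : HeightOneSpectrum (𝓞 N)) :
    ∃ f : ℕ, 0 < f ∧ nK v = Nat.card (eis ⧸ (bel ι v).asIdeal) ^ f := by
  classical
  let _ : Algebra eis (𝓞 N) := ι.toAlgebra
  have hpmax : (bel ι v).asIdeal.IsMaximal := (bel ι v).isPrime.isMaximal (bel ι v).ne_bot
  have hvmax : v.asIdeal.IsMaximal := v.isPrime.isMaximal v.ne_bot
  have hover : v.asIdeal.LiesOver (bel ι v).asIdeal := ⟨rfl⟩
  have hfv : Finite (𝓞 N ⧸ v.asIdeal) := Ideal.finiteQuotientOfFreeOfNeBot v.asIdeal v.ne_bot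
  have hfp : Finite (eis ⧸ (bel ι v).asIdeal) := by
    rw [gP_span]
    exact finite_q (gP_ne _)
  let _ : Field (eis ⧸ (bel ι v).asIdeal) := Ideal.Quotient.field _
  let _ : Field (𝓞 N ⧸ v.asIdeal) := Ideal.Quotient.field _
  let _ : Fintype (eis ⧸ (bel ι v).asIdeal) := Fintype.ofFinite _
  let _ : Fintype (𝓞 N ⧸ v.asIdeal) := Fintype.ofFinite _
  refine ⟨Module.finrank (eis ⧸ (bel ι v).asIdeal) (𝓞 N ⧸ v.asIdeal), Module.finrank_pos, ?_⟩
  have h := Module.card_eq_pow_finrank (K := eis ⧸ (bel ι v).asIdeal) (V := 𝓞 N ⧸ v.asIdeal)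
  rw [← card_nm, Nat.card_eq_fintype_card, h, Nat.card_eq_fintype_card]

/-- the number of points over the residue field -/
lemma npv_val (v : HeightOneSpectrum (𝓞 N)) (h3 : (3 : 𝓞 N) ∉ v.asIdeal) {f : ℕ}
    (hf : nK v = Nat.card (eis ⧸ (bel ι v).asIdeal) ^ f) :
    ((Nat.card {p : (𝓞 N ⧸ v.asIdeal) × (𝓞 N ⧸ v.asIdeal) // p.2 ^ 2 + p.2 = p.1 ^ 3} : ℕ) : ℂ) =
      (nK v : ℂ) - psi (bel ι v).asIdeal ^ f -
      ((starRingEnd ℂ) (psi (bel ι v).asIdeal)) ^ f := by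
  classical
  set P := bel ι v with hP
  have h3P : (3 : eis) ∉ P.asIdeal := by
    rw [hP, mem_bel, map_ofNat]
    exact h3
  have hcop : IsCoprime P.asIdeal (sp 3) := by
    have hpmax : P.asIdeal.IsMaximal := P.isPrime.isMaximal P.ne_bot
    rw [Ideal.isCoprime_iff_sup_eq]
    by_contra hne
    obtain ⟨M, hM, hle⟩ := Ideal.exists_le_maximal _ hne
    have h4 : P.asIdeal = M := hpmax.eq_of_le hM.ne_top (le_sup_left.trans hle)
    apply h3P
    rw [h4]
    exact hle (Ideal.mem_sup_right (Ideal.mem_span_singleton_self 3))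
  obtain ⟨π, hπ1, hπ2⟩ := exists_prim hcop
  have hpsi : psi P.asIdeal = π := by rw [hπ1]; exact psi_prim hπ2
  have hvmax : v.asIdeal.IsMaximal := v.isPrime.isMaximal v.ne_bot
  let _ : Field (𝓞 N ⧸ v.asIdeal) := Ideal.Quotient.field _
  have hfv : Finite (𝓞 N ⧸ v.asIdeal) := Ideal.finiteQuotientOfFreeOfNeBot v.asIdeal v.ne_bot
  let _ : Fintype (𝓞 N ⧸ v.asIdeal) := Fintype.ofFinite _
  set ρ : eis →+* 𝓞 N ⧸ v.asIdeal := (Ideal.Quotient.mk v.asIdeal).comp ι with hρ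
  have hker : ∀ x, ρ x = 0 ↔ π ∣ x := by
    intro x
    rw [hρ, RingHom.comp_apply, Ideal.Quotient.eq_zero_iff_mem, ← mem_bel, ← hP, hπ1,
      Ideal.mem_span_singleton]
  have hprime : Prime π := by
    rw [← Ideal.span_singleton_prime (prim_ne hπ2)]
    have := P.isPrime
    rwa [hπ1] at this
  have hk3 : (3 : 𝓞 N ⧸ v.asIdeal) ≠ 0 := by
    intro h
    apply h3
    rw [← Ideal.Quotient.eq_zero_iff_mem, map_ofNat]
    exact h
  have hcardP : (Nat.card (eis ⧸ P.asIdeal) : ℂ) = (π : ℂ) * (starRingEnd ℂ) (π : ℂ) := by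
    rw [Complex.mul_conj]
    have h4 : ((Nat.card (eis ⧸ P.asIdeal) : ℕ) : ℝ) = Complex.normSq (π : ℂ) := by
      rw [hπ1]
      exact (lbasic eis om qr).2.2.2.2.1 π
    rw [← h4]
    push_cast
    rfl
  have hcardk : Fintype.card (𝓞 N ⧸ v.asIdeal) = nK v := by
    rw [← Nat.card_eq_fintype_card]
    exact card_nm v
  have hq : ((Fintype.card (𝓞 N ⧸ v.asIdeal) : ℕ) : eis) = (π * cj π) ^ f := by
    apply coe_inj'
    rw [hcardk, hf]
    push_cast
    rw [hcardP, cj_coe]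
  have h5 := card_aff ρ hk3 hprime hπ2 hker hq
  rw [hpsi, h5, hcardk]

end base

/-- an abelian extension of `N` with its Artin map -/
structure DatN {N K : Type} [Field N] [NumberField N] [Field K] [NumberField K] [Algebra N K]
    (G : Type) [CommGroup G] [MulSemiringAction G (𝓞 K)] (c : 𝓞 N)
    (art : (𝓞 N ⧸ Ideal.span {c})ˣ →* G) : Prop where
  c_ne : c ≠ 0
  inv : ∀ b : 𝓞 K, (∀ g : G, g • b = b) → ∃ a, algebraMap (𝓞 N) (𝓞 K) a = b
  fix : ∀ (g : G) (a : 𝓞 N), g • algebraMap (𝓞 N) (𝓞 K) a = algebraMap (𝓞 N) (𝓞 K) a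
  surj : Function.Surjective art
  unr : ∀ v : HeightOneSpectrum (𝓞 K), algebraMap (𝓞 N) (𝓞 K) c ∉ v.asIdeal →
    ∀ g : G, (∀ x : 𝓞 K, g • x - x ∈ v.asIdeal) → g = 1
  frob : ∀ π : 𝓞 N, Prime π → ∀ u : (𝓞 N ⧸ Ideal.span {c})ˣ,
    (u : 𝓞 N ⧸ Ideal.span {c}) = Ideal.Quotient.mk _ π →
    ∀ v : HeightOneSpectrum (𝓞 K), algebraMap (𝓞 N) (𝓞 K) π ∈ v.asIdeal →
    ∀ x : 𝓞 K, art u • x - x ^ Nat.card (𝓞 N ⧸ Ideal.span {π}) ∈ v.asIdeal

section ext
variable {N K : Type} [Field N] [NumberField N] [Field K] [NumberField K] [Algebra N K]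

omit [NumberField N] [NumberField K] in
lemma mem_und (v : HeightOneSpectrum (𝓞 K)) (x : 𝓞 N) :
    x ∈ (und (F := N) v).asIdeal ↔ algebraMap (𝓞 N) (𝓞 K) x ∈ v.asIdeal := Iff.rfl

omit [NumberField K] in
lemma und_iff {v : HeightOneSpectrum (𝓞 K)} {P : HeightOneSpectrum (𝓞 N)} {π : 𝓞 N}
    (hπ : Ideal.span {π} = P.asIdeal) : und v = P ↔ algebraMap (𝓞 N) (𝓞 K) π ∈ v.asIdeal := by
  constructor
  · rintro rfl
    rw [← mem_und, ← hπ]
    exact Ideal.mem_span_singleton_self _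
  · intro h
    apply HeightOneSpectrum.ext
    symm
    refine (P.isPrime.isMaximal P.ne_bot).eq_of_le (und v).isPrime.ne_top ?_
    rw [← hπ, Ideal.span_singleton_le_iff_mem, mem_und]
    exact h

instance fibN_finite (P : HeightOneSpectrum (𝓞 N)) :
    Finite {v : HeightOneSpectrum (𝓞 K) // und v = P} := by
  obtain ⟨x, hx, hx0⟩ := P.asIdeal.ne_bot_iff.1 P.ne_bot
  have h1 : algebraMap (𝓞 N) (𝓞 K) x ≠ 0 := by
    rw [Ne, map_eq_zero_iff _ (FaithfulSMul.algebraMap_injective (𝓞 N) (𝓞 K))]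
    exact hx0
  have h2 : (Ideal.span {algebraMap (𝓞 N) (𝓞 K) x} : Ideal (𝓞 K)) ≠ ⊥ := by
    rwa [Ne, Ideal.span_singleton_eq_bot]
  have h3 : {v : HeightOneSpectrum (𝓞 K) | und v = P}.Finite := by
    refine (Ideal.finite_factors h2).subset fun v hv => ?_
    have h4 : und v = P := hv
    show v.asIdeal ∣ Ideal.span {algebraMap (𝓞 N) (𝓞 K) x}
    rw [Ideal.dvd_span_singleton, ← mem_und, h4]
    exact hx
  exact h3

noncomputable instance fibN_fintype (P : HeightOneSpectrum (𝓞 N)) :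
    Fintype {v : HeightOneSpectrum (𝓞 K) // und v = P} := Fintype.ofFinite _

variable {G : Type} [CommGroup G] [Finite G] [MulSemiringAction G (𝓞 K)] {c : 𝓞 N}
  {art : (𝓞 N ⧸ Ideal.span {c})ˣ →* G}

/-- the primes that are not ramified -/
theorem splitN (D : DatN (N := N) (K := K) G c art) {P : HeightOneSpectrum (𝓞 N)} (hP : c ∉ P.asIdeal) {π : 𝓞 N}
    (hπ : Ideal.span {π} = P.asIdeal)
    {u : (𝓞 N ⧸ Ideal.span {c})ˣ} (hu : (u : 𝓞 N ⧸ Ideal.span {c}) = Ideal.Quotient.mk _ π) :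
    (∀ v : HeightOneSpectrum (𝓞 K), und v = P → nK v = nK P ^ orderOf (art u)) ∧
    Fintype.card {v : HeightOneSpectrum (𝓞 K) // und v = P} = Nat.card G / orderOf (art u) := by
  classical
  have hcomm : SMulCommClass G (𝓞 N) (𝓞 K) := by
    constructor
    intro g a x
    rw [Algebra.smul_def, Algebra.smul_def, smul_mul', D.fix]
  have hinv : Algebra.IsInvariant (𝓞 N) (𝓞 K) G := ⟨fun b hb => D.inv b hb⟩
  have hpmax : P.asIdeal.IsMaximal := P.isPrime.isMaximal P.ne_bot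
  have hfp : Finite (𝓞 N ⧸ P.asIdeal) := Ideal.finiteQuotientOfFreeOfNeBot P.asIdeal P.ne_bot
  have hπ0 : π ≠ 0 := by
    rintro rfl
    apply P.ne_bot
    rw [← hπ]
    simp
  have hprime : Prime π := by
    rw [← Ideal.span_singleton_prime hπ0, hπ]
    exact P.isPrime
  have key : ∀ v : HeightOneSpectrum (𝓞 K), und v = P →
      nK v = nK P ^ orderOf (art u) ∧
      (P.asIdeal.primesOver (𝓞 K)).ncard * orderOf (art u) = Nat.card G := by
    intro v hv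
    have hvmax : v.asIdeal.IsMaximal := v.isPrime.isMaximal v.ne_bot
    have hfv : Finite (𝓞 K ⧸ v.asIdeal) := Ideal.finiteQuotientOfFreeOfNeBot v.asIdeal v.ne_bot
    have hover : v.asIdeal.LiesOver P.asIdeal := ⟨by rw [← hv]; rfl⟩
    have hcv : algebraMap (𝓞 N) (𝓞 K) c ∉ v.asIdeal := by
      rw [← mem_und, hv]
      exact hP
    have h5 := Pool.Agent.W164.RC.split_abs G P.asIdeal v.asIdeal (D.unr v hcv) (art u) (by
      intro x
      have h6 := D.frob π hprime u hu v ((und_iff hπ).1 hv) x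
      rw [hπ] at h6
      exact h6)
    refine ⟨?_, h5.2⟩
    rw [← card_nm, ← card_nm]
    exact h5.1
  refine ⟨fun v hv => (key v hv).1, ?_⟩
  obtain ⟨v0, hlo0⟩ := exists_above (F := N) (K := K) P
  have hv0 : und v0 = P := HeightOneSpectrum.ext hlo0.over.symm
  have h6 := (key v0 hv0).2
  have h7 : Fintype.card {v : HeightOneSpectrum (𝓞 K) // und v = P} =
      (P.asIdeal.primesOver (𝓞 K)).ncard := by
    rw [← Nat.card_eq_fintype_card, ← Nat.card_coe_set_eq]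
    refine Nat.card_congr
      { toFun := fun v => ⟨v.1.asIdeal, v.1.isPrime,
          ⟨(congrArg HeightOneSpectrum.asIdeal v.2).symm⟩⟩
        invFun := fun Q => ⟨⟨Q.1, Q.2.1, ?_⟩, ?_⟩
        left_inv := fun v => rfl
        right_inv := fun Q => rfl }
    · have := Q.2.2
      exact Ideal.ne_bot_of_liesOver_of_ne_bot P.ne_bot Q.1
    · apply HeightOneSpectrum.ext
      exact Q.2.2.over.symm
  rw [h7, ← h6, Nat.mul_div_cancel _ (orderOf_pos _)]

/-- the local factor of the L-function twisted by a character with value `z` -/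
noncomputable def YY (P : HeightOneSpectrum (𝓞 N)) (z s : ℂ) : ℂ :=
  (1 - (((nK P : ℤ) - Nat.card {p : (𝓞 N ⧸ P.asIdeal) × (𝓞 N ⧸ P.asIdeal) //
    p.2 ^ 2 + p.2 = p.1 ^ 3} : ℤ) : ℂ) * z * (nK P : ℂ) ^ (-s) +
      z ^ 2 * (nK P : ℂ) ^ (1 - 2 * s))⁻¹

/-- the fibre over a prime that does not divide `3c` -/
lemma fib_goodN (ι : eis →+* 𝓞 N) (D : DatN (N := N) (K := K) G c art) [Fintype (MulChar G ℂ)]
    {P : HeightOneSpectrum (𝓞 N)} (hPc : c ∉ P.asIdeal) (hP3 : (3 : 𝓞 N) ∉ P.asIdeal)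
    {π : 𝓞 N} (hπ : Ideal.span {π} = P.asIdeal)
    {u : (𝓞 N ⧸ Ideal.span {c})ˣ} (hu : (u : 𝓞 N ⧸ Ideal.span {c}) = Ideal.Quotient.mk _ π)
    {s : ℂ} (hs : 1 < s.re) :
    ∏ v : {v : HeightOneSpectrum (𝓞 K) // und v = P}, XX v.1 s =
      ∏ χ : MulChar G ℂ, YY P (χ (art u)) s := by
  classical
  obtain ⟨h1, h2⟩ := splitN D hPc hπ hu
  obtain ⟨f₀, hf₀, hn⟩ := deg_base ι P
  set Q := bel ι P with hQ
  set ι' : eis →+* 𝓞 K := (algebraMap (𝓞 N) (𝓞 K)).comp ι with hι'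
  have hbel : ∀ v : HeightOneSpectrum (𝓞 K), und v = P → bel ι' v = Q := by
    rintro v rfl
    rfl
  have hpsi : psi Q.asIdeal * (starRingEnd ℂ) (psi Q.asIdeal) = (Nat.card (eis ⧸ Q.asIdeal) : ℂ) :=
    (aV_val (ι := ι) P (by rw [map_ofNat]; exact hP3) hn).2.2
  have hN2 : 2 ≤ nK P := two_le_nm P
  set q := nK P with hq
  set f := orderOf (art u) with hf
  have hN1 : (1 : ℝ) < q := by
    have : (2 : ℝ) ≤ q := by exact_mod_cast hN2
    linarith
  set α : ℂ := psi Q.asIdeal ^ f₀ with hα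
  have hαα : α * (starRingEnd ℂ) α = q := by
    rw [hα, map_pow, ← mul_pow, hpsi, hn]
    push_cast
    rfl
  have hαn : ‖α‖ ≤ q := by
    rw [Complex.mul_conj, Complex.normSq_eq_norm_sq] at hαα
    have h5 : ‖α‖ ^ 2 = q := by exact_mod_cast hαα
    nlinarith [norm_nonneg α]
  have hbd : ∀ β : ℂ, ‖β‖ ≤ q → ‖β * (q : ℂ) ^ (-s)‖ < 1 := by
    intro β hβ
    rw [norm_mul]
    have h5 : ‖(q : ℂ) ^ (-s)‖ = (q : ℝ) ^ (-s.re) := by
      rw [← Complex.ofReal_natCast, Complex.norm_cpow_eq_rpow_re_of_pos (by linarith),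
        Complex.neg_re]
    rw [h5]
    calc ‖β‖ * (q : ℝ) ^ (-s.re) ≤ (q : ℝ) * (q : ℝ) ^ (-s.re) := by gcongr
      _ = (q : ℝ) ^ (1 - s.re) := by
        rw [sub_eq_add_neg, Real.rpow_add (by linarith), Real.rpow_one]
      _ < 1 := Real.rpow_lt_one_of_one_lt_of_neg hN1 (by linarith)
  have hx := hbd α hαn
  have hx' := hbd ((starRingEnd ℂ) α) (by rw [RCLike.norm_conj]; exact hαn)
  -- the left side
  have hqs : ((nm Q.asIdeal : ℂ) ^ (-s)) ^ f₀ = (q : ℂ) ^ (-s) := by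
    rw [hn, nm_P]
    push_cast
    rw [← Complex.natCast_cpow_natCast_mul, Complex.cpow_nat_mul]
  have hL : ∀ v : {v : HeightOneSpectrum (𝓞 K) // und v = P}, XX v.1 s =
      ((1 - (α * (q : ℂ) ^ (-s)) ^ f) * (1 - ((starRingEnd ℂ) α * (q : ℂ) ^ (-s)) ^ f))⁻¹ := by
    rintro ⟨v, hv⟩
    have h6 := XX_val (ι := ι') v (by
      rw [← mem_bel, hbel v hv, hQ, mem_bel, map_ofNat]; exact hP3) (f := f₀ * f)
      (by rw [h1 v hv, hbel v hv, pow_mul, ← hn]) s
    rw [hbel v hv] at h6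
    have e1 : ∀ β : ℂ, (β * (nm Q.asIdeal : ℂ) ^ (-s)) ^ (f₀ * f) =
        (β ^ f₀ * (q : ℂ) ^ (-s)) ^ f := by
      intro β
      rw [pow_mul, mul_pow, hqs]
    rw [h6, e1, e1, hα, map_pow]
  have hR : ∀ χ : MulChar G ℂ, YY P (χ (art u)) s =
      ((1 - χ (art u) * (α * (q : ℂ) ^ (-s))) *
        (1 - χ (art u) * ((starRingEnd ℂ) α * (q : ℂ) ^ (-s))))⁻¹ := by
    intro χ
    unfold YY
    congr 1
    have h7 := npv_val ι P hP3 hn
    have h8 : (q : ℂ) ^ (1 - 2 * s) = q * ((q : ℂ) ^ (-s) * (q : ℂ) ^ (-s)) := by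
      have hq0 : (q : ℂ) ≠ 0 := by
        have : q ≠ 0 := by omega
        exact_mod_cast this
      rw [show (1 - 2 * s : ℂ) = 1 + ((-s) + (-s)) by ring, Complex.cpow_add _ _ hq0,
        Complex.cpow_add _ _ hq0, Complex.cpow_one]
    rw [h8]
    push_cast
    rw [h7, ← hα]
    have h9 : ((starRingEnd ℂ) (psi Q.asIdeal)) ^ f₀ = (starRingEnd ℂ) α := by rw [hα, map_pow]
    rw [h9]
    linear_combination -(χ (art u)) ^ 2 * ((q : ℂ) ^ (-s) * (q : ℂ) ^ (-s)) * hαα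
  rw [Finset.prod_congr rfl fun v _ => hL v, Finset.prod_const, Finset.card_univ, h2,
    Finset.prod_congr rfl fun χ _ => hR χ, Finset.prod_inv_distrib, Finset.prod_mul_distrib,
    prod_mc (art u) _ hx, prod_mc (art u) _ hx', inv_pow, mul_pow]

end ext

end Pool.Agent.Y696
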