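import Mathlib
import Pool.Agent.Y688.H3

/-!
# Unit values over the quartic field
-/

set_option autoImplicit false

open Complex Filter Topology MeasureTheory Set
open scoped PeriodPair

namespace Pool.Agent.Y696

open Pool.Agent.W192.HK Pool.Agent.TH936.CM
open Pool.Agent.Y688

section
variable {A : Type*} [CommRing A] {Γ : Type*} [LinearOrderedCommGroupWithZero Γ]
  {v : Valuation ℂ Γ} [IsDomain A] [IsPrincipalIdealRing A] {D : FD A E1 E2}

/-- **the unit value** -/
theorem LI_val {L : PeriodPair} {Ω : ℂ} (h : HL L Ω) (h2 : v 2 < 1)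
    (hbase : v (Sm L Ω 3 wR (wR * wR) lam (D.co (cop 1))) = v 2) {M : ℕ} {χ : A → ℂ}
    (hc : Ch D M χ) {a : A} (ha : a ≠ 0) (haM : a ∣ (M : A))
    (hχ : ∀ α, IsCoprime α a → ∃ k : ℕ, χ α ^ 2 ^ k = 1) (hχ0 : ∀ α, ¬ IsCoprime α a → χ α = 0)
    (hgood : ∀ q : A, Prime q → q ∣ a → v (1 - ups (D.nn q) / (D.nn q : ℂ)) = 1) :
    v (FD.LI (D.co χ) 1) = v 2 * v Ω ^ 2 := by
  have hv2 : v 2 ≠ 0 := by
    rw [Ne, map_eq_zero]
    norm_num
  have hM := hc.odd
  have := hc.ne
  have hM0 : (M : ℂ) ≠ 0 := by exact_mod_cast NeZero.ne M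
  have hΩ := h.ne
  obtain ⟨κ, hκ, hL⟩ := chain (v := v) (D := D) a ha hgood ⟨M, hM, haM⟩
  have ca : Ch D M (cop a) := ch_cop D hc.three hM haM
  have c1 : Ch D 3 (cop 1) := ch_cop D dvd_rfl (by decide) (one_dvd _)
  have k1 := ker_val h ca
  have k2 := ker_val h c1
  have k3 := ker_val h hc
  have hp2 : D.p2 ≠ 0 := by
    intro h0
    unfold FD.p2 at h0
    have h1 := congrArg D.β.symm h0
    rw [AddEquiv.symm_apply_apply, map_zero] at h1
    have h2 := congrArg Prod.fst h1
    exact one_ne_zero h2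
  -- `p2` is prime to `a`
  have hcop : IsCoprime D.p2 a := by
    have e1 : IsCoprime (2 : A) (M : A) := by
      obtain ⟨k, hk⟩ := hM
      refine ⟨-(k : A), 1, ?_⟩
      rw [hk]
      push_cast
      ring
    refine (e1.of_isCoprime_of_dvd_right haM).of_isCoprime_of_dvd_left ?_
    have e2 : D.β (0, 2) = (2 : A) := by
      apply D.i2
      rw [D.s2, map_ofNat]
      simp
      rfl
    rw [← e2, D.p2_dvd]
    exact ⟨1, by ring⟩
  have f1 := Fs_one D hp2 (cop_one hcop)
  have f2 := Fs_one D hp2 (cop_one (isCoprime_one_right (x := D.p2)))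
  rw [f1, hL] at k1
  rw [f2] at k2
  push_cast at k2
  have hval : v (Sm L Ω M wR (wR * wR) lam (D.co (cop a))) = v 2 := by
    have e1 : Sm L Ω M wR (wR * wR) lam (D.co (cop a)) =
        κ * (M / 3) ^ 2 * Sm L Ω 3 wR (wR * wR) lam (D.co (cop 1)) := by
      have e2 : 3 * (Ω / M) ^ 2 * Sm L Ω M wR (wR * wR) lam (D.co (cop a)) =
          κ * (3 * (Ω / 3) ^ 2 * Sm L Ω 3 wR (wR * wR) lam (D.co (cop 1))) := by
        rw [← k1, ← k2]
        ring
      field_simp at e2 ⊢
      linear_combination e2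
    rw [e1, map_mul, map_mul, hκ, hbase, map_pow, map_div₀]
    have v3 : v 3 = 1 := by
      have := v_odd h2 (n := 3) (by decide)
      exact_mod_cast this
    have vM : v (M : ℂ) = 1 := by
      have := v_odd h2 (n := (M : ℤ)) (by exact_mod_cast hM)
      exact_mod_cast this
    rw [v3, vM]
    simp
  obtain ⟨py, px⟩ := hc.co_per
  obtain ⟨qy, qx⟩ := ca.co_per
  have hd : ∀ x y, v (D.co χ x y - D.co (cop a) x y) < 1 := fun x y => by
    unfold FD.co
    rw [← sub_mul, map_mul]
    have hu : v (ups (D.nn (D.β (x, y)))) ≤ 1 := by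
      rcases ups_cases (D.nn (D.β (x, y))) with h0 | ⟨u, hu, -⟩
      · rw [h0, map_zero]
        exact zero_le_one
      · rw [hu]
        exact v_RR _
    have hd : v (χ (D.β (x, y)) - cop a (D.β (x, y))) < 1 := by
      by_cases h1 : IsCoprime (D.β (x, y)) a
      · rw [cop_one h1]
        obtain ⟨k, hk⟩ := hχ _ h1
        exact v_sub_one h2 k hk
      · rw [cop_zero h1, hχ0 _ h1, sub_zero, map_zero]
        exact zero_lt_one
    calc _ ≤ v (χ (D.β (x, y)) - cop a (D.β (x, y))) * 1 := by gcongr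
      _ < 1 := by rwa [mul_one]
  have h3 := Sm_small (L := L) (Ω := Ω) h h2 hv2 hM wR (wR * wR) lam
    (d := fun x y => D.co χ x y - D.co (cop a) x y)
    (fun x => per_of fun y r => by rw [(py x).add, (qy x).add])
    (fun y => per_of fun x r => by
      have a1 := (px y).add x r
      have a2 := (qx y).add x r
      rw [a1, a2])
    (fun x y => by rw [hc.co_neg, ca.co_neg]) hd
  rw [Sm_sub] at h3
  have hS : v (Sm L Ω M wR (wR * wR) lam (D.co χ)) = v 2 := by
    have e : Sm L Ω M wR (wR * wR) lam (D.co χ) = Sm L Ω M wR (wR * wR) lam (D.co (cop a)) +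
        (Sm L Ω M wR (wR * wR) lam (D.co χ) - Sm L Ω M wR (wR * wR) lam (D.co (cop a))) := by ring
    rw [e, v.map_add_eq_of_lt_left (by rw [hval]; exact h3), hval]
  have vM : v (M : ℂ) = 1 := by
    have := v_odd h2 (n := (M : ℤ)) (by exact_mod_cast hM)
    exact_mod_cast this
  have v3 : v 3 = 1 := by
    have := v_odd h2 (n := 3) (by decide)
    exact_mod_cast this
  have vE : v (E1 - E2) = 1 := by
    have e1 : (E1 - E2) ^ 2 = -7 := by
      have h7 := E_add
      have h8 := E_mul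
      have h9 := lam_sqC
      linear_combination (E1 + E2 + (lam : RR)) * h7 - 4 * h8 + h9
    have v7 : v 7 = 1 := by
      have := v_odd h2 (n := 7) (by decide)
      exact_mod_cast this
    have h10 : v (E1 - E2) ^ 2 = 1 := by rw [← map_pow, e1, v.map_neg, v7]
    exact (pow_eq_one_iff_of_nonneg zero_le two_ne_zero).1 h10
  have hnn : D.nn D.p2 = 2 := by
    unfold FD.nn FD.p2
    rw [AddEquiv.symm_apply_apply]
    have hl : lam = 1 + 2 * wR := rfl
    simp only
    linear_combination -wR * hl - wR_sq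
  have hF : v (4 * D.Fs χ 1 D.p2) < 1 := by
    have e1 : 4 * D.Fs χ 1 D.p2 = 2 * (χ D.p2 * ups 2) := by
      unfold FD.Fs
      rw [D.N_nn, hnn]
      have h22 : ((2 : RR) : ℂ) = 2 := rfl
      rw [h22, Complex.cpow_neg_one]
      have h23 : Complex.normSq 2 = 4 := by
        norm_num [Complex.normSq_apply]
      rw [h23]
      have h24 : (starRingEnd ℂ) 2 = 2 := map_ofNat _ 2
      rw [h24]
      push_cast
      ring
    have h5 : v (χ D.p2) = 1 := by
      obtain ⟨k, hk⟩ := hχ _ hcop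
      have h6 : v (χ D.p2) ^ 2 ^ k = 1 := by rw [← map_pow, hk, map_one]
      exact (pow_eq_one_iff_of_nonneg zero_le (by positivity)).1 h6
    have hu : v (ups 2) ≤ 1 := by
      rcases ups_cases 2 with h0 | ⟨u, hu, -⟩
      · rw [h0, map_zero]
        exact zero_le_one
      · rw [hu]
        exact v_RR _
    rw [e1, map_mul, map_mul, h5, one_mul]
    calc v 2 * v (ups 2) ≤ v 2 * 1 := by gcongr
      _ < 1 := by rwa [mul_one]
  have hF1 : v (1 - 4 * D.Fs χ 1 D.p2) = 1 := v.map_one_sub_of_lt hF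
  have h11 := congrArg v k3
  rw [map_mul, map_mul, map_mul, map_mul, vE, hF1, v3, map_pow, map_div₀, vM, hS, one_mul, one_mul,
    one_mul, div_one] at h11
  rw [h11, mul_comm]

end

end Pool.Agent.Y696
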