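import Mathlib
import Pool.Agent.Y696.Nb
import Pool.Agent.Y696.Lq
import Pool.Agent.Y696.Gn
import Pool.Agent.Y696.Uv

/-!
# The local factors at the ramified primes
-/

set_option autoImplicit false

namespace Pool.Agent.Y696

open NumberField IsDedekindDomain IsLocalRing Filter Topology Complex
open Pool.Agent.W192.HK Pool.Agent.TH936.CM Pool.Agent.TH936.PU
open Pool.Agent.W189.NF (aV eV redMap Ov card_res finite_res)
open scoped Pointwise

section one
variable {K : Type} [Field K] [NumberField K] {Γ : Type*} [LinearOrderedCommGroupWithZero Γ]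

/-- the local factor at a prime modulo which two is not a cube is a unit at one -/
lemma v_EVN {w : HeightOneSpectrum (𝓞 K)} (h3 : (3 : 𝓞 K) ∉ w.asIdeal)
    (hc : ∀ x : 𝓞 K, x ^ 3 - 2 ∉ w.asIdeal) {v : Valuation ℂ Γ} (hv : v 2 < 1) :
    v (EV w 1) = 1 := by
  classical
  have hfin := finite_res w
  let _ : Fintype (ResidueField (Ov w)) := Fintype.ofFinite _
  obtain ⟨h1, h2⟩ := aV_good w h3
  have hnc : ∀ x : ResidueField (Ov w), x ^ 3 ≠ 2 := by
    intro x hx
    obtain ⟨y, rfl⟩ := Pool.Agent.W189.NF.redMap_surjective w x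
    apply hc y
    rw [← Pool.Agent.W189.NF.redMap_eq_zero w, map_sub, map_pow, hx, map_ofNat, sub_self]
  have he : Even (Nat.card (Aff (ResidueField (Ov w)))) := Pool.Agent.Y688.NP_even hnc
  have h20 : (2 : ResidueField (Ov w)) ≠ 0 := by
    intro h0
    apply hnc 0
    rw [h0]
    norm_num
  have hodd : ¬ (2 : ℤ) ∣ (nK w : ℤ) := by
    have h4 : (Fintype.card (ResidueField (Ov w))) % 2 = 1 :=
      FiniteField.odd_card_of_char_ne_two (by
        intro h5
        apply h20
        have := ringChar.Nat.cast_ringChar (R := ResidueField (Ov w))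
        rw [h5] at this
        exact_mod_cast this)
    have h5 : nK w = Fintype.card (ResidueField (Ov w)) := by
      rw [← Nat.card_eq_fintype_card]
      exact (card_res w).symm
    rw [h5]
    omega
  have hq : (nK w : ℂ) ≠ 0 := by
    have := Pool.Agent.H921R2.TatePole.two_le_nm w
    have h : nK w ≠ 0 := by unfold nK; omega
    exact_mod_cast h
  have e : EV w 1 = (((Nat.card (Aff (ResidueField (Ov w))) : ℤ) + 1 : ℤ) : ℂ) /
      ((nK w : ℤ) : ℂ) := by
    unfold EV
    rw [h1, h2, Complex.cpow_neg_one]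
    push_cast
    field_simp
    ring
  have ho : ¬ (2 : ℤ) ∣ ((Nat.card (Aff (ResidueField (Ov w))) : ℤ) + 1 : ℤ) := by
    obtain ⟨k, hk⟩ := he
    rw [hk]
    push_cast
    omega
  rw [e, map_div₀, v_oddZ hv ho, v_oddZ hv hodd, div_one]

end one

section up
variable {N K : Type} [Field N] [NumberField N] [Field K] [NumberField K] [Algebra N K]

/-- two does not become a cube in extensions of degree prime to three -/
lemma noncube_up [IsGalois N K] {n : ℕ} (hn : Module.finrank N K = 2 ^ n)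
    {P : HeightOneSpectrum (𝓞 N)}
    {w : HeightOneSpectrum (𝓞 K)} (hw : und w = P) (hc : ∀ x : 𝓞 N, x ^ 3 - 2 ∉ P.asIdeal)
    (x : 𝓞 K) : x ^ 3 - 2 ∉ w.asIdeal := by
  classical
  intro hx
  have hpmax : P.asIdeal.IsMaximal := P.isPrime.isMaximal P.ne_bot
  have hvmax : w.asIdeal.IsMaximal := w.isPrime.isMaximal w.ne_bot
  have hover : w.asIdeal.LiesOver P.asIdeal := ⟨by rw [← hw]; rfl⟩
  have hfv : Finite (𝓞 K ⧸ w.asIdeal) := Ideal.finiteQuotientOfFreeOfNeBot w.asIdeal w.ne_bot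
  have hfp : Finite (𝓞 N ⧸ P.asIdeal) := Ideal.finiteQuotientOfFreeOfNeBot P.asIdeal P.ne_bot
  let _ : Field (𝓞 N ⧸ P.asIdeal) := Ideal.Quotient.field _
  let _ : Field (𝓞 K ⧸ w.asIdeal) := Ideal.Quotient.field _
  have hdeg : Module.finrank (𝓞 N ⧸ P.asIdeal) (𝓞 K ⧸ w.asIdeal) ∣ 2 ^ n := by
    have h1 := Ideal.Quotient.stabilizerHom_surjective Gal(K/N) P.asIdeal w.asIdeal
    have h2 : Nat.card ((𝓞 K ⧸ w.asIdeal) ≃ₐ[𝓞 N ⧸ P.asIdeal] (𝓞 K ⧸ w.asIdeal)) ∣
        Nat.card (MulAction.stabilizer Gal(K/N) w.asIdeal) := Subgroup.card_dvd_of_surjective _ h1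
    have h3 : Nat.card (MulAction.stabilizer Gal(K/N) w.asIdeal) ∣ Nat.card Gal(K/N) :=
      Subgroup.card_subgroup_dvd_card _
    have h4 := IsGalois.card_aut_eq_finrank (𝓞 N ⧸ P.asIdeal) (𝓞 K ⧸ w.asIdeal)
    rw [h4] at h2
    rw [← hn, ← IsGalois.card_aut_eq_finrank N K]
    exact h2.trans h3
  set y : 𝓞 K ⧸ w.asIdeal := Ideal.Quotient.mk _ x with hy
  have hy3 : y ^ 3 = 2 := by
    have := Ideal.Quotient.eq_zero_iff_mem.2 hx
    rw [map_sub, map_pow, map_ofNat] at this
    exact sub_eq_zero.1 this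
  set f : Polynomial (𝓞 N ⧸ P.asIdeal) := Polynomial.X ^ 3 - Polynomial.C 2 with hf
  have hmon : f.Monic := Polynomial.monic_X_pow_sub_C _ (by norm_num)
  have hfd : f.natDegree = 3 := Polynomial.natDegree_X_pow_sub_C
  have hirr : Irreducible f := by
    rw [Polynomial.irreducible_iff_roots_eq_zero_of_degree_le_three (by rw [hfd]; norm_num)
      (by rw [hfd]), Multiset.eq_zero_iff_forall_notMem]
    intro a ha
    have ha' := Polynomial.isRoot_of_mem_roots ha
    rw [Polynomial.IsRoot.def, hf, Polynomial.eval_sub, Polynomial.eval_pow, Polynomial.eval_X,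
      Polynomial.eval_C] at ha'
    obtain ⟨b, rfl⟩ := Ideal.Quotient.mk_surjective a
    apply hc b
    rw [← Ideal.Quotient.eq_zero_iff_mem, map_sub, map_pow, map_ofNat]
    exact ha'
  have hmin : minpoly (𝓞 N ⧸ P.asIdeal) y = f := by
    refine (minpoly.eq_of_irreducible_of_monic hirr ?_ hmon).symm
    rw [hf, map_sub, map_pow, Polynomial.aeval_X, Polynomial.aeval_C, map_ofNat, hy3, sub_self]
  have h3 : 3 ∣ Module.finrank (𝓞 N ⧸ P.asIdeal) (𝓞 K ⧸ w.asIdeal) := by
    have hyi : IsIntegral (𝓞 N ⧸ P.asIdeal) y := Algebra.IsIntegral.isIntegral y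
    have h5 := minpoly.degree_dvd hyi
    rw [hmin, hfd] at h5
    exact h5
  have h4 := h3.trans hdeg
  have := (Nat.Prime.dvd_of_dvd_pow Nat.prime_three h4)
  omega

end up

end Pool.Agent.Y696
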