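import Mathlib
import Pool.Agent.Y696.Nd

/-!
# The Euler product over the base field
-/

set_option autoImplicit false

namespace Pool.Agent.Y696

open NumberField IsDedekindDomain IsLocalRing Filter Topology Complex
open Pool.Agent.W192.HK Pool.Agent.TH936.CM Pool.Agent.TH936.PU
open Pool.Agent.W189.NF (aV eV redMap Ov card_res finite_res)

section hasse
variable {K : Type} [Field K] [NumberField K]

/-- the bound of Hasse -/
lemma hasseN (ι : eis →+* 𝓞 K) (h3 : ∀ v : HeightOneSpectrum (𝓞 K), (3 : 𝓞 K) ∈ v.asIdeal →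
    v.valuation K 3 = WithZero.exp (-2 : ℤ)) (v : HeightOneSpectrum (𝓞 K)) :
    HBd (aV (E0 K) v) (eV (E0 K) v) (Pool.Agent.H921R2.TatePole.nm v) := by
  by_cases h : (3 : 𝓞 K) ∈ v.asIdeal
  · exact Or.inl (aV_bad (Or.inr (h3 v h)))
  · obtain ⟨f, -, hf⟩ := deg_base ι v
    obtain ⟨h1, h2, h4⟩ := aV_val (ι := ι) v (by rw [map_ofNat]; exact h) hf
    refine Or.inr ⟨psi (bel ι v).asIdeal ^ f, ?_, ?_, ?_⟩
    · rw [h1, map_pow]
    · rw [h2, map_pow, ← mul_pow, h4, hf]
      push_cast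
      rfl
    · rw [map_pow, ← mul_pow, h4]
      change _ = ((nK v : ℕ) : ℂ)
      rw [hf]
      push_cast
      rfl

end hasse

section chr
variable {N K : Type} [Field N] [NumberField N] [Field K] [NumberField K] [Algebra N K]
variable {G : Type} [CommGroup G] [Finite G] [MulSemiringAction G (𝓞 K)] {c : 𝓞 N}
  {art : (𝓞 N ⧸ Ideal.span {c})ˣ →* G}

/-- the character modulo `c` attached to a character of the group -/
noncomputable def xN (art : (𝓞 N ⧸ Ideal.span {c})ˣ →* G) (χ : MulChar G ℂ) (α : 𝓞 N) : ℂ :=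
  (MulChar.ofUnitHom (χ.toUnitHom.comp (toUnits.toMonoidHom.comp art)) :
    MulChar (𝓞 N ⧸ Ideal.span {c}) ℂ) (Ideal.Quotient.mk _ α)

omit [NumberField N] [Finite G] in
lemma xN_unit (χ : MulChar G ℂ) {α : 𝓞 N} {u : (𝓞 N ⧸ Ideal.span {c})ˣ}
    (hu : (u : 𝓞 N ⧸ Ideal.span {c}) = Ideal.Quotient.mk _ α) : xN art χ α = χ (art u) := by
  unfold xN
  rw [← hu, MulChar.ofUnitHom_coe]
  rfl

omit [NumberField N] in
lemma unitN_iff (a : 𝓞 N) : IsUnit (Ideal.Quotient.mk (Ideal.span {c}) a) ↔ IsCoprime a c := by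
  constructor
  · intro h
    obtain ⟨b, hb⟩ := h.exists_right_inv
    obtain ⟨b, rfl⟩ := Ideal.Quotient.mk_surjective b
    rw [← map_mul, ← map_one (Ideal.Quotient.mk (Ideal.span {c})),
      Ideal.Quotient.mk_eq_mk_iff_sub_mem, Ideal.mem_span_singleton'] at hb
    obtain ⟨t, ht⟩ := hb
    exact ⟨b, -t, by linear_combination -ht⟩
  · rintro ⟨x, y, h⟩
    have h1 := congrArg (Ideal.Quotient.mk (Ideal.span {c})) h
    rw [map_add, map_mul, map_mul, map_one, Ideal.Quotient.eq_zero_iff_mem.2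
      (Ideal.mem_span_singleton_self c), mul_zero, add_zero] at h1
    exact IsUnit.of_mul_eq_one _ (by rw [mul_comm]; exact h1)

omit [NumberField N] [Finite G] in
lemma xN_zero (χ : MulChar G ℂ) {α : 𝓞 N} (h : ¬ IsCoprime α c) : xN art χ α = 0 := by
  unfold xN
  exact MulChar.map_nonunit _ (fun h' => h ((unitN_iff α).1 h'))

omit [Finite G] in
/-- the Artin map is trivial on the units -/
lemma artN_unit (D : DatN (N := N) (K := K) G c art) {π : 𝓞 N} (hπ : Prime π)
    (hπc : IsCoprime π c) {w : 𝓞 N} (hw : IsUnit w) {u : (𝓞 N ⧸ Ideal.span {c})ˣ}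
    (hu : (u : 𝓞 N ⧸ Ideal.span {c}) = Ideal.Quotient.mk _ w) : art u = 1 := by
  have hPp : (Ideal.span {π} : Ideal (𝓞 N)).IsPrime :=
    (Ideal.span_singleton_prime hπ.ne_zero).2 hπ
  set P : HeightOneSpectrum (𝓞 N) := ⟨Ideal.span {π}, hPp, by
    rw [Ne, Ideal.span_singleton_eq_bot]; exact hπ.ne_zero⟩ with hP
  obtain ⟨v, hlo⟩ := exists_above (F := N) (K := K) P
  have hv : und v = P := HeightOneSpectrum.ext hlo.over.symm
  have h2v : algebraMap (𝓞 N) (𝓞 K) π ∈ v.asIdeal := (und_iff (P := P) rfl).1 hv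
  have hcv : algebraMap (𝓞 N) (𝓞 K) c ∉ v.asIdeal := by
    intro h
    obtain ⟨a, b, hab⟩ := hπc
    apply v.isPrime.ne_top
    rw [Ideal.eq_top_iff_one, ← map_one (algebraMap (𝓞 N) (𝓞 K)), ← hab, map_add, map_mul, map_mul]
    exact v.asIdeal.add_mem (v.asIdeal.mul_mem_left _ h2v) (v.asIdeal.mul_mem_left _ h)
  obtain ⟨u2, hu2⟩ := (unitN_iff (c := c) π).2 hπc
  have hw2 : Prime (w * π) := by
    rw [← Ideal.span_singleton_prime (mul_ne_zero hw.ne_zero hπ.ne_zero),
      Ideal.span_singleton_mul_left_unit hw]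
    exact hPp
  have h1 := D.frob π hπ u2 hu2 v h2v
  have h2 := D.frob (w * π) hw2 (u * u2) (by
    rw [Units.val_mul, hu, hu2, map_mul]) v (by
    rw [map_mul]
    exact v.asIdeal.mul_mem_left _ h2v)
  rw [Ideal.span_singleton_mul_left_unit hw π] at h2
  apply D.unr v hcv
  intro x
  have h4 := v.asIdeal.sub_mem (h2 ((art u2)⁻¹ • x)) (h1 ((art u2)⁻¹ • x))
  rw [sub_sub_sub_cancel_right, map_mul, mul_smul, smul_inv_smul] at h4
  exact h4

omit [Finite G] in
lemma xN_RC (D : DatN (N := N) (K := K) G c art) {n : ℕ} (hn : Nat.card G = 2 ^ n)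
    (hex : ∃ π : 𝓞 N, Prime π ∧ IsCoprime π c) (χ : MulChar G ℂ) :
    Pool.Agent.Y688.RC c (xN art χ) where
  mul α β := by
    unfold xN
    rw [map_mul, map_mul]
  unit w := by
    obtain ⟨π, hπ, hπc⟩ := hex
    have h1 : IsCoprime (w : 𝓞 N) c := ⟨(w⁻¹ : (𝓞 N)ˣ), 0, by rw [Units.inv_mul, zero_mul, add_zero]⟩
    obtain ⟨u, hu⟩ := (unitN_iff (c := c) (w : 𝓞 N)).2 h1
    rw [xN_unit χ hu, artN_unit D hπ hπc w.isUnit hu, map_one]
  cong α β h := by
    unfold xN
    rw [Ideal.Quotient.mk_eq_mk_iff_sub_mem α β |>.2 (Ideal.mem_span_singleton.2 h)]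
  zero α h := xN_zero χ h
  pow α h := by
    refine ⟨n, ?_⟩
    obtain ⟨u, hu⟩ := (unitN_iff (c := c) α).2 h
    rw [xN_unit χ hu, ← map_pow, ← hn, pow_card_eq_one', map_one]

/-- the primes dividing `c` -/
noncomputable def ScN {c : 𝓞 N} (hc : c ≠ 0) : Finset (HeightOneSpectrum (𝓞 N)) :=
  Set.Finite.toFinset (s := {P : HeightOneSpectrum (𝓞 N) | c ∈ P.asIdeal}) (by
    have h1 : (Ideal.span {c} : Ideal (𝓞 N)) ≠ ⊥ := by rwa [Ne, Ideal.span_singleton_eq_bot]
    refine (Ideal.finite_factors h1).subset fun P hP => ?_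
    have h2 : c ∈ P.asIdeal := hP
    show P.asIdeal ∣ Ideal.span {c}
    rw [Ideal.dvd_span_singleton]
    exact h2)

lemma mem_ScN {c : 𝓞 N} (hc : c ≠ 0) {P : HeightOneSpectrum (𝓞 N)} :
    P ∈ ScN hc ↔ c ∈ P.asIdeal := by
  unfold ScN
  rw [Set.Finite.mem_toFinset]
  rfl

/-- the local factor of the twisted L-function over the base field -/
noncomputable def ZZ' (x : 𝓞 N → ℂ) (π : HeightOneSpectrum (𝓞 N) → 𝓞 N)
    (P : HeightOneSpectrum (𝓞 N)) (s : ℂ) : ℂ := by
  classical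
  exact if (3 : 𝓞 N) ∈ P.asIdeal then 1 else YY P (x (π P)) s

/-- the factorization of the L-function -/
theorem LK_eqN (ι : eis →+* 𝓞 N) (D : DatN (N := N) (K := K) G c art) [Fintype (MulChar G ℂ)]
    (h3K : ∀ v : HeightOneSpectrum (𝓞 K), (3 : 𝓞 K) ∈ v.asIdeal →
      v.valuation K 3 = WithZero.exp (-2 : ℤ))
    {π : HeightOneSpectrum (𝓞 N) → 𝓞 N} (hπ : ∀ P, Ideal.span {π P} = P.asIdeal)
    {Λ : MulChar G ℂ → ℂ → ℂ} {s : ℂ} (hs : 3 / 2 < s.re)
    (hΛ : ∀ χ : MulChar G ℂ, HasProd (fun P => ZZ' (xN art χ) π P s) (Λ χ s)) :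
    LSeriesSummable ((fun n : ℤ => (n : ℂ)) ∘ (E0 K).LFunction) s ∧
    (E0 K).LSeries s = (∏ P ∈ ScN D.c_ne, ∏ v : {v : HeightOneSpectrum (𝓞 K) // und v = P},
      XX v.1 s) * ∏ χ, Λ χ s := by
  classical
  have h1 := LSeries_hasProd' (E0 K) (hasseN ((algebraMap (𝓞 N) (𝓞 K)).comp ι) h3K) hs
  refine ⟨h1.1, ?_⟩
  have h2 : HasProd (fun v : HeightOneSpectrum (𝓞 K) => XX v s) ((E0 K).LSeries s) := h1.2
  have h3 := (Equiv.sigmaFiberEquiv (und (F := N) (K := K))).hasProd_iff.2 h2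
  have h4 : HasProd (fun P : HeightOneSpectrum (𝓞 N) =>
      ∏ v : {v : HeightOneSpectrum (𝓞 K) // und v = P}, XX v.1 s) ((E0 K).LSeries s) := by
    refine h3.sigma fun P => ?_
    exact hasProd_fintype _ (.unconditional _)
  have h5 : HasProd (fun P : HeightOneSpectrum (𝓞 N) => if P ∈ ScN D.c_ne then
      ∏ v : {v : HeightOneSpectrum (𝓞 K) // und v = P}, XX v.1 s else 1)
      (∏ P ∈ ScN D.c_ne, ∏ v : {v : HeightOneSpectrum (𝓞 K) // und v = P}, XX v.1 s) := by
    have h6 := hasProd_prod_of_ne_finset_one (L := .unconditional _) (s := ScN D.c_ne)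
      (f := fun P : HeightOneSpectrum (𝓞 N) => if P ∈ ScN D.c_ne then
        ∏ v : {v : HeightOneSpectrum (𝓞 K) // und v = P}, XX v.1 s else 1)
      (fun P hP => if_neg hP)
    rw [Finset.prod_congr rfl (fun P hP => if_pos hP)] at h6
    exact h6
  have h6 := h5.mul (hasProd_prod (s := (Finset.univ : Finset (MulChar G ℂ)))
    (fun χ _ => hΛ χ))
  refine h4.unique (h6.congr_fun fun P => ?_)
  by_cases hP : P ∈ ScN D.c_ne
  · rw [if_pos hP]
    have h7 : ∀ χ : MulChar G ℂ, ZZ' (xN art χ) π P s = 1 := by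
      intro χ
      unfold ZZ'
      split_ifs with h8
      · rfl
      · have h9 : xN art χ (π P) = 0 := by
          apply xN_zero
          rintro ⟨a, b, hab⟩
          apply P.isPrime.ne_top
          rw [Ideal.eq_top_iff_one, ← hab]
          refine P.asIdeal.add_mem (P.asIdeal.mul_mem_left _ ?_)
            (P.asIdeal.mul_mem_left _ ((mem_ScN D.c_ne).1 hP))
          rw [← hπ P]
          exact Ideal.mem_span_singleton_self _
        rw [h9]
        unfold YY
        simp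
    rw [Finset.prod_congr rfl fun χ _ => h7 χ, Finset.prod_const_one, mul_one]
  · rw [if_neg hP, one_mul]
    have hPc : c ∉ P.asIdeal := fun h => hP ((mem_ScN D.c_ne).2 h)
    by_cases h3P : (3 : 𝓞 N) ∈ P.asIdeal
    · have h7 : ∀ χ : MulChar G ℂ, ZZ' (xN art χ) π P s = 1 := by
        intro χ
        unfold ZZ'
        rw [if_pos h3P]
      rw [Finset.prod_congr rfl fun χ _ => h7 χ, Finset.prod_const_one]
      refine Finset.prod_eq_one fun v _ => ?_
      have h8 : (3 : 𝓞 K) ∈ v.1.asIdeal := by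
        have := v.2
        rw [← map_ofNat (algebraMap (𝓞 N) (𝓞 K)) 3, ← mem_und, this]
        exact h3P
      obtain ⟨h9, h10⟩ := aV_bad (Or.inr (h3K v.1 h8))
      unfold XX
      rw [h9, h10]
      simp
    · have hcop : IsCoprime (π P) c := by
        have hmax : P.asIdeal.IsMaximal := P.isPrime.isMaximal P.ne_bot
        rw [← Ideal.isCoprime_span_singleton_iff, hπ, Ideal.isCoprime_iff_sup_eq]
        refine hmax.out.2 _ ?_
        refine lt_of_le_of_ne le_sup_left fun he => hPc ?_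
        rw [he]
        exact Ideal.mem_sup_right (Ideal.mem_span_singleton_self c)
      obtain ⟨u, hu⟩ := (unitN_iff (c := c) (π P)).2 hcop
      rw [fib_goodN ι D hPc h3P (hπ P) hu (by linarith)]
      refine Finset.prod_congr rfl fun χ _ => ?_
      unfold ZZ'
      rw [if_neg h3P, xN_unit χ hu]

end chr

end Pool.Agent.Y696
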