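import Mathlib

/-!
# Definitions for the statements on `y² + y = x³` over number fields
-/

set_option autoImplicit false

namespace Pool.Agent.Y696

open NumberField IsDedekindDomain WithZero

/-- the Weierstrass curve `y² + y = x³` -/
def E27 (R : Type) [CommRing R] : WeierstrassCurve R := ⟨0, 0, 1, 0, 0⟩

/-- `art` is the Artin map of the extension `K / F`, of modulus `c`: it maps onto the Galois group,
the extension is unramified at the primes of `K` that do not divide `c`, and the class of a prime
element `π` of `F` is mapped to a Frobenius automorphism at every prime of `K` above `π` -/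
structure IsArtin {F K : Type} [Field F] [NumberField F] [Field K] [NumberField K] [Algebra F K]
    (c : 𝓞 F) (art : (𝓞 F ⧸ Ideal.span {c})ˣ →* Gal(K/F)) : Prop where
  surj : Function.Surjective art
  unr : ∀ v : HeightOneSpectrum (𝓞 K), algebraMap (𝓞 F) (𝓞 K) c ∉ v.asIdeal →
    Algebra.IsUnramifiedAt (𝓞 F) v.asIdeal
  frob : ∀ π : 𝓞 F, Prime π → ∀ u : (𝓞 F ⧸ Ideal.span {c})ˣ,
    (u : 𝓞 F ⧸ Ideal.span {c}) = Ideal.Quotient.mk _ π →
    ∀ v : HeightOneSpectrum (𝓞 K), algebraMap (𝓞 F) (𝓞 K) π ∈ v.asIdeal →
      ∀ x : 𝓞 K, art u • x - x ^ Nat.card (𝓞 F ⧸ Ideal.span {π}) ∈ v.asIdeal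

/-- the point has nonsingular reduction with respect to the valuation `v` of the field `L`: it is
the point at infinity, or one of the two partial derivatives of the equation at the point is not in
the maximal ideal of the valuation ring (for an equation with integral coefficients) -/
def NonsingRed {L : Type} [Field L] (v : Valuation L ℤᵐ⁰) (W : WeierstrassCurve L) :
    W.toAffine.Point → Prop
  | .zero => True
  | .some x y _ => 1 ≤ v (2 * y + W.a₁ * x + W.a₃) ∨
      1 ≤ v (3 * x ^ 2 + 2 * W.a₂ * x + W.a₄ - W.a₁ * y)

end Pool.Agent.Y696
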