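import Mathlib
import Pool.Agent.Y696.Cov
import Pool.Agent.Y141.Art.Main

/-!
# The cyclotomic family
-/

set_option autoImplicit false

namespace Pool.Agent.Y696

open NumberField IsDedekindDomain

/-- two is not a cube modulo any prime that divides `m` -/
def Nc (m : ℕ) : Prop := ∀ q : ℕ, q.Prime → q ∣ m → ∀ x : ZMod q, x ^ 3 ≠ 2

lemma Nc.mod {m : ℕ} (h : Nc m) {q : ℕ} (hq : q.Prime) (hqm : q ∣ m) : q % 3 = 1 := by
  have : Fact q.Prime := ⟨hq⟩
  by_contra h1
  have h2 : q % 3 = 0 ∨ q % 3 = 2 := by omega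
  rcases h2 with h2 | h2
  · have h3 : q = 3 := ((Nat.prime_dvd_prime_iff_eq Nat.prime_three hq).1
      (Nat.dvd_of_mod_eq_zero h2)).symm
    subst h3
    exact h 3 hq hqm 2 rfl
  · refine h q hq hqm (2 ^ (2 * (q / 3) + 1)) ?_
    have h3 : (2 * (q / 3) + 1) * 3 = q + (q - 1) := by omega
    rw [← pow_mul, h3, pow_add, ZMod.pow_card, ← pow_succ', Nat.sub_add_cancel hq.one_le,
      ZMod.pow_card]

lemma Nc.coprime {m : ℕ} (h : Nc m) : Nat.Coprime m 2 ∧ Nat.Coprime m 3 := by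
  constructor
  · rw [Nat.coprime_comm, Nat.Prime.coprime_iff_not_dvd Nat.prime_two]
    intro h2
    have := h.mod Nat.prime_two h2
    omega
  · rw [Nat.coprime_comm, Nat.Prime.coprime_iff_not_dvd Nat.prime_three]
    intro h2
    have := h.mod Nat.prime_three h2
    omega

lemma exists_root {q : ℕ} (hq : q.Prime) (h1 : q % 3 = 1) :
    ∃ a : ZMod q, a ^ 2 + a + 1 = 0 := by
  have : Fact q.Prime := ⟨hq⟩
  have : Fact (Nat.Prime 3) := ⟨Nat.prime_three⟩
  obtain ⟨u, hu⟩ := exists_prime_orderOf_dvd_card (G := (ZMod q)ˣ) 3 (by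
    rw [ZMod.card_units]
    omega)
  refine ⟨(u : ZMod q), ?_⟩
  have h3 : (u : ZMod q) ^ 3 = 1 := by
    have := pow_orderOf_eq_one u
    rw [hu] at this
    have h6 := congrArg Units.val this
    rwa [Units.val_pow_eq_pow_val, Units.val_one] at h6
  have h4 : (u : ZMod q) ≠ 1 := by
    intro h
    have : u = 1 := Units.ext h
    rw [this, orderOf_one] at hu
    norm_num at hu
  have h5 : ((u : ZMod q) - 1) * ((u : ZMod q) ^ 2 + (u : ZMod q) + 1) = 0 := by
    linear_combination h3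
  exact (mul_eq_zero.1 h5).resolve_left (sub_ne_zero.2 h4)

section
variable {F : Type} [Field F] [NumberField F] [IsCyclotomicExtension {3} ℚ F]

lemma Nc.cube {m : ℕ} (h : Nc m) (v₀ : HeightOneSpectrum (𝓞 F)) (hm : (m : 𝓞 F) ∈ v₀.asIdeal)
    (x : 𝓞 F) : x ^ 3 - 2 ∉ v₀.asIdeal := by
  intro hx
  have hm0 : m ≠ 0 := by
    rintro rfl
    exact h 2 Nat.prime_two (dvd_zero _) 0 (by decide)
  -- a prime divisor in the ideal
  obtain ⟨q, hq, hqm, hqv⟩ : ∃ q : ℕ, q.Prime ∧ q ∣ m ∧ (q : 𝓞 F) ∈ v₀.asIdeal := by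
    clear h hx
    induction m using Nat.recOnMul with
    | zero => exact absurd rfl hm0
    | one =>
      exfalso
      apply v₀.isPrime.ne_top
      rw [Ideal.eq_top_iff_one]
      simpa using hm
    | prime p hp => exact ⟨p, hp, dvd_rfl, hm⟩
    | mul a b iha ihb =>
      rw [Nat.cast_mul] at hm
      rcases v₀.isPrime.mem_or_mem hm with h1 | h1
      · obtain ⟨q, h2, h3, h4⟩ := iha h1 (fun h => hm0 (by rw [h, zero_mul]))
        exact ⟨q, h2, h3.mul_right b, h4⟩
      · obtain ⟨q, h2, h3, h4⟩ := ihb h1 (fun h => hm0 (by rw [h, mul_zero]))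
        exact ⟨q, h2, h3.mul_left a, h4⟩
  have : Fact q.Prime := ⟨hq⟩
  have hchar : CharP (𝓞 F ⧸ v₀.asIdeal) q := by
    have : Nontrivial (𝓞 F ⧸ v₀.asIdeal) := Ideal.Quotient.nontrivial_iff.2 v₀.isPrime.ne_top
    refine (CharP.charP_iff_prime_eq_zero hq).2 ?_
    rw [← map_natCast (Ideal.Quotient.mk v₀.asIdeal), Ideal.Quotient.eq_zero_iff_mem]
    exact hqv
  let φ : ZMod q →+* 𝓞 F ⧸ v₀.asIdeal := ZMod.castHom dvd_rfl _
  obtain ⟨ζ, hζ⟩ := IsCyclotomicExtension.exists_isPrimitiveRoot ℚ F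
    (Set.mem_singleton 3) (by norm_num)
  have h2 : hζ.toInteger ^ 2 + hζ.toInteger + 1 = 0 := by
    have h3 : hζ.toInteger ^ 3 = 1 := hζ.toInteger_isPrimitiveRoot.pow_eq_one
    have h4 : hζ.toInteger ≠ 1 := hζ.toInteger_isPrimitiveRoot.ne_one (by norm_num)
    have h5 : (hζ.toInteger - 1) * (hζ.toInteger ^ 2 + hζ.toInteger + 1) = 0 := by
      linear_combination h3
    exact (mul_eq_zero.1 h5).resolve_left (sub_ne_zero.2 h4)
  have h2' := congrArg (Ideal.Quotient.mk v₀.asIdeal) h2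
  rw [map_add, map_add, map_pow, map_one, map_zero] at h2'
  set z := Ideal.Quotient.mk v₀.asIdeal hζ.toInteger with hz
  obtain ⟨a, ha⟩ := exists_root hq (h.mod hq hqm)
  have ha' := congrArg φ ha
  rw [map_add, map_add, map_pow, map_one, map_zero] at ha'
  have hzr : ∃ b : ZMod q, φ b = z := by
    have h6 : (z - φ a) * (z + 1 + φ a) = 0 := by linear_combination h2' - ha'
    rcases mul_eq_zero.1 h6 with h7 | h7
    · exact ⟨a, (sub_eq_zero.1 h7).symm⟩
    · exact ⟨-1 - a, by rw [map_sub, map_neg, map_one]; linear_combination -h7⟩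
  obtain ⟨b, hb⟩ := hzr
  obtain ⟨x₀, x₁, hx'⟩ := int_rep hζ x
  have h8 : Ideal.Quotient.mk v₀.asIdeal x = φ (x₀ + x₁ * b) := by
    rw [hx', map_add, map_mul, map_add, map_mul, hb, map_intCast, map_intCast, map_intCast,
      map_intCast]
  have h9 : φ ((x₀ + x₁ * b) ^ 3) = φ 2 := by
    rw [map_pow, ← h8, map_ofNat, ← map_pow]
    have := (Ideal.Quotient.eq_zero_iff_mem).2 hx
    rw [map_sub, map_ofNat] at this
    exact sub_eq_zero.1 this
  exact h q hq hqm _ (φ.injective h9)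

variable {K L : Type} [Field K] [NumberField K] [Algebra F K] [IsGalois F K] [Field L]
  [NumberField L] [Algebra K L] [Algebra F L] [IsScalarTower F K L]

/-- the Artin map of a subfield of the field of `m`-th roots of unity -/
lemma art_cyc {m : ℕ} [NeZero m] [IsCyclotomicExtension {m} F L] (h : Nc m) :
    ∃ art : (𝓞 F ⧸ Ideal.span {(m : 𝓞 F)})ˣ →* Gal(K/F), Art (m : 𝓞 F) art := by
  obtain ⟨art, h1, h2, h3⟩ := Pool.Agent.Y141.Art.artin_cyc (F := F) (K := K) (L := L) m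
    (fun q hq hqm => h.mod hq hqm)
  refine ⟨art, h1, fun v hv => h2 v ?_, h3⟩
  rw [map_natCast] at hv
  exact hv

end

end Pool.Agent.Y696
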