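import Mathlib
import Pool.Agent.Y696.Stm
import Pool.Agent.Y696.Cyc
import Pool.Agent.Y696.Tam
import Pool.Agent.Y696.Trs

/-!
# The assembled statements
-/

set_option autoImplicit false

namespace Pool.Agent.Y696

open NumberField IsDedekindDomain WithZero WeierstrassCurve
open scoped Classical

section
variable {F K : Type} [Field F] [NumberField F] [IsCyclotomicExtension {3} ℚ F] [Field K]
  [NumberField K] [Algebra F K]

omit [NumberField F] [NumberField K] [Algebra F K] [Field K] [IsCyclotomicExtension {3} ℚ F] in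
lemma cop_of {c k : 𝓞 F} {a : 𝓞 F} (ha : a ^ 3 - 2 = k)
    (hk0 : k ≠ 0)
    (hc : ∀ v₀ : HeightOneSpectrum (𝓞 F), c ∈ v₀.asIdeal → ∀ x : 𝓞 F, x ^ 3 - 2 ∉ v₀.asIdeal) :
    IsCoprime c k := by
  by_contra h
  rw [← Ideal.isCoprime_span_singleton_iff, Ideal.isCoprime_iff_sup_eq] at h
  obtain ⟨M, hM, hle⟩ := Ideal.exists_le_maximal _ h
  have h1 : c ∈ M := hle ((le_sup_left : _ ≤ Ideal.span {c} ⊔ Ideal.span {k})
    (Ideal.mem_span_singleton_self c))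
  have h2 : k ∈ M := hle ((le_sup_right : _ ≤ Ideal.span {c} ⊔ Ideal.span {k})
    (Ideal.mem_span_singleton_self k))
  refine hc ⟨M, hM.isPrime, ?_⟩ h1 a ?_
  · rintro rfl
    exact hk0 (by simpa using h2)
  · rw [ha]
    exact h2

omit [NumberField K] [Algebra F K] [Field K] [IsCyclotomicExtension {3} ℚ F] in
lemma cube_ne {c : 𝓞 F}
    (hc : ∀ v₀ : HeightOneSpectrum (𝓞 F), c ∈ v₀.asIdeal → ∀ x : 𝓞 F, x ^ 3 - 2 ∉ v₀.asIdeal) :
    c ≠ 0 := by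
  rintro rfl
  have h1 := cop_of (c := (0 : 𝓞 F)) (k := -2) (a := 0) (by ring) (by norm_num) hc
  rw [isCoprime_zero_left] at h1
  have h2 : IsUnit ((2 : ℕ) : 𝓞 F) := by
    have := h1.neg
    rw [neg_neg] at this
    exact_mod_cast this
  have h3 : IsUnit (algebraMap ℤ (𝓞 F) 2) := by
    rw [map_ofNat]
    exact_mod_cast h2
  have h4 : IsUnit (2 : ℤ) := isUnit_of_map_unit (algebraMap ℤ (𝓞 F)) 2 h3
  norm_num [Int.isUnit_iff] at h4

variable [IsGalois F K]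

omit [IsCyclotomicExtension {3} ℚ F] [IsGalois F K] in
lemma art_of {c : 𝓞 F} {art : (𝓞 F ⧸ Ideal.span {c})ˣ →* Gal(K/F)} (h : IsArtin c art) :
    Art c art := ⟨h.surj, h.unr, h.frob⟩

/-- everything for a field with its Artin map -/
theorem all_art {n : ℕ} (hn : Module.finrank F K = 2 ^ n) {c : 𝓞 F}
    {art : (𝓞 F ⧸ Ideal.span {c})ˣ →* Gal(K/F)} (h : IsArtin c art)
    (hc : ∀ v₀ : HeightOneSpectrum (𝓞 F), c ∈ v₀.asIdeal → ∀ x : 𝓞 F, x ^ 3 - 2 ∉ v₀.asIdeal) :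
    (∃ Lf : ℂ → ℂ, MeromorphicOn Lf Set.univ ∧
      (∀ s : ℂ, 3 / 2 < s.re → LSeriesSummable ((fun n : ℤ => (n : ℂ)) ∘ (E27 K).LFunction) s ∧
        Lf s = (E27 K).LSeries s) ∧
      AnalyticAt ℂ Lf 1 ∧ Lf 1 ≠ 0 ∧
      ∀ Λ : PeriodPair, Λ.g₂ = 0 → Λ.g₃ = -1 →
        ∀ (Γ : Type) [LinearOrderedCommGroupWithZero Γ] (v : Valuation ℂ Γ), v 2 < 1 →
          v (Lf 1 * (Real.sqrt |(discr K : ℝ)| : ℝ) /
            ((2 * |((starRingEnd ℂ) Λ.ω₁ * Λ.ω₂).im| : ℝ) : ℂ) ^ 2 ^ n) = 1) ∧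
    Finite (E27 K).toAffine.Point ∧ Odd (Nat.card (E27 K).toAffine.Point) ∧
    (∀ x : Pool.Agent.TH841.NF.D.Sha (E27 K), x + x = 0 → x = 0) ∧
    ∀ v : HeightOneSpectrum (𝓞 K),
      WeierstrassCurve.IsMinimal (v.adicCompletionIntegers K)
        ((E27 K).baseChange (v.adicCompletion K)) ∧
      ∃ H : AddSubgroup ((E27 K).baseChange (v.adicCompletion K)).toAffine.Point,
        (∀ P, P ∈ H ↔ NonsingRed Valued.v ((E27 K).baseChange (v.adicCompletion K)) P) ∧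
        Odd H.index := by
  have hA := art_of h
  have hun := unr_of_art hA hc
  refine ⟨analytic_K hn hA (cube_ne hc) ?_ ?_ hc, (pts_odd hn hun).1, (pts_odd hn hun).2,
    sha_two hn hun, fun v => ⟨min_all hun v, ?_⟩⟩
  · have := cop_of (c := c) (k := -2) (a := 0) (by ring) (by norm_num) hc
    exact IsCoprime.neg_right_iff _ _ |>.1 this
  · have := cop_of (c := c) (k := -3) (a := -1) (by ring) (by norm_num) hc
    exact IsCoprime.neg_right_iff _ _ |>.1 this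
  · obtain ⟨H, h1, h2⟩ := tam_all hun v
    exact ⟨H, fun P => (h1 P).trans (by cases P <;> rfl), h2⟩

variable {L : Type} [Field L] [NumberField L] [Algebra K L] [Algebra F L] [IsScalarTower F K L]

/-- the Artin map of a subfield of a cyclotomic field -/
theorem art_ex (m : ℕ) [NeZero m] [IsCyclotomicExtension {m} F L]
    (h : ∀ q : ℕ, q.Prime → q ∣ m → ∀ x : ZMod q, x ^ 3 ≠ 2) :
    (∃ art : (𝓞 F ⧸ Ideal.span {(m : 𝓞 F)})ˣ →* Gal(K/F), IsArtin (m : 𝓞 F) art) ∧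
    ∀ v₀ : HeightOneSpectrum (𝓞 F), (m : 𝓞 F) ∈ v₀.asIdeal → ∀ x : 𝓞 F, x ^ 3 - 2 ∉ v₀.asIdeal := by
  obtain ⟨art, ha⟩ := art_cyc (F := F) (K := K) (L := L) (m := m) h
  exact ⟨⟨art, ha.surj, ha.unr, ha.frob⟩, fun v₀ hv x => Nc.cube h v₀ hv x⟩

end

end Pool.Agent.Y696
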